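import Pool.Agent.H57.GP.Wrp

/-!
# H57 GP GPR: the black box for RAW functions (uniform in the places `L`, `Fr`)

* `GpS q K S`: the statement of `gp` for characters of order dividing `q` of subgroups.
* `GPR D Ω q`: for families of homomorphisms `φ i` of finite type, whose images are `p`-groups with at most `b` elements, with `φ i (L.t v) = 1` for
  `v ∉ n i`, and functions `f i` which on the image of `φ i` are `avg f₀`, `f₀` a combination of `b` characters of order dividing `q` of subgroups of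
  the image (`Raw q b f₀`; for a class function `f` one may take `f₀ = f`: `gpr_cls`), the mean value of the sums over the good primes is small.
  NO condition on the exponent of the image.
* `gpr : GPR D QBar p`, and `gpr_of` for general `q` from `GpS q`.
-/

set_option autoImplicit false

open scoped NumberField Pointwise Classical
open IsDedekindDomain H63.MA NumberField H36.QA H57.LI H57.LC H1.LS4 H67.SX H38.ML H57.SL H57.AN
  H38.BB H38.BG H57.PC H77.WD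

noncomputable section

namespace H57.GP

/-- the statement of `gp`, for characters of order dividing `q` -/
def GpS (q : ℕ) (K : IntermediateField ℚ QBar) [NumberField K] (S : Finset (Pl K)) : Prop :=
  ∀ (b C₁ A : ℕ) (ε : ℝ), 0 < ε → ∃ Y₀ : ℝ, ∀ Y : ℝ, Y₀ ≤ Y →
    ∀ (ι : Type) (I : Finset ι) (n : ι → Finset (Pl K)) (x : ι → ℝ),
    (∀ i ∈ I, nr (n i) ≤ Y ^ C₁ ∧ ((n i).card : ℝ) ≤ C₁ * Real.log (Real.log Y)) →
    (∀ i ∈ I, Real.exp (Real.log Y ^ ε) ≤ x i ∧ x i ≤ Y ^ C₁) →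
    (∀ m, ((I.filter fun i => n i = m).card : ℝ) ≤ Real.log Y ^ C₁) →
    ∀ (G : ι → Type) [∀ i, Group (G i)] [∀ i, Fintype (G i)] (φ : ∀ i, Gal(QBar/K) →* G i)
      (f : ∀ i, G i → ℂ), (∀ i ∈ I, Fm q b S (n i) (φ i) (f i)) → ∀ Q : DP K QBar,
    ∑ i ∈ I, (nr (n i))⁻¹ * (x i)⁻¹ *
        ‖sg (x i) (S ∪ n i) (fun w => avg (f i) (φ i (fr Q w)) - mn (φ i) (f i))‖ ≤
      Real.log Y ^ (-(A : ℝ))

/-- the black box for raw functions, uniformly in `L`, `Fr` -/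
def GPR {K : Type} [Field K] [NumberField K] {p : ℕ} {ζ : K} (D : RD0 K p ζ) (Ω : Type) [Field Ω]
    [Algebra K Ω] (q : ℕ) : Prop :=
  ∀ (b C₁ A : ℕ) (ε : ℝ), 0 < ε → ∃ Y₀ : ℝ, ∀ Y : ℝ, Y₀ ≤ Y → ∀ (L : LDs D Ω) (Fr : FR L),
    ∀ (ι : Type) (I : Finset ι) (n : ι → Finset (Pl K)) (x : ι → ℝ),
    (∀ i ∈ I, nr (n i) ≤ Y ^ C₁ ∧ ((n i).card : ℝ) ≤ C₁ * Real.log (Real.log Y)) →
    (∀ i ∈ I, Real.exp (Real.log Y ^ ε) ≤ x i ∧ x i ≤ Y ^ C₁) →
    (∀ m, ((I.filter fun i => n i = m).card : ℝ) ≤ Real.log Y ^ C₁) →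
    ∀ (G : ι → Type) [∀ i, Group (G i)] [∀ i, Fintype (G i)] (φ : ∀ i, Gal(Ω/K) →* G i)
      (f : ∀ i, G i → ℂ),
    (∀ i ∈ I, (Finset.univ.filter fun y : G i => y ∈ (φ i).range).card ≤ b ∧
      IsPGroup p (φ i).range ∧
      (∃ f₀ : (φ i).range → ℂ, Raw q b f₀ ∧ ∀ y : (φ i).range, f i y = avg f₀ y) ∧
      FT (φ i) ∧ ∀ v, v ∉ D.S0 → v ∉ n i → φ i (L.t v) = 1) →
    ∑ i ∈ I, (nr (n i))⁻¹ * (x i)⁻¹ *
        ‖∑ w ∈ (PB K (x i)).filter (fun w => D.Gd w ∧ w ∉ n i),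
          (f i (φ i (Fr.F w)) - mr (φ i) (f i))‖ ≤ Real.log Y ^ (-(A : ℝ))

/-- a class function is its average -/
theorem gpr_cls {Γ G : Type} [Group Γ] [Group G] [Fintype G] (φ : Γ →* G) (f : G → ℂ)
    (h : ∀ y ∈ φ.range, ∀ z ∈ φ.range, f (z * y * z⁻¹) = f y) (y : φ.range) :
    f y = avg (fun z : φ.range => f (z : G)) y := by
  unfold avg
  have h1 : ∀ g : φ.range, f ((g⁻¹ * y * g : φ.range) : G) = f y := by
    intro g
    have h2 := h y.1 y.2 (g⁻¹ : φ.range).1 (g⁻¹ : φ.range).2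
    rw [← h2]
    congr 1
    simp
  rw [Finset.sum_congr rfl fun g _ => h1 g, Finset.sum_const, nsmul_eq_mul, ← mul_assoc,
    Finset.card_univ, inv_mul_cancel₀ (Nat.cast_ne_zero.2 Fintype.card_ne_zero), one_mul]

/-- an average is a class function -/
theorem gpr_avg_conj {G : Type} [Group G] [Fintype G] (f : G → ℂ) (y z : G) :
    avg f (z * y * z⁻¹) = avg f y := by
  unfold avg
  congr 1
  refine Fintype.sum_equiv (Equiv.mulLeft z⁻¹) _ _ fun g => ?_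
  congr 1
  simp only [Equiv.coe_mulLeft]
  group

theorem gpr_raw_bd {G : Type} [Group G] {q b : ℕ} {f : G → ℂ} (h : Raw q b f) (y : G) :
    ‖f y‖ ≤ b * b := by
  obtain ⟨c, H, ψ, hc, -, hf⟩ := h
  rw [hf]
  refine (norm_sum_le _ _).trans ?_
  have h1 : ∀ j ∈ (Finset.univ : Finset (Fin b)), ‖c j * th (H j) (ψ j) y‖ ≤ b := by
    intro j _
    rw [norm_mul]
    have h2 : ‖th (H j) (ψ j) y‖ ≤ 1 := by
      unfold th
      split_ifs with h3
      · unfold ep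
        have e : 2 * (Real.pi : ℂ) * Complex.I * (((ψ j y).val : ℂ) / q) =
            ((2 * Real.pi * ((ψ j y).val / q) : ℝ) : ℂ) * Complex.I := by
          push_cast
          ring
        rw [e, Complex.norm_exp_ofReal_mul_I]
      · rw [norm_zero]
        exact zero_le_one
    calc ‖c j‖ * ‖th (H j) (ψ j) y‖ ≤ b * 1 := mul_le_mul (hc j) h2 (norm_nonneg _) (Nat.cast_nonneg _)
      _ = b := mul_one _
  refine (Finset.sum_le_sum h1).trans ?_
  rw [Finset.sum_const, Finset.card_univ, Fintype.card_fin, nsmul_eq_mul]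

theorem gpr_avg_bd {G : Type} [Group G] [Fintype G] {q b : ℕ} {f : G → ℂ} (h : Raw q b f) (y : G) :
    ‖avg f y‖ ≤ b * b := by
  unfold avg
  rw [norm_mul, norm_inv, Complex.norm_natCast]
  have h3 : 0 < (Fintype.card G : ℝ) := Nat.cast_pos.2 Fintype.card_pos
  rw [inv_mul_le_iff₀ h3]
  refine (norm_sum_le _ _).trans ((Finset.sum_le_sum fun g _ => gpr_raw_bd h _).trans ?_)
  rw [Finset.sum_const, Finset.card_univ, nsmul_eq_mul]

/-- numbers -/
private theorem gpr_num (ε : ℝ) (hε : 0 < ε) (K₁ s : ℝ) (A : ℕ) : ∃ L₀ : ℝ, 3 ≤ L₀ ∧ ∀ L : ℝ, L₀ ≤ L →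
    K₁ * (L ^ s * Real.exp (-(L ^ ε / 2))) ≤ L ^ (-((A : ℝ) + 1)) ∧
      2 * L ^ (-((A : ℝ) + 1)) ≤ L ^ (-(A : ℝ)) := by
  have h1 := tendsto_rpow_mul_exp_neg_mul_atTop_nhds_zero ((s + A + 1) / ε) (1 / 2) (by norm_num)
  have h2 := (h1.const_mul K₁).comp (tendsto_rpow_atTop hε)
  rw [mul_zero] at h2
  have h3 := (h2.eventually_lt_const one_pos).and (Filter.eventually_ge_atTop (3 : ℝ))
  obtain ⟨L₁, hL₁⟩ := Filter.eventually_atTop.1 h3
  refine ⟨max L₁ 3, le_max_right _ _, fun L hL => ?_⟩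
  obtain ⟨h4, h5⟩ := hL₁ L ((le_max_left _ _).trans hL)
  have hL0 : 0 < L := by linarith
  constructor
  · have h6 : K₁ * ((L ^ ε) ^ ((s + A + 1) / ε) * Real.exp (-(1 / 2) * L ^ ε)) < 1 := h4
    have h7 : (L ^ ε) ^ ((s + A + 1) / ε) = L ^ s * L ^ ((A : ℝ) + 1) := by
      rw [← Real.rpow_mul hL0.le, ← Real.rpow_add hL0]
      congr 1
      field_simp
      ring
    have h8 : -(1 / 2) * L ^ ε = -(L ^ ε / 2) := by ring
    rw [h7, h8] at h6
    have h9 : 0 < L ^ (-((A : ℝ) + 1)) := Real.rpow_pos_of_pos hL0 _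
    have h10 : L ^ ((A : ℝ) + 1) * L ^ (-((A : ℝ) + 1)) = 1 := by
      rw [← Real.rpow_add hL0, add_neg_cancel, Real.rpow_zero]
    calc K₁ * (L ^ s * Real.exp (-(L ^ ε / 2))) =
          K₁ * (L ^ s * L ^ ((A : ℝ) + 1) * Real.exp (-(L ^ ε / 2))) * L ^ (-((A : ℝ) + 1)) := by
            linear_combination (-(K₁ * (L ^ s * Real.exp (-(L ^ ε / 2))))) * h10
      _ ≤ 1 * L ^ (-((A : ℝ) + 1)) := mul_le_mul_of_nonneg_right h6.le h9.le
      _ = _ := one_mul _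
  · have c1 : L ^ (-(A : ℝ)) = L * L ^ (-((A : ℝ) + 1)) := by
      nth_rewrite 2 [← Real.rpow_one L]
      rw [← Real.rpow_add hL0]
      congr 1
      ring
    rw [c1]
    exact mul_le_mul_of_nonneg_right (by linarith) (Real.rpow_nonneg hL0.le _)

/-- the sum over the families -/
private theorem gpr_sum {K : IntermediateField ℚ QBar} [NumberField K] {Y : ℝ} (hY : 2 ≤ Y) {C₁ : ℕ}
    {ι : Type} {I : Finset ι} {n : ι → Finset (Pl K)} (hn : ∀ i ∈ I, nr (n i) ≤ Y ^ C₁)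
    (hfib : ∀ m, ((I.filter fun i => n i = m).card : ℝ) ≤ Real.log Y ^ C₁) :
    ∑ i ∈ I, (nr (n i))⁻¹ ≤
      Real.log Y ^ C₁ * ((prK K).C * (((C₁ : ℝ) + 1) * Real.log Y) ^ (prK K).n) := by
  have hnr1 : ∀ s : Finset (Pl K), 1 ≤ nr s := fun s => by
    have h := (prK K).one_le_nn s
    unfold Pr.nn at h
    unfold nr
    simpa only [prK_N] using h
  have hl0 : 0 ≤ Real.log Y := Real.log_nonneg (by linarith)
  have h1 : ∑ i ∈ I, (nr (n i))⁻¹ = ∑ m ∈ I.image n, ∑ i ∈ I.filter (fun i => n i = m), (nr (n i))⁻¹ :=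
    (Finset.sum_fiberwise_of_maps_to (fun i hi => Finset.mem_image_of_mem n hi) _).symm
  rw [h1]
  have h2 : ∀ m ∈ I.image n, ∑ i ∈ I.filter (fun i => n i = m), (nr (n i))⁻¹ ≤
      Real.log Y ^ C₁ * (1 / ∏ v ∈ m, ((prK K).N v : ℝ)) := by
    intro m _
    have h3 : ∑ i ∈ I.filter (fun i => n i = m), (nr (n i))⁻¹ =
        ∑ i ∈ I.filter (fun i => n i = m), (nr m)⁻¹ :=
      Finset.sum_congr rfl fun i hi => by rw [(Finset.mem_filter.1 hi).2]
    have h4 : nr m = ∏ v ∈ m, ((prK K).N v : ℝ) := by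
      unfold nr
      exact Finset.prod_congr rfl fun v _ => by rw [prK_N]
    rw [h3, Finset.sum_const, nsmul_eq_mul, one_div, ← h4]
    exact mul_le_mul_of_nonneg_right (hfib m) (inv_nonneg.2 (by linarith [hnr1 m]))
  refine (Finset.sum_le_sum h2).trans ?_
  rw [← Finset.mul_sum]
  refine mul_le_mul_of_nonneg_left ?_ (by positivity)
  have h6 := (prK K).har (Y ^ (C₁ + 1)) (by
    calc (2 : ℝ) ≤ Y := hY
      _ = Y ^ 1 := (pow_one Y).symm
      _ ≤ Y ^ (C₁ + 1) := pow_le_pow_right₀ (by linarith) (by omega)) (I.image n) (by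
    intro m hm
    obtain ⟨i, hi, rfl⟩ := Finset.mem_image.1 hm
    have h7 : nr (n i) = ∏ v ∈ n i, ((prK K).N v : ℝ) := by
      unfold nr
      exact Finset.prod_congr rfl fun v _ => by rw [prK_N]
    rw [← h7]
    exact (hn i hi).trans (pow_le_pow_right₀ (by linarith) (by omega)))
  rw [Real.log_pow] at h6
  push_cast at h6
  exact h6

/-- the data of one index -/
structure Gr {K : IntermediateField ℚ QBar} [NumberField K] (q b : ℕ) (S n : Finset (Pl K)) {G : Type} [Group G] [Fintype G]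
    (φ : Gal(QBar/K) →* G) (f : G → ℂ) : Prop where
  card : (Finset.univ.filter fun y : G => y ∈ φ.range).card ≤ b
  pg : IsPGroup q φ.range
  raw : ∃ f₀ : φ.range → ℂ, Raw q b f₀ ∧ ∀ y : φ.range, f y = avg f₀ y
  ft : FT φ
  ur : ∀ v : Pl K, v ∉ S → v ∉ n → Ur φ v

section one

variable {K : IntermediateField ℚ QBar} [NumberField K] {q : ℕ} {S : Finset (Pl K)} {b : ℕ}
  {n : Finset (Pl K)} {G : Type} [Group G] [Fintype G]
  {φ : Gal(QBar/K) →* G} {f : G → ℂ}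

omit [NumberField K] in
private theorem gpr_card : Fintype.card φ.range = (Finset.univ.filter fun y : G => y ∈ φ.range).card := by
  rw [Fintype.card_subtype]

private theorem gpr_fm (h : Gr q b S n φ f) {f₀ : φ.range → ℂ} (hr : Raw q b f₀) :
    Fm q b S n φ.rangeRestrict f₀ := by
  refine ⟨?_, h.pg, ?_, fun l hl hn P hP hPl τ hτ => ?_, hr⟩
  · rw [gpr_card]
    exact h.card
  · obtain ⟨E, hE, hk⟩ := h.ft
    exact ⟨E, hE, fun σ hσ => Subtype.ext (MonoidHom.mem_ker.1 (hk hσ))⟩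
  · exact Subtype.ext (h.ur l hl hn P hP hPl τ hτ)

private theorem gpr_cl (h : Gr q b S n φ f) (y : G) (hy : y ∈ φ.range) (z : G) (hz : z ∈ φ.range) :
    f (z * y * z⁻¹) = f y := by
  obtain ⟨f₀, -, h₀⟩ := h.raw
  have h1 := h₀ ((⟨z, hz⟩ : φ.range) * ⟨y, hy⟩ * (⟨z, hz⟩ : φ.range)⁻¹)
  rw [gpr_avg_conj, ← h₀] at h1
  exact h1

private theorem gpr_bd (h : Gr q b S n φ f) (y : G) (hy : y ∈ φ.range) : ‖f y‖ ≤ b * b := by
  obtain ⟨f₀, hr, h₀⟩ := h.raw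
  have h1 := h₀ ⟨y, hy⟩
  change f y = _ at h1
  rw [h1]
  exact gpr_avg_bd hr _

omit [NumberField K] in
private theorem gpr_mn {f₀ : φ.range → ℂ} (h₀ : ∀ y : φ.range, f y = avg f₀ y) :
    mn φ.rangeRestrict f₀ = mr φ f := by
  unfold mn mr
  have h1 : (Finset.univ.filter fun y : φ.range => y ∈ φ.rangeRestrict.range) = Finset.univ := by
    rw [Finset.filter_true_of_mem]
    intro y _
    rw [MonoidHom.range_eq_top.2 φ.rangeRestrict_surjective]
    exact Subgroup.mem_top y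
  rw [h1, Finset.card_univ, gpr_card]
  congr 1
  rw [Finset.sum_congr rfl fun y _ => (h₀ y).symm]
  exact (Finset.sum_subtype _ (fun y => by simp) f).symm

private theorem gpr_frb (h : Gr q b S n φ f) {F : Pl K → Gal(QBar/K)} (hF : Frb S F)
    (Q : DP K QBar) (w : Pl K) (hw : w ∉ S) (hwn : w ∉ n) :
    f (φ (F w)) = f (φ (fr Q w)) := by
  obtain ⟨P, hP, hPw, hPF⟩ := hF w hw
  obtain ⟨g, hg⟩ := wra_fr (h.ur w hw hwn) hP (Q.prime w) hPw (Q.under w) hPF (fr_spec Q w)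
  rw [hg]
  exact (gpr_cl h _ ⟨_, rfl⟩ _ ⟨_, rfl⟩).symm

private theorem gpr_bd2 (h : Gr q b S n φ f) (σ : Gal(QBar/K)) :
    ‖f (φ σ) - mr φ f‖ ≤ 2 * (b * b) := by
  have h1 : ‖mr φ f‖ ≤ b * b := by
    unfold mr
    rw [norm_mul, norm_inv, Complex.norm_natCast]
    have h2 : ‖∑ y ∈ Finset.univ.filter (fun y : G => y ∈ φ.range), f y‖ ≤
        ((Finset.univ.filter fun y : G => y ∈ φ.range).card : ℝ) * (b * b) := by
      refine (norm_sum_le _ _).trans ?_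
      rw [← nsmul_eq_mul, ← Finset.sum_const]
      exact Finset.sum_le_sum fun y hy => gpr_bd h y (Finset.mem_filter.1 hy).2
    have h3 : 0 < ((Finset.univ.filter fun y : G => y ∈ φ.range).card : ℝ) := by
      rw [Nat.cast_pos, Finset.card_pos]
      exact ⟨1, Finset.mem_filter.2 ⟨Finset.mem_univ _, one_mem _⟩⟩
    rw [inv_mul_le_iff₀ h3]
    exact h2
  have h2 := gpr_bd h (φ σ) ⟨σ, rfl⟩
  calc ‖f (φ σ) - mr φ f‖ ≤ ‖f (φ σ)‖ + ‖mr φ f‖ := norm_sub_le _ _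
    _ ≤ 2 * (b * b) := by linarith

private theorem gpr_one (h : Gr q b S n φ f) {f₀ : φ.range → ℂ}
    (h₀ : ∀ y : φ.range, f y = avg f₀ y) {F : Pl K → Gal(QBar/K)} (hF : Frb S F)
    (Q : DP K QBar) (x : ℝ) :
    ‖∑ w ∈ (PB K x).filter (fun w => (w ∉ S ∧ (nm w).Prime) ∧ w ∉ n), (f (φ (F w)) - mr φ f)‖ ≤
      ‖sg x (S ∪ n) (fun w => avg f₀ (φ.rangeRestrict (fr Q w)) - mn φ.rangeRestrict f₀)‖ +
        2 * (b * b) * (Module.finrank ℚ K * √x) := by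
  have h1 : sg x (S ∪ n) (fun w => avg f₀ (φ.rangeRestrict (fr Q w)) - mn φ.rangeRestrict f₀) =
      ∑ w ∈ (PB K x).filter (fun w => (w ∉ S ∧ (nm w).Prime) ∧ w ∉ n), (f (φ (F w)) - mr φ f) +
      ∑ w ∈ (PB K x).filter (fun w => w ∉ S ∪ n ∧ ¬ (nm w).Prime), (f (φ (fr Q w)) - mr φ f) := by
    have h2 : (PB K x).filter (fun w => w ∉ S ∪ n) =
        (PB K x).filter (fun w => (w ∉ S ∧ (nm w).Prime) ∧ w ∉ n) ∪
          (PB K x).filter (fun w => w ∉ S ∪ n ∧ ¬ (nm w).Prime) := by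
      ext w
      simp only [Finset.mem_filter, Finset.mem_union]
      tauto
    unfold sg
    rw [h2, Finset.sum_union]
    · congr 1
      · refine Finset.sum_congr rfl fun w hw => ?_
        obtain ⟨-, hw1, hw2⟩ := Finset.mem_filter.1 hw
        rw [gpr_mn h₀, ← h₀, gpr_frb h hF Q w hw1.1 hw2]
        rfl
      · refine Finset.sum_congr rfl fun w hw => ?_
        rw [gpr_mn h₀, ← h₀]
        rfl
    · rw [Finset.disjoint_left]
      intro w hw1 hw2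
      exact (Finset.mem_filter.1 hw2).2.2 (Finset.mem_filter.1 hw1).2.1.2
  have h3 : ‖∑ w ∈ (PB K x).filter (fun w => w ∉ S ∪ n ∧ ¬ (nm w).Prime),
      (f (φ (fr Q w)) - mr φ f)‖ ≤ 2 * (b * b) * (Module.finrank ℚ K * √x) := by
    refine (norm_sum_le _ _).trans ((Finset.sum_le_sum fun w _ => gpr_bd2 h (fr Q w)).trans ?_)
    rw [Finset.sum_const, nsmul_eq_mul, mul_comm]
    refine mul_le_mul_of_nonneg_left (le_trans ?_ wra_np) (by positivity)
    have hsub : (PB K x).filter (fun w => w ∉ S ∪ n ∧ ¬ (nm w).Prime) ⊆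
        (PB K x).filter fun w => ¬ (nm w).Prime := fun w hw => by
      obtain ⟨h5, h6⟩ := Finset.mem_filter.1 hw
      exact Finset.mem_filter.2 ⟨h5, h6.2⟩
    exact_mod_cast Finset.card_le_card hsub
  have h4 : ∑ w ∈ (PB K x).filter (fun w => (w ∉ S ∧ (nm w).Prime) ∧ w ∉ n), (f (φ (F w)) - mr φ f) =
      sg x (S ∪ n) (fun w => avg f₀ (φ.rangeRestrict (fr Q w)) - mn φ.rangeRestrict f₀) -
      ∑ w ∈ (PB K x).filter (fun w => w ∉ S ∪ n ∧ ¬ (nm w).Prime), (f (φ (fr Q w)) - mr φ f) := by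
    rw [h1]
    ring
  rw [h4]
  exact (norm_sub_le _ _).trans (by linarith)

end one

/-- the black box, uniformly in the Frobenius elements -/
theorem gprj {q : ℕ} {K : IntermediateField ℚ QBar} [NumberField K] (S : Finset (Pl K))
    (hgp : GpS q K S) (b C₁ A : ℕ) (ε : ℝ) (hε : 0 < ε) :
    ∃ Y₀ : ℝ, ∀ Y : ℝ, Y₀ ≤ Y → ∀ F : Pl K → Gal(QBar/K), Frb S F →
      ∀ (ι : Type) (I : Finset ι) (n : ι → Finset (Pl K)) (x : ι → ℝ),
      (∀ i ∈ I, nr (n i) ≤ Y ^ C₁ ∧ ((n i).card : ℝ) ≤ C₁ * Real.log (Real.log Y)) →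
      (∀ i ∈ I, Real.exp (Real.log Y ^ ε) ≤ x i ∧ x i ≤ Y ^ C₁) →
      (∀ m, ((I.filter fun i => n i = m).card : ℝ) ≤ Real.log Y ^ C₁) →
      ∀ (G : ι → Type) [∀ i, Group (G i)] [∀ i, Fintype (G i)] (φ : ∀ i, Gal(QBar/K) →* G i)
        (f : ∀ i, G i → ℂ), (∀ i ∈ I, Gr q b S (n i) (φ i) (f i)) →
      ∑ i ∈ I, (nr (n i))⁻¹ * (x i)⁻¹ *
          ‖∑ w ∈ (PB K (x i)).filter (fun w => (w ∉ S ∧ (nm w).Prime) ∧ w ∉ n i),
            (f i (φ i (F w)) - mr (φ i) (f i))‖ ≤ Real.log Y ^ (-(A : ℝ)) := by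
  obtain ⟨Q⟩ := wra_dp (K := K)
  obtain ⟨Y₁, hY₁⟩ := hgp b C₁ (A + 1) ε hε
  obtain ⟨k, hk⟩ : ∃ k : ℕ, k = (prK K).n := ⟨_, rfl⟩
  obtain ⟨m, hm⟩ : ∃ m : ℝ, m = 2 * (b * b) * Module.finrank ℚ K := ⟨_, rfl⟩
  have hm0 : 0 ≤ m := by rw [hm]; positivity
  have hp1 : (1 : ℝ) ≤ (prK K).C := (prK K).C1
  obtain ⟨L₀, hL₀3, hL₀⟩ := gpr_num ε hε (m * ((prK K).C * ((C₁ : ℝ) + 1) ^ k)) ((C₁ : ℝ) + k) A
  refine ⟨max Y₁ (Real.exp L₀), ?_⟩
  intro Y hY F hFr ι I n x hn hx hfib G _ _ φ f hF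
  have hY1 : Y₁ ≤ Y := (le_max_left _ _).trans hY
  have hYe : Real.exp L₀ ≤ Y := (le_max_right _ _).trans hY
  have hY0 : 0 < Y := (Real.exp_pos _).trans_le hYe
  have hLL : L₀ ≤ Real.log Y := (Real.le_log_iff_exp_le hY0).2 hYe
  obtain ⟨a1, a2⟩ := hL₀ _ hLL
  have hL3 : 3 ≤ Real.log Y := hL₀3.trans hLL
  have hL0 : 0 < Real.log Y := by linarith
  have hYY : 2 ≤ Y := by
    have h5 : Real.log Y + 1 ≤ Real.exp (Real.log Y) := Real.add_one_le_exp _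
    rw [Real.exp_log hY0] at h5
    linarith
  have hnr1 : ∀ s : Finset (Pl K), 1 ≤ nr s := fun s => by
    have h := (prK K).one_le_nn s
    unfold Pr.nn at h
    unfold nr
    simpa only [prK_N] using h
  have hex : ∀ i, ∃ f₀ : (φ i).range → ℂ, i ∈ I →
      Raw q b f₀ ∧ ∀ y : (φ i).range, f i y = avg f₀ y := by
    intro i
    by_cases hi : i ∈ I
    · obtain ⟨f₀, h₀⟩ := (hF i hi).raw
      exact ⟨f₀, fun _ => h₀⟩
    · exact ⟨fun _ => 0, fun h => absurd h hi⟩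
  choose f₀ hf₀ using hex
  have hgp := hY₁ Y hY1 ι I n x hn hx hfib (fun i => (φ i).range) (fun i => (φ i).rangeRestrict)
    f₀ (fun i hi => gpr_fm (hF i hi) (hf₀ i hi).1) Q
  have hsum := gpr_sum hYY (fun i hi => (hn i hi).1) hfib
  have hone : ∀ i ∈ I, (nr (n i))⁻¹ * (x i)⁻¹ *
      ‖∑ w ∈ (PB K (x i)).filter (fun w => (w ∉ S ∧ (nm w).Prime) ∧ w ∉ n i),
        (f i (φ i (F w)) - mr (φ i) (f i))‖ ≤
      (nr (n i))⁻¹ * (x i)⁻¹ * ‖sg (x i) (S ∪ n i) (fun w =>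
        avg (f₀ i) ((φ i).rangeRestrict (fr Q w)) - mn (φ i).rangeRestrict (f₀ i))‖ +
      (nr (n i))⁻¹ * (m * Real.exp (-(Real.log Y ^ ε / 2))) := by
    intro i hi
    have h1 := gpr_one (hF i hi) (hf₀ i hi).2 hFr Q (x i)
    have hx0 : 0 < x i := (Real.exp_pos _).trans_le (hx i hi).1
    have h2 : 0 ≤ (nr (n i))⁻¹ := inv_nonneg.2 (by linarith [hnr1 (n i)])
    have h3 : (x i)⁻¹ * √(x i) ≤ Real.exp (-(Real.log Y ^ ε / 2)) := by
      have h4 : √(x i) * √(x i) = x i := Real.mul_self_sqrt hx0.le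
      have h5 : 0 < √(x i) := Real.sqrt_pos.2 hx0
      have h6 : (x i)⁻¹ * √(x i) = (√(x i))⁻¹ := by
        rw [← h4]
        rw [Real.sqrt_mul_self h5.le]
        field_simp
      rw [h6, Real.exp_neg]
      refine inv_anti₀ (Real.exp_pos _) ?_
      refine Real.le_sqrt_of_sq_le ?_
      rw [← Real.exp_nat_mul]
      refine le_trans (le_of_eq ?_) (hx i hi).1
      congr 1
      push_cast
      ring
    have h7 := mul_le_mul_of_nonneg_left h1 (mul_nonneg h2 (inv_nonneg.2 hx0.le))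
    refine h7.trans ?_
    rw [mul_add]
    refine add_le_add_right ?_ _
    calc (nr (n i))⁻¹ * (x i)⁻¹ * (2 * (b * b) * (Module.finrank ℚ K * √(x i))) =
          (nr (n i))⁻¹ * (m * ((x i)⁻¹ * √(x i))) := by rw [hm]; ring
      _ ≤ _ := mul_le_mul_of_nonneg_left (mul_le_mul_of_nonneg_left h3 hm0) h2
  refine (Finset.sum_le_sum hone).trans ?_
  rw [Finset.sum_add_distrib, ← Finset.sum_mul]
  have hend : (∑ i ∈ I, (nr (n i))⁻¹) * (m * Real.exp (-(Real.log Y ^ ε / 2))) ≤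
      Real.log Y ^ (-((A : ℝ) + 1)) := by
    have h1 : 0 ≤ m * Real.exp (-(Real.log Y ^ ε / 2)) := by positivity
    refine (mul_le_mul_of_nonneg_right hsum h1).trans (le_trans (le_of_eq ?_) a1)
    rw [← hk, mul_pow, Real.rpow_add hL0, Real.rpow_natCast, Real.rpow_natCast]
    ring
  have hcast : -(((A + 1 : ℕ) : ℝ)) = -((A : ℝ) + 1) := by push_cast; ring
  rw [hcast] at hgp
  refine le_trans (add_le_add hgp hend) ?_
  linarith

/-- the black box for raw functions from the statement of `gp` -/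
theorem gpr_of {p q : ℕ} (hp : p.Prime) (hpq : p ∣ q) {K : IntermediateField ℚ QBar} [NumberField K]
    {ζ : K} (hζ : IsPrimitiveRoot ζ p) (D : RD0 K p ζ) (hgp : GpS q K D.S0) : GPR D QBar q := by
  intro b C₁ A ε hε
  obtain ⟨Y₁, hY₁⟩ := gprj D.S0 hgp b C₁ A ε hε
  refine ⟨Y₁, ?_⟩
  intro Y hY L Fr ι I n x hn hx hfib G _ _ φ f hF
  have key := hY₁ Y hY Fr.F (frb_of Fr) ι I n x hn hx hfib G φ f
  refine le_trans (le_of_eq (Finset.sum_congr rfl fun i _ => ?_)) (key fun i hi => ?_)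
  · have hs : (PB K (x i)).filter (fun w => D.Gd w ∧ w ∉ n i) =
        (PB K (x i)).filter (fun w => (w ∉ D.S0 ∧ (nm w).Prime) ∧ w ∉ n i) := by
      ext w
      simp only [Finset.mem_filter, RD0.Gd]
    rw [hs]
  obtain ⟨h1, h2, h3, h4, h5⟩ := hF i hi
  refine ⟨h1, ?_, h3, h4, fun v hv hn' => wrp_inr hp hζ L h4 h2 hv (h5 v hv hn')⟩
  intro y
  obtain ⟨k, hk⟩ := h2 y
  refine ⟨k, ?_⟩
  obtain ⟨c, hc⟩ := pow_dvd_pow_of_dvd hpq k
  rw [hc, pow_mul, hk, one_pow]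

theorem gps {p : ℕ} (hp : p.Prime) (hp2 : p ≠ 2) {K : IntermediateField ℚ QBar} [NumberField K]
    {ζ : K} (hζ : IsPrimitiveRoot ζ p) (S : Finset (Pl K)) (hS : ∀ v : Pl K, Above p v → v ∈ S) :
    GpS p K S := fun b C₁ A ε hε => gp sws hp hp2 hζ S hS b C₁ A ε hε

/-- the black box for raw functions (characters of order `p`) -/
theorem gpr {p : ℕ} (hp : p.Prime) (hp2 : p ≠ 2) {K : IntermediateField ℚ QBar} [NumberField K]
    {ζ : K} (hζ : IsPrimitiveRoot ζ p) (D : RD0 K p ζ) : GPR D QBar p :=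
  gpr_of hp dvd_rfl hζ D (gps hp hp2 hζ D.S0 D.above)

end H57.GP
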