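import Pool.Agent.H77.WD.Defs
import Pool.Agent.H57.AN.Che

/-!
# H57 GP WDF: the black box GP in the language of `LDs`, `FR` (any `K`, `Ω`); proved in `Wrp.lean` for `Ω = QBar`

* `mr φ f`: the mean of `f` over the image of `φ`.
* `Gi p b L n φ f`: the image of `φ` has exponent `p` and at most `b` elements, `f` is a class function on the image, of norm at most `b`,
  `φ` is of finite type and unramified outside `S0` and `n` (`Hon`).
* `GPW L Fr`: for `x i ≥ exp((log Y)^ε)`, `nr (n i) ≤ Y^C₁`, `#n i ≤ C₁ log log Y`, and at most `(log Y)^C₁` indices `i` with the same `n i`,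
  `∑ 1 / (nr (n i) x i) |∑_{w good, w ∉ n i, nm w ≤ x i} (f i (φ i (F w)) - mean)| ≤ (log Y)^(-A)`.
-/

set_option autoImplicit false

open scoped NumberField Classical
open IsDedekindDomain H63.MA NumberField H38.BB H38.BG H57.PC H77.WD H57.AN

noncomputable section

namespace H57.GP

variable {K : Type} [Field K] [NumberField K] {Ω : Type} [Field Ω] [Algebra K Ω]
  {p : ℕ} {ζ : K} {D : RD0 K p ζ}

/-- the mean over the image -/
def mr {G : Type} [Group G] [Fintype G] (φ : Gal(Ω/K) →* G) (f : G → ℂ) : ℂ :=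
  ((Finset.univ.filter fun y : G => y ∈ φ.range).card : ℂ)⁻¹ *
    ∑ y ∈ Finset.univ.filter (fun y : G => y ∈ φ.range), f y

/-- the data of one index -/
structure Gi (b : ℕ) (L : LDs D Ω) (n : Finset (Pl K)) {G : Type} [Group G] [Fintype G]
    (φ : Gal(Ω/K) →* G) (f : G → ℂ) : Prop where
  card : (Finset.univ.filter fun y : G => y ∈ φ.range).card ≤ b
  exp : ∀ y ∈ φ.range, y ^ p = 1
  cls : ∀ y ∈ φ.range, ∀ z ∈ φ.range, f (z * y * z⁻¹) = f y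
  bd : ∀ y ∈ φ.range, ‖f y‖ ≤ b
  hon : Hon L n φ

/-- the black box -/
def GPW (L : LDs D Ω) (Fr : FR L) : Prop :=
  ∀ (b C₁ A : ℕ) (ε : ℝ), 0 < ε → ∃ Y₀ : ℝ, ∀ Y : ℝ, Y₀ ≤ Y →
    ∀ (ι : Type) (I : Finset ι) (n : ι → Finset (Pl K)) (x : ι → ℝ),
    (∀ i ∈ I, nr (n i) ≤ Y ^ C₁ ∧ ((n i).card : ℝ) ≤ C₁ * Real.log (Real.log Y)) →
    (∀ i ∈ I, Real.exp (Real.log Y ^ ε) ≤ x i ∧ x i ≤ Y ^ C₁) →
    (∀ m, ((I.filter fun i => n i = m).card : ℝ) ≤ Real.log Y ^ C₁) →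
    ∀ (G : ι → Type) [∀ i, Group (G i)] [∀ i, Fintype (G i)] (φ : ∀ i, Gal(Ω/K) →* G i)
      (f : ∀ i, G i → ℂ), (∀ i ∈ I, Gi b L (n i) (φ i) (f i)) →
    ∑ i ∈ I, (nr (n i))⁻¹ * (x i)⁻¹ *
        ‖∑ w ∈ (PB K (x i)).filter (fun w => D.Gd w ∧ w ∉ n i),
          (f i (φ i (Fr.F w)) - mr (φ i) (f i))‖ ≤ Real.log Y ^ (-(A : ℝ))

end H57.GP
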