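import Pool.Agent.H57.GP.Gpr
import Pool.Agent.H77.WE.GlU

/-!
# H57 GP GPV: `GPR` in the form with the mean `av` of the conjugates (H62/BL)
-/

set_option autoImplicit false

open scoped NumberField Pointwise Classical
open IsDedekindDomain H63.MA NumberField H67.SX H38.BB H38.BG H57.PC H77.WD H57.AN H77.WE H77.GL
  H35.UB

noncomputable section

namespace H57.GP

theorem gpv_av {Γ G : Type} [Group Γ] [Group G] [Fintype G] (φ : Γ →* G) (f : G → ℂ)
    (y : φ.range) : av φ f y = avg (fun z : φ.range => f (z : G)) y := by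
  unfold av avg
  rw [Nat.card_eq_fintype_card]
  congr 1
  have h1 : ∑ g ∈ (Set.toFinite (φ.range : Set G)).toFinset, f (g * y * g⁻¹) =
      ∑ g : φ.range, f (g * y * (g : G)⁻¹) :=
    Finset.sum_subtype _ (fun z => by simp) fun g => f (g * y * g⁻¹)
  rw [h1]
  refine Fintype.sum_equiv (Equiv.inv φ.range) _ _ fun g => ?_
  congr 1
  simp

theorem gpv_mr {Γ G : Type} [Group Γ] [Group G] [Fintype G] (φ : Γ →* G) (f : G → ℂ) :
    (((Finset.univ.filter fun y : G => y ∈ φ.range).card : ℂ)⁻¹ *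
      ∑ y ∈ Finset.univ.filter (fun y : G => y ∈ φ.range), av φ f y) = mrg φ f := by
  unfold mrg
  congr 1
  have h1 : ∑ y ∈ Finset.univ.filter (fun y : G => y ∈ φ.range), av φ f y =
      ∑ y : φ.range, av φ f y :=
    Finset.sum_subtype _ (fun z => by simp) fun g => av φ f g
  have h2 : ∑ y ∈ Finset.univ.filter (fun y : G => y ∈ φ.range), f y =
      ∑ y : φ.range, f y :=
    Finset.sum_subtype _ (fun z => by simp) fun g => f g
  rw [h1, h2, Finset.sum_congr rfl fun y _ => gpv_av φ f y]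
  unfold avg
  rw [← Finset.mul_sum, Finset.sum_comm]
  have h3 : ∀ g : φ.range, ∑ y : φ.range, f ((g⁻¹ * y * g : φ.range) : G) =
      ∑ y : φ.range, f y := by
    intro g
    refine Fintype.sum_equiv (MulAut.conj g⁻¹).toEquiv _ _ fun y => ?_
    simp
  rw [Finset.sum_congr rfl fun g _ => h3 g, Finset.sum_const, Finset.card_univ, nsmul_eq_mul,
    ← mul_assoc, inv_mul_cancel₀ (Nat.cast_ne_zero.2 Fintype.card_ne_zero), one_mul]

/-- the black box for raw functions, with the mean over the conjugates -/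
theorem gpr_av {K : Type} [Field K] [NumberField K] {p : ℕ} {ζ : K} {D : RD0 K p ζ} {Ω : Type}
    [Field Ω] [Algebra K Ω] {q : ℕ} (h : GPR D Ω q) (b C₁ A : ℕ) (ε : ℝ) (hε : 0 < ε) :
    ∃ Y₀ : ℝ, ∀ Y : ℝ, Y₀ ≤ Y → ∀ (L : LDs D Ω) (Fr : FR L),
    ∀ (E : Finset (Pl K)) (ι : Type) (I : Finset ι) (n : ι → Finset (Pl K)) (x : ι → ℝ),
    (∀ i ∈ I, E ⊆ n i ∧ nr (n i) ≤ Y ^ C₁ ∧ ((n i).card : ℝ) ≤ C₁ * Real.log (Real.log Y)) →
    (∀ i ∈ I, Real.exp (Real.log Y ^ ε) ≤ x i ∧ x i ≤ Y ^ C₁) →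
    (∀ m, ((I.filter fun i => n i = m).card : ℝ) ≤ Real.log Y ^ C₁) →
    ∀ (G : ι → Type) [∀ i, Group (G i)] [∀ i, Fintype (G i)] (φ : ∀ i, Gal(Ω/K) →* G i)
      (f : ∀ i, G i → ℂ),
    (∀ i ∈ I, (Finset.univ.filter fun y : G i => y ∈ (φ i).range).card ≤ b ∧
      IsPGroup p (φ i).range ∧ Raw q b (fun y : (φ i).range => f i y) ∧
      HonE L E (n i) (φ i)) →
    ∑ i ∈ I, (nr (n i))⁻¹ * (x i)⁻¹ *
        ‖∑ w ∈ (PB K (x i)).filter (fun w => D.Gd w ∧ w ∉ n i),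
          (av (φ i) (f i) (φ i (Fr.F w)) - mrg (φ i) (f i))‖ ≤ Real.log Y ^ (-(A : ℝ)) := by
  obtain ⟨Y₀, hY₀⟩ := h b C₁ A ε hε
  refine ⟨Y₀, ?_⟩
  intro Y hY L Fr E ι I n x hn hx hfib G _ _ φ f hF
  have key := hY₀ Y hY L Fr ι I n x (fun i hi => (hn i hi).2) hx hfib G φ
    (fun i => av (φ i) (f i)) fun i hi => ⟨(hF i hi).1, (hF i hi).2.1,
      ⟨_, (hF i hi).2.2.1, gpv_av (φ i) (f i)⟩, (hF i hi).2.2.2.1, fun v hv hn' =>
        ((hF i hi).2.2.2.2 v hv fun hE => hn' ((hn i hi).1 hE)).2 hn'⟩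
  refine le_trans (le_of_eq (Finset.sum_congr rfl fun i _ => ?_)) key
  have hm : mr (φ i) (av (φ i) (f i)) = mrg (φ i) (f i) := gpv_mr (φ i) (f i)
  rw [hm]

end H57.GP
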