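import Pool.Agent.H57.GP.Def

/-!
# [H57 GP TEL] means over cosets of a normal subgroup and characters of order `p` of subgroups (150-220 lines, pure group theory)

`cb_mono`: pad by `c j = 0`, `H j = ⊤`, `ψ j = 0` (`Fin.castLE`/`dite`; or `Fin.append` with `N' = N + r`). `pd_comp`: `PD D' (PD D f) = PD D' f` for `D ≤ D'`: the sum over `d' ∈ D'` of `f (y d' d)` does not
depend on `d ∈ D`. `pd_bot`, `pd_top`. `pd_avg`: `avg (PD D f) = PD D (avg f)` for `D` normal (`g⁻¹ (y d) g = (g⁻¹ y g) (g⁻¹ d g)`).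

`tel_th` (one function): `D` normal, `Lc H ψ`, `ψ = 0` on `H ∩ D`. Then there is `ψ₁` with `Lc (H ⊔ D) ψ₁`, `ψ₁ = ψ` on `H`, `ψ₁ = 0` on `D` (`ψ₁ (h d) = ψ h`; every element of `H ⊔ D` is
`h d`: `Subgroup.mem_sup_of_normal_right` / `Subgroup.mul_normal`; well defined since `h d = h' d'` gives `h'⁻¹ h ∈ H ∩ D`), and `PD D (th H ψ) = (card (H ⊓ D) / card D) th (H ⊔ D) ψ₁`:
at `y = h d₀`: the `d` with `y d ∈ H` are a coset of `H ∩ D`, with `ψ (y d) = ψ h`; if `y ∉ H ⊔ D` both sides are `0`. If `ψ ≠ 0` on `H ∩ D`: `PD D (th H ψ) = 0`: let `t ∈ H ∩ D`, `ψ t ≠ 0`;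
`d ↦ d t` shows `F y = ep p (ψ t) F y` (`ep_eq_one`).

`tel_one`: `G` a `p`-group, `D'` normal, `Lc H ψ`, `ψ = 0` on `H ∩ D'`: `th H ψ - PD D' (th H ψ)` is a sum of at most `p * card G` terms `c th H' ψ'`, `‖c‖ ≤ 1`, `H ≤ H'`, `ψ' = ψ` on `H`,
`ψ' ≠ 0` on `H' ∩ D'`. Induction on `card (H ⊔ D') - card H`. If `D' ≤ H`: the difference is `0`. Otherwise `H < H ⊔ D'`, both are `p`-groups: there is `H₁` with `H < H₁ ≤ H ⊔ D'`,
`H₁ / H` of order `p`, `H` normal in `H₁` (`Sylow.exists_subgroup_card_pow_succ` in the group `H ⊔ D'`; a subgroup of index `p` of a finite `p`-group is normal: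
`Subgroup.normal_of_index_eq_minFac_card` or the normalizer condition). Let `χ : H₁ → ZMod p` be additive, onto, with kernel `H` (`H₁/H` is cyclic of order `p`; extend by `0` outside `H₁`),
`ψ₁ = ψ~|H₁` with `ψ~` from `tel_th` on `H ⊔ D'` (`ψ~ = ψ` on `H`, `0` on `D'`). Then `th H ψ = p⁻¹ ∑_{j : ZMod p} th H₁ (ψ₁ + j χ)` (`ep_sum`: `∑_j ep p (j χ y) = p` or `0`).
For `j ≠ 0`: `ψ₁ + j χ ≠ 0` on `H₁ ∩ D'`: `H₁ = H (H₁ ∩ D')` (`y ∈ H₁ ≤ H ⊔ D'`, `y = h d`, `d = h⁻¹ y ∈ H₁ ∩ D'`), `χ` is `0` on `H` and not `0` on `H₁`, so `χ ≠ 0` on `H₁ ∩ D'`, and `ψ₁ = 0` there.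
For `j = 0` use the induction for `(H₁, ψ₁)`. For `j ≠ 0`: `PD D' (th H₁ (ψ₁ + j χ)) = 0`. Number of terms: `(p - 1) k`, `p^k = [H ⊔ D' : H]`, `(p - 1) k ≤ p^k ≤ card G`.

`tel`: `f = ∑ c_j th H_j ψ_j`. `PD D f - PD D' f = ∑ c_j (g_j - PD D' g_j)`, `g_j = PD D (th H_j ψ_j)` (`pd_comp`). If `ψ_j ≠ 0` on `H_j ∩ D` then `g_j = 0`. Otherwise `g_j = a th (H_j ⊔ D) ψ~_j`, `0 ≤ a ≤ 1`,
`D ≤ H_j ⊔ D`, `ψ~_j = 0` on `D`. If `ψ~_j ≠ 0` on `(H_j ⊔ D) ∩ D'` then `PD D' g_j = 0` and `g_j` itself is one term; otherwise `tel_one` (the properties `D ≤ H'`, `ψ' = 0` on `D` are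
inherited since `H_j ⊔ D ≤ H'` and `ψ' = ψ~_j` there). At most `p card G + 1 ≤ p b + 1` terms for each `j` (`cb_mono`, sum over `j`: index `Fin N × Fin (p b + 1) ≃ Fin (N (p b + 1))`,
`finProdFinEquiv`), coefficients `≤ N ≤ N (p b + 1)`.
-/

set_option autoImplicit false

open scoped NumberField Pointwise Classical
open IsDedekindDomain H63.MA NumberField H36.QA H57.LI H57.LC H67.SX H38.ML H57.SL

noncomputable section

namespace H57.GP

section

variable {G : Type} [Group G]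

theorem tel_pad {p : ℕ} {ι : Type} [Fintype ι] {N : ℕ} (h : Fintype.card ι ≤ N) (c : ι → ℂ)
    (H : ι → Subgroup G) (ψ : ι → G → ZMod p) (hL : ∀ j, Lc (H j) (ψ j)) (hc : ∀ j, ‖c j‖ ≤ N) :
    ∃ (c' : Fin N → ℂ) (H' : Fin N → Subgroup G) (ψ' : Fin N → G → ZMod p),
      (∀ j, ‖c' j‖ ≤ N) ∧ (∀ j, Lc (H' j) (ψ' j)) ∧
      (∀ j, (∃ i, c' j = c i ∧ H' j = H i ∧ ψ' j = ψ i) ∨
        (c' j = 0 ∧ H' j = ⊤ ∧ ψ' j = fun _ => 0)) ∧
      ∀ y, ∑ i, c i * th (H i) (ψ i) y = ∑ j, c' j * th (H' j) (ψ' j) y := by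
  obtain ⟨e, he⟩ : ∃ e : ι → Fin N, Function.Injective e :=
    ⟨fun i => Fin.castLE h (Fintype.equivFin ι i),
      (Fin.castLE_injective h).comp (Fintype.equivFin ι).injective⟩
  have key : ∀ j, (∃ i, e i = j ∧ Function.extend e c (fun _ => 0) j = c i ∧
      Function.extend e H (fun _ => ⊤) j = H i ∧ Function.extend e ψ (fun _ _ => 0) j = ψ i) ∨
      (j ∉ Set.range e ∧ Function.extend e c (fun _ => 0) j = 0 ∧
      Function.extend e H (fun _ => ⊤) j = ⊤ ∧ Function.extend e ψ (fun _ _ => 0) j = fun _ => 0) := by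
    intro j
    by_cases hj : ∃ i, e i = j
    · obtain ⟨i, rfl⟩ := hj
      exact Or.inl ⟨i, rfl, he.extend_apply _ _ _, he.extend_apply _ _ _, he.extend_apply _ _ _⟩
    · exact Or.inr ⟨hj, Function.extend_apply' _ _ _ hj, Function.extend_apply' _ _ _ hj,
        Function.extend_apply' _ _ _ hj⟩
  refine ⟨Function.extend e c (fun _ => 0), Function.extend e H (fun _ => ⊤),
    Function.extend e ψ (fun _ _ => 0), fun j => ?_, fun j => ?_, fun j => ?_, fun y => ?_⟩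
  · rcases key j with ⟨i, -, e1, -, -⟩ | ⟨-, e1, -, -⟩
    · rw [e1]
      exact hc i
    · rw [e1, norm_zero]
      exact Nat.cast_nonneg _
  · rcases key j with ⟨i, -, -, e2, e3⟩ | ⟨-, -, e2, e3⟩
    · rw [e2, e3]
      exact hL i
    · rw [e2, e3]
      intro a _ b _
      exact (add_zero _).symm
  · rcases key j with ⟨i, -, e1, e2, e3⟩ | ⟨-, e1, e2, e3⟩
    · exact Or.inl ⟨i, e1, e2, e3⟩
    · exact Or.inr ⟨e1, e2, e3⟩
  · refine Fintype.sum_of_injective e he _ _ (fun j hj => ?_) (fun i => ?_)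
    · rcases key j with ⟨i, e0, -, -, -⟩ | ⟨-, e1, -, -⟩
      · exact absurd ⟨i, e0⟩ hj
      · rw [e1, zero_mul]
    · rw [he.extend_apply, he.extend_apply, he.extend_apply]

/-- sums of at most `M` terms with coefficients bounded by `B` and the property `P` -/
def TelS (p M : ℕ) (B : ℝ) (P : Subgroup G → (G → ZMod p) → Prop) (f : G → ℂ) : Prop :=
  ∃ (ι : Type) (_ : Fintype ι) (c : ι → ℂ) (H : ι → Subgroup G) (ψ : ι → G → ZMod p),
    Fintype.card ι ≤ M ∧ (∀ j, ‖c j‖ ≤ B) ∧ (∀ j, Lc (H j) (ψ j) ∧ P (H j) (ψ j)) ∧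
      ∀ y, f y = ∑ j, c j * th (H j) (ψ j) y

theorem tels_mono {p M M' : ℕ} {B B' : ℝ} {P P' : Subgroup G → (G → ZMod p) → Prop} {f : G → ℂ}
    (hM : M ≤ M') (hB : B ≤ B') (hP : ∀ H ψ, P H ψ → P' H ψ) (h : TelS p M B P f) :
    TelS p M' B' P' f := by
  obtain ⟨ι, _, c, H, ψ, h1, h2, h3, h4⟩ := h
  exact ⟨ι, _, c, H, ψ, h1.trans hM, fun j => (h2 j).trans hB,
    fun j => ⟨(h3 j).1, hP _ _ (h3 j).2⟩, h4⟩

theorem tels_zero {p M : ℕ} {B : ℝ} {P : Subgroup G → (G → ZMod p) → Prop} :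
    TelS p M B P (fun _ => 0) :=
  ⟨Empty, inferInstance, fun j => j.elim, fun j => j.elim, fun j => j.elim, by simp,
    fun j => j.elim, fun j => j.elim, fun y => by simp⟩

theorem tels_one {p : ℕ} {B : ℝ} {P : Subgroup G → (G → ZMod p) → Prop} {c : ℂ}
    {H : Subgroup G} {ψ : G → ZMod p} (hc : ‖c‖ ≤ B) (hL : Lc H ψ) (hP : P H ψ) :
    TelS p 1 B P (fun y => c * th H ψ y) :=
  ⟨Unit, inferInstance, fun _ => c, fun _ => H, fun _ => ψ, by simp, fun _ => hc,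
    fun _ => ⟨hL, hP⟩, fun y => by simp⟩

theorem tels_add {p M M' : ℕ} {B : ℝ} {P : Subgroup G → (G → ZMod p) → Prop} {f g : G → ℂ}
    (hf : TelS p M B P f) (hg : TelS p M' B P g) : TelS p (M + M') B P (fun y => f y + g y) := by
  obtain ⟨ι, _, c, H, ψ, h1, h2, h3, h4⟩ := hf
  obtain ⟨ι', _, c', H', ψ', h1', h2', h3', h4'⟩ := hg
  refine ⟨ι ⊕ ι', inferInstance, Sum.elim c c', Sum.elim H H', Sum.elim ψ ψ', ?_, ?_, ?_, ?_⟩
  · rw [Fintype.card_sum]
    omega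
  · rintro (j | j)
    · exact h2 j
    · exact h2' j
  · rintro (j | j)
    · exact h3 j
    · exact h3' j
  · intro y
    show f y + g y = _
    rw [Fintype.sum_sum_type, h4, h4']
    rfl

theorem tels_smul {p M : ℕ} {B : ℝ} {P : Subgroup G → (G → ZMod p) → Prop} {f : G → ℂ} (a : ℂ)
    (hf : TelS p M B P f) : TelS p M (‖a‖ * B) P (fun y => a * f y) := by
  obtain ⟨ι, _, c, H, ψ, h1, h2, h3, h4⟩ := hf
  refine ⟨ι, _, fun j => a * c j, H, ψ, h1, fun j => ?_, h3, fun y => ?_⟩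
  · rw [norm_mul]
    exact mul_le_mul_of_nonneg_left (h2 j) (norm_nonneg a)
  · show a * f y = _
    rw [h4, Finset.mul_sum]
    exact Finset.sum_congr rfl fun j _ => (mul_assoc _ _ _).symm

theorem tels_sum {p M : ℕ} {B : ℝ} {P : Subgroup G → (G → ZMod p) → Prop} {κ : Type}
    (s : Finset κ) (f : κ → G → ℂ) (h : ∀ i ∈ s, TelS p M B P (f i)) :
    TelS p (∑ _i ∈ s, M) B P (fun y => ∑ i ∈ s, f i y) := by
  induction s using Finset.induction_on with
  | empty =>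
    simp only [Finset.sum_empty]
    exact tels_zero
  | insert a s ha ih =>
    simp only [Finset.sum_insert ha]
    exact tels_add (h a (Finset.mem_insert_self a s))
      (ih fun i hi => h i (Finset.mem_insert_of_mem hi))

theorem tels_cb {p M N : ℕ} {B : ℝ} {D D' : Subgroup G} {f : G → ℂ} (hM : M ≤ N) (hB : B ≤ N)
    (h : TelS p M B (fun H' ψ' => (D ≤ H' ∧ ∀ y ∈ D, ψ' y = 0) ∧ ∃ y ∈ H', y ∈ D' ∧ ψ' y ≠ 0) f) :
    Cb p N D D' f := by
  obtain ⟨ι, _, c, H, ψ, h1, h2, h3, h4⟩ := h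
  obtain ⟨c', H', ψ', g1, g2, g3, g4⟩ := tel_pad (h1.trans hM) c H ψ (fun j => (h3 j).1)
    (fun j => (h2 j).trans hB)
  refine ⟨c', H', ψ', g1, g2, fun j => ?_, fun j hj => ?_, fun y => (h4 y).trans (g4 y)⟩
  · rcases g3 j with ⟨i, -, e2, e3⟩ | ⟨-, e2, e3⟩
    · rw [e2, e3]
      exact (h3 i).2.1
    · rw [e2, e3]
      exact ⟨le_top, fun _ _ => rfl⟩
  · rcases g3 j with ⟨i, e1, e2, e3⟩ | ⟨e1, -, -⟩
    · rw [e2, e3]
      exact (h3 i).2.2
    · exact absurd e1 hj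

theorem cb_mono {p N N' : ℕ} (h : N ≤ N') {D D' : Subgroup G} {f : G → ℂ} (hf : Cb p N D D' f) :
    Cb p N' D D' f := by
  obtain ⟨c, H, ψ, h1, h2, h3, h4, h5⟩ := hf
  obtain ⟨c', H', ψ', g1, g2, g3, g4⟩ := tel_pad (N := N') (by rwa [Fintype.card_fin]) c H ψ h2
    (fun j => (h1 j).trans (by exact_mod_cast h))
  refine ⟨c', H', ψ', g1, g2, fun j => ?_, fun j hj => ?_, fun y => (h5 y).trans (g4 y)⟩
  · rcases g3 j with ⟨i, -, e2, e3⟩ | ⟨-, e2, e3⟩
    · rw [e2, e3]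
      exact h3 i
    · rw [e2, e3]
      exact ⟨le_top, fun _ _ => rfl⟩
  · rcases g3 j with ⟨i, e1, e2, e3⟩ | ⟨e1, -, -⟩
    · rw [e1] at hj
      rw [e2, e3]
      exact h4 i hj
    · exact absurd e1 hj

theorem raw_mono {p N N' : ℕ} (h : N ≤ N') {f : G → ℂ} (hf : Raw p N f) : Raw p N' f := by
  obtain ⟨c, H, ψ, h1, h2, h5⟩ := hf
  obtain ⟨c', H', ψ', g1, g2, g3, g4⟩ := tel_pad (N := N') (by rwa [Fintype.card_fin]) c H ψ h2
    (fun j => (h1 j).trans (by exact_mod_cast h))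
  exact ⟨c', H', ψ', g1, g2, fun y => (h5 y).trans (g4 y)⟩

variable [Fintype G]

theorem pd_comp (D D' : Subgroup G) (h : D ≤ D') (f : G → ℂ) : PD D' (PD D f) = PD D' f := by
  funext y
  have h1 : ∀ d : D, ∑ d' : D', f (y * d' * d) = ∑ d' : D', f (y * d') := by
    intro d
    rw [← Equiv.sum_comp (Equiv.mulRight (⟨d, h d.2⟩ : D')) (fun d' : D' => f (y * d'))]
    refine Finset.sum_congr rfl fun d' _ => ?_
    show f (y * d' * d) = f (y * ((d' : G) * (d : G)))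
    rw [mul_assoc]
  unfold PD
  have h2 : (Fintype.card D : ℂ) ≠ 0 := by
    exact_mod_cast Fintype.card_ne_zero
  rw [← Finset.mul_sum, Finset.sum_comm, Finset.sum_congr rfl fun d _ => h1 d, Finset.sum_const,
    Finset.card_univ, nsmul_eq_mul, inv_mul_cancel_left₀ h2]

theorem tel_bot (D : Subgroup G) (hD : D = ⊥) (f : G → ℂ) : PD D f = f := by
  funext y
  unfold PD
  have h1 : ∀ d : D, f (y * d) = f y := by
    intro d
    have h2 : (d : G) = 1 := Subgroup.mem_bot.1 (hD ▸ d.2)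
    rw [h2, mul_one]
  have h3 : (Fintype.card D : ℂ) ≠ 0 := by
    exact_mod_cast Fintype.card_ne_zero
  rw [Finset.sum_congr rfl fun d _ => h1 d, Finset.sum_const, Finset.card_univ, nsmul_eq_mul,
    inv_mul_cancel_left₀ h3]

theorem pd_bot (f : G → ℂ) : PD (⊥ : Subgroup G) f = f := by
  exact tel_bot _ rfl f

theorem pd_top (f : G → ℂ) (y : G) : PD (⊤ : Subgroup G) f y = (Fintype.card G : ℂ)⁻¹ * ∑ g : G, f g := by
  unfold PD
  rw [Fintype.card_congr (Subgroup.topEquiv (G := G)).toEquiv]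
  congr 1
  rw [← Equiv.sum_comp (Equiv.mulLeft y) f]
  exact Fintype.sum_equiv (Subgroup.topEquiv (G := G)).toEquiv _ _ (fun d => rfl)

theorem pd_avg (D : Subgroup G) (hD : D.Normal) (f : G → ℂ) : avg (PD D f) = PD D (avg f) := by
  funext y
  have key : ∑ g : G, ∑ d : D, f (g⁻¹ * y * g * d) = ∑ d : D, ∑ g : G, f (g⁻¹ * (y * d) * g) := by
    conv_rhs => rw [Finset.sum_comm]
    refine Finset.sum_congr rfl fun g _ => ?_
    rw [← Equiv.sum_comp (MulAut.conjNormal (H := D) g⁻¹).toEquiv (fun d : D => f (g⁻¹ * y * g * d))]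
    refine Finset.sum_congr rfl fun d _ => ?_
    congr 1
    show g⁻¹ * y * g * ((MulAut.conjNormal (H := D) g⁻¹ d : D) : G) = g⁻¹ * (y * d) * g
    rw [MulAut.conjNormal_apply]
    group
  unfold avg PD
  rw [← Finset.mul_sum, ← Finset.mul_sum, key]
  ring

theorem tel_pd_sum {κ : Type} (D : Subgroup G) (s : Finset κ) (c : κ → ℂ) (f : κ → G → ℂ) :
    PD D (fun y => ∑ j ∈ s, c j * f j y) = fun y => ∑ j ∈ s, c j * PD D (f j) y := by
  funext y
  unfold PD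
  rw [Finset.sum_comm, Finset.mul_sum]
  refine Finset.sum_congr rfl fun j _ => ?_
  rw [← Finset.mul_sum]
  ring

theorem tel_pd_mul (D : Subgroup G) (a : ℂ) (f : G → ℂ) :
    PD D (fun y => a * f y) = fun y => a * PD D f y := by
  funext y
  unfold PD
  rw [← Finset.mul_sum]
  ring

theorem tel_pd_zero (D : Subgroup G) : PD D (fun _ => 0) = fun _ => (0 : ℂ) := by
  funext y
  unfold PD
  rw [Finset.sum_const_zero, mul_zero]

/-- not trivial on the intersection -/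
theorem tel_kill {p : ℕ} (hp : p.Prime) {H D : Subgroup G} {ψ : G → ZMod p} (hL : Lc H ψ) {t : G}
    (ht : t ∈ H) (htD : t ∈ D) (h0 : ψ t ≠ 0) : PD D (th H ψ) = fun _ => 0 := by
  funext y
  unfold PD
  have h1 : ∑ d : D, th H ψ (y * d) = ep p (ψ t) * ∑ d : D, th H ψ (y * d) := by
    conv_lhs => rw [← Equiv.sum_comp (Equiv.mulRight (⟨t, htD⟩ : D)) (fun d : D => th H ψ (y * d))]
    rw [Finset.mul_sum]
    refine Finset.sum_congr rfl fun d _ => ?_
    show th H ψ (y * ((d : G) * t)) = ep p (ψ t) * th H ψ (y * d)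
    rw [← mul_assoc]
    unfold th
    by_cases hy : y * d ∈ H
    · rw [if_pos hy, if_pos (H.mul_mem hy ht), hL _ hy _ ht, ep_add hp, mul_comm]
    · rw [if_neg hy, if_neg, mul_zero]
      intro h2
      exact hy ((H.mul_mem_cancel_right ht).1 h2)
  have h2 : ep p (ψ t) ≠ 1 := fun h3 => h0 ((ep_eq_one hp _).1 h3)
  have h3 : (1 - ep p (ψ t)) * ∑ d : D, th H ψ (y * d) = 0 := by
    rw [sub_mul, one_mul, ← h1, sub_self]
  rcases mul_eq_zero.1 h3 with h4 | h4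
  · exact absurd (sub_eq_zero.1 h4).symm h2
  · rw [h4, mul_zero]

theorem tel_lc_one {p : ℕ} {H : Subgroup G} {ψ : G → ZMod p} (hL : Lc H ψ) : ψ 1 = 0 := by
  have h := hL 1 H.one_mem 1 H.one_mem
  rw [mul_one] at h
  exact (left_eq_add.1 h)

theorem tel_lc_inv {p : ℕ} {H : Subgroup G} {ψ : G → ZMod p} (hL : Lc H ψ) {a : G} (ha : a ∈ H) :
    ψ a⁻¹ = - ψ a := by
  have h := hL a ha a⁻¹ (H.inv_mem ha)
  rw [mul_inv_cancel, tel_lc_one hL] at h
  exact (neg_eq_of_add_eq_zero_right h.symm).symm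

/-- extension by zero on a normal subgroup -/
theorem tel_ext {p : ℕ} {H D : Subgroup G} (hD : D.Normal) {ψ : G → ZMod p} (hL : Lc H ψ)
    (h0 : ∀ t ∈ H, t ∈ D → ψ t = 0) : ∃ ψ₁ : G → ZMod p, Lc (H ⊔ D) ψ₁ ∧
      (∀ a ∈ H, ∀ d ∈ D, ψ₁ (a * d) = ψ a) := by
  have hw : ∀ a ∈ H, ∀ d ∈ D, ∀ a' ∈ H, ∀ d' ∈ D, a * d = a' * d' → ψ a = ψ a' := by
    intro a ha d hd a' ha' d' hd' he
    have h1 : a'⁻¹ * a = d' * d⁻¹ := by
      rw [inv_mul_eq_iff_eq_mul, ← mul_assoc, ← he]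
      group
    have h2 : ψ (a'⁻¹ * a) = 0 := by
      refine h0 _ (H.mul_mem (H.inv_mem ha') ha) ?_
      rw [h1]
      exact D.mul_mem hd' (D.inv_mem hd)
    rw [hL _ (H.inv_mem ha') _ ha, tel_lc_inv hL ha'] at h2
    exact (neg_add_eq_zero.1 h2).symm
  have hex : ∃ ψ₁ : G → ZMod p, ∀ a ∈ H, ∀ d ∈ D, ψ₁ (a * d) = ψ a := by
    refine ⟨fun y => if h : ∃ a ∈ H, ∃ d ∈ D, a * d = y then ψ h.choose else 0, ?_⟩
    intro a ha d hd
    have h : ∃ a' ∈ H, ∃ d' ∈ D, a' * d' = a * d := ⟨a, ha, d, hd, rfl⟩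
    beta_reduce
    rw [dif_pos h]
    obtain ⟨h1, d', hd', h2⟩ := h.choose_spec
    exact hw _ h1 d' hd' a ha d hd h2
  obtain ⟨ψ₁, h1⟩ := hex
  refine ⟨ψ₁, ?_, h1⟩
  intro y hy y' hy'
  rw [Subgroup.mem_sup_of_normal_right] at hy hy'
  obtain ⟨a, ha, d, hd, rfl⟩ := hy
  obtain ⟨a', ha', d', hd', rfl⟩ := hy'
  have h2 : a * d * (a' * d') = (a * a') * ((a'⁻¹ * d * a') * d') := by group
  have h3 : a'⁻¹ * d * a' ∈ D := by
    have h4 := hD.conj_mem d hd a'⁻¹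
    rwa [inv_inv] at h4
  rw [h2, h1 _ (H.mul_mem ha ha') _ (D.mul_mem h3 hd'), h1 a ha d hd, h1 a' ha' d' hd', hL a ha a' ha']

theorem tel_ext_l {p : ℕ} {H D : Subgroup G} {ψ ψ₁ : G → ZMod p}
    (h1 : ∀ a ∈ H, ∀ d ∈ D, ψ₁ (a * d) = ψ a) {a : G} (ha : a ∈ H) : ψ₁ a = ψ a := by
  have h2 := h1 a ha 1 D.one_mem
  rwa [mul_one] at h2

theorem tel_ext_r {p : ℕ} {H D : Subgroup G} {ψ ψ₁ : G → ZMod p} (hL : Lc H ψ)
    (h1 : ∀ a ∈ H, ∀ d ∈ D, ψ₁ (a * d) = ψ a) {d : G} (hd : d ∈ D) : ψ₁ d = 0 := by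
  have h2 := h1 1 H.one_mem d hd
  rwa [one_mul, tel_lc_one hL] at h2

/-- the mean of a character of a subgroup over the cosets of a normal subgroup -/
theorem tel_th {p : ℕ} (hp : p.Prime) {H D : Subgroup G} (hD : D.Normal) {ψ ψ₁ : G → ZMod p}
    (hL : Lc H ψ) (h0 : ∀ t ∈ H, t ∈ D → ψ t = 0) (h1 : ∀ a ∈ H, ∀ d ∈ D, ψ₁ (a * d) = ψ a) :
    ∃ a : ℂ, ‖a‖ ≤ 1 ∧ PD D (th H ψ) = fun y => a * th (H ⊔ D) ψ₁ y := by
  refine ⟨(Fintype.card D : ℂ)⁻¹ * ((Finset.univ.filter fun d : D => (d : G) ∈ H).card : ℂ), ?_, ?_⟩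
  · rw [norm_mul, norm_inv, Complex.norm_natCast, Complex.norm_natCast]
    have h2 : (0 : ℝ) < Fintype.card D := by
      exact_mod_cast Fintype.card_pos
    rw [inv_mul_le_iff₀ h2, mul_one]
    exact_mod_cast Finset.card_le_univ _
  · funext y
    unfold PD
    rw [mul_assoc]
    congr 1
    by_cases hy : y ∈ H ⊔ D
    · rw [th, if_pos hy]
      obtain ⟨a, ha, d₀, hd₀, rfl⟩ := Subgroup.mem_sup_of_normal_right.1 hy
      rw [h1 a ha d₀ hd₀]
      rw [← Equiv.sum_comp (Equiv.mulLeft ((⟨d₀, hd₀⟩ : D)⁻¹)) (fun d : D => th H ψ (a * d₀ * d))]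
      have h2 : ∀ d : D, th H ψ (a * d₀ * ((Equiv.mulLeft ((⟨d₀, hd₀⟩ : D)⁻¹) d : D) : G)) =
          if (d : G) ∈ H then ep p (ψ a) else 0 := by
        intro d
        have h3 : a * d₀ * ((Equiv.mulLeft ((⟨d₀, hd₀⟩ : D)⁻¹) d : D) : G) = a * d := by
          show a * d₀ * (d₀⁻¹ * (d : G)) = a * d
          group
        rw [h3]
        unfold th
        by_cases hd : (d : G) ∈ H
        · rw [if_pos hd, if_pos (H.mul_mem ha hd), hL a ha d hd, h0 d hd d.2, add_zero]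
        · rw [if_neg hd, if_neg]
          intro h4
          exact hd ((H.mul_mem_cancel_left ha).1 h4)
      rw [Finset.sum_congr rfl fun d _ => h2 d, ← Finset.sum_filter, Finset.sum_const, nsmul_eq_mul]
    · rw [th, if_neg hy, mul_zero]
      refine Finset.sum_eq_zero fun d _ => ?_
      unfold th
      rw [if_neg]
      intro h4
      apply hy
      have h5 : y = (y * d) * (d : G)⁻¹ := by group
      rw [h5]
      exact (H ⊔ D).mul_mem (Subgroup.mem_sup_left h4)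
        (Subgroup.mem_sup_right (D.inv_mem d.2))

/-- the next subgroup and its character of order `p` -/
theorem tel_next {p : ℕ} (hp : p.Prime) (hG : IsPGroup p G) {H M : Subgroup G} (h : H < M) :
    ∃ (H₁ : Subgroup G) (χ : G → ZMod p), H ≤ H₁ ∧ H₁ ≤ M ∧ Nat.card H₁ = p * Nat.card H ∧
      Lc H₁ χ ∧ ∀ y ∈ H₁, (χ y = 0 ↔ y ∈ H) := by
  have hF : Fact p.Prime := ⟨hp⟩
  obtain ⟨n, hn⟩ := (IsPGroup.iff_card (p := p)).1 (hG.to_subgroup H)
  obtain ⟨m, hm⟩ := (IsPGroup.iff_card (p := p)).1 (hG.to_subgroup M)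
  have hlt : Nat.card H < Nat.card M := by
    rcases lt_or_ge (Nat.card H) (Nat.card M) with h1 | h1
    · exact h1
    · exact absurd (Subgroup.eq_of_le_of_card_ge h.le h1) h.ne
  have hnm : n + 1 ≤ m := by
    rw [hn, hm] at hlt
    exact (Nat.pow_lt_pow_iff_right hp.one_lt).1 hlt
  have hc0 : Nat.card (H.subgroupOf M) = p ^ n := by
    rw [← hn]
    exact Nat.card_congr (Subgroup.subgroupOfEquivOfLe h.le).toEquiv
  obtain ⟨L, hL1, hL2⟩ := Sylow.exists_subgroup_card_pow_succ (G := M) (p := p) (n := n)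
    (by rw [hm]; exact pow_dvd_pow p hnm) hc0
  have hle1 : H ≤ L.map M.subtype := by
    intro y hy
    exact ⟨⟨y, h.le hy⟩, hL2 (Subgroup.mem_subgroupOf.2 hy), rfl⟩
  have hle2 : L.map M.subtype ≤ M := Subgroup.map_subtype_le L
  have hcard : Nat.card (L.map M.subtype) = p ^ (n + 1) := by
    rw [← hL1]
    exact (Nat.card_congr (L.equivMapOfInjective M.subtype M.subtype_injective).toEquiv).symm
  obtain ⟨H₁, hH₁⟩ : ∃ H₁ : Subgroup G, H₁ = L.map M.subtype := ⟨_, rfl⟩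
  rw [← hH₁] at hle1 hle2 hcard
  have hidx : (H.subgroupOf H₁).index = p := by
    have h1 := Subgroup.card_mul_index (H.subgroupOf H₁)
    have h2 : Nat.card (H.subgroupOf H₁) = p ^ n := by
      rw [← hn]
      exact Nat.card_congr (Subgroup.subgroupOfEquivOfLe hle1).toEquiv
    rw [h2, hcard, pow_succ] at h1
    exact Nat.eq_of_mul_eq_mul_left (pow_pos hp.pos n) h1
  have hN : (H.subgroupOf H₁).Normal := by
    refine Subgroup.normal_of_index_eq_minFac_card ?_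
    rw [hidx, hcard, hp.pow_minFac (Nat.succ_ne_zero n)]
  have hq : Nat.card (H₁ ⧸ H.subgroupOf H₁) = p := hidx
  obtain e := mulEquivOfPrimeCardEq (p := p) hq
    (show Nat.card (Multiplicative (ZMod p)) = p by rw [Nat.card_congr Multiplicative.toAdd, Nat.card_zmod])
  refine ⟨H₁, fun y => if hy : y ∈ H₁ then Multiplicative.toAdd
    (e (QuotientGroup.mk' (H.subgroupOf H₁) ⟨y, hy⟩)) else 0, hle1, hle2, ?_, ?_, ?_⟩
  · rw [hcard, hn, pow_succ, mul_comm]
  · intro a ha b hb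
    beta_reduce
    rw [dif_pos ha, dif_pos hb, dif_pos (H₁.mul_mem ha hb)]
    have h1 : (⟨a * b, H₁.mul_mem ha hb⟩ : H₁) = ⟨a, ha⟩ * ⟨b, hb⟩ := rfl
    rw [h1, map_mul, map_mul, toAdd_mul]
  · intro y hy
    beta_reduce
    rw [dif_pos hy]
    rw [toAdd_eq_zero, map_eq_one_iff e e.injective, QuotientGroup.mk'_apply,
      QuotientGroup.eq_one_iff, Subgroup.mem_subgroupOf]

theorem tel_one {p : ℕ} (hp : p.Prime) (hG : IsPGroup p G) {D' : Subgroup G} (hD' : D'.Normal) (m : ℕ) :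
    ∀ (H : Subgroup G) (ψ : G → ZMod p), Lc H ψ → (∀ t ∈ H, t ∈ D' → ψ t = 0) →
      Nat.card (H ⊔ D' : Subgroup G) - Nat.card H = m →
      TelS p m 1 (fun H' ψ' => (H ≤ H' ∧ ∀ y ∈ H, ψ' y = ψ y) ∧ ∃ y ∈ H', y ∈ D' ∧ ψ' y ≠ 0)
        (fun y => th H ψ y - PD D' (th H ψ) y) := by
  induction m using Nat.strong_induction_on with
  | _ m ih =>
    intro H ψ hL h0 hm
    by_cases hle : D' ≤ H
    · have h1 : (fun y => th H ψ y - PD D' (th H ψ) y) = fun _ => 0 := by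
        funext y
        have h2 : ∀ d : D', th H ψ (y * d) = th H ψ y := by
          intro d
          unfold th
          by_cases hy : y ∈ H
          · rw [if_pos hy, if_pos (H.mul_mem hy (hle d.2)), hL y hy d (hle d.2), h0 d (hle d.2) d.2,
              add_zero]
          · rw [if_neg hy, if_neg]
            intro h3
            exact hy ((H.mul_mem_cancel_right (hle d.2)).1 h3)
        have h3 : (Fintype.card D' : ℂ) ≠ 0 := by
          exact_mod_cast Fintype.card_ne_zero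
        unfold PD
        rw [Finset.sum_congr rfl fun d _ => h2 d, Finset.sum_const, Finset.card_univ, nsmul_eq_mul,
          inv_mul_cancel_left₀ h3, sub_self]
      rw [h1]
      exact tels_zero
    · have hlt : H < H ⊔ D' := left_lt_sup.2 hle
      obtain ⟨H₁, χ, g1, g2, g3, g4, g5⟩ := tel_next hp hG hlt
      obtain ⟨ψ₁, e1, e2⟩ := tel_ext hD' hL h0
      have e3 : Lc H₁ ψ₁ := fun a ha b hb => e1 a (g2 ha) b (g2 hb)
      have e4 : ∀ y ∈ H, ψ₁ y = ψ y := fun y hy => tel_ext_l e2 hy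
      have e5 : ∀ y ∈ D', ψ₁ y = 0 := fun y hy => tel_ext_r hL e2 hy
      have hsup : H₁ ⊔ D' = H ⊔ D' :=
        le_antisymm (sup_le g2 le_sup_right) (sup_le_sup_right g1 D')
      have hNZ : NeZero p := ⟨hp.ne_zero⟩
      have hF : Fact p.Prime := ⟨hp⟩
      have hp0 : (p : ℂ) ≠ 0 := by exact_mod_cast hp.ne_zero
      -- the points of `H₁` outside `H`
      obtain ⟨y₀, hy₀, hy₀'⟩ : ∃ y₀ ∈ H₁, y₀ ∉ H := by
        by_contra hcon
        push Not at hcon
        have h1 : H₁ = H := le_antisymm hcon g1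
        rw [h1] at g3
        have h2 : 0 < Nat.card H := Nat.card_pos
        have h3 := hp.one_lt
        nlinarith
      obtain ⟨a, ha, d, hd, hady⟩ := Subgroup.mem_sup_of_normal_right.1 (g2 hy₀)
      have hd1 : d ∈ H₁ := by
        have h1 : d = a⁻¹ * y₀ := by
          rw [← hady]
          group
        rw [h1]
        exact H₁.mul_mem (H₁.inv_mem (g1 ha)) hy₀
      have hdχ : χ d ≠ 0 := by
        intro h1
        apply hy₀'
        rw [← hady]
        exact H.mul_mem ha ((g5 d hd1).1 h1)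
      have hLj : ∀ j : ZMod p, Lc H₁ (fun y => ψ₁ y + j * χ y) := by
        intro j a ha b hb
        show ψ₁ (a * b) + j * χ (a * b) = (ψ₁ a + j * χ a) + (ψ₁ b + j * χ b)
        rw [e3 a ha b hb, g4 a ha b hb]
        ring
      have hth : th H ψ = fun y => ∑ j : ZMod p, (p : ℂ)⁻¹ * th H₁ (fun y => ψ₁ y + j * χ y) y := by
        funext y
        rw [← Finset.mul_sum]
        by_cases hy : y ∈ H₁
        · have h1 : ∀ j : ZMod p, th H₁ (fun y => ψ₁ y + j * χ y) y = ep p (ψ₁ y) * ep p (j * χ y) := by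
            intro j
            unfold th
            rw [if_pos hy, ep_add hp]
          rw [Finset.sum_congr rfl fun j _ => h1 j, ← Finset.mul_sum, ep_sum hp]
          by_cases hyH : y ∈ H
          · rw [if_pos ((g5 y hy).2 hyH), e4 y hyH, th, if_pos hyH]
            field_simp
          · rw [if_neg (fun h2 => hyH ((g5 y hy).1 h2)), th, if_neg hyH, mul_zero, mul_zero]
        · have h1 : ∀ j : ZMod p, th H₁ (fun y => ψ₁ y + j * χ y) y = 0 := by
            intro j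
            unfold th
            rw [if_neg hy]
          rw [Finset.sum_congr rfl fun j _ => h1 j, Finset.sum_const_zero, mul_zero, th,
            if_neg fun h2 => hy (g1 h2)]
      have hex : ∀ j : ZMod p, j ≠ 0 → ψ₁ d + j * χ d ≠ 0 := by
        intro j hj
        rw [e5 d hd, zero_add]
        exact mul_ne_zero hj hdχ
      have hzero : (fun y => ψ₁ y + (0 : ZMod p) * χ y) = ψ₁ := by
        funext y
        rw [zero_mul, add_zero]
      have hPD : PD D' (th H ψ) = fun y => (p : ℂ)⁻¹ * PD D' (th H₁ ψ₁) y := by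
        rw [hth, tel_pd_sum]
        funext y
        rw [Finset.sum_eq_single (0 : ZMod p)]
        · rw [hzero]
        · intro j _ hj
          rw [tel_kill hp (hLj j) hd1 hd (hex j hj), mul_zero]
        · intro h1
          exact absurd (Finset.mem_univ _) h1
      have hdec : (fun y => th H ψ y - PD D' (th H ψ) y) = fun y =>
          (p : ℂ)⁻¹ * (th H₁ ψ₁ y - PD D' (th H₁ ψ₁) y) +
            ∑ j ∈ Finset.univ.erase (0 : ZMod p), (p : ℂ)⁻¹ * th H₁ (fun y => ψ₁ y + j * χ y) y := by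
        funext y
        rw [hPD]
        conv_lhs => rw [hth]
        show (∑ j : ZMod p, (p : ℂ)⁻¹ * th H₁ (fun y => ψ₁ y + j * χ y) y) -
          (p : ℂ)⁻¹ * PD D' (th H₁ ψ₁) y = _
        rw [← Finset.add_sum_erase Finset.univ _ (Finset.mem_univ (0 : ZMod p)), hzero]
        ring
      have hpinv : ‖(p : ℂ)⁻¹‖ ≤ 1 := by
        rw [norm_inv, Complex.norm_natCast]
        exact inv_le_one_of_one_le₀ (by exact_mod_cast hp.one_le)
      have hcH : 0 < Nat.card H := Nat.card_pos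
      have hle1 : Nat.card H₁ ≤ Nat.card (H ⊔ D' : Subgroup G) :=
        Nat.card_le_card_of_injective _ (Subgroup.inclusion_injective g2)
      have hpm : (p - 1) + Nat.card H ≤ Nat.card H₁ := by
        rw [g3]
        obtain ⟨q, hq⟩ : ∃ q, p = q + 1 := ⟨p - 1, by have := hp.one_lt; omega⟩
        rw [hq]
        have h1 : q * 1 ≤ q * Nat.card H := Nat.mul_le_mul_left q hcH
        have h2 : (q + 1) * Nat.card H = q * Nat.card H + Nat.card H := by ring
        rw [h2]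
        omega
      have h1lt := hp.one_lt
      have hI := ih (Nat.card (H₁ ⊔ D' : Subgroup G) - Nat.card H₁) (by
        rw [hsup]
        omega) H₁ ψ₁ e3 (fun t _ ht => e5 t ht) rfl
      rw [hdec]
      have hA := tels_smul ((p : ℂ)⁻¹) hI
      have hA' := tels_mono (P' := fun H' ψ' => (H ≤ H' ∧ ∀ y ∈ H, ψ' y = ψ y) ∧
        ∃ y ∈ H', y ∈ D' ∧ ψ' y ≠ 0) (B' := 1) le_rfl (by rwa [mul_one]) (fun H' ψ' h =>
          ⟨⟨g1.trans h.1.1, fun y hy => (h.1.2 y (g1 hy)).trans (e4 y hy)⟩, h.2⟩) hA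
      have hB := tels_sum (p := p) (M := 1) (B := 1) (P := fun H' ψ' => (H ≤ H' ∧ ∀ y ∈ H, ψ' y = ψ y) ∧
        ∃ y ∈ H', y ∈ D' ∧ ψ' y ≠ 0) (Finset.univ.erase (0 : ZMod p))
        (fun j y => (p : ℂ)⁻¹ * th H₁ (fun y => ψ₁ y + j * χ y) y) (fun j hj => by
          refine tels_one hpinv (hLj j) ⟨⟨g1, fun y hy => ?_⟩, d, hd1, hd, hex j (Finset.ne_of_mem_erase hj)⟩
          show ψ₁ y + j * χ y = ψ y
          rw [e4 y hy, (g5 y (g1 hy)).2 hy, mul_zero, add_zero])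
      rw [Finset.sum_const, Finset.card_erase_of_mem (Finset.mem_univ _), Finset.card_univ,
        ZMod.card, smul_eq_mul, mul_one] at hB
      refine tels_mono ?_ le_rfl (fun _ _ h => h) (tels_add hA' hB)
      rw [hsup]
      omega

theorem tel_main {p : ℕ} (hp : p.Prime) (hG : IsPGroup p G) {D D' : Subgroup G} (hD : D.Normal)
    (hD' : D'.Normal) {b : ℕ} (hb : Fintype.card G ≤ b) {H : Subgroup G} {ψ : G → ZMod p}
    (hL : Lc H ψ) : TelS p (b + 1) 1 (fun H' ψ' => (D ≤ H' ∧ ∀ y ∈ D, ψ' y = 0) ∧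
      ∃ y ∈ H', y ∈ D' ∧ ψ' y ≠ 0)
      (fun y => PD D (th H ψ) y - PD D' (PD D (th H ψ)) y) := by
  by_cases h0 : ∀ t ∈ H, t ∈ D → ψ t = 0
  · obtain ⟨ψ₁, e1, e2⟩ := tel_ext hD hL h0
    have e5 : ∀ y ∈ D, ψ₁ y = 0 := fun y hy => tel_ext_r hL e2 hy
    obtain ⟨a, ha, hPD⟩ := tel_th hp hD hL h0 e2
    rw [hPD, tel_pd_mul]
    by_cases h1 : ∀ t ∈ H ⊔ D, t ∈ D' → ψ₁ t = 0
    · have h2 := tel_one hp hG hD' _ (H ⊔ D) ψ₁ e1 h1 rfl
      have h3 := tels_smul a h2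
      have h4 : (fun y => a * th (H ⊔ D) ψ₁ y - (fun y => a * PD D' (th (H ⊔ D) ψ₁) y) y) =
          fun y => a * (th (H ⊔ D) ψ₁ y - PD D' (th (H ⊔ D) ψ₁) y) := by
        funext y
        ring
      rw [h4]
      refine tels_mono ?_ ?_ (fun H' ψ' h => ?_) h3
      · have h5 : Nat.card (H ⊔ D ⊔ D' : Subgroup G) ≤ Nat.card G :=
          Subgroup.card_le_card_group _
        rw [Nat.card_eq_fintype_card (α := G)] at h5
        omega
      · rwa [mul_one]
      · exact ⟨⟨le_sup_right.trans h.1.1, fun y hy =>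
          (h.1.2 y (Subgroup.mem_sup_right hy)).trans (e5 y hy)⟩, h.2⟩
    · push Not at h1
      obtain ⟨t, ht, htD, ht0⟩ := h1
      rw [tel_kill hp e1 ht htD ht0]
      have h4 : (fun y => a * th (H ⊔ D) ψ₁ y - (fun y : G => a * (fun _ => (0 : ℂ)) y) y) =
          fun y => a * th (H ⊔ D) ψ₁ y := by
        funext y
        simp
      rw [h4]
      refine tels_mono (M := 1) (by omega) le_rfl (fun _ _ h => h) ?_
      exact tels_one ha e1 ⟨⟨le_sup_right, e5⟩, t, ht, htD, ht0⟩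
  · push Not at h0
    obtain ⟨t, ht, htD, ht0⟩ := h0
    rw [tel_kill hp hL ht htD ht0, tel_pd_zero]
    simp only [sub_self]
    exact tels_zero

theorem tel {p : ℕ} (hp : p.Prime) (hG : IsPGroup p G) (D D' : Subgroup G) (hD : D.Normal)
    (hD' : D'.Normal) (hDD : D ≤ D') {N b : ℕ} (hb : Fintype.card G ≤ b) {f : G → ℂ}
    (hf : Raw p N f) : Cb p (N * (p * b + 1)) D D' (fun y => PD D f y - PD D' f y) := by
  obtain ⟨c, H, ψ, h1, h2, h5⟩ := hf
  have hp1 : 1 ≤ p := hp.one_le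
  have hDf : PD D f = fun y => ∑ j, c j * PD D (th (H j) (ψ j)) y := by
    have e : f = fun y => ∑ j, c j * th (H j) (ψ j) y := funext h5
    rw [e, tel_pd_sum]
  have hDf' : PD D' f = fun y => ∑ j, c j * PD D' (PD D (th (H j) (ψ j))) y := by
    rw [← pd_comp D D' hDD, hDf, tel_pd_sum]
  have key : ∀ j ∈ (Finset.univ : Finset (Fin N)), TelS p (b + 1) N (fun H' ψ' => (D ≤ H' ∧ ∀ y ∈ D, ψ' y = 0) ∧
      ∃ y ∈ H', y ∈ D' ∧ ψ' y ≠ 0)
      (fun y => c j * (PD D (th (H j) (ψ j)) y - PD D' (PD D (th (H j) (ψ j))) y)) := by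
    intro j _
    have h6 := tel_main hp hG hD hD' hb (h2 j)
    have h7 := tels_smul (c j) h6
    refine tels_mono le_rfl ?_ (fun _ _ h => h) h7
    rw [mul_one]
    exact h1 j
  have h8 := tels_sum Finset.univ _ key
  rw [Finset.sum_const, Finset.card_univ, Fintype.card_fin, smul_eq_mul] at h8
  have h9 : (fun y => PD D f y - PD D' f y) = fun y => ∑ j, c j *
      (PD D (th (H j) (ψ j)) y - PD D' (PD D (th (H j) (ψ j))) y) := by
    funext y
    rw [hDf, hDf', ← Finset.sum_sub_distrib]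
    exact Finset.sum_congr rfl fun j _ => by ring
  rw [h9]
  refine tels_cb ?_ ?_ h8
  · refine Nat.mul_le_mul_left N ?_
    have : 1 * b ≤ p * b := Nat.mul_le_mul_right b hp1
    omega
  · have h10 : N ≤ N * (p * b + 1) := Nat.le_mul_of_pos_right N (Nat.succ_pos _)
    exact_mod_cast h10

end

end H57.GP
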