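import Pool.Agent.H57.GP.Tel

/-!
# [H57 GP IMG] restriction to the image (70-110 lines, pure group theory)

`G₀ = φ.range`. `f₀ y = avg f (y : G)`. `avg f₀ = f₀`: `avg f` is invariant under conjugation (`avg_conj`: change of variable `g ↦ h g`).
`Raw`: `f = ∑ c_j th H_j ψ_j`, so `f₀ y = ∑_g ∑_j (card G)⁻¹ c_j th (H_j^g) (ψ_j^g) y` with `H_j^g = {y : G₀ | g⁻¹ y g ∈ H_j}` (a `Subgroup G₀`: `Subgroup.comap` of `H_j` under
`y ↦ g⁻¹ y g`), `ψ_j^g y = ψ_j (g⁻¹ y g)`; `Lc` is inherited. Number of terms: `N * card G ≤ N * b` (`Fin N × G ≃ Fin (N * card G)`, then `raw_mono`), coefficients `≤ N / card G ≤ N b`.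
`mn`: by definition, the sum over `Finset.univ.filter (· ∈ φ.range)` is the sum over the subtype (`Finset.sum_subtype`, `Fintype.card_subtype`).
`mn_pd`: `mn φ f = PD ⊤ f₀ y` for every `y` (`pd_top`; `avg f₀ = f₀`).
-/

set_option autoImplicit false

open scoped NumberField Pointwise Classical
open IsDedekindDomain H63.MA NumberField H36.QA H57.LI H57.LC H67.SX H38.ML H57.SL

noncomputable section

namespace H57.GP

theorem avg_conj {G : Type} [Group G] [Fintype G] (f : G → ℂ) (y h : G) :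
    avg f (h⁻¹ * y * h) = avg f y := by
  unfold avg
  congr 1
  refine Fintype.sum_equiv (Equiv.mulLeft h) _ _ fun g => ?_
  rw [Equiv.coe_mulLeft]
  congr 1
  group

private theorem img_avg {G : Type} [Group G] [Fintype G] {f : G → ℂ}
    (hf : ∀ y h, f (h⁻¹ * y * h) = f y) (y : G) : avg f y = f y := by
  unfold avg
  rw [Finset.sum_congr rfl fun g _ => hf y g, Finset.sum_const, Finset.card_univ, nsmul_eq_mul,
    ← mul_assoc, inv_mul_cancel₀ (Nat.cast_ne_zero.2 Fintype.card_ne_zero), one_mul]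

private theorem img_raw {p : ℕ} {G : Type} [Group G] [Fintype G] (S : Subgroup G) {N : ℕ}
    {f : G → ℂ} (hf : Raw p N f) : Raw p (N * Fintype.card G) (fun y : S => avg f (y : G)) := by
  obtain ⟨c, H, ψ, hc, hψ, h⟩ := hf
  have hcard : Fintype.card (Fin N × G) = N * Fintype.card G := by
    rw [Fintype.card_prod, Fintype.card_fin]
  let e : Fin N × G ≃ Fin (N * Fintype.card G) := Fintype.equivFinOfCardEq hcard
  have h1 : (1 : ℝ) ≤ Fintype.card G := by
    exact_mod_cast Nat.one_le_iff_ne_zero.2 (Fintype.card_ne_zero (α := G))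
  refine ⟨fun i => (Fintype.card G : ℂ)⁻¹ * c (e.symm i).1,
    fun i => (H (e.symm i).1).comap ((MulAut.conj (e.symm i).2⁻¹).toMonoidHom.comp S.subtype),
    fun i y => ψ (e.symm i).1 ((e.symm i).2⁻¹ * y * (e.symm i).2), fun i => ?_,
    fun i a ha b hb => ?_, fun y => ?_⟩
  · have h2 := hc (e.symm i).1
    rw [norm_mul, norm_inv, Complex.norm_natCast, Nat.cast_mul]
    have h3 : ((Fintype.card G : ℝ))⁻¹ ≤ 1 := inv_le_one_of_one_le₀ h1
    have h4 : (0 : ℝ) ≤ N := Nat.cast_nonneg _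
    have h5 := norm_nonneg (c (e.symm i).1)
    have h6 : ((Fintype.card G : ℝ))⁻¹ * ‖c (e.symm i).1‖ ≤ 1 * ‖c (e.symm i).1‖ :=
      mul_le_mul_of_nonneg_right h3 h5
    nlinarith
  · have ha' : (e.symm i).2⁻¹ * (a : G) * (e.symm i).2 ∈ H (e.symm i).1 := by
      simpa [MulAut.conj_apply] using ha
    have hb' : (e.symm i).2⁻¹ * (b : G) * (e.symm i).2 ∈ H (e.symm i).1 := by
      simpa [MulAut.conj_apply] using hb
    have h2 := hψ _ _ ha' _ hb'
    show ψ _ ((e.symm i).2⁻¹ * ((a * b : S) : G) * (e.symm i).2) = _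
    rw [← h2]
    congr 1
    rw [Subgroup.coe_mul]
    group
  · have h2 : ∀ q : Fin N × G, c q.1 * th (H q.1) (ψ q.1) (q.2⁻¹ * (y : G) * q.2) =
        c q.1 * th ((H q.1).comap ((MulAut.conj q.2⁻¹).toMonoidHom.comp S.subtype))
          (fun y : S => ψ q.1 (q.2⁻¹ * y * q.2)) y := by
      intro q
      congr 1
      unfold th
      have h3 : y ∈ (H q.1).comap ((MulAut.conj q.2⁻¹).toMonoidHom.comp S.subtype) ↔
          q.2⁻¹ * (y : G) * q.2 ∈ H q.1 := by
        simp
      simp only [h3]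
    calc avg f (y : G) = (Fintype.card G : ℂ)⁻¹ * ∑ g : G, ∑ j, c j * th (H j) (ψ j) (g⁻¹ * y * g) := by
          unfold avg
          congr 1
          exact Finset.sum_congr rfl fun g _ => h _
      _ = (Fintype.card G : ℂ)⁻¹ * ∑ q : Fin N × G, c q.1 * th (H q.1) (ψ q.1) (q.2⁻¹ * y * q.2) := by
          rw [Finset.sum_comm, Fintype.sum_prod_type]
      _ = ∑ q : Fin N × G, (Fintype.card G : ℂ)⁻¹ * c q.1 *
            th ((H q.1).comap ((MulAut.conj q.2⁻¹).toMonoidHom.comp S.subtype))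
            (fun y : S => ψ q.1 (q.2⁻¹ * y * q.2)) y := by
          rw [Finset.mul_sum]
          refine Finset.sum_congr rfl fun q _ => ?_
          rw [h2 q, mul_assoc]
      _ = _ := Fintype.sum_equiv e _ _ fun q => by
          simp only [Equiv.symm_apply_apply]

theorem img {p : ℕ} {K : IntermediateField ℚ QBar} [NumberField K] {G : Type} [Group G]
    [Fintype G] (φ : Gal(QBar/K) →* G) {N b : ℕ} (hb : Fintype.card G ≤ b) {f : G → ℂ}
    (hf : Raw p N f) : ∃ f₀ : φ.range → ℂ, Raw p (N * b) f₀ ∧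
      (∀ y : φ.range, avg f₀ y = avg f (y : G)) ∧ ∀ y : φ.range, PD ⊤ f₀ y = mn φ f := by
  refine ⟨fun y => avg f (y : G), raw_mono (Nat.mul_le_mul_left N hb) (img_raw φ.range hf),
    fun y => ?_, fun y => ?_⟩
  · exact img_avg (G := φ.range) (f := fun y => avg f (y : G))
      (fun y h => avg_conj f (y : G) (h : G)) y
  · rw [pd_top]
    unfold mn
    have hm : ∀ x : G, x ∈ Finset.univ.filter (fun y : G => y ∈ φ.range) ↔ x ∈ φ.range := by
      intro x
      rw [Finset.mem_filter]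
      exact ⟨fun h => h.2, fun h => ⟨Finset.mem_univ _, h⟩⟩
    rw [Finset.sum_subtype _ hm, Fintype.card_of_subtype _ hm]

end H57.GP
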