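import Pool.Agent.H57.GP.Dec
import Pool.Agent.H57.GP.Img

/-!
# H57 GP FAM: the data of the black box GP, and the bridge to the image (50-80 lines)

`Fm p b S n φ f`: `φ : Gal(QBar/K) →* G`, `G` a `p`-group with `card G ≤ b`, `φ` unramified outside `S ∪ n`, `f` raw. `DT φ T n`: the subgroup of `G` generated by the images of the inertia groups
at the primes of `n` of norm `> T`.

`dt_img`: let `φ₀ = φ.rangeRestrict : Gal →* φ.range` (onto) and `f₀` with `avg f₀ y = avg f y` for `y ∈ φ.range`. `DT φ T n = (DT φ₀ T n).map φ.range.subtype` (maps of sups: `Subgroup.map_iSup`,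
`Subgroup.map_map`, `φ.range.subtype.comp φ.rangeRestrict = φ`), and the mean over `DT φ T n` of `avg f (y d)` is the mean over `DT φ₀ T n` of `avg f₀ (y d)` (bijection `d ↦ (d : G)`).
`DT φ₀ T n` is normal by `sup_normal`, so with `pd_avg` `PD (DT φ₀ T n) (avg f₀) = avg (PD (DT φ₀ T n) f₀)`.
`fm_img`: `Ft φ₀`, `Ur φ₀ l` if `Ur φ l`, `IsPGroup p φ.range`, `card φ.range ≤ b`.
-/

set_option autoImplicit false

open scoped NumberField Pointwise Classical
open IsDedekindDomain H63.MA NumberField H36.QA H57.LI H57.LC H67.SX H38.ML H57.SL H57.AN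

noncomputable section

namespace H57.GP

variable {K : IntermediateField ℚ QBar} [NumberField K]

/-- one function of the family -/
structure Fm (p b : ℕ) (S n : Finset (Pl K)) {G : Type} [Group G] [Fintype G]
    (φ : Gal(QBar/K) →* G) (f : G → ℂ) : Prop where
  card : Fintype.card G ≤ b
  pg : IsPGroup p G
  ft : Ft φ
  ur : ∀ l, l ∉ S → l ∉ n → Ur φ l
  raw : Raw p b f

/-- generated by the inertia at the primes of `n` of norm `> T` -/
def DT {G : Type} [Group G] (φ : Gal(QBar/K) →* G) (T : ℝ) (n : Finset (Pl K)) : Subgroup G :=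
  ⨆ v ∈ n.filter (fun v => T < (nm v : ℝ)), (Ic v).map φ

theorem fam_dt {G : Type} [Group G] (φ : Gal(QBar/K) →* G) (T : ℝ) (n : Finset (Pl K)) :
    DT φ T n = (DT φ.rangeRestrict T n).map φ.range.subtype := by
  unfold DT
  simp only [Subgroup.map_iSup, Subgroup.map_map, MonoidHom.subtype_comp_rangeRestrict]

theorem fam_pd_map {G : Type} [Group G] [Fintype G] (H : Subgroup G) [Fintype H] (D : Subgroup H)
    (f : G → ℂ) (y : H) :
    PD (D.map H.subtype) f (y : G) = PD D (fun z => f (z : G)) y := by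
  unfold PD
  have hcard : Fintype.card (D.map H.subtype) = Fintype.card D :=
    Fintype.card_congr (D.equivMapOfInjective H.subtype H.subtype_injective).toEquiv.symm
  rw [hcard]
  congr 1
  refine (Fintype.sum_equiv (D.equivMapOfInjective H.subtype H.subtype_injective).toEquiv _ _
    (fun d => ?_)).symm
  rfl

theorem dt_img {G : Type} [Group G] [Fintype G] (φ : Gal(QBar/K) →* G) (T : ℝ)
    (n : Finset (Pl K)) (f : G → ℂ) (f₀ : φ.range → ℂ)
    (h : ∀ y : φ.range, avg f₀ y = avg f (y : G)) (y : φ.range) :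
    PD (DT φ T n) (avg f) (y : G) = avg (PD (DT φ.rangeRestrict T n) f₀) y := by
  have hn : (DT φ.rangeRestrict T n).Normal :=
    sup_normal φ.rangeRestrict φ.rangeRestrict_surjective _
  have h1 : (fun z : φ.range => avg f (z : G)) = avg f₀ := funext fun z => (h z).symm
  rw [fam_dt, fam_pd_map, h1, pd_avg _ hn]

theorem fm_img {p b : ℕ} {S n : Finset (Pl K)} {G : Type} [Group G] [Fintype G]
    {φ : Gal(QBar/K) →* G} {f : G → ℂ} (h : Fm p b S n φ f) :
    Fintype.card φ.range ≤ b ∧ IsPGroup p φ.range ∧ Ft φ.rangeRestrict ∧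
      ∀ l, l ∉ S → l ∉ n → Ur φ.rangeRestrict l := by
  refine ⟨(Fintype.card_le_of_injective _ φ.range.subtype_injective).trans h.card,
    h.pg.to_subgroup _, ?_, ?_⟩
  · obtain ⟨M, hM, hM2⟩ := h.ft
    exact ⟨M, hM, fun σ hσ => Subtype.ext (hM2 σ hσ)⟩
  · intro l h1 h2 P hP hPl τ hτ
    exact Subtype.ext (h.ur l h1 h2 P hP hPl τ hτ)

end H57.GP
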