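import Pool.Agent.H57.GP.Kmp
import Pool.Agent.H57.SL.Diu
import Pool.Agent.H51.CUB.CHI
import Pool.Agent.H1.AR.Knn

/-!
# [H57 GP CHV] the ray class character of a character of order `p` (copy of H57/SL/Chv for `p`)
-/

set_option autoImplicit false

open scoped NumberField Pointwise Classical
open IsDedekindDomain H63.MA NumberField H36.QA H57.LI H57.LC H67.SX H38.ML H57.SL

noncomputable section

namespace H57.GP

section chv

variable {K : IntermediateField ℚ QBar} [NumberField K]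

omit [NumberField K] in
private theorem chv_cl (E : IntermediateField K QBar) : IsAlgClosure E QBar where
  isAlgClosed := inferInstance
  isAlgebraic := Algebra.IsAlgebraic.tower_top (K := K) E

omit [NumberField K] in
private theorem chv_ac (E : IntermediateField K QBar) (ι : E →ₐ[K] QBar) :
    ∃ σ : Gal(QBar/K), ι = ac σ E.val := by
  have hcl : IsAlgClosed QBar := inferInstance
  have halg : Algebra.IsAlgebraic K QBar := IsAlgClosure.isAlgebraic
  have hnorm : Normal K QBar := IsAlgClosure.normal K QBar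
  refine ⟨AlgEquiv.ofBijective (ι.liftNormal QBar) (Algebra.IsAlgebraic.algHom_bijective _), ?_⟩
  ext x
  exact (AlgHom.liftNormal_commutes ι QBar x).symm

omit [NumberField K] in
private theorem chv_smul (σ : Gal(QBar/K)) (a : 𝓞 K) :
    σ • algebraMap (𝓞 K) (𝓞 QBar) a = algebraMap (𝓞 K) (𝓞 QBar) a := by
  apply NumberField.RingOfIntegers.ext
  exact σ.commutes (a : K)

private theorem chv_under (σ : Gal(QBar/K)) (P : Ideal (𝓞 QBar)) :
    (σ⁻¹ • P).under (𝓞 K) = P.under (𝓞 K) := by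
  ext a
  show algebraMap (𝓞 K) (𝓞 QBar) a ∈ σ⁻¹ • P ↔ algebraMap (𝓞 K) (𝓞 QBar) a ∈ P
  rw [Ideal.mem_inv_pointwise_smul_iff, chv_smul]

private theorem chv_nd {p : ℕ} (B : Finset (Pl K)) (l : Pl K) (h3 : ¬ Above p l) (hB : l ∉ B) :
    ¬ l.asIdeal ∣ mB p B := by
  intro hd
  rcases (HeightOneSpectrum.prime l).dvd_or_dvd hd with h1 | h1
  · have h2 : (p : 𝓞 K) ^ 3 ∈ l.asIdeal := Ideal.dvd_span_singleton.1 h1
    exact h3 (l.isPrime.mem_of_pow_mem 3 h2)
  · obtain ⟨w, hwE, h2⟩ := (HeightOneSpectrum.prime l).exists_mem_finset_dvd h1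
    have h3 : w.asIdeal ≤ l.asIdeal := Ideal.le_of_dvd h2
    have h4 : w = l := HeightOneSpectrum.ext (w.isMaximal.eq_of_le l.isPrime.ne_top h3)
    exact hB (h4 ▸ hwE)

private theorem chv_nd2 (E : IntermediateField K QBar) [NumberField E] (J : Ideal (𝓞 K)) (w : Pl E) (l : Pl K)
    (hw : Over w l) (h : w.asIdeal ∣ md J E) : l.asIdeal ∣ J := by
  have h1 : md J E ≤ w.asIdeal := Ideal.le_of_dvd h
  have h2 : J ≤ w.asIdeal.comap (algebraMap (𝓞 K) (𝓞 E)) := Ideal.map_le_iff_le_comap.1 h1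
  rw [show w.asIdeal.comap (algebraMap (𝓞 K) (𝓞 E)) = l.asIdeal from hw] at h2
  exact Ideal.dvd_iff_le.2 h2

private theorem chv_above {p : ℕ} (E : IntermediateField K QBar) [NumberField E] (w : Pl E) (l : Pl K)
    (hw : Over w l) (h : Above p w) : Above p l := by
  unfold Above at h ⊢
  rw [← (show w.asIdeal.comap (algebraMap (𝓞 K) (𝓞 E)) = l.asIdeal from hw), Ideal.mem_comap,
    map_natCast]
  exact h

private theorem chv_mB {p : ℕ} (hp : p.Prime) (B : Finset (Pl K)) : mB p B ≠ ⊥ := by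
  unfold mB
  rw [← Ideal.zero_eq_bot]
  refine mul_ne_zero ?_ (Finset.prod_ne_zero_iff.2 fun v _ => v.ne_bot)
  rw [Ideal.zero_eq_bot, Ne, Ideal.span_singleton_eq_bot]
  exact pow_ne_zero _ (Nat.cast_ne_zero.2 hp.ne_zero)

private theorem chv_md (E : IntermediateField K QBar) [NumberField E] (J : Ideal (𝓞 K)) (h : J ≠ ⊥) : md J E ≠ ⊥ := by
  unfold md
  rw [Ne, Ideal.map_eq_bot_iff_of_injective (FaithfulSMul.algebraMap_injective (𝓞 K) (𝓞 E))]
  exact h

private theorem chv_copr {M : Type} [Field M] [NumberField M] (w : Pl M) (J : Ideal (𝓞 M))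
    (h : ¬ w.asIdeal ∣ J) : IsCoprime w.asIdeal J := by
  rw [Ideal.isCoprime_iff_sup_eq]
  by_contra hne
  have h1 : w.asIdeal = w.asIdeal ⊔ J := w.isMaximal.eq_of_le hne le_sup_left
  exact h (Ideal.dvd_iff_le.2 (by rw [h1]; exact le_sup_right))

end chv

theorem th_IT {p : ℕ} {K : IntermediateField ℚ QBar} [NumberField K] (E : IntermediateField K QBar)
    (θ : Gal(QBar/K) → ZMod p) (B : Finset (Pl K)) (h : Th p E θ B) (l : Pl K)
    (h3 : ¬ Above p l) (hB : l ∉ B) : IT QBar E l := by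
  intro P hP hPl τ hτ ι
  obtain ⟨σ, rfl⟩ := chv_ac E ι
  have hP' : (σ⁻¹ • P).IsPrime := inferInstance
  have hmem : σ⁻¹ * τ * σ ∈ (σ⁻¹ • P).inertia Gal(QBar/K) := by
    intro y
    show (σ⁻¹ * τ * σ) • y - y ∈ σ⁻¹ • P
    rw [Ideal.mem_inv_pointwise_smul_iff, smul_sub, mul_smul, mul_smul, smul_inv_smul]
    exact hτ (σ • y)
  have h1 := (h.unr l h3 hB (σ⁻¹ • P) hP' ((chv_under σ P).trans hPl) _ hmem).1
  ext x
  have h2 := (IntermediateField.mem_fixingSubgroup_iff E _).1 h1 x.1 x.2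
  have h4 : σ ((σ⁻¹ * τ * σ) (x : QBar)) = σ (x : QBar) := congrArg σ h2
  have h5 : σ ((σ⁻¹ * τ * σ) (x : QBar)) = τ (σ (x : QBar)) := by
    rw [← AlgEquiv.mul_apply, ← mul_assoc, ← mul_assoc, mul_inv_cancel, one_mul, AlgEquiv.mul_apply]
  rw [h5] at h4
  exact h4

theorem chv {p : ℕ} (hp : p.Prime) (hp2 : p ≠ 2) {K : IntermediateField ℚ QBar} [NumberField K] {ζ : K}
    (hζ : IsPrimitiveRoot ζ p) (E : IntermediateField K QBar) [NumberField E]
    (θ : Gal(QBar/K) → ZMod p) (B : Finset (Pl K)) (h : Th p E θ B) :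
    ∃ χ : RC E (md (mB p B) E), Vl p E θ B χ ∧
      ((∃ σ ∈ E.fixingSubgroup, θ σ ≠ 0) → Non2 χ) := by
  have hcl : IsAlgClosure E QBar := chv_cl E
  have hζE : IsPrimitiveRoot (algebraMap K E ζ) p := hζ.map_of_injective (algebraMap K E).injective
  have hone : MOne p E := mone_odd hp hp2 E
  obtain ⟨δ, hk, ho⟩ := kmp hp hζ E θ B h
  obtain ⟨lam, hlam, hl1⟩ := exists_rec_one E hp hone hζE
  have h0 : md (mB p B) E ≠ ⊥ := chv_md E _ (chv_mB hp B)
  have h3 : Ideal.span {(p : 𝓞 E) ^ 3} ∣ md (mB p B) E := by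
    have e : md (mB p B) E = Ideal.span {(p : 𝓞 E) ^ 3} * md (∏ v ∈ B, v.asIdeal) E := by
      unfold md mB
      rw [Ideal.map_mul, Ideal.map_span, Set.image_singleton, map_pow, map_natCast]
    rw [e]
    exact dvd_mul_right _ _
  have hb : ∀ w : Pl E, ¬ Above p w → ((ord w δ : ℤ) : ZMod p) ≠ 0 → w.asIdeal ∣ md (mB p B) E := by
    intro w hw3 hw
    by_contra hnd
    apply hw
    refine ho w hw3 fun v hv hvw => hnd ?_
    have h4 : mB p B ≤ v.asIdeal := by
      unfold mB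
      exact Ideal.le_of_dvd ((Finset.dvd_prod_of_mem _ hv).mul_left _)
    have h5 : md (mB p B) E ≤ w.asIdeal := by
      unfold md
      rw [Ideal.map_le_iff_le_comap]
      rw [show w.asIdeal.comap (algebraMap (𝓞 K) (𝓞 E)) = v.asIdeal from hvw]
      exact h4
    exact Ideal.dvd_iff_le.2 h5
  obtain ⟨χ, hχ⟩ := H51.CUB.chi_ex hp hζE hlam δ (md (mB p B) E) h0 h3 hb
  refine ⟨χ, ?_, ?_⟩
  · intro Q l hl3 hlB hnp τ hτ
    have hIT : IT QBar E l := th_IT E θ B h l hl3 hlB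
    have hfix : ac (fr Q l) (ac τ E.val) = ac τ E.val := by
      ext x
      have h2 := (IntermediateField.mem_fixingSubgroup_iff E _).1 hτ x.1 x.2
      have h4 : τ ((τ⁻¹ * fr Q l * τ) (x : QBar)) = τ (x : QBar) := congrArg τ h2
      have h5 : τ ((τ⁻¹ * fr Q l * τ) (x : QBar)) = fr Q l (τ (x : QBar)) := by
        rw [← AlgEquiv.mul_apply, ← mul_assoc, ← mul_assoc, mul_inv_cancel, one_mul, AlgEquiv.mul_apply]
      rw [h5] at h4
      exact h4
    have hnm : nm (pe E Q l (ac τ E.val)) = nm l := (dic_fix E Q l hIT (ac τ E.val)).1 hfix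
    have hov : Over (pe E Q l (ac τ E.val)) l := pe_over E Q l (ac τ E.val)
    obtain ⟨w, hw⟩ : ∃ w : Pl E, w = pe E Q l (ac τ E.val) := ⟨_, rfl⟩
    rw [← hw] at hnm hov ⊢
    have hw3 : ¬ Above p w := fun h => hl3 (chv_above E w l hov h)
    have hlw : lam w = 1 := hl1 w hw3 (hnm ▸ hnp)
    have hnd : ¬ w.asIdeal ∣ md (mB p B) E := fun hd => chv_nd B l hl3 hlB (chv_nd2 E _ w l hov hd)
    have hoz : ((ord w δ : ℤ) : ZMod p) = 0 := ho w hw3 fun v hv hvw =>
      hlB ((HeightOneSpectrum.ext ((show w.asIdeal.comap (algebraMap (𝓞 K) (𝓞 E)) = v.asIdeal from hvw).symm.trans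
        hov) : v = l) ▸ hv)
    obtain ⟨π, hπ⟩ := exists_unif w
    rw [hχ.val w hnd π hπ, hlw, one_mul]
    congr 1
    have hB : H63.MA.B p (algebraMap K E ζ) w δ π =
        lg p (algebraMap K E ζ) w (δ ^ ord w π * (π ^ ord w δ)⁻¹) := rfl
    rw [hB]
    have hu : ord w (δ ^ ord w π * (π ^ ord w δ)⁻¹) = 0 := by
      rw [ord_mul, ord_inv, ord_zpow, ord_zpow]
      ring
    have hPp : (τ⁻¹ • Q.P l).IsPrime := by
      have := Q.prime l
      infer_instance
    have hPw : (τ⁻¹ • Q.P l).under (𝓞 E) = w.asIdeal := by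
      rw [hw]
      ext x
      show algebraMap (𝓞 E) (𝓞 QBar) x ∈ τ⁻¹ • Q.P l ↔ _
      rw [Ideal.mem_inv_pointwise_smul_iff, mem_pe]
      exact Iff.rfl
    have hF : ∀ x : 𝓞 QBar, sE E (τ⁻¹ * fr Q l * τ) hτ • x - x ^ nm w ∈ τ⁻¹ • Q.P l := by
      intro x
      rw [Ideal.mem_inv_pointwise_smul_iff, smul_sub, hnm]
      have h5 := fr_spec Q l (τ • x)
      have h6 : τ • (sE E (τ⁻¹ * fr Q l * τ) hτ • x) = fr Q l • (τ • x) := by
        have h7 : sE E (τ⁻¹ * fr Q l * τ) hτ • x = (τ⁻¹ * fr Q l * τ) • x := rfl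
        rw [h7, mul_smul, mul_smul, smul_inv_smul]
      rw [h6, smul_pow']
      exact h5
    rw [← gfrob_unit hp hζE hw3 (τ⁻¹ • Q.P l) hPp hPw _ hF _ hu, kk_mul_arg hp hζE,
      ← zpow_neg, kk_zpow_arg hp hζE, kk_zpow_arg hp hζE, hk, hπ]
    push_cast
    rw [hoz]
    ring
  · rintro ⟨σ, hσ, hθ⟩
    have hpow : ¬ IsPow p δ := by
      intro hq
      apply hθ
      rw [← hk σ hσ]
      exact (kk_eq_zero_iff (Ω := QBar) hp hζE δ).2 hq _
    obtain ⟨w, hwE, hw3, hwp, ho0, hlg⟩ := H1.AR.knn hp hone hζE hpow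
      (Ideal.finite_factors h0).toFinset
    have hnd : ¬ w.asIdeal ∣ md (mB p B) E := fun hd => hwE ((Set.Finite.mem_toFinset _).2 hd)
    obtain ⟨π, hπ⟩ := exists_unif w
    refine ⟨w.asIdeal, w.ne_bot, chv_copr w _ hnd, ?_⟩
    rw [hχ.val w hnd π hπ, hl1 w hw3 hwp, one_mul, sq, ← ep_add hp, Ne, ep_eq_one hp]
    unfold H63.MA.B
    rw [hπ, ho0, zpow_zero, inv_one, mul_one, zpow_one]
    intro h2
    rw [← two_mul] at h2
    have hf : Fact p.Prime := ⟨hp⟩
    rcases mul_eq_zero.1 h2 with h3 | h3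
    · have h4 : ((2 : ℕ) : ZMod p) = 0 := by exact_mod_cast h3
      rw [ZMod.natCast_eq_zero_iff] at h4
      exact hp2 ((Nat.prime_dvd_prime_iff_eq hp Nat.prime_two).1 h4)
    · exact hlg h3

theorem Non2.non {F : Type} [Field F] [NumberField F] {𝔣 : Ideal (𝓞 F)} {χ : RC F 𝔣}
    (h : Non2 χ) : χ.Non := by
  obtain ⟨I, h1, h2, h3⟩ := h
  exact ⟨I, h1, h2, fun h4 => h3 (by rw [h4, one_pow])⟩

theorem mB_ne {p : ℕ} (hp : p.Prime) {K : IntermediateField ℚ QBar} [NumberField K] (B : Finset (Pl K)) :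
    mB p B ≠ ⊥ := by
  exact chv_mB hp B

theorem mB_norm (p : ℕ) {K : IntermediateField ℚ QBar} [NumberField K]
    (E : IntermediateField K QBar) [NumberField E] (B : Finset (Pl K)) :
    (Ideal.absNorm (md (mB p B) E) : ℝ) =
      (((p : ℝ) ^ 3) ^ Module.finrank ℚ K * nr B) ^ Module.finrank K E := by
  have h1 : Ideal.absNorm (md (mB p B) E) = Ideal.absNorm (mB p B) ^ Module.finrank K E := by
    unfold md
    rw [Ideal.absNorm_algebraMap]
    congr 1
    exact (IsFractionRing.finrank_eq (𝓞 K) K (𝓞 E) E).symm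
  have h2 : (Ideal.absNorm (mB p B) : ℝ) = ((p : ℝ) ^ 3) ^ Module.finrank ℚ K * nr B := by
    unfold mB nr
    have h3 : Ideal.absNorm (Ideal.span {(p : 𝓞 K) ^ 3}) = (p ^ 3) ^ Module.finrank ℚ K := by
      rw [← Nat.cast_pow, Ideal.absNorm_span_natCast, RingOfIntegers.rank]
    rw [map_mul, map_prod, h3]
    push_cast
    rfl
  rw [h1]
  push_cast
  rw [h2]

end H57.GP
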