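import Pool.Agent.H57.GP.Cmc
import Pool.Agent.H57.SL.Ast
import Pool.Agent.H57.LC.Hyp

/-!
# [H57 GP LST] multiplicative functions given by a list of ray class characters (150-220 lines)

The model is `H57/SL/Ast` (`ast1`: one character, `ast2`: two characters) and `H57/LC/Asm`; new: a list of `m ≤ N` fields and characters, complex values.

`Pkg K e η δ E D g`: a multiplicative model of `g`: a `GM`, a character `ψ` of it, norms `nm (u q) ^ f q`, fibres of `u` of at most `e` elements,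
the sum of `ψ` over the `q` with `u q = l`, `f q = 1` is `g l` for ALL `l`, `Cnt`, and the power saving.
* `pkg1`: one field: `G = idG E`, `ψ = rch χ`, `u = bel K`, `f = rdg K` (`bel_over`, `bel_card`, `bel_set`, `rdg_spec`, `idG_Npr`, `idG_cnt`, `idG_W`), the power
  saving is `H1.LS4.ics n hn` (see `asm1`, `ast1`: same proof): `D = C (dd E N𝔣)^A`, `δ` depends only on `n`. Take the worst `C, A, δ` over the degrees `1 ≤ n' ≤ n`.
* `pkg2`: two packages with the same `e, η, δ, E, D` (`η = δ / 2`, `E, D ≥ 1`) give a package for `g + g'`: `G.prod G'`, `pch ψ ψ'`, `u = Sum.elim u u'`,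
  `f = Sum.elim f f'` (`prod_N`, `pch_apply`, `hyp2`, `cnt_prod`); fibres: `2 e`; the sum over `π ⊕ π'` splits (as in the proof of `ast2`).
  To be able to iterate, `Cnt E η` with `η` as small as we want: `pkg1` gives it for every `η > 0` (constant depending on `η`), `cnt_prod` doubles `η`, and
  `Cnt` is monotone in `η` (`m ≥ 1`).
* `lst`: by induction on `m` from `1` to `N` (`Fin (m + 1)`: `Fin.castSucc` and the last one): for all `η > 0` there are constants `C, A, δ_m, e_m` such that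
  there is a package with `δ = δ_m`, `e = e_m`, `E = C`, `D = C (∏ dd N𝔣)^A` and `g = ∑ i, d1 K (ψ i).χ`. Every factor `dd N𝔣` is `≥ 1`.
  Then `cmc` with `Th = {l | ¬ (nm l).Prime}` (`thn K` of `H57/SL/Ast`).
-/

set_option autoImplicit false

open scoped NumberField nonZeroDivisors Classical
open IsDedekindDomain H63.MA NumberField H36.QA H57.LI H57.LC H57.SL

noncomputable section

namespace H57.GP

/-- a multiplicative model of the function `g` on the primes of `K` -/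
def Pkg (K : Type) [Field K] [NumberField K] (e : ℕ) (η δ E D : ℝ) (g : Pl K → ℂ) : Prop :=
  ∃ (𝓘 π : Type) (_ : CommMonoid 𝓘) (G : GM 𝓘 π) (ψ : 𝓘 →* ℂ) (u : π → Pl K) (f : π → ℕ),
    (∀ I, ‖ψ I‖ ≤ 1) ∧ (∀ q, 1 ≤ f q) ∧ (∀ q, G.N (G.pr q) = nm (u q) ^ f q) ∧
    (∀ l, {q | u q = l}.Finite ∧ {q | u q = l}.ncard ≤ e) ∧
    (∀ l, ∑ᶠ q ∈ {q | u q = l ∧ f q = 1}, ψ (G.pr q) = g l) ∧ G.Cnt E η ∧
    ∀ M : ℝ, 1 ≤ M → ‖G.W ψ M‖ ≤ D * M ^ (1 - δ)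

private theorem norm_ge {E : Type} [Field E] [NumberField E] {𝔣 : Ideal (𝓞 E)} (h𝔣 : 𝔣 ≠ ⊥) :
    1 ≤ dd E * (Ideal.absNorm 𝔣 : ℝ) := by
  have h : Ideal.absNorm 𝔣 ≠ 0 := fun h => h𝔣 (Ideal.absNorm_eq_zero_iff.1 h)
  have h1 : (1 : ℝ) ≤ Ideal.absNorm 𝔣 := by exact_mod_cast Nat.one_le_iff_ne_zero.2 h
  exact one_le_mul_of_one_le_of_one_le (one_le_dd E) h1

private theorem ics_le (n : ℕ) : ∃ (C : ℝ) (A : ℕ) (δ : ℝ), 1 ≤ C ∧ 0 < δ ∧ δ ≤ 1 / 4 ∧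
    ∀ (E : Type) [Field E] [NumberField E],
    NumberField.IsTotallyComplex E ∧ Module.finrank ℚ E ≤ n →
    ∀ 𝔣 : Ideal (𝓞 E), 𝔣 ≠ ⊥ → ∀ ψ : RC E 𝔣, ψ.Non → ∀ M : ℝ, 1 ≤ M →
      ‖∑ I ∈ IN E M, ψ.χ I‖ ≤ C * (dd E * Ideal.absNorm 𝔣) ^ A * M ^ (1 - δ) := by
  induction n with
  | zero =>
    refine ⟨1, 0, 1 / 4, le_rfl, by norm_num, le_rfl, ?_⟩
    intro E _ _ hE
    have : 0 < Module.finrank ℚ E := Module.finrank_pos
    omega
  | succ n ih =>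
    obtain ⟨C₁, A₁, δ₁, hC₁, hδ₁, hδ₁', h1⟩ := ih
    obtain ⟨C₂, A₂, δ₂, hC₂, hδ₂, hδ₂', h2⟩ := H1.LS4.ics (n + 1) (by omega)
    refine ⟨max C₁ C₂, A₁ + A₂, min δ₁ δ₂, hC₁.trans (le_max_left _ _), lt_min hδ₁ hδ₂,
      (min_le_left _ _).trans hδ₁', ?_⟩
    intro E _ _ hE 𝔣 h𝔣 ψ hψ M hM
    have ha := norm_ge h𝔣
    have ha0 : 0 ≤ dd E * (Ideal.absNorm 𝔣 : ℝ) := by linarith
    have hC0 : 0 ≤ max C₁ C₂ := by
      have := le_max_left C₁ C₂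
      linarith
    rcases Nat.lt_or_ge (Module.finrank ℚ E) (n + 1) with h | h
    · refine (h1 E ⟨hE.1, by omega⟩ 𝔣 h𝔣 ψ hψ M hM).trans ?_
      refine mul_le_mul (mul_le_mul (le_max_left _ _) (pow_le_pow_right₀ ha (by omega))
        (by positivity) hC0) (Real.rpow_le_rpow_of_exponent_le hM ?_) (by positivity)
        (by positivity)
      have := min_le_left δ₁ δ₂
      linarith
    · refine (h2 E ⟨hE.1, le_antisymm hE.2 h⟩ 𝔣 h𝔣 ψ hψ M hM).trans ?_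
      refine mul_le_mul (mul_le_mul (le_max_right _ _) (pow_le_pow_right₀ ha (by omega))
        (by positivity) hC0) (Real.rpow_le_rpow_of_exponent_le hM ?_) (by positivity)
        (by positivity)
      have := min_le_right δ₁ δ₂
      linarith

private theorem cnt_le (n : ℕ) (η : ℝ) (hη : 0 < η) : ∃ C : ℝ, 1 ≤ C ∧
    ∀ (F : Type) [Field F] [NumberField F], Module.finrank ℚ F ≤ n → (idG F).Cnt C η := by
  induction n with
  | zero =>
    refine ⟨1, le_rfl, ?_⟩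
    intro E _ _ hE
    have : 0 < Module.finrank ℚ E := Module.finrank_pos
    omega
  | succ n ih =>
    obtain ⟨C₁, hC₁, h1⟩ := ih
    obtain ⟨C₂, hC₂, h2⟩ := idG_cnt (n + 1) (by omega) η hη
    refine ⟨max C₁ C₂, hC₁.trans (le_max_left _ _), ?_⟩
    intro F _ _ hF m hm
    rcases Nat.lt_or_ge (Module.finrank ℚ F) (n + 1) with h | h
    · exact (h1 F (by omega) m hm).trans (mul_le_mul_of_nonneg_right (le_max_left _ _)
        (by positivity))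
    · exact (h2 F (le_antisymm hF h) m hm).trans (mul_le_mul_of_nonneg_right (le_max_right _ _)
        (by positivity))

private theorem cnt_mono {𝓘 π : Type} [CommMonoid 𝓘] {G : GM 𝓘 π} {E E' η η' : ℝ}
    (h : G.Cnt E η) (hE : E ≤ E') (hE' : 0 ≤ E') (hη : η ≤ η') : G.Cnt E' η' := by
  intro m hm
  have hm1 : (1 : ℝ) ≤ m := by exact_mod_cast hm
  refine (h m hm).trans (mul_le_mul hE (Real.rpow_le_rpow_of_exponent_le hm1 hη) (by positivity) hE')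

private theorem pkg_mono {K : Type} [Field K] [NumberField K] {e e' : ℕ}
    {η η' δ δ' E E' D D' : ℝ} {g : Pl K → ℂ} (h : Pkg K e η δ E D g) (he : e ≤ e') (hη : η ≤ η')
    (hδ : δ' ≤ δ) (hE : E ≤ E') (hE' : 0 ≤ E') (hD : D ≤ D') (hD' : 0 ≤ D') :
    Pkg K e' η' δ' E' D' g := by
  obtain ⟨𝓘, π, i, G, ψ, u, f, a1, a2, a3, a4, a5, a6, a7⟩ := h
  refine ⟨𝓘, π, i, G, ψ, u, f, a1, a2, a3, fun l => ⟨(a4 l).1, (a4 l).2.trans he⟩, a5,
    cnt_mono a6 hE hE' hη, ?_⟩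
  intro M hM
  refine (a7 M hM).trans (mul_le_mul hD (Real.rpow_le_rpow_of_exponent_le hM (by linarith))
    (by positivity) hD')

private theorem pkg_one (K : Type) [Field K] [NumberField K] (n : ℕ) : ∃ (A : ℕ) (δ : ℝ),
    0 < δ ∧ δ ≤ 1 / 4 ∧ ∀ η : ℝ, 0 < η → ∃ C : ℝ, 1 ≤ C ∧
    ∀ (E : Type) [Field E] [NumberField E] [Algebra K E],
    NumberField.IsTotallyComplex E ∧ Module.finrank ℚ E ≤ n →
    ∀ 𝔣 : Ideal (𝓞 E), 𝔣 ≠ ⊥ → ∀ ψ : RC E 𝔣, ψ.Non →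
      Pkg K n η δ C (C * (dd E * Ideal.absNorm 𝔣) ^ A) (d1 K ψ.χ) := by
  obtain ⟨C₁, A, δ, hC₁, hδ, hδ1, h1⟩ := ics_le n
  refine ⟨A, δ, hδ, hδ1, fun η hη => ?_⟩
  obtain ⟨C₂, hC₂, h2⟩ := cnt_le n η hη
  refine ⟨max C₁ C₂, hC₁.trans (le_max_left _ _), ?_⟩
  intro E _ _ _ hE 𝔣 h𝔣 ψ hψ
  have ha := norm_ge h𝔣
  have ha0 : 0 ≤ dd E * (Ideal.absNorm 𝔣 : ℝ) := by linarith
  have hC0 : 0 ≤ max C₁ C₂ := by
    have := le_max_left C₁ C₂
    linarith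
  refine ⟨(Ideal (𝓞 E))⁰, Pl E, inferInstance, idG E, rch ψ, bel K, rdg K, rch_norm ψ,
    fun q => (rdg_spec q).1, fun q => by rw [idG_Npr]; exact (rdg_spec q).2, fun l => ?_,
    fun l => ?_, cnt_mono (h2 E hE.2) (le_max_right _ _) hC0 le_rfl, fun M hM => ?_⟩
  · have h := bel_card (K := K) (E := E) l
    exact ⟨h.1, h.2.trans hE.2⟩
  · rw [bel_set]
    rfl
  · rw [idG_W ψ M (by linarith)]
    refine (h1 E hE 𝔣 h𝔣 ψ hψ M hM).trans ?_
    refine mul_le_mul_of_nonneg_right (mul_le_mul_of_nonneg_right (le_max_left _ _)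
      (by positivity)) (by positivity)

private theorem pkg_add (δ η : ℝ) (hδ : 0 < δ) (hδ1 : δ ≤ 1 / 4) (hη : 0 < η) (hη1 : η ≤ δ / 2) :
    ∃ C : ℝ, 1 ≤ C ∧ ∀ (K : Type) [Field K] [NumberField K] (e e' : ℕ) (E D : ℝ)
      (g g' : Pl K → ℂ), 1 ≤ E → 1 ≤ D → Pkg K e η δ E D g → Pkg K e' η δ E D g' →
      Pkg K (e + e') (2 * η) (δ / 4) (C * E ^ 2) (C * (E * D ^ 2)) (fun l => g l + g' l) := by
  obtain ⟨C₁, hC₁, h1⟩ := hyp2 δ hδ hδ1
  obtain ⟨C₂, hC₂, h2⟩ := cnt_prod η hη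
  refine ⟨C₁ * C₂, one_le_mul_of_one_le_of_one_le hC₁ hC₂, ?_⟩
  rintro K _ _ e e' E D g g' hE hD ⟨𝓘, π, _, G, ψ, u, f, a1, a2, a3, a4, a5, a6, a7⟩
    ⟨𝓘', π', _, G', ψ', u', f', b1, b2, b3, b4, b5, b6, b7⟩
  have hset : ∀ (P1 : π → Prop) (P2 : π' → Prop) (Q : π ⊕ π' → Prop),
      (∀ w, Q (Sum.inl w) ↔ P1 w) → (∀ w, Q (Sum.inr w) ↔ P2 w) →
      {q | Q q} = (Sum.inl '' {w | P1 w}) ∪ (Sum.inr '' {w | P2 w}) := by
    intro P1 P2 Q h1 h2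
    ext q
    rcases q with w | w <;> simp [h1, h2]
  have hE0 : 0 ≤ E := by linarith
  refine ⟨𝓘 × 𝓘', π ⊕ π', inferInstance, G.prod G', pch ψ ψ', Sum.elim u u', Sum.elim f f',
    ?_, ?_, ?_, ?_, ?_, ?_, ?_⟩
  · rintro ⟨I, J⟩
    rw [pch_apply, norm_mul]
    exact mul_le_one₀ (a1 I) (norm_nonneg _) (b1 J)
  · rintro (w | w)
    · exact a2 w
    · exact b2 w
  · rintro (w | w)
    · have h : (G.prod G').N ((G.prod G').pr (Sum.inl w)) = G.N (G.pr w) * G'.N 1 := rfl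
      rw [h, map_one, mul_one]
      exact a3 w
    · have h : (G.prod G').N ((G.prod G').pr (Sum.inr w)) = G.N 1 * G'.N (G'.pr w) := rfl
      rw [h, map_one, one_mul]
      exact b3 w
  · intro l
    rw [hset (fun w => u w = l) (fun w => u' w = l) (fun q => Sum.elim u u' q = l)
      (fun _ => Iff.rfl) (fun _ => Iff.rfl)]
    refine ⟨((a4 l).1.image _).union ((b4 l).1.image _), (Set.ncard_union_le _ _).trans ?_⟩
    have e1 := Set.ncard_image_le (f := (Sum.inl : π → π ⊕ π')) (a4 l).1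
    have e2 := Set.ncard_image_le (f := (Sum.inr : π' → π ⊕ π')) (b4 l).1
    have e3 := (a4 l).2
    have e4 := (b4 l).2
    omega
  · intro l
    show _ = g l + g' l
    have hSf1 : {w : π | u w = l ∧ f w = 1}.Finite := (a4 l).1.subset fun w hw => hw.1
    have hSf2 : {w : π' | u' w = l ∧ f' w = 1}.Finite := (b4 l).1.subset fun w hw => hw.1
    rw [hset (fun w => u w = l ∧ f w = 1) (fun w => u' w = l ∧ f' w = 1)
      (fun q => Sum.elim u u' q = l ∧ Sum.elim f f' q = 1) (fun _ => Iff.rfl) (fun _ => Iff.rfl),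
      ← a5 l, ← b5 l]
    have hd1 : Disjoint (Sum.inl '' {w : π | u w = l ∧ f w = 1} : Set (π ⊕ π'))
        (Sum.inr '' {w : π' | u' w = l ∧ f' w = 1}) := by
      rw [Set.disjoint_left]
      rintro q ⟨_, _, rfl⟩ ⟨_, _, h⟩
      simp at h
    rw [finsum_mem_union hd1 (hSf1.image _) (hSf2.image _),
      finsum_mem_image Sum.inl_injective.injOn, finsum_mem_image Sum.inr_injective.injOn]
    congr 1
    · refine finsum_mem_congr rfl fun w _ => ?_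
      show ψ (G.pr w) * ψ' 1 = _
      rw [map_one, mul_one]
    · refine finsum_mem_congr rfl fun w _ => ?_
      show ψ 1 * ψ' (G'.pr w) = _
      rw [map_one, one_mul]
  · refine cnt_mono (h2 𝓘 π 𝓘' π' G G' E hE a6 b6) ?_ (by positivity) le_rfl
    refine mul_le_mul_of_nonneg_right (le_mul_of_one_le_left (by linarith) hC₁) (by positivity)
  · intro M hM
    refine (h1 𝓘 π 𝓘' π' G G' ψ ψ' E D hE hD a1 b1 (cnt_mono a6 le_rfl hE0 hη1)
      (cnt_mono b6 le_rfl hE0 hη1) a7 b7 M hM).trans ?_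
    refine mul_le_mul_of_nonneg_right ?_ (by positivity)
    refine mul_le_mul_of_nonneg_right (le_mul_of_one_le_right (by linarith) hC₂) (by positivity)

/-- the hypotheses on the list -/
private def Good (K : Type) [Field K] [NumberField K] (n m : ℕ) (e : ℕ) (A : ℕ) (η δ C : ℝ) : Prop :=
  ∀ (E : Fin m → Type) [∀ i, Field (E i)] [∀ i, NumberField (E i)] [∀ i, Algebra K (E i)],
    (∀ i, NumberField.IsTotallyComplex (E i) ∧ Module.finrank ℚ (E i) ≤ n) →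
    ∀ (𝔣 : ∀ i, Ideal (𝓞 (E i))), (∀ i, 𝔣 i ≠ ⊥) → ∀ ψ : ∀ i, RC (E i) (𝔣 i),
    (∀ i, (ψ i).Non) → Pkg K e η δ C (C * (∏ i, (dd (E i) * Ideal.absNorm (𝔣 i))) ^ A)
      (fun l => ∑ i, d1 K (ψ i).χ l)

private theorem prod_ge {m : ℕ} {E : Fin m → Type} [∀ i, Field (E i)] [∀ i, NumberField (E i)]
    {𝔣 : ∀ i, Ideal (𝓞 (E i))} (h𝔣 : ∀ i, 𝔣 i ≠ ⊥) :
    1 ≤ ∏ i, (dd (E i) * (Ideal.absNorm (𝔣 i) : ℝ)) := by
  have h := Finset.prod_le_prod (s := Finset.univ) (f := fun _ : Fin m => (1 : ℝ))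
    (g := fun i => dd (E i) * (Ideal.absNorm (𝔣 i) : ℝ)) (fun _ _ => zero_le_one)
    (fun i _ => norm_ge (h𝔣 i))
  rwa [Finset.prod_const_one] at h

private theorem lst_ind (K : Type) [Field K] [NumberField K] (n m : ℕ) :
    ∃ (e A : ℕ) (δ : ℝ), 0 < δ ∧ δ ≤ 1 / 4 ∧ ∀ η : ℝ, 0 < η → ∃ C : ℝ, 1 ≤ C ∧
      Good K n (m + 1) e A η δ C := by
  obtain ⟨A₁, δ₁, hδ₁, hδ₁', h1⟩ := pkg_one K n
  induction m with
  | zero =>
    refine ⟨n, A₁, δ₁, hδ₁, hδ₁', fun η hη => ?_⟩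
    obtain ⟨C, hC, h⟩ := h1 η hη
    refine ⟨C, hC, ?_⟩
    intro E _ _ _ hE 𝔣 h𝔣 ψ hψ
    have h2 := h (E 0) (hE 0) (𝔣 0) (h𝔣 0) (ψ 0) (hψ 0)
    have e1 : (fun l => ∑ i : Fin (0 + 1), d1 K (ψ i).χ l) = d1 K (ψ 0).χ := by
      funext l
      exact Fin.sum_univ_one _
    have e2 : ∏ i : Fin (0 + 1), (dd (E i) * (Ideal.absNorm (𝔣 i) : ℝ)) =
        dd (E 0) * Ideal.absNorm (𝔣 0) := Fin.prod_univ_one _
    rw [e1, e2]
    exact h2
  | succ m ih =>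
    obtain ⟨e, A, δ₂, hδ₂, hδ₂', h2⟩ := ih
    obtain ⟨δ, hδd⟩ : ∃ δ : ℝ, δ = min δ₁ δ₂ := ⟨_, rfl⟩
    have hδ : 0 < δ := by rw [hδd]; exact lt_min hδ₁ hδ₂
    have hδa : δ ≤ δ₁ := by rw [hδd]; exact min_le_left _ _
    have hδb : δ ≤ δ₂ := by rw [hδd]; exact min_le_right _ _
    refine ⟨e + n, (A + A₁) * 2, δ / 4, by positivity, by linarith, fun η hη => ?_⟩
    obtain ⟨η', hη'⟩ : ∃ η' : ℝ, η' = min (η / 2) (δ / 2) := ⟨_, rfl⟩
    have hη0 : 0 < η' := by rw [hη']; exact lt_min (by positivity) (by positivity)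
    have hηa : η' ≤ η / 2 := by rw [hη']; exact min_le_left _ _
    have hηb : η' ≤ δ / 2 := by rw [hη']; exact min_le_right _ _
    obtain ⟨C₁, hC₁, g1⟩ := h1 η' hη0
    obtain ⟨C₂, hC₂, g2⟩ := h2 η' hη0
    obtain ⟨C₃, hC₃, g3⟩ := pkg_add δ η' hδ (by linarith) hη0 hηb
    obtain ⟨F, hF⟩ : ∃ F : ℝ, F = C₁ * C₂ := ⟨_, rfl⟩
    have hF1 : 1 ≤ F := by rw [hF]; exact one_le_mul_of_one_le_of_one_le hC₁ hC₂
    have hFa : C₁ ≤ F := by rw [hF]; exact le_mul_of_one_le_right (by linarith) hC₂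
    have hFb : C₂ ≤ F := by rw [hF]; exact le_mul_of_one_le_left (by linarith) hC₁
    refine ⟨C₃ * F ^ 3, one_le_mul_of_one_le_of_one_le hC₃ (one_le_pow₀ hF1), ?_⟩
    intro E _ _ _ hE 𝔣 h𝔣 ψ hψ
    have k2 := g2 (fun i => E i.castSucc) (fun i => hE _) (fun i => 𝔣 i.castSucc) (fun i => h𝔣 _)
      (fun i => ψ i.castSucc) (fun i => hψ _)
    have k1 := g1 (E (Fin.last _)) (hE _) (𝔣 (Fin.last _)) (h𝔣 _) (ψ (Fin.last _)) (hψ _)
    obtain ⟨a, ha⟩ : ∃ a : ℝ, a = ∏ i : Fin (m + 1), (dd (E i.castSucc) *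
      (Ideal.absNorm (𝔣 i.castSucc) : ℝ)) := ⟨_, rfl⟩
    obtain ⟨a', ha'⟩ : ∃ a' : ℝ, a' = dd (E (Fin.last _)) *
      (Ideal.absNorm (𝔣 (Fin.last (m + 1))) : ℝ) := ⟨_, rfl⟩
    have ha1 : 1 ≤ a := by rw [ha]; exact prod_ge (fun i => h𝔣 i.castSucc)
    have ha1' : 1 ≤ a' := by rw [ha']; exact norm_ge (h𝔣 _)
    have haa : 1 ≤ a * a' := one_le_mul_of_one_le_of_one_le ha1 ha1'
    rw [← ha] at k2
    rw [← ha'] at k1
    have hF0 : 0 ≤ F := by linarith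
    have hD1 : 1 ≤ F * (a * a') ^ (A + A₁) :=
      one_le_mul_of_one_le_of_one_le hF1 (one_le_pow₀ haa)
    have hD0 : 0 ≤ F * (a * a') ^ (A + A₁) := by linarith
    have p2 : a ^ A ≤ (a * a') ^ (A + A₁) :=
      calc a ^ A ≤ (a * a') ^ A :=
            pow_le_pow_left₀ (by linarith) (le_mul_of_one_le_right (by linarith) ha1') _
        _ ≤ (a * a') ^ (A + A₁) := pow_le_pow_right₀ haa (by omega)
    have p1 : a' ^ A₁ ≤ (a * a') ^ (A + A₁) :=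
      calc a' ^ A₁ ≤ (a * a') ^ A₁ :=
            pow_le_pow_left₀ (by linarith) (le_mul_of_one_le_left (by linarith) ha1) _
        _ ≤ (a * a') ^ (A + A₁) := pow_le_pow_right₀ haa (by omega)
    have l2 : Pkg K e η' δ F (F * (a * a') ^ (A + A₁))
        (fun l => ∑ i : Fin (m + 1), d1 K (ψ i.castSucc).χ l) :=
      pkg_mono k2 le_rfl le_rfl hδb hFb hF0 (mul_le_mul hFb p2 (by positivity) hF0) hD0
    have l1 : Pkg K n η' δ F (F * (a * a') ^ (A + A₁)) (d1 K (ψ (Fin.last (m + 1))).χ) :=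
      pkg_mono k1 le_rfl le_rfl hδa hFa hF0 (mul_le_mul hFa p1 (by positivity) hF0) hD0
    have l3 := g3 K e n F _ _ _ hF1 hD1 l2 l1
    have e1 : (fun l => ∑ i : Fin (m + 1 + 1), d1 K (ψ i).χ l) =
        fun l => (∑ i : Fin (m + 1), d1 K (ψ i.castSucc).χ l) + d1 K (ψ (Fin.last (m + 1))).χ l := by
      funext l
      exact Fin.sum_univ_castSucc _
    have e2 : ∏ i : Fin (m + 1 + 1), (dd (E i) * (Ideal.absNorm (𝔣 i) : ℝ)) = a * a' := by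
      rw [ha, ha']
      exact Fin.prod_univ_castSucc _
    rw [e1, e2]
    refine pkg_mono l3 le_rfl (by linarith) le_rfl ?_ (by positivity) ?_ (by positivity)
    · refine mul_le_mul_of_nonneg_left (pow_le_pow_right₀ hF1 (by norm_num)) (by linarith)
    · refine le_of_eq ?_
      rw [pow_mul]
      ring

theorem lst (K : Type) [Field K] [NumberField K] (N n : ℕ) (b : ℝ) (hb : 0 ≤ b) :
    ∃ (C : ℝ) (A : ℕ) (δ : ℝ), 1 ≤ C ∧ 0 < δ ∧ δ ≤ 1 / 4 ∧ ∀ m : ℕ, 1 ≤ m → m ≤ N →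
      ∀ (E : Fin m → Type) [∀ i, Field (E i)] [∀ i, NumberField (E i)] [∀ i, Algebra K (E i)],
      (∀ i, NumberField.IsTotallyComplex (E i) ∧ Module.finrank ℚ (E i) ≤ n) →
      ∀ (𝔣 : ∀ i, Ideal (𝓞 (E i))), (∀ i, 𝔣 i ≠ ⊥) → ∀ ψ : ∀ i, RC (E i) (𝔣 i),
      (∀ i, (ψ i).Non) → ∀ g : Pl K → ℂ, (∀ l, ‖g l‖ ≤ b) → ∀ Bd : Finset (Pl K),
      (∀ l, l ∉ Bd → (nm l).Prime → ∑ i, d1 K (ψ i).χ l = g l) → ∀ Y : ℝ, 1 ≤ Y →
      ‖∑ s ∈ (prK K).SF Y, ∏ l ∈ s, g l‖ ≤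
        C * C ^ Bd.card * (∏ i, (dd (E i) * Ideal.absNorm (𝔣 i))) ^ A * Y ^ (1 - δ) := by
  induction N with
  | zero =>
    refine ⟨1, 0, 1 / 4, le_rfl, by norm_num, le_rfl, fun m hm hm' => ?_⟩
    omega
  | succ N ih =>
    obtain ⟨C₁, A₁, δ₁, hC₁, hδ₁, hδ₁', h1⟩ := ih
    obtain ⟨e, A₂, δ₂, hδ₂, hδ₂', h2⟩ := lst_ind K n N
    obtain ⟨C₂, hC₂, h3⟩ := h2 1 one_pos
    obtain ⟨C₃, c, hC₃, hc, h4⟩ := cmc b hb (prK K) e {l | ¬ (nm l).Prime} (thn K)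
    obtain ⟨C₄, hC₄⟩ : ∃ C₄ : ℝ, C₄ = max C₁ (max (C₃ * C₂) c) := ⟨_, rfl⟩
    have hCa : C₁ ≤ C₄ := by rw [hC₄]; exact le_max_left _ _
    have hCb : C₃ * C₂ ≤ C₄ := by rw [hC₄]; exact (le_max_left _ _).trans (le_max_right _ _)
    have hCc : c ≤ C₄ := by rw [hC₄]; exact (le_max_right _ _).trans (le_max_right _ _)
    have hC41 : 1 ≤ C₄ := hC₁.trans hCa
    refine ⟨C₄, A₁ + A₂, min δ₁ δ₂, hC41, lt_min hδ₁ hδ₂, (min_le_left _ _).trans hδ₁', ?_⟩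
    intro m hm hmN E _ _ _ hE 𝔣 h𝔣 ψ hψ g hg Bd hBd Y hY
    have hP := prod_ge h𝔣
    have hP0 : 0 ≤ ∏ i, (dd (E i) * (Ideal.absNorm (𝔣 i) : ℝ)) := by linarith
    have hY0 : 0 ≤ Y := by linarith
    rcases Nat.lt_or_ge m (N + 1) with h | h
    · refine (h1 m hm (by omega) E hE 𝔣 h𝔣 ψ hψ g hg Bd hBd Y hY).trans ?_
      refine mul_le_mul (mul_le_mul (mul_le_mul hCa (pow_le_pow_left₀ (by linarith) hCa _)
        (by positivity) (by linarith)) (pow_le_pow_right₀ hP (by omega)) (by positivity)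
        (by positivity)) (Real.rpow_le_rpow_of_exponent_le hY ?_) (by positivity) (by positivity)
      have := min_le_left δ₁ δ₂
      linarith
    · obtain rfl : m = N + 1 := le_antisymm hmN h
      obtain ⟨𝓘, π, _, G, χ, u, f, a1, a2, a3, a4, a5, -, a7⟩ := h3 E hE 𝔣 h𝔣 ψ hψ
      have h5 := h4 𝓘 π G χ a1 u f a2 (fun q => by rw [prK_N]; exact a3 q) a4 g hg Bd
        (fun l hl hp => by rw [a5 l]; exact hBd l hl (not_not.1 hp)) _ δ₂ hδ₂ hδ₂' a7 Y hY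
      refine h5.trans ?_
      calc C₃ * c ^ Bd.card * (C₂ * (∏ i, (dd (E i) * (Ideal.absNorm (𝔣 i) : ℝ))) ^ A₂) *
            Y ^ (1 - δ₂) = (C₃ * C₂) * c ^ Bd.card *
            (∏ i, (dd (E i) * (Ideal.absNorm (𝔣 i) : ℝ))) ^ A₂ * Y ^ (1 - δ₂) := by ring
        _ ≤ _ := by
          refine mul_le_mul (mul_le_mul (mul_le_mul hCb (pow_le_pow_left₀ (by linarith) hCc _)
            (by positivity) (by linarith)) (pow_le_pow_right₀ hP (by omega)) (by positivity)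
            (by positivity)) (Real.rpow_le_rpow_of_exponent_le hY ?_) (by positivity)
            (by positivity)
          have := min_le_right δ₁ δ₂
          linarith

end H57.GP
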