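import Pool.Agent.H57.GP.Def

/-!
# [H57 GP REP] the orbits of a group on the cosets of a subgroup (60-100 lines, pure group theory)

`Γ` acts on `G ⧸ H` through `φ` (`MulAction.compHom (G ⧸ H) φ`, `G` acts on `G ⧸ H` by left translation). `Ω = MulAction.orbitRel.Quotient Γ (G ⧸ H)` is
finite, `card Ω ≤ card (G ⧸ H) ≤ card G`. For `ω : Ω` let `c_ω = ω.out : G ⧸ H`, `x_ω = c_ω.out : G`. The stabilizer of `c_ω = mk x_ω` is
`{σ | φ σ x_ω H = x_ω H} = {σ | x_ω⁻¹ φ σ x_ω ∈ H}`. `MulAction.selfEquivSigmaOrbitsQuotientStabilizer Γ (G ⧸ H)` is a bijection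
`G ⧸ H ≃ Σ ω, Γ ⧸ stabilizer Γ c_ω`, its inverse sends `(ω, mk σ)` to `σ • c_ω = mk (φ σ * x_ω)`
(`MulAction.orbitEquivQuotientStabilizer_symm_apply`; if that is inconvenient prove the bijection directly: the map `(ω, q) ↦ q.out • c_ω`).
`f` is constant on the cosets `g H`, so `∑ g : G, f g = card H * ∑ c : G ⧸ H, f c.out` (`Subgroup.groupEquivQuotientProdSubgroup`), and
`∑ c : G ⧸ H, f c.out = ∑ ω, ∑ q : Γ ⧸ Γ_ω, f (φ q.out * x_ω)` (`f (mk (φ σ * x)).out = f (φ σ * x)`). Index the orbits by `Fin m`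
(`Fintype.equivFin`).
-/

set_option autoImplicit false

open scoped Classical

noncomputable section

namespace H57.GP

private theorem rep_cos {G : Type} [Group G] [Fintype G] (H : Subgroup G) (f : G → ℂ)
    (hf : ∀ g, ∀ h ∈ H, f (g * h) = f g) :
    ∑ g : G, f g = (Fintype.card H : ℂ) * ∑ c : G ⧸ H, f c.out := by
  have hb : Function.Bijective fun z : (G ⧸ H) × H => z.1.out * (z.2 : G) := by
    constructor
    · rintro ⟨c, h⟩ ⟨c', h'⟩ he
      have he1 : c.out * (h : G) = c'.out * (h' : G) := he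
      have h1 : c = c' := by
        have h2 : (QuotientGroup.mk (c.out * (h : G)) : G ⧸ H) = QuotientGroup.mk (c'.out * (h' : G)) := by rw [he1]
        rw [QuotientGroup.mk_mul_of_mem _ h.2, QuotientGroup.mk_mul_of_mem _ h'.2] at h2
        rw [← QuotientGroup.out_eq' c, ← QuotientGroup.out_eq' c']
        exact h2
      subst h1
      have h3 : (h : G) = (h' : G) := mul_left_cancel he1
      exact Prod.ext rfl (Subtype.ext h3)
    · intro g
      have h1 : (QuotientGroup.mk ((QuotientGroup.mk g : G ⧸ H).out) : G ⧸ H) = QuotientGroup.mk g :=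
        QuotientGroup.out_eq' _
      refine ⟨(QuotientGroup.mk g, ⟨_, QuotientGroup.eq.1 h1⟩), ?_⟩
      change (QuotientGroup.mk g : G ⧸ H).out * ((QuotientGroup.mk g : G ⧸ H).out⁻¹ * g) = g
      rw [mul_inv_cancel_left]
  rw [← Equiv.sum_comp (Equiv.ofBijective _ hb) f, Fintype.sum_prod_type, Finset.mul_sum]
  refine Finset.sum_congr rfl fun c _ => ?_
  have h1 : ∀ h : H, f ((Equiv.ofBijective _ hb) (c, h)) = f c.out := fun h => hf c.out h h.2
  rw [Finset.sum_congr rfl fun h _ => h1 h, Finset.sum_const, Finset.card_univ, nsmul_eq_mul]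

theorem rep {Γ G : Type} [Group Γ] [Group G] [Fintype G] (φ : Γ →* G) (H : Subgroup G) :
    ∃ (m : ℕ) (x : Fin m → G) (Γ' : Fin m → Subgroup Γ), m ≠ 0 ∧ m ≤ Fintype.card G ∧
      (∀ i σ, σ ∈ Γ' i ↔ (x i)⁻¹ * φ σ * x i ∈ H) ∧
      (∀ i, (Γ' i).index ≠ 0 ∧ (Γ' i).index ≤ Fintype.card G) ∧
      ∀ f : G → ℂ, (∀ g, ∀ h ∈ H, f (g * h) = f g) →
        ∑ g : G, f g = (Fintype.card H : ℂ) * ∑ i, ∑ᶠ q : Γ ⧸ Γ' i, f (φ q.out * x i) := by
  letI act : MulAction Γ (G ⧸ H) := MulAction.compHom (G ⧸ H) φ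
  have hact : ∀ (σ : Γ) (g : G), σ • (QuotientGroup.mk g : G ⧸ H) = QuotientGroup.mk (φ σ * g) := fun σ g => rfl
  have hfin : Finite (MulAction.orbitRel.Quotient Γ (G ⧸ H)) := Quotient.finite _
  letI : Fintype (MulAction.orbitRel.Quotient Γ (G ⧸ H)) := Fintype.ofFinite _
  have hGH : Fintype.card (G ⧸ H) ≤ Fintype.card G :=
    Fintype.card_le_of_surjective _ (QuotientGroup.mk_surjective (s := H))
  obtain ⟨ε⟩ : Nonempty (MulAction.orbitRel.Quotient Γ (G ⧸ H) ≃
    Fin (Fintype.card (MulAction.orbitRel.Quotient Γ (G ⧸ H)))) := ⟨Fintype.equivFin _⟩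
  have hfs : ∀ c : G ⧸ H, Finite (Γ ⧸ MulAction.stabilizer Γ c) := fun c =>
    Finite.of_injective _ (MulAction.injective_ofQuotientStabilizer Γ c)
  refine ⟨Fintype.card (MulAction.orbitRel.Quotient Γ (G ⧸ H)), fun i => (ε.symm i).out.out,
    fun i => MulAction.stabilizer Γ (ε.symm i).out, ?_, ?_, ?_, ?_, ?_⟩
  · have : Nonempty (MulAction.orbitRel.Quotient Γ (G ⧸ H)) := ⟨Quotient.mk _ (QuotientGroup.mk 1)⟩
    exact Fintype.card_ne_zero
  · exact (Fintype.card_le_of_surjective _ Quotient.mk_surjective).trans hGH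
  · intro i σ
    rw [MulAction.mem_stabilizer_iff]
    have h1 : (QuotientGroup.mk (ε.symm i).out.out : G ⧸ H) = (ε.symm i).out := QuotientGroup.out_eq' _
    have h2 : σ • (ε.symm i).out = QuotientGroup.mk (φ σ * (ε.symm i).out.out) := by
      rw [← hact, h1]
    rw [h2]
    constructor
    · intro h3
      have h4 := QuotientGroup.eq.1 (h3.trans h1.symm)
      have h5 := H.inv_mem h4
      convert h5 using 1
      group
    · intro h3
      refine Eq.trans ?_ h1
      refine QuotientGroup.eq.2 ?_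
      have h5 := H.inv_mem h3
      convert h5 using 1
      group
  · intro i
    have := hfs (ε.symm i).out
    constructor
    · exact Nat.card_pos.ne'
    · have h1 : Nat.card (Γ ⧸ MulAction.stabilizer Γ (ε.symm i).out) ≤ Nat.card (G ⧸ H) :=
        Nat.card_le_card_of_injective _ (MulAction.injective_ofQuotientStabilizer Γ (ε.symm i).out)
      rw [Nat.card_eq_fintype_card (α := G ⧸ H)] at h1
      exact h1.trans hGH
  · intro f hf
    rw [rep_cos H f hf]
    congr 1
    have hinv : ∀ g : G, f (QuotientGroup.mk g : G ⧸ H).out = f g := by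
      intro g
      have h1 : (QuotientGroup.mk ((QuotientGroup.mk g : G ⧸ H).out) : G ⧸ H) = QuotientGroup.mk g :=
        QuotientGroup.out_eq' _
      have h2 := hf (QuotientGroup.mk g : G ⧸ H).out _ (QuotientGroup.eq.1 h1)
      rw [mul_inv_cancel_left] at h2
      exact h2.symm
    letI hft : ∀ ω : MulAction.orbitRel.Quotient Γ (G ⧸ H), Fintype (Γ ⧸ MulAction.stabilizer Γ ω.out) := fun ω =>
      @Fintype.ofFinite _ (hfs ω.out)
    have h1 := Equiv.sum_comp (MulAction.selfEquivSigmaOrbitsQuotientStabilizer Γ (G ⧸ H)).symm fun c => f c.out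
    rw [← h1, Fintype.sum_sigma, ← Equiv.sum_comp ε.symm]
    refine Finset.sum_congr rfl fun i _ => ?_
    rw [finsum_eq_sum_of_fintype]
    refine Finset.sum_congr rfl fun q _ => ?_
    have h2 : (MulAction.selfEquivSigmaOrbitsQuotientStabilizer Γ (G ⧸ H)).symm ⟨ε.symm i, q⟩ =
        MulAction.ofQuotientStabilizer Γ (ε.symm i).out q := rfl
    have h3 : MulAction.ofQuotientStabilizer Γ (ε.symm i).out q = q.out • (ε.symm i).out := by
      conv_lhs => rw [← QuotientGroup.out_eq' q]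
      rfl
    have h4 : q.out • (ε.symm i).out = QuotientGroup.mk (φ q.out * (ε.symm i).out.out) := by
      have h5 : (QuotientGroup.mk (ε.symm i).out.out : G ⧸ H) = (ε.symm i).out := QuotientGroup.out_eq' _
      rw [← hact, h5]
    rw [h2, h3, h4, hinv]

end H57.GP
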