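import Pool.Agent.H57.GP.Fld
import Pool.Agent.H57.GP.Rep
import Pool.Agent.H57.GP.Chv

/-!
# [H57 GP ORB] the induced character is a sum over orbits of sums over primes of degree one (120-200 lines)

`rep φ H`: `x i`, `Γ' i`. `Ft φ` gives `M` with `M.fixingSubgroup ≤ φ.ker ≤ Γ' i` (`1 ∈ H`), `fld` gives `E i` with `E i.fixingSubgroup = Γ' i`,
`finrank K (E i) = index ≤ card G`. `θ i σ = ψ ((x i)⁻¹ * φ σ * x i)`.
`Th p (E i) (θ i) B`: `mul` from `Lc` (`x⁻¹ φ (σ τ) x = (x⁻¹ φ σ x) (x⁻¹ φ τ x)`), `ft` with `M` (`ψ 1 = 0` from `Lc`), `unr` from `hU` (`Ud` at `x = x i`).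
`∃ σ, θ i σ ≠ 0`: `hN (x i)`.
The sum: `f g = th H ψ (g⁻¹ * φ (fr Q l) * g)` is right `H`-invariant (`th H ψ (h⁻¹ y h) = th H ψ y` for `h ∈ H`: `h⁻¹ y h ∈ H ↔ y ∈ H`,
`ψ (h⁻¹ y h) = ψ y` by `Lc`, `ψ h⁻¹ = - ψ h`). `mi = ∑ i, ∑ᶠ q, f (φ q.out * x i)` (`rep`; `card H ≠ 0`) and
`f (φ τ * x i) = th H ψ ((x i)⁻¹ * φ (τ⁻¹ * fr Q l * τ) * x i) = if τ⁻¹ fr τ ∈ Γ' i then ep p (θ i (τ⁻¹ fr τ)) else 0`.
`d1 K (χ i).χ l = ∑ᶠ ι ∈ fx (E i) (fr Q l), χ (pe (E i) Q l ι)` (`dic_sum` of `H57/SL/Diu`, `IT` by `th_IT`). The embeddings are `ac τ (E i).val`,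
`τ ∈ Gal ⧸ Γ' i` (`emb_tr` for surjectivity, `fld_emb` for injectivity), `ac τ (E i).val ∈ fx` iff `τ⁻¹ fr τ ∈ Γ' i`
(`drb_conj` in `H57/SL/Drb`; or `fld_emb` with `ac_mul`), and the value is `ep p (θ i (τ⁻¹ fr τ))` by `Vl`. Change of variables in the
finite sums (`finsum_mem_eq_of_bijOn`, `finsum_eq_of_bijective`; all types are finite).
-/

set_option autoImplicit false

open scoped NumberField Pointwise Classical
open IsDedekindDomain H63.MA NumberField H36.QA H57.LI H57.LC H67.SX H38.ML H57.SL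

noncomputable section

namespace H57.GP

theorem th_inv {G : Type} [Group G] {p : ℕ} {H : Subgroup G} {ψ : G → ZMod p} (hψ : Lc H ψ)
    (y : G) : ∀ h ∈ H, th H ψ (h⁻¹ * y * h) = th H ψ y := by
  intro h hh
  have h1 : ψ 1 = 0 := by
    have := hψ 1 H.one_mem 1 H.one_mem
    rw [one_mul] at this
    exact left_eq_add.1 this
  have h2 : ψ h⁻¹ + ψ h = 0 := by
    rw [← hψ _ (H.inv_mem hh) _ hh, inv_mul_cancel, h1]
  unfold th
  by_cases hy : y ∈ H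
  · have hy' : h⁻¹ * y * h ∈ H := H.mul_mem (H.mul_mem (H.inv_mem hh) hy) hh
    rw [if_pos hy, if_pos hy', hψ _ (H.mul_mem (H.inv_mem hh) hy) _ hh, hψ _ (H.inv_mem hh) _ hy]
    congr 1
    linear_combination h2
  · have hy' : h⁻¹ * y * h ∉ H := by
      intro hc
      apply hy
      have := H.mul_mem (H.mul_mem hh hc) (H.inv_mem hh)
      have e : h * (h⁻¹ * y * h) * h⁻¹ = y := by group
      rwa [e] at this
    rw [if_neg hy, if_neg hy']

private theorem orb_lc1 {G : Type} [Group G] {p : ℕ} {H : Subgroup G} {ψ : G → ZMod p} (hψ : Lc H ψ) : ψ 1 = 0 := by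
  have := hψ 1 H.one_mem 1 H.one_mem
  rw [one_mul] at this
  exact left_eq_add.1 this

private theorem orb_mem {K : IntermediateField ℚ QBar} [NumberField K] (E : IntermediateField K QBar)
    (σ : Gal(QBar/K)) : σ ∈ E.fixingSubgroup ↔ ac σ E.val = E.val := by
  rw [IntermediateField.mem_fixingSubgroup_iff]
  constructor
  · intro h
    exact AlgHom.ext fun x => h x x.2
  · intro h x hx
    exact DFunLike.congr_fun h (⟨x, hx⟩ : E)

private theorem orb_conj {K : IntermediateField ℚ QBar} [NumberField K] (E : IntermediateField K QBar)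
    (φ τ : Gal(QBar/K)) : ac φ (ac τ E.val) = ac τ E.val ↔ τ⁻¹ * φ * τ ∈ E.fixingSubgroup := by
  rw [orb_mem, ac_mul, ac_mul]
  constructor
  · intro h
    rw [h, ← ac_mul, inv_mul_cancel, ac_one]
  · intro h
    have h1 := congrArg (ac τ) h
    rw [← ac_mul τ τ⁻¹, mul_inv_cancel, ac_one] at h1
    exact h1

private theorem orb_one {p : ℕ} {K : IntermediateField ℚ QBar} [NumberField K]
    (E : IntermediateField K QBar) [NumberField E] (θ : Gal(QBar/K) → ZMod p) (B : Finset (Pl K))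
    (hT : Th p E θ B) (χ : RC E (md (mB p B) E)) (hV : Vl p E θ B χ) (Γ' : Subgroup Gal(QBar/K))
    (hΓ : E.fixingSubgroup = Γ') (Q : DP K QBar) (l : Pl K) (hl : ¬ Above p l) (hlB : l ∉ B)
    (hnp : (nm l).Prime) (f : Gal(QBar/K) → ℂ)
    (hf : ∀ τ, f τ = if τ⁻¹ * fr Q l * τ ∈ Γ' then ep p (θ (τ⁻¹ * fr Q l * τ)) else 0) :
    d1 K χ.χ l = ∑ᶠ q : Gal(QBar/K) ⧸ Γ', f q.out := by
  subst hΓ
  have hIT : IT QBar E l := th_IT E θ B hT l hl hlB
  have h1 : d1 K χ.χ l = ∑ᶠ ι ∈ fx E (fr Q l), χ.χ (pe E Q l ι).asIdeal :=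
    dic_sum E Q l hIT (fun w => χ.χ w.asIdeal)
  have hout : ∀ q q' : Gal(QBar/K) ⧸ E.fixingSubgroup, ac q.out E.val = ac q'.out E.val → q = q' := by
    intro q q' h
    have h2 := (fld_emb E q.out q'.out).1 h
    have h3 := QuotientGroup.eq.2 h2
    rwa [QuotientGroup.out_eq', QuotientGroup.out_eq'] at h3
  let e : (Gal(QBar/K) ⧸ E.fixingSubgroup) → (E →ₐ[K] QBar) := fun q => ac q.out E.val
  have he : Function.Bijective e := by
    refine ⟨fun q q' h => hout q q' h, fun ι => ?_⟩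
    obtain ⟨τ, hτ⟩ := emb_tr E E.val ι
    refine ⟨(τ : Gal(QBar/K) ⧸ E.fixingSubgroup), ?_⟩
    rw [hτ]
    show ac (Quotient.out (τ : Gal(QBar/K) ⧸ E.fixingSubgroup)) E.val = ac τ E.val
    rw [fld_emb]
    apply QuotientGroup.eq.1
    exact QuotientGroup.out_eq' _
  rw [h1, finsum_mem_def]
  refine (finsum_eq_of_bijective e he fun q => ?_).symm
  rw [hf]
  by_cases hq : (q.out)⁻¹ * fr Q l * q.out ∈ E.fixingSubgroup
  · rw [if_pos hq, Set.indicator_of_mem]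
    · exact (hV Q l hl hlB hnp q.out hq).symm
    · exact (orb_conj E (fr Q l) q.out).2 hq
  · rw [if_neg hq, Set.indicator_of_notMem]
    intro hc
    exact hq ((orb_conj E (fr Q l) q.out).1 hc)

theorem orb {p : ℕ} {K : IntermediateField ℚ QBar} [NumberField K] {G : Type} [Group G]
    [Fintype G] (φ : Gal(QBar/K) →* G) (hft : Ft φ) (H : Subgroup G) (ψ : G → ZMod p)
    (hψ : Lc H ψ) (B : Finset (Pl K)) (hU : ∀ l, ¬ Above p l → l ∉ B → Ud φ H ψ l)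
    (hN : Np φ H ψ) :
    ∃ (m : ℕ) (E : Fin m → IntermediateField K QBar) (θ : Fin m → Gal(QBar/K) → ZMod p),
      m ≠ 0 ∧ m ≤ Fintype.card G ∧
      (∀ i, FiniteDimensional K (E i) ∧ Module.finrank K (E i) ≤ Fintype.card G) ∧
      (∀ i, Th p (E i) (θ i) B ∧ ∃ σ ∈ (E i).fixingSubgroup, θ i σ ≠ 0) ∧
      ∀ (_ : ∀ i, NumberField (E i)) (χ : ∀ i, RC (E i) (md (mB p B) (E i))),
        (∀ i, Vl p (E i) (θ i) B (χ i)) → ∀ (Q : DP K QBar) (l : Pl K), ¬ Above p l → l ∉ B →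
        (nm l).Prime → ∑ i, d1 K (χ i).χ l = mi φ H ψ (fr Q l) := by
  obtain ⟨m, x, Γ', hm0, hmG, hΓ, hidx, hsum⟩ := rep φ H
  obtain ⟨M, hM, hMφ⟩ := hft
  have hMΓ : ∀ i, M.fixingSubgroup ≤ Γ' i := by
    intro i σ hσ
    rw [hΓ, hMφ σ hσ]
    have : (x i)⁻¹ * 1 * x i = 1 := by group
    rw [this]
    exact H.one_mem
  choose E hEfd hEfix hErank hEidx using fun i => fld (Γ' i) M hM (hMΓ i)
  have hTh : ∀ i, Th p (E i) (fun σ => ψ ((x i)⁻¹ * φ σ * x i)) B := by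
    intro i
    refine ⟨?_, ?_, ?_⟩
    · intro σ hσ τ hτ
      rw [hEfix i, hΓ] at hσ hτ
      have e : (x i)⁻¹ * φ (σ * τ) * x i = ((x i)⁻¹ * φ σ * x i) * ((x i)⁻¹ * φ τ * x i) := by
        rw [map_mul]; group
      show ψ ((x i)⁻¹ * φ (σ * τ) * x i) = _
      rw [e, hψ _ hσ _ hτ]
    · refine ⟨M, hM, fun σ hσ => ⟨by rw [hEfix i]; exact hMΓ i hσ, ?_⟩⟩
      show ψ ((x i)⁻¹ * φ σ * x i) = 0
      rw [hMφ σ hσ]
      have : (x i)⁻¹ * 1 * x i = 1 := by group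
      rw [this]
      exact orb_lc1 hψ
    · intro l hl hlB P hP hPl τ hτ
      have h := hU l hl hlB P hP hPl τ hτ (x i)
      refine ⟨?_, h.2⟩
      rw [hEfix i, hΓ]
      exact h.1
  refine ⟨m, E, fun i σ => ψ ((x i)⁻¹ * φ σ * x i), hm0, hmG, ?_, ?_, ?_⟩
  · intro i
    exact ⟨hEfd i, by rw [hErank i]; exact (hidx i).2⟩
  · intro i
    refine ⟨hTh i, ?_⟩
    obtain ⟨σ, h1, h2⟩ := hN (x i)
    refine ⟨σ, ?_, h2⟩
    rw [hEfix i, hΓ]
    exact h1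
  · intro hNF χ hχ Q l hl hlB hnp
    have hinv : ∀ g : G, ∀ h ∈ H, th H ψ ((g * h)⁻¹ * φ (fr Q l) * (g * h)) =
        th H ψ (g⁻¹ * φ (fr Q l) * g) := by
      intro g h hh
      have e : (g * h)⁻¹ * φ (fr Q l) * (g * h) = h⁻¹ * (g⁻¹ * φ (fr Q l) * g) * h := by group
      rw [e]
      exact th_inv hψ _ h hh
    have h1 := hsum (fun g => th H ψ (g⁻¹ * φ (fr Q l) * g)) hinv
    have hc : (Fintype.card H : ℂ) ≠ 0 := by
      exact_mod_cast (Fintype.card_pos (α := H)).ne'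
    unfold mi
    rw [h1, ← mul_assoc, inv_mul_cancel₀ hc, one_mul]
    apply Finset.sum_congr rfl
    intro i _
    have := hNF i
    refine orb_one (E i) (fun σ => ψ ((x i)⁻¹ * φ σ * x i)) B (hTh i) (χ i) (hχ i) (Γ' i) (hEfix i) Q l
      hl hlB hnp (fun τ => th H ψ ((φ τ * x i)⁻¹ * φ (fr Q l) * (φ τ * x i))) ?_
    intro τ
    have e : (φ τ * x i)⁻¹ * φ (fr Q l) * (φ τ * x i) = (x i)⁻¹ * φ (τ⁻¹ * fr Q l * τ) * x i := by
      rw [map_mul, map_mul, map_inv]; group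
    simp only [e]
    unfold th
    by_cases hq : τ⁻¹ * fr Q l * τ ∈ Γ' i
    · rw [if_pos hq, if_pos ((hΓ i _).1 hq)]
    · rw [if_neg hq, if_neg (fun h => hq ((hΓ i _).2 h))]

end H57.GP
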