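import Pool.Agent.H57.GP.Exa

/-!
# [H57 GP EXB] The number of exceptional members, numerical form (100-150 lines)

Let `n = p.n`, `Ld = log D ≥ 1`, `k = ⌈(2 Ld + 8) / (δ log x)⌉₊`, so `k ≥ 1`, `k ≤ c₁ (1 + Ld / log x)` (`log x ≥ log 3 ≥ 1`, `Ld ≥ 1`, `c₁ = c₁(δ)`), `k δ log x ≥ 2 Ld + 8`.
Take `C` large in terms of `b, δ, n, p.C`. `x ≥ (U log D)^C` gives `x ≥ (c₂ U² k)^(2/δ)` and `x ≥ c₂ U² k² (b, n)`: indeed `k ≤ 2 c₁ Ld` (`log x ≥ 1`), `U ≥ 3`.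
With `t = x / U`: condition of `exa`: `32 b² k² 2 n x ≤ x² / U²`: ok. `exa` divided by `x^(2k)`:
`card J / (4 U^(2k) k!²) ≤ ((p.C (k log x)^n)^(b²) + card J D x^(-δ k)) (2n)^k / k!`, i.e.
`card J ≤ 4 k! (2 n U²)^k ((p.C (k log x)^n)^(b²) + card J D x^(-δ k))`. The last term: `4 k! (2 n U²)^k D x^(-δk) ≤ 4 (2 n U² k x^(-δ/2))^k D x^(-δk/2) ≤ 4 D e^(-Ld - 4) ≤ 1/2`
(`k! ≤ k^k`, `2 n U² k ≤ x^(δ/2)`, `x^(δ k / 2) ≥ exp (Ld + 4)`). So `card J ≤ 8 k! (2 n U²)^k (p.C (k log x)^n)^(b²)` and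
`log card J ≤ log 8 + k (log k + log (2n) + 2 log U) + b² (log p.C + n log k + n log log x) ≤ C (1 + Ld / log x) (log U + log Ld + log log x + 1)`
(`log k ≤ log (2 c₁) + log Ld`, `k ≥ 1`, `log log x ≥ 0` as `x ≥ 3`; `Ld ≥ 1`: `D ≥ 3`).
(If `card J = 0` nothing to prove; no circularity: the term with `card J` is absorbed.)
-/

set_option autoImplicit false

open scoped Classical ComplexConjugate
open H57.LI

noncomputable section

namespace H57.GP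

private theorem exb_k {δ Ld Lx : ℝ} (hδ : 0 < δ) (hδ1 : δ ≤ 1 / 4) (hd : 1 ≤ Ld) (hx : 1 ≤ Lx) :
    ∃ k : ℕ, 1 ≤ k ∧ 2 * Ld + 8 ≤ k * (δ * Lx) ∧ (k : ℝ) ≤ 10 / δ * (1 + Ld / Lx) ∧
      (k : ℝ) ≤ 20 / δ * Ld := by
  have h0 : 0 < δ * Lx := by positivity
  have h1 : (⌈(2 * Ld + 8) / (δ * Lx)⌉₊ : ℝ) ≤ (2 * Ld + 8) / (δ * Lx) + 1 :=
    (Nat.ceil_lt_add_one (by positivity)).le
  have h2 : (2 * Ld + 8) / (δ * Lx) ≤ 10 / δ * (Ld / Lx) := by
    rw [div_mul_div_comm]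
    exact div_le_div_of_nonneg_right (by linarith) h0.le
  have h3 : 1 ≤ 10 / δ := by
    rw [le_div_iff₀ hδ]
    linarith
  have h4 : (⌈(2 * Ld + 8) / (δ * Lx)⌉₊ : ℝ) ≤ 10 / δ * (1 + Ld / Lx) := by
    rw [mul_add, mul_one]
    linarith
  refine ⟨⌈(2 * Ld + 8) / (δ * Lx)⌉₊, ?_, ?_, h4, ?_⟩
  · exact Nat.one_le_ceil_iff.2 (by positivity)
  · have h5 := Nat.le_ceil ((2 * Ld + 8) / (δ * Lx))
    rwa [div_le_iff₀ h0] at h5
  · have h5 : Ld / Lx ≤ Ld := div_le_self (by linarith) hx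
    have h6 : 10 / δ * (1 + Ld / Lx) ≤ 10 / δ * (2 * Ld) :=
      mul_le_mul_of_nonneg_left (by linarith) (by positivity)
    have h7 : 10 / δ * (2 * Ld) = 20 / δ * Ld := by ring
    linarith

private theorem exb_pow {y E C : ℝ} (hy : 3 ≤ y) (hE : 0 ≤ E) (hC : 2 + E ≤ C) :
    E * y ^ 2 ≤ y ^ C := by
  have hy0 : 0 < y := by linarith
  have h1 : y ^ C = y ^ (C - 2) * y ^ 2 := by
    rw [← Real.rpow_natCast y 2, ← Real.rpow_add hy0]
    congr 1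
    push_cast
    ring
  rw [h1]
  refine mul_le_mul_of_nonneg_right ?_ (by positivity)
  have h2 : 1 ≤ Real.log y := by
    rw [Real.le_log_iff_exp_le hy0]
    linarith [Real.exp_one_lt_three]
  rw [Real.rpow_def_of_pos hy0]
  have h3 : E ≤ Real.log y * (C - 2) := by nlinarith
  have h4 := Real.add_one_le_exp (Real.log y * (C - 2))
  linarith

private theorem exb_alg {N F W x U n D h : ℝ} {k : ℕ} (hN : 0 ≤ N) (hF : 0 < F) (hx : 0 < x)
    (hU : 0 < U) (hn : 0 ≤ n) (hD : 0 < D) (hh : 0 < h) (hFk : F ≤ (k : ℝ) ^ k)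
    (hB : 2 * n * U ^ 2 * k ≤ h) (hhD : 8 * D ≤ h ^ k)
    (hex : N * ((x / U) ^ (2 * k) / (4 * F ^ 2)) ≤
      (x ^ k * W + N * (D * (x ^ k / (h ^ k * h ^ k)))) * ((2 * n * x) ^ k / F)) :
    N ≤ 8 * F * (2 * n * U ^ 2) ^ k * W := by
  have hxk : 0 < x ^ k := by positivity
  have hUk : 0 < U ^ k := by positivity
  have hhk : 0 < h ^ k := by positivity
  have h1 : (x / U) ^ (2 * k) = x ^ k * x ^ k / (U ^ k * U ^ k) := by
    rw [div_pow, two_mul, pow_add, pow_add]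
  have h2 : (2 * n * x) ^ k = (2 * n) ^ k * x ^ k := mul_pow _ _ _
  have h3 : (2 * n * U ^ 2) ^ k = (2 * n) ^ k * (U ^ k * U ^ k) := by
    rw [mul_pow, ← pow_mul, mul_comm 2 k, pow_mul, pow_two]
  rw [h1, h2] at hex
  have h4 : N ≤ 4 * F * ((2 * n) ^ k * (U ^ k * U ^ k)) * (W + N * (D / (h ^ k * h ^ k))) := by
    have h5 : N * (x ^ k * x ^ k / (U ^ k * U ^ k) / (4 * F ^ 2)) * (4 * F ^ 2 * (U ^ k * U ^ k)) =
        N * (x ^ k * x ^ k) := by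
      field_simp
    have h6 : (x ^ k * W + N * (D * (x ^ k / (h ^ k * h ^ k)))) * ((2 * n) ^ k * x ^ k / F) *
        (4 * F ^ 2 * (U ^ k * U ^ k)) =
        4 * F * ((2 * n) ^ k * (U ^ k * U ^ k)) * (W + N * (D / (h ^ k * h ^ k))) * (x ^ k * x ^ k) := by
      field_simp
    have h7 := mul_le_mul_of_nonneg_right hex
      (show (0 : ℝ) ≤ 4 * F ^ 2 * (U ^ k * U ^ k) by positivity)
    rw [h5, h6] at h7
    exact le_of_mul_le_mul_right h7 (by positivity)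
  have h8 : 4 * F * ((2 * n) ^ k * (U ^ k * U ^ k)) * (D / (h ^ k * h ^ k)) ≤ 1 / 2 := by
    have h9 : F * ((2 * n) ^ k * (U ^ k * U ^ k)) ≤ h ^ k := by
      rw [← h3]
      calc F * (2 * n * U ^ 2) ^ k ≤ (k : ℝ) ^ k * (2 * n * U ^ 2) ^ k :=
            mul_le_mul_of_nonneg_right hFk (by positivity)
        _ = (2 * n * U ^ 2 * k) ^ k := by
            rw [mul_pow (2 * n * U ^ 2) (k : ℝ) k]
            ring
        _ ≤ h ^ k := pow_le_pow_left₀ (by positivity) hB k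
    calc 4 * F * ((2 * n) ^ k * (U ^ k * U ^ k)) * (D / (h ^ k * h ^ k)) =
          4 * (F * ((2 * n) ^ k * (U ^ k * U ^ k))) * (D / (h ^ k * h ^ k)) := by ring
      _ ≤ 4 * h ^ k * (D / (h ^ k * h ^ k)) := by
          refine mul_le_mul_of_nonneg_right ?_ (by positivity)
          linarith
      _ = 4 * D / h ^ k := by
          field_simp
      _ ≤ 1 / 2 := by
          rw [div_le_iff₀ hhk]
          linarith
  have h10 : 4 * F * ((2 * n) ^ k * (U ^ k * U ^ k)) * (W + N * (D / (h ^ k * h ^ k))) =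
      4 * F * ((2 * n) ^ k * (U ^ k * U ^ k)) * W +
        N * (4 * F * ((2 * n) ^ k * (U ^ k * U ^ k)) * (D / (h ^ k * h ^ k))) := by ring
  rw [h10] at h4
  have h11 : N * (4 * F * ((2 * n) ^ k * (U ^ k * U ^ k)) * (D / (h ^ k * h ^ k))) ≤ N * (1 / 2) :=
    mul_le_mul_of_nonneg_left h8 hN
  rw [h3]
  linarith

theorem exb {ι : Type} (p : Pr ι) (b : ℕ) (hb : 1 ≤ b) (δ : ℝ) (hδ : 0 < δ) (hδ1 : δ ≤ 1 / 4) :
    ∃ C : ℝ, 1 ≤ C ∧ ∀ D U x : ℝ, 3 ≤ D → 3 ≤ U → 3 ≤ x → (U * Real.log D) ^ C ≤ x →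
      ∀ (J : Type) [Fintype J] (lam : J → ι → ℂ), (∀ j i, ‖lam j i‖ ≤ b) →
      (∀ j j', j ≠ j' → ∀ Y : ℝ, 1 ≤ Y →
        ‖∑ s ∈ p.SF Y, ∏ i ∈ s, (lam j i * conj (lam j' i))‖ ≤ D * Y ^ (1 - δ)) →
      (∀ j, x / U ≤ ‖∑ i ∈ p.P x, lam j i‖) →
      (Fintype.card J : ℝ) ≤ Real.exp (C * (1 + Real.log D / Real.log x) *
        (Real.log U + Real.log (Real.log D) + Real.log (Real.log x) + 1)) := by
  obtain ⟨c, hc⟩ : ∃ c : ℝ, c = 10 / δ := ⟨_, rfl⟩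
  have hc10 : 10 ≤ c := by
    rw [hc, le_div_iff₀ hδ]
    linarith
  obtain ⟨n, hn⟩ : ∃ n : ℝ, n = (p.n : ℝ) := ⟨_, rfl⟩
  have hn0 : 0 ≤ n := by
    rw [hn]
    exact Nat.cast_nonneg _
  have hpC : 0 ≤ Real.log p.C := Real.log_nonneg p.C1
  have hlc : 0 ≤ Real.log (2 * c) := Real.log_nonneg (by linarith)
  have hln : 0 ≤ Real.log (2 * n + 1) := Real.log_nonneg (by linarith)
  obtain ⟨E₁, hE₁⟩ : ∃ E₁ : ℝ, E₁ = 64 * (b : ℝ) ^ 2 * n * (2 * c) ^ 2 := ⟨_, rfl⟩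
  obtain ⟨E₂, hE₂⟩ : ∃ E₂ : ℝ, E₂ = 2 * n * (2 * c) := ⟨_, rfl⟩
  obtain ⟨E₃, hE₃⟩ : ∃ E₃ : ℝ, E₃ = 3 + c * (Real.log (2 * c) + 1) + c * Real.log (2 * n + 1) + 2 * c +
    (b : ℝ) ^ 2 * Real.log p.C + (b : ℝ) ^ 2 * n * (Real.log (2 * c) + 1) + (b : ℝ) ^ 2 * n := ⟨_, rfl⟩
  have hE₁0 : 0 ≤ E₁ := by
    rw [hE₁]
    positivity
  have hE₂0 : 0 ≤ E₂ := by
    rw [hE₂]
    have : 0 ≤ c := by linarith
    positivity
  have hE₃0 : 3 ≤ E₃ := by
    have hc0 : 0 ≤ c := by linarith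
    have h1 : 0 ≤ c * (Real.log (2 * c) + 1) := by positivity
    have h2 : 0 ≤ c * Real.log (2 * n + 1) := by positivity
    have h3 : 0 ≤ (b : ℝ) ^ 2 * Real.log p.C := by positivity
    have h4 : 0 ≤ (b : ℝ) ^ 2 * n * (Real.log (2 * c) + 1) := by positivity
    have h5 : 0 ≤ (b : ℝ) ^ 2 * n := by positivity
    rw [hE₃]
    linarith
  obtain ⟨C, hC⟩ : ∃ C : ℝ, C = (2 + E₁) + 2 / δ * (2 + E₂) + E₃ := ⟨_, rfl⟩
  have h2δ : 0 ≤ 2 / δ * (2 + E₂) := by positivity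
  have hC1 : 2 + E₁ ≤ C := by linarith
  have hC2 : 2 + E₂ ≤ C * (δ / 2) := by
    have h1 : 2 / δ * (2 + E₂) * (δ / 2) = 2 + E₂ := by
      field_simp
    have h2 : 2 / δ * (2 + E₂) ≤ C := by linarith
    calc 2 + E₂ = 2 / δ * (2 + E₂) * (δ / 2) := h1.symm
      _ ≤ C * (δ / 2) := mul_le_mul_of_nonneg_right h2 (by positivity)
  have hC3 : E₃ ≤ C := by linarith
  refine ⟨C, by linarith, ?_⟩
  intro D U x hD hU hx hUx J _ lam h3 ho hj
  have l3 : ∀ y : ℝ, 3 ≤ y → 1 ≤ Real.log y := by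
    intro y hy
    rw [Real.le_log_iff_exp_le (by linarith)]
    linarith [Real.exp_one_lt_three]
  obtain ⟨Ld, hLd⟩ : ∃ Ld : ℝ, Ld = Real.log D := ⟨_, rfl⟩
  obtain ⟨Lx, hLx⟩ : ∃ Lx : ℝ, Lx = Real.log x := ⟨_, rfl⟩
  obtain ⟨Lu, hLu⟩ : ∃ Lu : ℝ, Lu = Real.log U := ⟨_, rfl⟩
  have hLd1 : 1 ≤ Ld := by
    rw [hLd]
    exact l3 D hD
  have hLx1 : 1 ≤ Lx := by
    rw [hLx]
    exact l3 x hx
  have hLu1 : 1 ≤ Lu := by
    rw [hLu]
    exact l3 U hU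
  rw [← hLd] at hUx ⊢
  rw [← hLx, ← hLu]
  obtain ⟨k, hk1, hk2, hk3, hk4⟩ := exb_k hδ hδ1 hLd1 hLx1
  rw [← hc] at hk3
  have hk4' : (k : ℝ) ≤ 2 * c * Ld := by
    rw [hc]
    refine hk4.trans (le_of_eq ?_)
    ring
  have hkr : (1 : ℝ) ≤ k := by exact_mod_cast hk1
  have hx0 : 0 < x := by linarith
  have hU0 : 0 < U := by linarith
  have hUL : 3 ≤ U * Ld := le_trans hU (le_mul_of_one_le_right hU0.le hLd1)
  -- (A)
  have hA : 64 * (b : ℝ) ^ 2 * n * (k : ℝ) ^ 2 * U ^ 2 ≤ x := by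
    refine le_trans ?_ hUx
    have h1 := exb_pow hUL hE₁0 hC1
    refine le_trans ?_ h1
    rw [hE₁]
    have h2 : (k : ℝ) ^ 2 ≤ (2 * c * Ld) ^ 2 := pow_le_pow_left₀ (by positivity) hk4' 2
    calc 64 * (b : ℝ) ^ 2 * n * (k : ℝ) ^ 2 * U ^ 2 ≤ 64 * (b : ℝ) ^ 2 * n * (2 * c * Ld) ^ 2 * U ^ 2 := by
          gcongr
      _ = 64 * (b : ℝ) ^ 2 * n * (2 * c) ^ 2 * (U * Ld) ^ 2 := by ring
  -- (B)
  obtain ⟨h, hh⟩ : ∃ h : ℝ, h = x ^ (δ / 2) := ⟨_, rfl⟩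
  have hh0 : 0 < h := by
    rw [hh]
    exact Real.rpow_pos_of_pos hx0 _
  have hB : 2 * n * U ^ 2 * k ≤ h := by
    have h1 := exb_pow hUL hE₂0 hC2
    have h2 : (U * Ld) ^ (C * (δ / 2)) ≤ x ^ (δ / 2) := by
      rw [Real.rpow_mul (by linarith)]
      exact Real.rpow_le_rpow (Real.rpow_nonneg (by linarith) _) hUx (by positivity)
    rw [hh]
    refine le_trans ?_ h2
    refine le_trans ?_ h1
    rw [hE₂]
    have hc0 : 0 ≤ c := by linarith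
    calc 2 * n * U ^ 2 * k ≤ 2 * n * U ^ 2 * (2 * c * Ld) := by gcongr
      _ = 2 * n * (2 * c) * (U ^ 2 * Ld) := by ring
      _ ≤ 2 * n * (2 * c) * (U * Ld) ^ 2 := by
          refine mul_le_mul_of_nonneg_left ?_ (by positivity)
          rw [mul_pow]
          exact mul_le_mul_of_nonneg_left (le_self_pow₀ hLd1 two_ne_zero) (by positivity)
  have hhk : h ^ k = Real.exp (k * (δ * Lx) / 2) := by
    rw [hh, hLx, ← Real.rpow_natCast, ← Real.rpow_mul hx0.le, Real.rpow_def_of_pos hx0]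
    congr 1
    ring
  have hhD : 8 * D ≤ h ^ k := by
    rw [hhk]
    have h1 : Ld + 4 ≤ k * (δ * Lx) / 2 := by linarith
    have h2 : Real.exp (Ld + 4) ≤ Real.exp (k * (δ * Lx) / 2) := Real.exp_le_exp.2 h1
    have h3' : Real.exp (Ld + 4) = D * Real.exp 4 := by
      rw [Real.exp_add, hLd, Real.exp_log (by linarith)]
    have h4 : (8 : ℝ) ≤ Real.exp 4 := by
      have h5 : Real.exp 4 = Real.exp 1 ^ 4 := by
        rw [← Real.exp_nat_mul]
        norm_num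
      have h6 : (2 : ℝ) ≤ Real.exp 1 := by linarith [Real.add_one_le_exp (1 : ℝ)]
      rw [h5]
      calc (8 : ℝ) ≤ 2 ^ 4 := by norm_num
        _ ≤ Real.exp 1 ^ 4 := pow_le_pow_left₀ (by norm_num) h6 4
    rw [h3'] at h2
    refine le_trans ?_ h2
    rw [mul_comm]
    exact mul_le_mul_of_nonneg_left h4 (by linarith)
  have hz : (x ^ k) ^ (1 - δ) = x ^ k / (h ^ k * h ^ k) := by
    have h1 : 0 < x ^ k := by positivity
    rw [Real.rpow_sub h1, Real.rpow_one, hh]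
    congr 1
    rw [← Real.rpow_natCast, ← Real.rpow_natCast, ← Real.rpow_mul hx0.le, ← Real.rpow_mul hx0.le,
      ← Real.rpow_add hx0]
    congr 1
    ring
  have hex := exa p b hb lam h3 D δ (by linarith) ho x (by linarith) k hk1 (x / U) (by positivity) hj (by
    rw [← hn, div_pow, le_div_iff₀ (by positivity)]
    calc 32 * (b : ℝ) ^ 2 * (k : ℝ) ^ 2 * (2 * n * x) * U ^ 2 =
          (64 * (b : ℝ) ^ 2 * n * (k : ℝ) ^ 2 * U ^ 2) * x := by ring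
      _ ≤ x * x := mul_le_mul_of_nonneg_right hA hx0.le
      _ = x ^ 2 := by ring)
  rw [← hn, hz, Real.log_pow, ← hLx] at hex
  obtain ⟨N, hN⟩ : ∃ N : ℝ, N = (Fintype.card J : ℝ) := ⟨_, rfl⟩
  have hN0 : 0 ≤ N := by
    rw [hN]
    exact Nat.cast_nonneg _
  obtain ⟨W, hW⟩ : ∃ W : ℝ, W = (p.C * (k * Lx) ^ p.n) ^ (b ^ 2) := ⟨_, rfl⟩
  have hpC0 : 0 < p.C := lt_of_lt_of_le one_pos p.C1
  have hW0 : 0 < W := by
    rw [hW]
    positivity
  rw [← hN, ← hW] at hex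
  rw [← hN]
  have hF1 : (1 : ℝ) ≤ (k.factorial : ℝ) := by exact_mod_cast Nat.one_le_iff_ne_zero.2 (Nat.factorial_ne_zero k)
  have hFk : (k.factorial : ℝ) ≤ (k : ℝ) ^ k := by exact_mod_cast Nat.factorial_le_pow k
  have hmain := exb_alg (N := N) (F := (k.factorial : ℝ)) (W := W) (x := x) (U := U) (n := n) (D := D)
    (h := h) (k := k) hN0 (by linarith) hx0 hU0 hn0 (by linarith) hh0 hFk hB hhD hex
  refine hmain.trans ?_
  have hS1 : 0 ≤ Real.log Ld := Real.log_nonneg hLd1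
  have hS2 : 0 ≤ Real.log Lx := Real.log_nonneg hLx1
  have hlk : Real.log k ≤ Real.log (2 * c) + Real.log Ld := by
    rw [← Real.log_mul (by linarith) (by linarith)]
    exact Real.log_le_log (by linarith) hk4'
  have hlk0 : 0 ≤ Real.log k := Real.log_nonneg hkr
  -- exponential form
  have e1 : (8 : ℝ) ≤ Real.exp 3 := by
    have h5 : Real.exp 3 = Real.exp 1 ^ 3 := by
      rw [← Real.exp_nat_mul]
      norm_num
    have h6 : (2 : ℝ) ≤ Real.exp 1 := by linarith [Real.add_one_le_exp (1 : ℝ)]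
    rw [h5]
    calc (8 : ℝ) = 2 ^ 3 := by norm_num
      _ ≤ Real.exp 1 ^ 3 := pow_le_pow_left₀ (by norm_num) h6 3
  have e2 : (k.factorial : ℝ) ≤ Real.exp (k * Real.log k) := by
    refine hFk.trans (le_of_eq ?_)
    rw [Real.exp_nat_mul, Real.exp_log (by linarith)]
  have e3 : (2 * n * U ^ 2) ^ k ≤ Real.exp (k * (Real.log (2 * n + 1) + 2 * Lu)) := by
    have h5 : Real.exp (k * (Real.log (2 * n + 1) + 2 * Lu)) = ((2 * n + 1) * U ^ 2) ^ k := by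
      have h6 : Real.exp (2 * Lu) = U ^ 2 := by
        rw [hLu, two_mul, Real.exp_add, Real.exp_log hU0]
        ring
      rw [Real.exp_nat_mul, Real.exp_add, Real.exp_log (by linarith), h6]
    rw [h5]
    refine pow_le_pow_left₀ (by positivity) ?_ k
    refine mul_le_mul_of_nonneg_right (by linarith) (by positivity)
  have e4 : W ≤ Real.exp ((b : ℝ) ^ 2 * (Real.log p.C + n * (Real.log k + Real.log Lx))) := by
    have h5 : (b : ℝ) ^ 2 = ((b ^ 2 : ℕ) : ℝ) := by push_cast; rfl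
    rw [hW, h5, Real.exp_nat_mul, Real.exp_add, Real.exp_log hpC0, hn, Real.exp_nat_mul, Real.exp_add,
      Real.exp_log (by linarith), Real.exp_log (by linarith)]
  have e5 : 8 * (k.factorial : ℝ) * (2 * n * U ^ 2) ^ k * W ≤
      Real.exp (3 + k * Real.log k + k * (Real.log (2 * n + 1) + 2 * Lu) +
        (b : ℝ) ^ 2 * (Real.log p.C + n * (Real.log k + Real.log Lx))) := by
    rw [Real.exp_add, Real.exp_add, Real.exp_add]
    refine mul_le_mul (mul_le_mul (mul_le_mul e1 e2 (by positivity) (Real.exp_pos _).le) e3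
      (by positivity) (by positivity)) e4 hW0.le (by positivity)
  refine e5.trans (Real.exp_le_exp.2 ?_)
  obtain ⟨q, hq⟩ : ∃ q : ℝ, q = 1 + Ld / Lx := ⟨_, rfl⟩
  have hq1 : 1 ≤ q := by
    rw [hq]
    have : 0 ≤ Ld / Lx := by positivity
    linarith
  rw [← hq] at hk3 ⊢
  obtain ⟨S, hS⟩ : ∃ S : ℝ, S = Lu + Real.log Ld + Real.log Lx + 1 := ⟨_, rfl⟩
  rw [← hS]
  have hS1' : 1 ≤ S := by linarith
  have hc0 : 0 ≤ c := by linarith
  have hlkS : Real.log k ≤ (Real.log (2 * c) + 1) * S := by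
    have g1 : Real.log (2 * c) ≤ Real.log (2 * c) * S := le_mul_of_one_le_right hlc hS1'
    have g2 : (Real.log (2 * c) + 1) * S = Real.log (2 * c) * S + S := by ring
    rw [g2]
    have g3 : Real.log Ld ≤ S := by
      rw [hS]
      linarith
    exact hlk.trans (add_le_add g1 g3)
  have f0 : 1 ≤ q * S := one_le_mul_of_one_le_of_one_le hq1 hS1'
  have fS : S ≤ q * S := le_mul_of_one_le_left (le_trans zero_le_one hS1') hq1
  have f1 : (3 : ℝ) ≤ 3 * (q * S) := by linarith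
  have f2 : k * Real.log k ≤ c * (Real.log (2 * c) + 1) * (q * S) := by
    calc k * Real.log k ≤ (c * q) * ((Real.log (2 * c) + 1) * S) :=
          mul_le_mul hk3 hlkS hlk0 (by positivity)
      _ = _ := by ring
  have f3 : k * Real.log (2 * n + 1) ≤ c * Real.log (2 * n + 1) * (q * S) := by
    calc k * Real.log (2 * n + 1) ≤ (c * q) * Real.log (2 * n + 1) :=
          mul_le_mul_of_nonneg_right hk3 hln
      _ = (c * q * Real.log (2 * n + 1)) * 1 := by ring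
      _ ≤ (c * q * Real.log (2 * n + 1)) * S := mul_le_mul_of_nonneg_left hS1' (by positivity)
      _ = _ := by ring
  have f4 : k * (2 * Lu) ≤ 2 * c * (q * S) := by
    have h5 : Lu ≤ S := by linarith
    calc k * (2 * Lu) ≤ (c * q) * (2 * S) :=
          mul_le_mul hk3 (by linarith) (by positivity) (by positivity)
      _ = _ := by ring
  have f5 : (b : ℝ) ^ 2 * Real.log p.C ≤ (b : ℝ) ^ 2 * Real.log p.C * (q * S) :=
    le_mul_of_one_le_right (by positivity) f0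
  have f6 : (b : ℝ) ^ 2 * n * Real.log k ≤ (b : ℝ) ^ 2 * n * (Real.log (2 * c) + 1) * (q * S) := by
    calc (b : ℝ) ^ 2 * n * Real.log k ≤ (b : ℝ) ^ 2 * n * ((Real.log (2 * c) + 1) * S) :=
          mul_le_mul_of_nonneg_left hlkS (by positivity)
      _ = (b : ℝ) ^ 2 * n * (Real.log (2 * c) + 1) * S := by ring
      _ ≤ (b : ℝ) ^ 2 * n * (Real.log (2 * c) + 1) * (q * S) :=
          mul_le_mul_of_nonneg_left fS (by positivity)
  have f7 : (b : ℝ) ^ 2 * n * Real.log Lx ≤ (b : ℝ) ^ 2 * n * (q * S) :=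
    mul_le_mul_of_nonneg_left (le_trans (by linarith) fS) (by positivity)
  have f8 : E₃ * (q * S) ≤ C * (q * S) := mul_le_mul_of_nonneg_right hC3 (by linarith)
  have f9 : C * q * S = C * (q * S) := by ring
  rw [f9]
  refine le_trans ?_ f8
  rw [hE₃]
  have f10 : (b : ℝ) ^ 2 * (Real.log p.C + n * (Real.log k + Real.log Lx)) =
      (b : ℝ) ^ 2 * Real.log p.C + (b : ℝ) ^ 2 * n * Real.log k + (b : ℝ) ^ 2 * n * Real.log Lx := by
    ring
  have f11 : (k : ℝ) * (Real.log (2 * n + 1) + 2 * Lu) = k * Real.log (2 * n + 1) + k * (2 * Lu) := by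
    ring
  rw [f10, f11]
  have f12 : (3 + c * (Real.log (2 * c) + 1) + c * Real.log (2 * n + 1) + 2 * c +
      (b : ℝ) ^ 2 * Real.log p.C + (b : ℝ) ^ 2 * n * (Real.log (2 * c) + 1) + (b : ℝ) ^ 2 * n) * (q * S) =
      3 * (q * S) + c * (Real.log (2 * c) + 1) * (q * S) + c * Real.log (2 * n + 1) * (q * S) +
      2 * c * (q * S) + (b : ℝ) ^ 2 * Real.log p.C * (q * S) +
      (b : ℝ) ^ 2 * n * (Real.log (2 * c) + 1) * (q * S) + (b : ℝ) ^ 2 * n * (q * S) := by ring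
  rw [f12]
  linarith

end H57.GP
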