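import Pool.Agent.H57.GP.Crx

/-!
# [H57 GP MB] the members of the families of the large sieve (50-90 lines)

`Mb p b S n z φ H ψ`: `φ` is unramified outside `S ∪ n`, the orbits of `(H, ψ)` are unramified at the primes of norm `> nm z` outside `S`, and `ψ` is not trivial at an element `y ∈ H`
all of whose conjugates come from the inertia at `z`.
`mb_ud`: if `l ∉ n`: `Ur φ l`, `x⁻¹ 1 x = 1 ∈ H`, `ψ 1 = 0` (`Lc` at `1, 1`). Otherwise `nm z < nm l`.
`mb_cr`: for `x` let `σ ∈ Ic z` with `φ σ = x y x⁻¹`; `φ' σ = 1` because `φ'` is unramified at `z` (`Ic z` is the closure of the inertia groups, `Subgroup.closure_induction` or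
`Subgroup.closure_le` with `φ'.ker`).
-/

set_option autoImplicit false

open scoped NumberField Pointwise Classical
open IsDedekindDomain H63.MA NumberField H36.QA H57.LI H57.LC H67.SX H38.ML H57.SL H57.AN

noncomputable section

namespace H57.GP

variable {K : IntermediateField ℚ QBar} [NumberField K]

/-- a member of a family: the largest ramified prime is `z` -/
structure Mb (p b : ℕ) (S n : Finset (Pl K)) (z : Pl K) {G : Type} [Group G] [Fintype G]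
    (φ : Gal(QBar/K) →* G) (H : Subgroup G) (ψ : G → ZMod p) : Prop where
  card : Fintype.card G ≤ b
  ft : Ft φ
  lc : Lc H ψ
  ur : ∀ l, l ∉ S → l ∉ n → Ur φ l
  ud : ∀ l, l ∉ S → nm z < nm l → Ud φ H ψ l
  ex : ∃ y ∈ H, ψ y ≠ 0 ∧ ∀ x : G, ∃ σ ∈ Ic z, φ σ = x * y * x⁻¹

theorem mb_ud {p b : ℕ} {S n : Finset (Pl K)} {z : Pl K} {G : Type} [Group G] [Fintype G]
    {φ : Gal(QBar/K) →* G} {H : Subgroup G} {ψ : G → ZMod p} (h : Mb p b S n z φ H ψ) (l : Pl K)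
    (hS : l ∉ S) (hl : l ∉ n.filter (fun v => nm v ≤ nm z)) : Ud φ H ψ l := by
  by_cases h1 : nm z < nm l
  · exact h.ud l hS h1
  · have h2 : l ∉ n := fun h3 => hl (Finset.mem_filter.2 ⟨h3, not_lt.1 h1⟩)
    intro P hP hPl τ hτ x
    have h3 : φ τ = 1 := h.ur l hS h2 P hP hPl τ hτ
    have h4 : x⁻¹ * φ τ * x = 1 := by rw [h3]; simp
    rw [h4]
    refine ⟨H.one_mem, ?_⟩
    have h5 := h.lc 1 H.one_mem 1 H.one_mem
    rw [one_mul] at h5
    exact left_eq_add.1 h5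

theorem ur_ic {G : Type} [Group G] {φ : Gal(QBar/K) →* G} {l : Pl K} (h : Ur φ l) :
    ∀ σ ∈ Ic l, φ σ = 1 := by
  have h1 : Ic l ≤ φ.ker := by
    unfold Ic
    rw [Subgroup.closure_le]
    rintro τ ⟨P, hP, hPl, hτ⟩
    exact MonoidHom.mem_ker.2 (h P hP hPl τ hτ)
  exact fun σ hσ => MonoidHom.mem_ker.1 (h1 hσ)

theorem mb_cr {p b : ℕ} {S n n' : Finset (Pl K)} {z z' : Pl K} {G G' : Type} [Group G]
    [Fintype G] [Group G'] [Fintype G'] {φ : Gal(QBar/K) →* G} {H : Subgroup G}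
    {ψ : G → ZMod p} {φ' : Gal(QBar/K) →* G'} {H' : Subgroup G'} {ψ' : G' → ZMod p}
    (h : Mb p b S n z φ H ψ) (h' : Mb p b S n' z' φ' H' ψ') (hz : z ∉ S) (hn : z ∉ n') :
    Cr φ H ψ φ' H' ψ' := by
  obtain ⟨y, hy, hy0, hx⟩ := h.ex
  refine ⟨y, hy, hy0, fun x => ?_⟩
  obtain ⟨σ, hσ, hσx⟩ := hx x
  refine ⟨σ, hσx, fun x' => ?_⟩
  have h3 : φ' σ = 1 := ur_ic (h'.ur z hz hn) σ hσ
  have h4 : x'⁻¹ * φ' σ * x' = 1 := by rw [h3]; simp
  rw [h4]
  refine ⟨H'.one_mem, ?_⟩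
  have h5 := h'.lc 1 H'.one_mem 1 H'.one_mem
  rw [one_mul] at h5
  exact left_eq_add.1 h5

end H57.GP
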