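import Pool.Agent.H57.GP.Bgb

/-!
# [H57 GP BGC] the sum over all members (100-150 lines)

Group the indices by `m = (n i).erase (z i)` (so `n i = insert (z i) m`, `z i ∉ m`, `nr (n i) = nm (z i) nr m`) and by the dyadic interval of `nm (z i)`: `Z = 2^t exp(ℓ³)`... with `Z < nm (z i) ≤ 2 Z`
(take `Z = exp(ℓ³) 2^t`, `t ≥ 0`, and for `nm (z i) = exp(ℓ³)` nothing: the hypothesis is strict). `t ≤ 2 C₁ log Y`. For fixed `m, t`: `bgb` with `A' = A + n (C₁ + 1) + 4`, `n = (prK K).n`,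
(`card m ≤ card (n i)`, `Z ≤ nm (z i) ≤ nr (n i) ≤ Y^C₁`; fibres over `z` = fibres over `(n, z)`): `∑ (nr (n i))⁻¹ (x i)⁻¹ ‖..‖ ≤ (nr m)⁻¹ Z⁻¹ ∑ (x i)⁻¹ ‖..‖ ≤ (nr m)⁻¹ (log Y)^(-A')`.
Sum over `t` (`≤ 2 C₁ log Y + 1` values) and over the `m` with `nr m ≤ Y^C₁`: `∑ 1 / nr m ≤ C (log Y^C₁)^n` (`Pr.har` for `prK K`, `nr m = (prK K).nn m`). For `Y` large the total is `≤ (log Y)^(-A)`.
(`Finset.sum_fiberwise_of_maps_to` or `Finset.sum_comp`-like: `∑ i ∈ I, F i = ∑ c ∈ I.image κ, ∑ i ∈ I.filter (κ · = c), F i`, `κ i = ((n i).erase (z i), t i)`.)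
-/

set_option autoImplicit false

open scoped NumberField Pointwise Classical ComplexConjugate
open IsDedekindDomain H63.MA NumberField H36.QA H57.LI H57.LC H67.SX H38.ML H57.SL H57.AN

noncomputable section

namespace H57.GP

theorem bgc_dyad {r : ℝ} (hr : 1 < r) : ∃ t : ℕ, (2 : ℝ) ^ t < r ∧ r ≤ 2 ^ (t + 1) := by
  have hex : ∃ t : ℕ, r ≤ (2 : ℝ) ^ (t + 1) := by
    obtain ⟨t, ht⟩ := pow_unbounded_of_one_lt r (show (1 : ℝ) < 2 by norm_num)
    exact ⟨t, ht.le.trans (pow_le_pow_right₀ (by norm_num) (by omega))⟩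
  refine ⟨Nat.find hex, ?_, Nat.find_spec hex⟩
  rcases Nat.eq_zero_or_pos (Nat.find hex) with h | h
  · rw [h, pow_zero]
    exact hr
  · have h1 := Nat.find_min hex (m := Nat.find hex - 1) (by omega)
    rw [Nat.sub_add_cancel h] at h1
    exact not_le.1 h1

theorem bgc {p : ℕ} (hp : p.Prime) (hp2 : p ≠ 2) {K : IntermediateField ℚ QBar} [NumberField K]
    {ζ : K} (hζ : IsPrimitiveRoot ζ p) (S : Finset (Pl K)) (hS : ∀ v : Pl K, Above p v → v ∈ S)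
    (b C₁ A : ℕ) (hb : 1 ≤ b) : ∃ Y₀ : ℝ, ∀ Y : ℝ, Y₀ ≤ Y →
      ∀ (ι : Type) (I : Finset ι) (n : ι → Finset (Pl K)) (z : ι → Pl K) (x : ι → ℝ),
      (∀ i ∈ I, z i ∉ S ∧ z i ∈ n i ∧ Real.exp (Real.log (Real.log Y) ^ 3) < nm (z i)) →
      (∀ i ∈ I, nr (n i) ≤ Y ^ C₁ ∧ ((n i).card : ℝ) ≤ C₁ * Real.log (Real.log Y)) →
      (∀ i ∈ I, Real.exp (Real.log (Real.log Y) ^ 3) ≤ x i ∧ x i ≤ Y ^ C₁) →
      (∀ m v, ((I.filter fun i => n i = m ∧ z i = v).card : ℝ) ≤ Real.log Y ^ C₁) →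
      ∀ (G : ι → Type) [∀ i, Group (G i)] [∀ i, Fintype (G i)] (φ : ∀ i, Gal(QBar/K) →* G i)
        (H : ∀ i, Subgroup (G i)) (ψ : ∀ i, G i → ZMod p),
      (∀ i ∈ I, Mb p b S (n i) (z i) (φ i) (H i) (ψ i)) → ∀ Q : DP K QBar,
      ∑ i ∈ I, (nr (n i))⁻¹ * (x i)⁻¹ *
          ‖sg (x i) (S ∪ n i) (fun w => mi (φ i) (H i) (ψ i) (fr Q w))‖ ≤
        Real.log Y ^ (-(A : ℝ)) := by
  obtain ⟨n₀, hn₀⟩ : ∃ n₀ : ℕ, n₀ = (prK K).n := ⟨_, rfl⟩
  obtain ⟨A', hA'⟩ : ∃ A' : ℕ, A' = A + n₀ + 2 := ⟨_, rfl⟩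
  obtain ⟨Y₁, hY₁⟩ := bgb hp hp2 hζ S hS b C₁ A' hb
  obtain ⟨R, hR⟩ : ∃ R : ℝ, R = (prK K).C * ((C₁ : ℝ) + 1) ^ n₀ * (2 * C₁ + 1) := ⟨_, rfl⟩
  have hC1 := (prK K).C1
  have hR0 : 0 < R := by
    rw [hR]
    positivity
  refine ⟨max Y₁ (Real.exp (1 + R)), ?_⟩
  intro Y hY ι I n z x hz hn hx hfib G _ _ φ H ψ hmb Q
  have hY1 : Y₁ ≤ Y := (le_max_left _ _).trans hY
  have hY2 : Real.exp (1 + R) ≤ Y := (le_max_right _ _).trans hY
  have hY0 : 0 < Y := (Real.exp_pos _).trans_le hY2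
  obtain ⟨l, hl⟩ : ∃ l : ℝ, l = Real.log Y := ⟨_, rfl⟩
  have hlR : 1 + R ≤ l := by
    rw [hl, Real.le_log_iff_exp_le hY0]
    exact hY2
  have hl1 : 1 ≤ l := by linarith
  have hl0 : 0 < l := by linarith
  have hY3 : 2 ≤ Y := by
    have h1 := Real.add_one_le_exp (1 + R)
    linarith
  obtain ⟨E, hE⟩ : ∃ E : ℝ, E = Real.exp (Real.log (Real.log Y) ^ 3) := ⟨_, rfl⟩
  have hE0 : 0 < E := by
    rw [hE]
    exact Real.exp_pos _
  have hE1 : 1 ≤ E := by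
    rw [hE]
    apply Real.one_le_exp
    rw [← hl]
    have := Real.log_nonneg hl1
    positivity
  have hYC : 1 ≤ Y ^ C₁ := one_le_pow₀ (by linarith)
  -- the dyadic index
  have hd : ∀ i ∈ I, ∃ t : ℕ, E * 2 ^ t < nm (z i) ∧ (nm (z i) : ℝ) ≤ 2 * (E * 2 ^ t) := by
    intro i hi
    have h1 := (hz i hi).2.2
    rw [← hE] at h1
    have h2 : 1 < (nm (z i) : ℝ) / E := by
      rw [one_lt_div hE0]
      exact h1
    obtain ⟨t, ht1, ht2⟩ := bgc_dyad h2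
    refine ⟨t, ?_, ?_⟩
    · rw [lt_div_iff₀ hE0] at ht1
      linarith
    · rw [div_le_iff₀ hE0] at ht2
      rw [pow_succ] at ht2
      linarith
  choose! t ht1 ht2 using hd
  have hnin : ∀ i ∈ I, insert (z i) ((n i).erase (z i)) = n i := fun i hi =>
    Finset.insert_erase (hz i hi).2.1
  have hnr : ∀ i ∈ I, nr (n i) = nm (z i) * nr ((n i).erase (z i)) := by
    intro i hi
    unfold nr
    rw [← Finset.mul_prod_erase (n i) (fun v => (nm v : ℝ)) (hz i hi).2.1]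
  have hm1 : ∀ m : Finset (Pl K), 1 ≤ nr m := one_le_nr
  have hle : ∀ i ∈ I, (nm (z i) : ℝ) ≤ Y ^ C₁ := by
    intro i hi
    have h1 := (hn i hi).1
    rw [hnr i hi] at h1
    have h2 := hm1 ((n i).erase (z i))
    have h3 : (0 : ℝ) ≤ nm (z i) := Nat.cast_nonneg _
    nlinarith
  have hle2 : ∀ i ∈ I, nr ((n i).erase (z i)) ≤ Y ^ C₁ := by
    intro i hi
    exact (nr_mono (Finset.erase_subset _ _)).trans (hn i hi).1
  obtain ⟨T, hT⟩ : ∃ T : ℕ, T = ⌊2 * (C₁ : ℝ) * l⌋₊ := ⟨_, rfl⟩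
  have htT : ∀ i ∈ I, t i ∈ Finset.range (T + 1) := by
    intro i hi
    rw [Finset.mem_range, Nat.lt_succ_iff, hT]
    apply Nat.le_floor
    have h1 : (2 : ℝ) ^ t i ≤ Y ^ C₁ := by
      have h2 := (ht1 i hi).le.trans (hle i hi)
      have h3 : (0 : ℝ) < 2 ^ t i := by positivity
      nlinarith
    have h2 := Real.log_le_log (by positivity) h1
    rw [Real.log_pow, Real.log_pow, ← hl] at h2
    have h3 := Real.log_two_gt_d9
    have h4 : (0 : ℝ) ≤ t i := Nat.cast_nonneg _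
    nlinarith
  -- grouping
  obtain ⟨κ, hκ⟩ : ∃ κ : ι → Finset (Pl K) × ℕ, κ = fun i => ((n i).erase (z i), t i) := ⟨_, rfl⟩
  obtain ⟨F, hF⟩ : ∃ F : ι → ℝ, F = fun i => (nr (n i))⁻¹ * (x i)⁻¹ *
          ‖sg (x i) (S ∪ n i) (fun w => mi (φ i) (H i) (ψ i) (fr Q w))‖ := ⟨_, rfl⟩
  have hgoal : ∑ i ∈ I, (nr (n i))⁻¹ * (x i)⁻¹ *
          ‖sg (x i) (S ∪ n i) (fun w => mi (φ i) (H i) (ψ i) (fr Q w))‖ = ∑ i ∈ I, F i := by
    rw [hF]
  rw [hgoal]
  obtain ⟨M, hM⟩ : ∃ M : Finset (Finset (Pl K)), M = I.image fun i => (n i).erase (z i) := ⟨_, rfl⟩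
  have hmap : ∀ i ∈ I, κ i ∈ M ×ˢ Finset.range (T + 1) := by
    intro i hi
    rw [Finset.mem_product, hκ, hM]
    exact ⟨Finset.mem_image_of_mem _ hi, htT i hi⟩
  rw [← Finset.sum_fiberwise_of_maps_to hmap]
  obtain ⟨U, hU⟩ : ∃ U : ℝ, U = l ^ (-(A' : ℝ)) := ⟨_, rfl⟩
  have hU0 : 0 < U := by
    rw [hU]
    exact Real.rpow_pos_of_pos hl0 _
  have hcell : ∀ c ∈ M ×ˢ Finset.range (T + 1), ∑ i ∈ I.filter (fun i => κ i = c), F i ≤ (1 / nr c.1) * U := by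
    rintro ⟨m, t'⟩ _
    obtain ⟨J, hJ⟩ : ∃ J : Finset ι, J = I.filter (fun i => κ i = (m, t')) := ⟨_, rfl⟩
    rw [← hJ]
    have hm0 : 0 < nr m := by linarith [hm1 m]
    rcases J.eq_empty_or_nonempty with hJe | ⟨i₀, hi₀⟩
    · rw [hJe, Finset.sum_empty]
      positivity
    have hJm : ∀ i ∈ J, i ∈ I ∧ (n i).erase (z i) = m ∧ t i = t' := by
      intro i hi
      rw [hJ, Finset.mem_filter, hκ] at hi
      have h1 := hi.2
      simp only [Prod.mk.injEq] at h1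
      exact ⟨hi.1, h1⟩
    have hJn : ∀ i ∈ J, n i = insert (z i) m := by
      intro i hi
      obtain ⟨h1, h2, _⟩ := hJm i hi
      rw [← h2, hnin i h1]
    obtain ⟨Z, hZ⟩ : ∃ Z : ℝ, Z = E * 2 ^ t' := ⟨_, rfl⟩
    have hZ0 : 0 < Z := by
      rw [hZ]
      positivity
    have hZE : E ≤ Z := by
      rw [hZ]
      have : (1 : ℝ) ≤ 2 ^ t' := one_le_pow₀ (by norm_num)
      nlinarith
    have hJz : ∀ i ∈ J, Z < nm (z i) ∧ (nm (z i) : ℝ) ≤ 2 * Z := by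
      intro i hi
      obtain ⟨h1, _, h3⟩ := hJm i hi
      rw [hZ, ← h3]
      exact ⟨ht1 i h1, ht2 i h1⟩
    have hi₀' := hJm i₀ hi₀
    have hcard : (m.card : ℝ) ≤ C₁ * Real.log (Real.log Y) := by
      rw [← hi₀'.2.1]
      refine le_trans ?_ (hn i₀ hi₀'.1).2
      exact_mod_cast Finset.card_le_card (Finset.erase_subset _ _)
    have hZY : Z ≤ Y ^ C₁ := ((hJz i₀ hi₀).1.le).trans (hle i₀ hi₀'.1)
    have key := hY₁ Y hY1 m Z hcard (by rw [← hE]; exact hZE) hZY ι J z x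
      (by
        intro i hi
        obtain ⟨h1, h2, _⟩ := hJm i hi
        refine ⟨(hz i h1).1, ?_, hJz i hi⟩
        rw [← h2]
        exact Finset.notMem_erase _ _)
      (fun i hi => hx i (hJm i hi).1)
      (by
        intro v
        refine le_trans ?_ (hfib (insert v m) v)
        have h1 : (J.filter fun i => z i = v) ⊆ I.filter fun i => n i = insert v m ∧ z i = v := by
          intro i hi
          rw [Finset.mem_filter] at hi
          rw [Finset.mem_filter]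
          refine ⟨(hJm i hi.1).1, ?_, hi.2⟩
          rw [hJn i hi.1, hi.2]
        exact_mod_cast Finset.card_le_card h1)
      G φ H ψ
      (by
        intro i hi
        rw [← hJn i hi]
        exact hmb i (hJm i hi).1)
      Q
    rw [← hl, ← hU] at key
    have hterm : ∀ i ∈ J, F i ≤ (1 / nr m) * Z⁻¹ * ((x i)⁻¹ *
          ‖sg (x i) (S ∪ insert (z i) m) (fun w => mi (φ i) (H i) (ψ i) (fr Q w))‖) := by
      intro i hi
      obtain ⟨h1, h2, _⟩ := hJm i hi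
      have hx0 : 0 < x i := by
        have := (hx i h1).1
        rw [← hE] at this
        linarith
      have h3 : (nr (n i))⁻¹ ≤ (1 / nr m) * Z⁻¹ := by
        rw [hnr i h1, h2, mul_inv, one_div, mul_comm]
        apply mul_le_mul_of_nonneg_left _ (by positivity)
        exact inv_anti₀ hZ0 (hJz i hi).1.le
      rw [hF]
      show (nr (n i))⁻¹ * (x i)⁻¹ * ‖sg (x i) (S ∪ n i) (fun w => mi (φ i) (H i) (ψ i) (fr Q w))‖ ≤ _
      rw [hJn i hi, mul_assoc, ← hJn i hi]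
      exact mul_le_mul_of_nonneg_right h3 (by positivity)
    refine (Finset.sum_le_sum hterm).trans ?_
    rw [← Finset.mul_sum]
    have h4 : 0 ≤ (1 / nr m) * Z⁻¹ := by positivity
    refine (mul_le_mul_of_nonneg_left key h4).trans (le_of_eq ?_)
    show 1 / nr m * Z⁻¹ * (Z * U) = 1 / nr m * U
    field_simp
  refine (Finset.sum_le_sum hcell).trans ?_
  rw [← Finset.sum_mul, Finset.sum_product]
  simp only [Finset.sum_const, Finset.card_range, nsmul_eq_mul]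
  rw [← Finset.mul_sum]
  -- the harmonic sum
  have hhar : ∑ m ∈ M, 1 / nr m ≤ (prK K).C * (((C₁ : ℝ) + 1) * l) ^ n₀ := by
    have h1 := (prK K).har (Y ^ (C₁ + 1)) (by
      calc (2 : ℝ) ≤ Y ^ 1 := by rw [pow_one]; exact hY3
        _ ≤ Y ^ (C₁ + 1) := pow_le_pow_right₀ (by linarith) (by omega)) M (by
      intro m hm
      rw [hM, Finset.mem_image] at hm
      obtain ⟨i, hi, hi'⟩ := hm
      have h2 := hle2 i hi
      rw [hi'] at h2
      have h3 : ∏ v ∈ m, (((prK K).N v : ℕ) : ℝ) = nr m := by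
        unfold nr
        exact Finset.prod_congr rfl fun v _ => by rw [prK_N]
      rw [h3]
      exact h2.trans (pow_le_pow_right₀ (by linarith) (by omega)))
    have h4 : ∀ m ∈ M, 1 / ∏ v ∈ m, (((prK K).N v : ℕ) : ℝ) = 1 / nr m := by
      intro m _
      unfold nr
      congr 1
      exact Finset.prod_congr rfl fun v _ => by rw [prK_N]
    rw [Finset.sum_congr rfl h4, Real.log_pow, ← hl, ← hn₀] at h1
    push_cast at h1
    exact h1
  have hTl : (((T + 1 : ℕ) : ℕ) : ℝ) ≤ (2 * C₁ + 1) * l := by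
    have h1 : (T : ℝ) ≤ 2 * C₁ * l := by
      rw [hT]
      exact Nat.floor_le (by positivity)
    push_cast
    nlinarith
  have hsum0 : 0 ≤ ∑ m ∈ M, 1 / nr m := Finset.sum_nonneg fun m _ => by
    have := hm1 m
    positivity
  calc ((T + 1 : ℕ) : ℝ) * (∑ m ∈ M, 1 / nr m) * U
      ≤ ((2 * C₁ + 1) * l) * ((prK K).C * (((C₁ : ℝ) + 1) * l) ^ n₀) * U := by
        apply mul_le_mul_of_nonneg_right _ hU0.le
        exact mul_le_mul hTl hhar hsum0 (by positivity)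
    _ = R * (l ^ (n₀ + 1) * U) := by
        rw [hR, mul_pow]
        ring
    _ = R * (l⁻¹ * l ^ (-(A : ℝ))) := by
        congr 1
        rw [hU, ← Real.rpow_natCast l (n₀ + 1), ← Real.rpow_neg_one l, ← Real.rpow_add hl0, ← Real.rpow_add hl0]
        congr 1
        rw [hA']
        push_cast
        ring
    _ = R * l⁻¹ * l ^ (-(A : ℝ)) := by ring
    _ ≤ 1 * l ^ (-(A : ℝ)) := by
        apply mul_le_mul_of_nonneg_right _ (Real.rpow_nonneg hl0.le _)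
        rw [← div_eq_mul_inv, div_le_one hl0]
        linarith
    _ = Real.log Y ^ (-(A : ℝ)) := by rw [one_mul, hl]

end H57.GP
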