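import Pool.Agent.H57.GP.Bgc
import Pool.Agent.H57.GP.Fam

/-!
# [H57 GP GPL] the large part of GP (120-180 lines)

For `i ∈ I` let `φ₀ = (φ i).rangeRestrict`, `f₀` from `img` (raw with `b²` terms: `Raw p (b * b) f₀`), `fm_img`. `dec` for `m = (n i).filter (T < nm ·)`:
`f₀ - PD (DT φ₀ T (n i)) f₀ = ∑ z ∈ m, F z`, `F z ∈ Cb p N D_z (D_z ⊔ (Ic z).map φ₀)`, `N = b * b * (p * b + 1)`, `D_z` contains the images of `Ic v`, `v ∈ m`, `nm v > nm z`. Take `avg` (linear) and `dt_img`: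
`avg f (φ σ) - PD (DT φ T n) (avg f) (φ σ) = ∑ z, ∑ j, c_(z,j) avg (th H_(z,j) ψ_(z,j)) (φ₀ σ)` and `avg (th H ψ) (φ₀ σ) = (card H / card φ.range) mi φ₀ H ψ σ` (definitions), the factor is `≤ 1`.
So the left side is at most `N ∑ (i, z, j), (nr (n i))⁻¹ (x i)⁻¹ ‖sg (x i) (S ∪ n i) (mi φ₀ H ψ (fr Q ·))‖` over the set `I'` of the `(i, z, j)`, `i ∈ I`, `z ∈ n i`, `T < nm z`, `z ∉ S`, `c_(z,j) ≠ 0`
(`sg` is linear; if `Y` is large all primes of `S` have norm `≤ exp(ℓ³) ≤ T`).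
`Mb p b S (n i) z φ₀ H ψ` for `(i, z, j) ∈ I'`: `card`, `ft`, `ur` from `fm_img`; `lc`; `ud` at `l ∉ S`, `nm z < nm l`: if `l ∉ n i` then `Ur` (`ψ 1 = 0`); if `l ∈ n i` then `l ∈ m`, so `φ₀ τ ∈ (Ic l).map φ₀ ≤ D_z` for `τ` in the inertia
(`Subgroup.subset_closure`), `D_z` is normal: `x⁻¹ φ₀ τ x ∈ D_z ≤ H`, `ψ = 0` on `D_z`. `ex`: `cr_of` gives `y ∈ H`, `y ∈ (Ic z).map φ₀`, `ψ y ≠ 0`; `(Ic z).map φ₀` is normal (`ic_normal`, `φ₀` onto), so
`x y x⁻¹ = φ₀ σ`, `σ ∈ Ic z`.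
`bgc` with `C₁' = C₁ + 1` (fibres over `(m, v)`: `≤ (log Y)^C₁ N ≤ (log Y)^(C₁+1)`; `Y^C₁ ≤ Y^(C₁+1)`), `A + 1`, index type `ι × Pl K × Fin N`, groups `(φ i).range`. Then `N (log Y)^(-A-1) ≤ (log Y)^(-A)`.
(`b ≥ 1` may be assumed: `card G ≥ 1` if `I` is not empty.)
-/

set_option autoImplicit false

open scoped NumberField Pointwise Classical ComplexConjugate
open IsDedekindDomain H63.MA NumberField H36.QA H57.LI H57.LC H67.SX H38.ML H57.SL H57.AN

noncomputable section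

namespace H57.GP

private theorem avg_sum {G ι : Type} [Group G] [Fintype G] (s : Finset ι) (F : ι → G → ℂ) (y : G) :
    avg (fun y => ∑ i ∈ s, F i y) y = ∑ i ∈ s, avg (F i) y := by
  unfold avg
  rw [Finset.sum_comm, Finset.mul_sum]

private theorem avg_mul {G : Type} [Group G] [Fintype G] (c : ℂ) (F : G → ℂ) (y : G) :
    avg (fun y => c * F y) y = c * avg F y := by
  unfold avg
  rw [← Finset.mul_sum]
  ring

private theorem avg_sub {G : Type} [Group G] [Fintype G] (F F' : G → ℂ) (y : G) :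
    avg (fun y => F y - F' y) y = avg F y - avg F' y := by
  unfold avg
  rw [Finset.sum_sub_distrib]
  ring

private theorem avg_mi {K : IntermediateField ℚ QBar} [NumberField K] {G : Type} [Group G] [Fintype G] {p : ℕ}
    (φ : Gal(QBar/K) →* G) (H : Subgroup G) (ψ : G → ZMod p) (σ : Gal(QBar/K)) :
    avg (th H ψ) (φ σ) = ((Fintype.card H : ℂ) / Fintype.card G) * mi φ H ψ σ := by
  unfold avg mi
  have h1 : (Fintype.card H : ℂ) ≠ 0 := by
    exact_mod_cast (Fintype.card_pos (α := H)).ne'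
  field_simp

private theorem ratio_le {G : Type} [Group G] [Fintype G] (H : Subgroup G) :
    ‖(Fintype.card H : ℂ) / Fintype.card G‖ ≤ 1 := by
  have h1 : (0 : ℝ) < Fintype.card G := by exact_mod_cast (Fintype.card_pos (α := G))
  rw [norm_div, Complex.norm_natCast, Complex.norm_natCast, div_le_one h1]
  exact_mod_cast Fintype.card_subtype_le _

/-- one member -/
private theorem one {p : ℕ} (hp : p.Prime) {K : IntermediateField ℚ QBar} [NumberField K] {b : ℕ} {S n : Finset (Pl K)}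
    {G : Type} [Group G] [Fintype G] {φ : Gal(QBar/K) →* G} {f : G → ℂ} (h : Fm p b S n φ f) (T : ℝ) :
    ∃ (c : Pl K → Fin (b * b * (p * b + 1)) → ℂ) (H : Pl K → Fin (b * b * (p * b + 1)) → Subgroup φ.range)
      (ψ : Pl K → Fin (b * b * (p * b + 1)) → φ.range → ZMod p),
      (∀ z ∈ n, T < nm z → ∀ j, ‖c z j‖ ≤ ((b * b * (p * b + 1) : ℕ) : ℝ)) ∧
      (∀ z ∈ n, T < nm z → z ∉ S → ∀ j, c z j ≠ 0 → Mb p b S n z φ.rangeRestrict (H z j) (ψ z j)) ∧
      ∀ σ, avg f (φ σ) - PD (DT φ T n) (avg f) (φ σ) =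
        ∑ z ∈ n.filter (fun v => T < (nm v : ℝ)), ∑ j, c z j * avg (th (H z j) (ψ z j)) (φ.rangeRestrict σ) := by
  obtain ⟨hc, hpg, hft, hur⟩ := fm_img h
  obtain ⟨f₀, hraw, havg, -⟩ := img φ h.card h.raw
  have hsurj : Function.Surjective φ.rangeRestrict := φ.rangeRestrict_surjective
  obtain ⟨F, hF1, hF2⟩ := dec hp hpg φ.rangeRestrict hsurj (n.filter (fun v => T < (nm v : ℝ))) hc hraw
  have hF3 : ∀ z, ∃ (c : Fin (b * b * (p * b + 1)) → ℂ) (H : Fin (b * b * (p * b + 1)) → Subgroup φ.range)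
      (ψ : Fin (b * b * (p * b + 1)) → φ.range → ZMod p), z ∈ n → T < nm z →
      (∀ j, ‖c j‖ ≤ ((b * b * (p * b + 1) : ℕ) : ℝ)) ∧
      (z ∉ S → ∀ j, c j ≠ 0 → Mb p b S n z φ.rangeRestrict (H j) (ψ j)) ∧
      ∀ y, F z y = ∑ j, c j * th (H j) (ψ j) y := by
    intro z
    by_cases hz : z ∈ n ∧ T < (nm z : ℝ)
    swap
    · exact ⟨fun _ => 0, fun _ => ⊥, fun _ _ => 0, fun h1 h2 => absurd ⟨h1, h2⟩ hz⟩
    obtain ⟨D, hD, hDv, c, H, ψ, hc1, hlc, hDH, hex, hFz⟩ := hF2 z (Finset.mem_filter.2 hz)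
    refine ⟨c, H, ψ, fun _ _ => ⟨hc1, fun hzS j hj => ?_, hFz⟩⟩
    refine ⟨hc, hft, hlc j, hur, ?_, ?_⟩
    · intro l hlS hzl P hP hPl τ hτ x
      by_cases hln : l ∈ n
      · have h1 : (Ic l).map φ.rangeRestrict ≤ D :=
          hDv l (Finset.mem_filter.2 ⟨hln, lt_trans hz.2 (by exact_mod_cast hzl)⟩) hzl
        have h2 : φ.rangeRestrict τ ∈ D :=
          h1 (Subgroup.mem_map_of_mem _ (Subgroup.subset_closure ⟨P, hP, hPl, hτ⟩))
        have h3 : x⁻¹ * φ.rangeRestrict τ * x ∈ D := by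
          have h4 := hD.conj_mem _ h2 x⁻¹
          rwa [inv_inv] at h4
        exact ⟨(hDH j).1 h3, (hDH j).2 _ h3⟩
      · have h1 : φ.rangeRestrict τ = 1 := hur l hlS hln P hP hPl τ hτ
        have h2 : x⁻¹ * φ.rangeRestrict τ * x = 1 := by rw [h1]; group
        rw [h2]
        refine ⟨(H j).one_mem, ?_⟩
        have h3 := hlc j 1 (H j).one_mem 1 (H j).one_mem
        rw [mul_one] at h3
        simpa using h3
    · obtain ⟨y, hyH, hyN, hyψ⟩ := cr_of hD (hlc j) (hDH j).1 (hDH j).2 (hex j hj)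
      refine ⟨y, hyH, hyψ, fun x => ?_⟩
      have hnorm : ((Ic z).map φ.rangeRestrict).Normal := (ic_normal z).map _ hsurj
      obtain ⟨σ, hσ, hσ2⟩ := Subgroup.mem_map.1 (hnorm.conj_mem _ hyN x)
      exact ⟨σ, hσ, hσ2⟩
  choose c H ψ hcH using hF3
  refine ⟨c, H, ψ, fun z hz hT => (hcH z hz hT).1, fun z hz hT => (hcH z hz hT).2.1, fun σ => ?_⟩
  have h1 := dt_img φ T n f f₀ havg (φ.rangeRestrict σ)
  have h2 : ((φ.rangeRestrict σ : φ.range) : G) = φ σ := rfl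
  rw [h2] at h1
  rw [h1, ← h2, ← havg, ← avg_sub]
  have h3 : (fun y => f₀ y - PD (DT φ.rangeRestrict T n) f₀ y) =
      fun y => ∑ z ∈ n.filter (fun v => T < (nm v : ℝ)), F z y := by
    funext y
    exact hF1 y
  rw [h3, avg_sum]
  refine Finset.sum_congr rfl fun z hz => ?_
  obtain ⟨hz1, hz2⟩ := Finset.mem_filter.1 hz
  have h4 : F z = fun y => ∑ j, c z j * th (H z j) (ψ z j) y := by
    funext y
    exact (hcH z hz1 hz2).2.2 y
  rw [h4, avg_sum]
  exact Finset.sum_congr rfl fun j _ => avg_mul _ _ _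

private theorem sg_sum {K : IntermediateField ℚ QBar} [NumberField K] {ι : Type} (x : ℝ) (T : Finset (Pl K)) (s : Finset ι)
    (F : ι → Pl K → ℂ) : sg x T (fun w => ∑ i ∈ s, F i w) = ∑ i ∈ s, sg x T (F i) := by
  unfold sg
  rw [Finset.sum_comm]

private theorem sg_mul {K : IntermediateField ℚ QBar} [NumberField K] (x : ℝ) (T : Finset (Pl K)) (c : ℂ)
    (F : Pl K → ℂ) : sg x T (fun w => c * F w) = c * sg x T F := by
  unfold sg
  rw [Finset.mul_sum]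

theorem gpl {p : ℕ} (hp : p.Prime) (hp2 : p ≠ 2) {K : IntermediateField ℚ QBar} [NumberField K]
    {ζ : K} (hζ : IsPrimitiveRoot ζ p) (S : Finset (Pl K)) (hS : ∀ v : Pl K, Above p v → v ∈ S)
    (b C₁ A : ℕ) : ∃ Y₀ : ℝ, ∀ Y : ℝ, Y₀ ≤ Y → ∀ T : ℝ, Real.exp (Real.log (Real.log Y) ^ 3) ≤ T →
      ∀ (ι : Type) (I : Finset ι) (n : ι → Finset (Pl K)) (x : ι → ℝ),
      (∀ i ∈ I, nr (n i) ≤ Y ^ C₁ ∧ ((n i).card : ℝ) ≤ C₁ * Real.log (Real.log Y)) →
      (∀ i ∈ I, Real.exp (Real.log (Real.log Y) ^ 3) ≤ x i ∧ x i ≤ Y ^ C₁) →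
      (∀ m, ((I.filter fun i => n i = m).card : ℝ) ≤ Real.log Y ^ C₁) →
      ∀ (G : ι → Type) [∀ i, Group (G i)] [∀ i, Fintype (G i)] (φ : ∀ i, Gal(QBar/K) →* G i)
        (f : ∀ i, G i → ℂ), (∀ i ∈ I, Fm p b S (n i) (φ i) (f i)) → ∀ Q : DP K QBar,
      ∑ i ∈ I, (nr (n i))⁻¹ * (x i)⁻¹ *
          ‖sg (x i) (S ∪ n i) (fun w => avg (f i) (φ i (fr Q w)) -
            PD (DT (φ i) T (n i)) (avg (f i)) (φ i (fr Q w)))‖ ≤ Real.log Y ^ (-(A : ℝ)) := by
  classical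
  rcases Nat.eq_zero_or_pos b with hb0 | hb0
  · refine ⟨Real.exp 1, fun Y hY T _ ι I n x _ _ _ G _ _ φ f hF Q => ?_⟩
    have hI : I = ∅ := by
      rw [Finset.eq_empty_iff_forall_notMem]
      intro i hi
      have h1 := (hF i hi).card
      have h2 := Fintype.card_pos (α := G i)
      omega
    rw [hI, Finset.sum_empty]
    refine Real.rpow_nonneg (Real.log_nonneg ?_) _
    have := Real.add_one_le_exp (1 : ℝ)
    linarith
  obtain ⟨Y1, hY1⟩ := bgc hp hp2 hζ S hS b (C₁ + 1) (A + 1) hb0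
  obtain ⟨M, hM⟩ : ∃ M : ℝ, ∀ v ∈ S, (nm v : ℝ) ≤ M :=
    ⟨∑ v ∈ S, (nm v : ℝ), fun v hv => Finset.single_le_sum (f := fun v => (nm v : ℝ))
      (fun _ _ => Nat.cast_nonneg _) hv⟩
  have hlim : Filter.Tendsto (fun Y : ℝ => Real.exp (Real.log (Real.log Y) ^ 3)) Filter.atTop Filter.atTop :=
    Real.tendsto_exp_atTop.comp ((Filter.tendsto_pow_atTop (by norm_num)).comp
      (Real.tendsto_log_atTop.comp Real.tendsto_log_atTop))
  obtain ⟨Y₀, hY₀⟩ := Filter.eventually_atTop.1 ((Filter.eventually_ge_atTop Y1).and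
    ((hlim.eventually_ge_atTop M).and ((Real.tendsto_log_atTop.eventually_ge_atTop
      (((b * b * (p * b + 1) : ℕ) : ℝ) + 1)).and (Filter.eventually_ge_atTop (1 : ℝ)))))
  refine ⟨Y₀, fun Y hY T hT ι I n x hn hx hfib G _ _ φ f hF Q => ?_⟩
  obtain ⟨hYa, hYb, hYc, hYd⟩ := hY₀ Y hY
  have hlog1 : 1 ≤ Real.log Y := by
    have : (0 : ℝ) ≤ ((b * b * (p * b + 1) : ℕ) : ℝ) := Nat.cast_nonneg _
    linarith
  have hlog0 : 0 < Real.log Y := lt_of_lt_of_le one_pos hlog1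
  have hll : 0 ≤ Real.log (Real.log Y) := Real.log_nonneg hlog1
  have hNlog : ((b * b * (p * b + 1) : ℕ) : ℝ) ≤ Real.log Y := by linarith
  -- the members
  have hone : ∀ i, ∃ (c : Pl K → Fin (b * b * (p * b + 1)) → ℂ)
      (H : Pl K → Fin (b * b * (p * b + 1)) → Subgroup (φ i).range)
      (ψ : Pl K → Fin (b * b * (p * b + 1)) → (φ i).range → ZMod p), i ∈ I →
      (∀ z ∈ n i, T < nm z → ∀ j, ‖c z j‖ ≤ ((b * b * (p * b + 1) : ℕ) : ℝ)) ∧
      (∀ z ∈ n i, T < nm z → z ∉ S → ∀ j, c z j ≠ 0 → Mb p b S (n i) z (φ i).rangeRestrict (H z j) (ψ z j)) ∧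
      ∀ σ, avg (f i) (φ i σ) - PD (DT (φ i) T (n i)) (avg (f i)) (φ i σ) =
        ∑ z ∈ (n i).filter (fun v => T < (nm v : ℝ)), ∑ j, c z j * avg (th (H z j) (ψ z j)) ((φ i).rangeRestrict σ) := by
    intro i
    by_cases hi : i ∈ I
    · obtain ⟨c, H, ψ, h1⟩ := one hp (hF i hi) T
      exact ⟨c, H, ψ, fun _ => h1⟩
    · exact ⟨fun _ _ => 0, fun _ _ => ⊥, fun _ _ _ => 0, fun h1 => absurd h1 hi⟩
  choose c H ψ hcH using hone
  obtain ⟨J, hJ⟩ : ∃ J : Finset (ι × Pl K × Fin (b * b * (p * b + 1))),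
      J = (I ×ˢ (I.biUnion n) ×ˢ Finset.univ).filter
        (fun t => t.2.1 ∈ n t.1 ∧ T < (nm t.2.1 : ℝ) ∧ c t.1 t.2.1 t.2.2 ≠ 0) := ⟨_, rfl⟩
  have hJm : ∀ t, t ∈ J ↔ t.1 ∈ I ∧ t.2.1 ∈ n t.1 ∧ T < (nm t.2.1 : ℝ) ∧ c t.1 t.2.1 t.2.2 ≠ 0 := by
    intro t
    rw [hJ, Finset.mem_filter, Finset.mem_product, Finset.mem_product, Finset.mem_biUnion]
    constructor
    · rintro ⟨⟨h1, -, -⟩, h2⟩
      exact ⟨h1, h2⟩
    · rintro ⟨h1, h2⟩
      exact ⟨⟨h1, ⟨t.1, h1, h2.1⟩, Finset.mem_univ _⟩, h2⟩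
  have hnotS : ∀ v : Pl K, T < (nm v : ℝ) → v ∉ S := by
    intro v hv hvS
    have h1 := hM v hvS
    have h2 : M ≤ T := le_trans hYb hT
    linarith
  have hbg := hY1 Y hYa (ι × Pl K × Fin (b * b * (p * b + 1))) J (fun t => n t.1) (fun t => t.2.1) (fun t => x t.1)
    (fun t ht => by
      obtain ⟨h1, h2, h3, h4⟩ := (hJm t).1 ht
      exact ⟨hnotS _ h3, h2, lt_of_le_of_lt hT h3⟩)
    (fun t ht => by
      obtain ⟨h1, h2, h3, h4⟩ := (hJm t).1 ht
      obtain ⟨h5, h6⟩ := hn t.1 h1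
      refine ⟨h5.trans (pow_le_pow_right₀ hYd (Nat.le_succ _)), h6.trans ?_⟩
      push_cast
      nlinarith)
    (fun t ht => by
      obtain ⟨h1, h2, h3, h4⟩ := (hJm t).1 ht
      obtain ⟨h5, h6⟩ := hx t.1 h1
      exact ⟨h5, h6.trans (pow_le_pow_right₀ hYd (Nat.le_succ _))⟩)
    (fun m v => by
      have h1 : ((J.filter fun t => n t.1 = m ∧ t.2.1 = v).card) ≤
          ((I.filter fun i => n i = m) ×ˢ (Finset.univ : Finset (Fin (b * b * (p * b + 1))))).card := by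
        refine Finset.card_le_card_of_injOn (fun t => (t.1, t.2.2)) ?_ ?_
        · intro t ht
          obtain ⟨h2, h3, h4⟩ := Finset.mem_filter.1 ht
          have h5 := (hJm t).1 h2
          simp only [Finset.coe_product, Set.mem_prod, Finset.mem_coe, Finset.mem_filter, Finset.mem_univ, and_true]
          exact ⟨h5.1, h3⟩
        · intro t ht t' ht' htt
          obtain ⟨h2, h3, h4⟩ := Finset.mem_filter.1 ht
          obtain ⟨h2', h3', h4'⟩ := Finset.mem_filter.1 ht'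
          simp only [Prod.mk.injEq] at htt
          exact Prod.ext htt.1 (Prod.ext (h4.trans h4'.symm) htt.2)
      rw [Finset.card_product, Finset.card_univ, Fintype.card_fin] at h1
      have h2 : (((J.filter fun t => n t.1 = m ∧ t.2.1 = v).card : ℕ) : ℝ) ≤
          (((I.filter fun i => n i = m).card * (b * b * (p * b + 1)) : ℕ) : ℝ) := by exact_mod_cast h1
      refine h2.trans ?_
      rw [Nat.cast_mul, pow_succ]
      exact mul_le_mul (hfib m) hNlog (Nat.cast_nonneg _) (by positivity))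
    (fun t => (φ t.1).range) (fun t => (φ t.1).rangeRestrict) (fun t => H t.1 t.2.1 t.2.2) (fun t => ψ t.1 t.2.1 t.2.2)
    (fun t ht => by
      obtain ⟨h1, h2, h3, h4⟩ := (hJm t).1 ht
      exact (hcH t.1 h1).2.1 t.2.1 h2 h3 (hnotS _ h3) t.2.2 h4) Q
  -- comparison
  obtain ⟨Fv, hFv⟩ : ∃ Fv : ι × Pl K × Fin (b * b * (p * b + 1)) → ℝ, Fv = fun t => (nr (n t.1))⁻¹ * (x t.1)⁻¹ *
      ‖sg (x t.1) (S ∪ n t.1) (fun w => mi (φ t.1).rangeRestrict (H t.1 t.2.1 t.2.2) (ψ t.1 t.2.1 t.2.2) (fr Q w))‖ :=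
    ⟨_, rfl⟩
  have hxpos : ∀ i ∈ I, 0 < x i := fun i hi => lt_of_lt_of_le (Real.exp_pos _) (hx i hi).1
  have hnrpos : ∀ m : Finset (Pl K), 0 ≤ (nr m)⁻¹ := fun m => by
    rw [inv_nonneg]
    unfold nr
    positivity
  have hmain : ∀ i ∈ I, (nr (n i))⁻¹ * (x i)⁻¹ *
      ‖sg (x i) (S ∪ n i) (fun w => avg (f i) (φ i (fr Q w)) -
        PD (DT (φ i) T (n i)) (avg (f i)) (φ i (fr Q w)))‖ ≤
      ((b * b * (p * b + 1) : ℕ) : ℝ) * ∑ z ∈ (n i).filter (fun v => T < (nm v : ℝ)),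
        ∑ j ∈ Finset.univ.filter (fun j => c i z j ≠ 0), Fv (i, z, j) := by
    intro i hi
    obtain ⟨h1, h2, h3⟩ := hcH i hi
    have h4 : (fun w => avg (f i) (φ i (fr Q w)) - PD (DT (φ i) T (n i)) (avg (f i)) (φ i (fr Q w))) =
        fun w => ∑ z ∈ (n i).filter (fun v => T < (nm v : ℝ)), ∑ j,
          (c i z j * ((Fintype.card (H i z j) : ℂ) / Fintype.card (φ i).range)) *
            mi (φ i).rangeRestrict (H i z j) (ψ i z j) (fr Q w) := by
      funext w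
      rw [h3]
      refine Finset.sum_congr rfl fun z _ => Finset.sum_congr rfl fun j _ => ?_
      rw [avg_mi, mul_assoc]
    rw [h4, sg_sum]
    have hw : 0 ≤ (nr (n i))⁻¹ * (x i)⁻¹ := mul_nonneg (hnrpos _) (inv_nonneg.2 (hxpos i hi).le)
    calc (nr (n i))⁻¹ * (x i)⁻¹ * ‖∑ z ∈ (n i).filter (fun v => T < (nm v : ℝ)), sg (x i) (S ∪ n i) (fun w => ∑ j,
          (c i z j * ((Fintype.card (H i z j) : ℂ) / Fintype.card (φ i).range)) *
            mi (φ i).rangeRestrict (H i z j) (ψ i z j) (fr Q w))‖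
        ≤ (nr (n i))⁻¹ * (x i)⁻¹ * ∑ z ∈ (n i).filter (fun v => T < (nm v : ℝ)),
          ∑ j ∈ Finset.univ.filter (fun j => c i z j ≠ 0), ((b * b * (p * b + 1) : ℕ) : ℝ) *
            ‖sg (x i) (S ∪ n i) (fun w => mi (φ i).rangeRestrict (H i z j) (ψ i z j) (fr Q w))‖ := by
          refine mul_le_mul_of_nonneg_left ?_ hw
          refine (norm_sum_le _ _).trans (Finset.sum_le_sum fun z hz => ?_)
          obtain ⟨hz1, hz2⟩ := Finset.mem_filter.1 hz
          rw [sg_sum]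
          refine (norm_sum_le _ _).trans ?_
          rw [Finset.sum_filter]
          refine Finset.sum_le_sum fun j _ => ?_
          rw [sg_mul, norm_mul]
          split_ifs with hc0
          · refine mul_le_mul_of_nonneg_right ?_ (norm_nonneg _)
            rw [norm_mul]
            calc ‖c i z j‖ * ‖(Fintype.card (H i z j) : ℂ) / Fintype.card (φ i).range‖
                ≤ ((b * b * (p * b + 1) : ℕ) : ℝ) * 1 :=
                  mul_le_mul (h1 z hz1 hz2 j) (ratio_le _) (norm_nonneg _) (Nat.cast_nonneg _)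
              _ = _ := mul_one _
          · rw [ne_eq, not_not] at hc0
            rw [hc0, zero_mul, norm_zero, zero_mul]
      _ = _ := by
          rw [Finset.mul_sum, Finset.mul_sum]
          refine Finset.sum_congr rfl fun z _ => ?_
          rw [Finset.mul_sum, Finset.mul_sum]
          refine Finset.sum_congr rfl fun j _ => ?_
          rw [hFv]
          ring
  have hsumJ : ∑ i ∈ I, ∑ z ∈ (n i).filter (fun v => T < (nm v : ℝ)),
      ∑ j ∈ Finset.univ.filter (fun j => c i z j ≠ 0), Fv (i, z, j) = ∑ t ∈ J, Fv t := by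
    rw [hJ, Finset.sum_filter, Finset.sum_product]
    refine Finset.sum_congr rfl fun i hi => ?_
    rw [Finset.sum_product]
    have h1 : (n i).filter (fun v => T < (nm v : ℝ)) ⊆ I.biUnion n := fun v hv =>
      Finset.mem_biUnion.2 ⟨i, hi, (Finset.mem_filter.1 hv).1⟩
    rw [← Finset.sum_subset h1]
    · refine Finset.sum_congr rfl fun z hz => ?_
      obtain ⟨hz1, hz2⟩ := Finset.mem_filter.1 hz
      rw [Finset.sum_filter]
      refine Finset.sum_congr rfl fun j _ => ?_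
      simp only [hz1, hz2, true_and]
    · intro z _ hz
      refine Finset.sum_eq_zero fun j _ => ?_
      rw [if_neg]
      rintro ⟨h2, h3, -⟩
      exact hz (Finset.mem_filter.2 ⟨h2, h3⟩)
  refine (Finset.sum_le_sum hmain).trans ?_
  rw [← Finset.mul_sum, hsumJ]
  have hbg2 : ∑ t ∈ J, Fv t ≤ Real.log Y ^ (-((A + 1 : ℕ) : ℝ)) := by
    rw [hFv]
    exact hbg
  calc ((b * b * (p * b + 1) : ℕ) : ℝ) * ∑ t ∈ J, Fv t
      ≤ Real.log Y * Real.log Y ^ (-((A + 1 : ℕ) : ℝ)) :=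
        mul_le_mul hNlog hbg2 (Finset.sum_nonneg fun t ht => by
          rw [hFv]
          have h1 := (hJm t).1 ht
          exact mul_nonneg (mul_nonneg (hnrpos _) (inv_nonneg.2 (hxpos _ h1.1).le)) (norm_nonneg _)) hlog0.le
    _ = Real.log Y ^ (-(A : ℝ)) := by
        conv_lhs => rw [show Real.log Y * Real.log Y ^ (-((A + 1 : ℕ) : ℝ)) =
          Real.log Y ^ (1 : ℝ) * Real.log Y ^ (-((A + 1 : ℕ) : ℝ)) from by rw [Real.rpow_one]]
        rw [← Real.rpow_add hlog0]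
        congr 1
        push_cast
        ring

end H57.GP
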