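import Pool.Agent.H57.GP.Tel

/-!
# [H57 GP DEC] decomposition by the largest ramified prime (80-130 lines)

`ic_normal`: `Ic l` is normal: its generating set is stable under conjugation (`g τ g⁻¹` is in the inertia group of `g • P`, `(g • P).under = P.under`; see the private lemmas `chv_under`,
`hmem` in `H57/GP/Chv`), `Subgroup.closure_induction` or `Subgroup.normal_closure...`. `φ` onto: `(Ic v).map φ` is normal (`Subgroup.Normal.map`). Sups of normal subgroups are normal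
(`Subgroup.sup_normal`, `Subgroup.iSup_normal`...; for finite sups by induction).

`dec`: induction on `m` (`Finset.induction_on_max_value` with the value `- nm`, or strong induction removing the element of SMALLEST norm): let `z ∈ m` have minimal norm, `m' = m.erase z`,
`D = ⨆ v ∈ m', (Ic v).map φ`, `D' = ⨆ v ∈ m, .. = D ⊔ (Ic z).map φ`. `f - PD D' f = (f - PD D f) + (PD D f - PD D' f)`; the second bracket is `F z` by `tel` (`D` contains the groups of all
`v ∈ m` with `nm z < nm v`); the first one by induction for `m'` (for `z' ∈ m'` the condition on `v ∈ m` with `nm z' < nm v` is only about `v ∈ m'`, as `nm z ≤ nm z'`). `m = ∅`: `PD ⊥ f = f` (`⨆` over the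
empty set is `⊥`).

`cr_of`: from `Cb .. D (D ⊔ N) F`: a term with `c ≠ 0` has `y ∈ H`, `y ∈ D ⊔ N`, `ψ y ≠ 0`, `D ≤ H`, `ψ = 0` on `D`. `y = d n` (`D` normal), `n = d⁻¹ y ∈ H`, `ψ n = ψ d⁻¹ + ψ y = ψ y ≠ 0`.
-/

set_option autoImplicit false

open scoped NumberField Pointwise Classical
open IsDedekindDomain H63.MA NumberField H36.QA H57.LI H57.LC H67.SX H38.ML H57.SL

noncomputable section

namespace H57.GP

variable {K : IntermediateField ℚ QBar} [NumberField K]

omit [NumberField K] in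
private theorem dec_smul (σ : Gal(QBar/K)) (a : 𝓞 K) :
    σ • algebraMap (𝓞 K) (𝓞 QBar) a = algebraMap (𝓞 K) (𝓞 QBar) a := by
  apply NumberField.RingOfIntegers.ext
  exact σ.commutes (a : K)

omit [NumberField K] in
private theorem dec_under (σ : Gal(QBar/K)) (P : Ideal (𝓞 QBar)) :
    (σ⁻¹ • P).under (𝓞 K) = P.under (𝓞 K) := by
  ext a
  show algebraMap (𝓞 K) (𝓞 QBar) a ∈ σ⁻¹ • P ↔ algebraMap (𝓞 K) (𝓞 QBar) a ∈ P
  rw [Ideal.mem_inv_pointwise_smul_iff, dec_smul]

private theorem dec_conj {l : Pl K} (σ : Gal(QBar/K)) {τ : Gal(QBar/K)} (hτ : τ ∈ Ic l) :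
    σ⁻¹ * τ * σ ∈ Ic l := by
  unfold Ic at hτ ⊢
  induction hτ using Subgroup.closure_induction with
  | mem τ hτ =>
    obtain ⟨P, hP, hPl, hτP⟩ := hτ
    have hP' : (σ⁻¹ • P).IsPrime := inferInstance
    refine Subgroup.subset_closure ⟨σ⁻¹ • P, hP', (dec_under σ P).trans hPl, ?_⟩
    intro y
    show (σ⁻¹ * τ * σ) • y - y ∈ σ⁻¹ • P
    rw [Ideal.mem_inv_pointwise_smul_iff, smul_sub, mul_smul, mul_smul, smul_inv_smul]
    exact hτP (σ • y)
  | one =>
    rw [mul_one, inv_mul_cancel]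
    exact one_mem _
  | mul x y _ _ hx hy =>
    have h : σ⁻¹ * (x * y) * σ = (σ⁻¹ * x * σ) * (σ⁻¹ * y * σ) := by group
    rw [h]
    exact mul_mem hx hy
  | inv x _ hx =>
    have h : σ⁻¹ * x⁻¹ * σ = (σ⁻¹ * x * σ)⁻¹ := by group
    rw [h]
    exact inv_mem hx

theorem ic_normal (l : Pl K) : (Ic l : Subgroup Gal(QBar/K)).Normal := by
  refine ⟨fun n hn g => ?_⟩
  have h := dec_conj g⁻¹ hn
  rwa [inv_inv] at h

private theorem dec_sn {G : Type} [Group G] (φ : Gal(QBar/K) →* G) (hφ : Function.Surjective φ)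
    (m : Finset (Pl K)) : (⨆ v ∈ m, (Ic v).map φ : Subgroup G).Normal :=
  Subgroup.biSup_normal (m : Set (Pl K)) (fun v => (Ic v).map φ) fun v _ => (ic_normal v).map φ hφ

theorem dec {p : ℕ} (hp : p.Prime) {G : Type} [Group G] [Fintype G] (hG : IsPGroup p G)
    (φ : Gal(QBar/K) →* G) (hφ : Function.Surjective φ) (m : Finset (Pl K)) {N b : ℕ}
    (hb : Fintype.card G ≤ b) {f : G → ℂ} (hf : Raw p N f) :
    ∃ F : Pl K → G → ℂ, (∀ y, f y - PD (⨆ v ∈ m, (Ic v).map φ) f y = ∑ z ∈ m, F z y) ∧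
      ∀ z ∈ m, ∃ D : Subgroup G, D.Normal ∧ (∀ v ∈ m, nm z < nm v → (Ic v).map φ ≤ D) ∧
        Cb p (N * (p * b + 1)) D (D ⊔ (Ic z).map φ) (F z) := by
  induction m using Finset.induction_on_min_value (fun v : Pl K => nm v) with
  | empty =>
    refine ⟨fun _ _ => 0, fun y => ?_, fun z hz => absurd hz (Finset.notMem_empty z)⟩
    have h1 : (⨆ v ∈ (∅ : Finset (Pl K)), (Ic v).map φ : Subgroup G) = ⊥ := by simp
    rw [h1, pd_bot, sub_self, Finset.sum_empty]
  | insert z s hz hmin ih =>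
    obtain ⟨F, hF, hC⟩ := ih
    obtain ⟨D, hD⟩ : ∃ D : Subgroup G, D = ⨆ v ∈ s, (Ic v).map φ := ⟨_, rfl⟩
    have hDn : D.Normal := by
      rw [hD]
      exact dec_sn φ hφ s
    have hZn : ((Ic z).map φ).Normal := (ic_normal z).map φ hφ
    have hsup : (⨆ v ∈ insert z s, (Ic v).map φ : Subgroup G) = D ⊔ (Ic z).map φ := by
      rw [Finset.iSup_insert, hD, sup_comm]
    have hDn' : (D ⊔ (Ic z).map φ).Normal := Subgroup.sup_normal _ _
    rw [← hD] at hF
    obtain ⟨F', hFz, hFw⟩ : ∃ F' : Pl K → G → ℂ,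
        (F' z = fun y => PD D f y - PD (D ⊔ (Ic z).map φ) f y) ∧ ∀ w, w ≠ z → F' w = F w :=
      ⟨fun w => if w = z then fun y => PD D f y - PD (D ⊔ (Ic z).map φ) f y else F w,
        if_pos rfl, fun w hw => if_neg hw⟩
    refine ⟨F', fun y => ?_, fun w hw => ?_⟩
    · rw [hsup, Finset.sum_insert hz, hFz]
      have h1 : ∑ w ∈ s, F' w y = ∑ w ∈ s, F w y := by
        refine Finset.sum_congr rfl fun w hw => ?_
        rw [hFw w (fun h => hz (h ▸ hw))]
      rw [h1, ← hF y]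
      ring
    · rcases Finset.mem_insert.1 hw with rfl | hws
      · refine ⟨D, hDn, fun v hv hlt => ?_, ?_⟩
        · rcases Finset.mem_insert.1 hv with rfl | hvs
          · exact absurd hlt (lt_irrefl _)
          · rw [hD]
            exact le_biSup (fun v : Pl K => (Ic v).map φ) hvs
        · rw [hFz]
          exact tel hp hG D _ hDn hDn' le_sup_left hb hf
      · have hne : w ≠ z := fun h => hz (h ▸ hws)
        obtain ⟨D1, h1, h2, h3⟩ := hC w hws
        refine ⟨D1, h1, fun v hv hlt => ?_, ?_⟩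
        · rcases Finset.mem_insert.1 hv with rfl | hvs
          · exact absurd hlt (not_lt.2 (hmin w hws))
          · exact h2 v hvs hlt
        · rw [hFw w hne]
          exact h3

theorem cr_of {p : ℕ} {G : Type} [Group G] {D N H : Subgroup G} {ψ : G → ZMod p} (hD : D.Normal)
    (hψ : Lc H ψ) (h1 : D ≤ H) (h2 : ∀ y ∈ D, ψ y = 0)
    (h3 : ∃ y ∈ H, y ∈ D ⊔ N ∧ ψ y ≠ 0) : ∃ y ∈ H, y ∈ N ∧ ψ y ≠ 0 := by
  obtain ⟨y, hyH, hyD, hy⟩ := h3
  obtain ⟨d, hd, n, hn, rfl⟩ := Subgroup.mem_sup_of_normal_left.1 hyD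
  have hnH : n ∈ H := by
    have h4 := H.mul_mem (H.inv_mem (h1 hd)) hyH
    rwa [inv_mul_cancel_left] at h4
  refine ⟨n, hnH, hn, fun h4 => hy ?_⟩
  rw [hψ d (h1 hd) n hnH, h2 d hd, h4, add_zero]

theorem sup_normal {G : Type} [Group G] (φ : Gal(QBar/K) →* G) (hφ : Function.Surjective φ)
    (m : Finset (Pl K)) : (⨆ v ∈ m, (Ic v).map φ : Subgroup G).Normal := by
  exact dec_sn φ hφ m

end H57.GP
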