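import Pool.Agent.H57.GP.Chr

/-!
# [H57 GP SMS] prime sums of an induced character with small conductor (120-180 lines)

`SWS`: the prime number theorem for ray class characters `ψ` with `ψ² ≠ 1` (chapter SW of helper1, `H1/PN`).

`orb φ hft H ψ hψ B hU hN`: `E i`, `θ i`, `i : Fin m`, `m ≤ b`. `chv` gives `χ i` with `Vl` and `Non2`. For a prime `w` of `K` of prime norm, not above `p`, `w ∉ B`: `mi φ H ψ (fr Q w) = ∑ i, d1 K (χ i).χ w`.
`∑_{nm w ≤ x} d1 K (χ i).χ w = ∑` over the primes `V` of `E i` with `nm V = nm w`, `V` over `w`, `nm V ≤ x`. Compare with `∑ V ∈ PB (E i) x, (χ i).χ V`: the difference consists of the `V` with `nm V = nm w ^ f`, `f ≥ 2`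
(`nm_over`), so `nm w ≤ x^(1/2)`: at most `[E i : K] * #{w | nm w ≤ x^(1/2)} ≤ C x^(1/2)` (`over_finite`, `fib` of `H57/AN/Df`). The primes `w` of non prime norm: `#{w | nm w ≤ x, nm w not prime} ≤ C x^(1/2)`
(norm `q^f`, `f ≥ 2`, at most `[K:ℚ]` primes over `q`; compare `thn` in `H57/SL/Ast`, `card_P`), each contributes at most `b` (`mi_bd`) resp. `[E i : K]`. The primes above `p` and the primes of `Bd`: at most
`C + card Bd` primes, each `≤ b + ∑ [E i : K]`. So `‖sg x Bd (mi ..) - ∑ i, ∑ V ∈ PB (E i) x, (χ i).χ V‖ ≤ C (x^(1/2) + card Bd)`.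
`SWS` for the degrees `finrank ℚ (E i) ≤ b [K:ℚ]` (take the worst constants over the finitely many degrees; `TC (E i) _` as in CHR): needs `log (dd (E i) * absNorm (md (mB p B) (E i))) ≤ (log x)^(c')`:
`dsb`, `mB_norm`: `dd N𝔣 ≤ C' (nr B)^A'`, so the logarithm is `≤ C'' (1 + log (nr B)) ≤ C'' (log x)^c ≤ (log x)^(c')` if `c = c'/2` and `x ≥ X₀`.
-/

set_option autoImplicit false

open scoped NumberField Pointwise Classical
open IsDedekindDomain H63.MA NumberField H36.QA H57.LI H57.LC H67.SX H38.ML H57.SL H57.AN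

noncomputable section

namespace H57.GP

/-- prime sums of ray class characters with small conductor (chapter SW) -/
def SWS : Prop := ∀ n A : ℕ, ∃ C c : ℝ, 1 ≤ C ∧ 0 < c ∧ ∀ (E : Type) [Field E] [NumberField E],
  TC E n → ∀ 𝔣 : Ideal (𝓞 E), 𝔣 ≠ ⊥ → ∀ ψ : RC E 𝔣, Non2 ψ → ∀ x : ℝ, 3 ≤ x →
  Real.log (dd E * Ideal.absNorm 𝔣) ≤ Real.log x ^ c →
  ‖∑ w ∈ PB E x, ψ.χ w.asIdeal‖ ≤ C * x * Real.log x ^ (-(A : ℝ))

private theorem sms_np {L : Type} [Field L] [NumberField L] {x : ℝ} :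
    (((PB L x).filter fun w => ¬ (nm w).Prime).card : ℝ) ≤ Module.finrank ℚ L * √x := by
  have h1 : ((PB L x).filter fun w => ¬ (nm w).Prime).card ≤ Module.finrank ℚ L * (Finset.Icc 1 ⌊√x⌋₊).card := by
    refine Finset.card_le_mul_card_image_of_maps_to (f := fun w => (nm w).minFac) ?_ _ ?_
    · intro w hw
      obtain ⟨hw1, hw2⟩ := Finset.mem_filter.1 hw
      rw [mem_PB] at hw1
      obtain ⟨h3, f, hf, h4⟩ := H57.LI.prk_pow w
      have hf2 : 2 ≤ f := by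
        rcases Nat.lt_or_ge f 2 with h5 | h5
        · exfalso
          have h6 : f = 1 := by omega
          rw [h6, pow_one] at h4
          exact hw2 (h4 ▸ h3)
        · exact h5
      rw [Finset.mem_Icc]
      refine ⟨h3.pos, Nat.le_floor ?_⟩
      apply Real.le_sqrt_of_sq_le
      refine le_trans ?_ hw1
      have h5 : (nm w).minFac ^ 2 ≤ nm w := by
        conv_rhs => rw [h4]
        exact Nat.pow_le_pow_right h3.pos hf2
      exact_mod_cast h5
    · intro ℓ _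
      exact H57.LI.prk_fibre ℓ _ fun v hv => (Finset.mem_filter.1 hv).2
  rw [Nat.card_Icc, Nat.add_sub_cancel] at h1
  calc (((PB L x).filter fun w => ¬ (nm w).Prime).card : ℝ)
      ≤ ((Module.finrank ℚ L * ⌊√x⌋₊ : ℕ) : ℝ) := by exact_mod_cast h1
    _ = Module.finrank ℚ L * (⌊√x⌋₊ : ℝ) := by push_cast; rfl
    _ ≤ _ := mul_le_mul_of_nonneg_left (Nat.floor_le (Real.sqrt_nonneg x)) (Nat.cast_nonneg _)

private theorem sms_dn {K : Type} [Field K] [NumberField K] {L : Type} [Field L] [NumberField L] [Algebra K L]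
    (T : Finset (Pl K)) (S : Finset (Pl L)) (hS : ∀ w ∈ S, dn K w ∈ T) :
    (S.card : ℝ) ≤ Module.finrank K L * T.card := by
  have h1 : S.card ≤ Module.finrank K L * T.card := by
    refine Finset.card_le_mul_card_image_of_maps_to (f := fun w => dn K w) hS _ ?_
    intro v _
    exact fib K v _ fun w hw => (Finset.mem_filter.1 hw).2
  exact_mod_cast h1

private theorem sms_one {L : Type} [Field L] [NumberField L] {𝔣 : Ideal (𝓞 L)} (χ : RC L 𝔣) (I : Ideal (𝓞 L)) (hI : I ≠ ⊥) :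
    ‖χ.χ I‖ ≤ 1 := by
  by_cases h : IsCoprime I 𝔣
  · exact (χ.norm_one I hI h).le
  · rw [χ.zero_of I h, norm_zero]
    exact zero_le_one

/-- the primes of degree one over good primes -/
private theorem sms_d1 {K : Type} [Field K] [NumberField K] {L : Type} [Field L] [NumberField L] [Algebra K L]
    {𝔣 : Ideal (𝓞 L)} (χ : RC L 𝔣) (p : ℕ) (x : ℝ) (Bd : Finset (Pl K)) :
    ∑ w ∈ (PB K x).filter (fun w => w ∉ Bd ∧ (nm w).Prime ∧ ¬ Above p w), d1 K χ.χ w =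
      ∑ V ∈ (PB L x).filter (fun V => dn K V ∉ Bd ∧ (nm V).Prime ∧ ¬ Above p (dn K V)), χ.χ V.asIdeal := by
  have hmap : ∀ V ∈ (PB L x).filter (fun V => dn K V ∉ Bd ∧ (nm V).Prime ∧ ¬ Above p (dn K V)),
      dn K V ∈ (PB K x).filter (fun w => w ∉ Bd ∧ (nm w).Prime ∧ ¬ Above p w) := by
    intro V hV
    obtain ⟨h1, h2, h3, h4⟩ := Finset.mem_filter.1 hV
    rw [mem_PB] at h1
    rw [Finset.mem_filter, mem_PB, nm_dn K h3]
    exact ⟨h1, h2, h3, h4⟩
  rw [← Finset.sum_fiberwise_of_maps_to hmap]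
  refine Finset.sum_congr rfl fun w hw => ?_
  obtain ⟨h1, h2, h3, h4⟩ := Finset.mem_filter.1 hw
  rw [mem_PB] at h1
  unfold d1
  have hset : {V : Pl L | Over V w ∧ nm V = nm w} =
      ((((PB L x).filter (fun V => dn K V ∉ Bd ∧ (nm V).Prime ∧ ¬ Above p (dn K V))).filter
        (fun V => dn K V = w) : Finset (Pl L)) : Set (Pl L)) := by
    ext V
    rw [Finset.mem_coe, Finset.mem_filter, Finset.mem_filter, mem_PB, Set.mem_ofPred_eq]
    constructor
    · rintro ⟨h5, h6⟩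
      have h7 : dn K V = w := dn_eq K h5
      rw [h7, h6]
      exact ⟨⟨h1, h2, h3, h4⟩, rfl⟩
    · rintro ⟨⟨h5, h6, h7, h8⟩, h9⟩
      refine ⟨?_, ?_⟩
      · rw [← h9]
        exact dn_over K V
      · rw [← h9, nm_dn K h7]
  rw [hset, finsum_mem_coe_finset]

private theorem sms_nr {K : Type} [Field K] [NumberField K] (B : Finset (Pl K)) : (1 : ℝ) ≤ nr B := by
  unfold nr
  refine Finset.prod_induction _ (fun a : ℝ => 1 ≤ a) (fun a b ha hb => one_le_mul_of_one_le_of_one_le ha hb) le_rfl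
    fun v _ => ?_
  have h1 := H57.LI.prk_two v
  have h2 : 1 ≤ nm v := by omega
  exact_mod_cast h2

private theorem sms_cond {p : ℕ} (hp : p.Prime) {K : IntermediateField ℚ QBar} [NumberField K] (b : ℕ) :
    ∃ C2 : ℝ, 1 ≤ C2 ∧ ∀ (E : IntermediateField K QBar) [NumberField E] (θ : Gal(QBar/K) → ZMod p) (B : Finset (Pl K)),
      Module.finrank K E ≤ b → Th p E θ B →
      Real.log (dd E * Ideal.absNorm (md (mB p B) E)) ≤ C2 * (1 + Real.log (nr B)) := by
  have hfin : {v : Pl K | Above p v}.Finite := finite_above hp.ne_zero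
  choose Cd hCd hds using fun d : ℕ => dsb K d hfin.toFinset
  obtain ⟨D0, hD0⟩ : ∃ D0 : ℝ, D0 = ∑ d ∈ Finset.range (b + 1), Cd d := ⟨_, rfl⟩
  obtain ⟨q0, hq0⟩ : ∃ q0 : ℝ, q0 = ((p : ℝ) ^ 3) ^ Module.finrank ℚ K := ⟨_, rfl⟩
  have hp1 : (1 : ℝ) ≤ p := by exact_mod_cast hp.one_lt.le
  have hq1 : 1 ≤ q0 := by rw [hq0]; exact one_le_pow₀ (one_le_pow₀ hp1)
  have hDd : ∀ d ≤ b, Cd d ≤ D0 := by
    intro d hd
    rw [hD0]
    exact Finset.single_le_sum (f := Cd) (fun i _ => by linarith [hCd i]) (Finset.mem_range.2 (by omega))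
  have hD1 : 1 ≤ D0 := (hCd 0).trans (hDd 0 (Nat.zero_le _))
  refine ⟨Real.log D0 + b * Real.log q0 + 2 * b + 1, ?_, ?_⟩
  · have h1 := Real.log_nonneg hD1
    have h2 := Real.log_nonneg hq1
    have h3 : (0 : ℝ) ≤ b := Nat.cast_nonneg _
    nlinarith [mul_nonneg h3 h2]
  intro E _ θ B hd hθ
  have hB1 := sms_nr B
  have hB0 : 0 < nr B := by linarith
  have h1 : dd E ≤ D0 * nr B ^ b := by
    have h2 := hds (Module.finrank K E) E rfl B (fun l hl hlB => by
      refine th_IT E θ B hθ l (fun h => hl ?_) hlB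
      rw [Set.Finite.mem_toFinset]
      exact h)
    refine h2.trans ?_
    exact mul_le_mul (hDd _ hd) (pow_le_pow_right₀ hB1 hd) (by positivity) (by linarith)
  have h2 : (Ideal.absNorm (md (mB p B) E) : ℝ) ≤ q0 ^ b * nr B ^ b := by
    rw [mB_norm, ← hq0, ← mul_pow]
    exact pow_le_pow_right₀ (one_le_mul_of_one_le_of_one_le hq1 hB1) hd
  have h3 : 0 < dd E := dd_pos E
  have h4 : (0 : ℝ) < Ideal.absNorm (md (mB p B) E) := by
    rw [mB_norm, ← hq0]
    positivity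
  have h5 : Real.log (dd E * Ideal.absNorm (md (mB p B) E)) ≤ Real.log ((D0 * nr B ^ b) * (q0 ^ b * nr B ^ b)) :=
    Real.log_le_log (mul_pos h3 h4) (mul_le_mul h1 h2 h4.le (by positivity))
  have hD0' : D0 ≠ 0 := by linarith
  have hq0' : q0 ≠ 0 := by linarith
  have hB0' : nr B ≠ 0 := by linarith
  have hlog : Real.log ((D0 * nr B ^ b) * (q0 ^ b * nr B ^ b)) =
      Real.log D0 + b * Real.log (nr B) + (b * Real.log q0 + b * Real.log (nr B)) := by
    rw [Real.log_mul (mul_ne_zero hD0' (pow_ne_zero _ hB0')) (mul_ne_zero (pow_ne_zero _ hq0') (pow_ne_zero _ hB0')),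
      Real.log_mul hD0' (pow_ne_zero _ hB0'), Real.log_mul (pow_ne_zero _ hq0') (pow_ne_zero _ hB0'),
      Real.log_pow, Real.log_pow]
  rw [hlog] at h5
  have h6 := Real.log_nonneg hB1
  have h7 := Real.log_nonneg hD1
  have h8 := Real.log_nonneg hq1
  have h9 : (0 : ℝ) ≤ b := Nat.cast_nonneg _
  have h10 : 0 ≤ (b : ℝ) * Real.log q0 := mul_nonneg h9 h8
  nlinarith [mul_nonneg h7 h6, mul_nonneg h10 h6, mul_nonneg h9 h6]

theorem sms (hsw : SWS) {p : ℕ} (hp : p.Prime) (hp2 : p ≠ 2) {K : IntermediateField ℚ QBar}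
    [NumberField K] {ζ : K} (hζ : IsPrimitiveRoot ζ p) (b A : ℕ) : ∃ C c X₀ : ℝ, 1 ≤ C ∧ 0 < c ∧
    3 ≤ X₀ ∧ ∀ (G : Type) [Group G] [Fintype G] (φ : Gal(QBar/K) →* G) (H : Subgroup G)
      (ψ : G → ZMod p) (B Bd : Finset (Pl K)) (Q : DP K QBar), Fintype.card G ≤ b → Ft φ →
      Lc H ψ → (∀ l, ¬ Above p l → l ∉ B → Ud φ H ψ l) → Np φ H ψ → B ⊆ Bd → ∀ x : ℝ, X₀ ≤ x →
      1 + Real.log (nr B) ≤ Real.log x ^ c →
      ‖sg x Bd (fun w => mi φ H ψ (fr Q w))‖ ≤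
        C * (x * Real.log x ^ (-(A : ℝ))) + C * Bd.card := by
  classical
  choose Cs cs hCs hcs hS using fun n : ℕ => hsw n A
  obtain ⟨nK, hnK⟩ : ∃ nK : ℕ, nK = Module.finrank ℚ K := ⟨_, rfl⟩
  obtain ⟨nm', hnm'⟩ : ∃ nm' : ℕ, nm' = nK * b := ⟨_, rfl⟩
  obtain ⟨C1, hC1⟩ : ∃ C1 : ℝ, C1 = ∑ n ∈ Finset.range (nm' + 1), Cs n := ⟨_, rfl⟩
  have hC1n : ∀ n ≤ nm', Cs n ≤ C1 := by
    intro n hn
    rw [hC1]
    exact Finset.single_le_sum (f := Cs) (fun i _ => by linarith [hCs i]) (Finset.mem_range.2 (by omega))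
  have hC1' : 1 ≤ C1 := (hCs 0).trans (hC1n 0 (Nat.zero_le _))
  have hne : (Finset.range (nm' + 1)).Nonempty := ⟨0, Finset.mem_range.2 (Nat.succ_pos _)⟩
  obtain ⟨c1, hc1⟩ : ∃ c1 : ℝ, c1 = (Finset.range (nm' + 1)).inf' hne cs := ⟨_, rfl⟩
  have hc1n : ∀ n ≤ nm', c1 ≤ cs n := by
    intro n hn
    rw [hc1]
    exact Finset.inf'_le _ (Finset.mem_range.2 (by omega))
  have hc1' : 0 < c1 := by
    rw [hc1, Finset.lt_inf'_iff]
    exact fun n _ => hcs n
  obtain ⟨C2, hC2, hcond⟩ := sms_cond hp (K := K) b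
  have hfin : {v : Pl K | Above p v}.Finite := finite_above hp.ne_zero
  obtain ⟨Pab, hPab⟩ : ∃ Pab : Finset (Pl K), Pab = hfin.toFinset := ⟨_, rfl⟩
  have hPm : ∀ v : Pl K, v ∈ Pab ↔ Above p v := by
    intro v
    rw [hPab, Set.Finite.mem_toFinset]
    exact Iff.rfl
  -- large `x`
  have hl1 : Filter.Tendsto (fun x : ℝ => Real.log x ^ (c1 / 2)) Filter.atTop Filter.atTop :=
    (tendsto_rpow_atTop (by positivity)).comp Real.tendsto_log_atTop
  have hl2 : ∀ᶠ x : ℝ in Filter.atTop, Real.log x ^ (A : ℝ) ≤ 1 * x ^ (1 / 2 : ℝ) := by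
    have h := (isLittleO_log_rpow_rpow_atTop (A : ℝ) (show (0 : ℝ) < 1 / 2 by norm_num)).bound one_pos
    filter_upwards [h, Filter.eventually_ge_atTop (1 : ℝ)] with x hx hx1
    have h3 : 0 ≤ Real.log x := Real.log_nonneg hx1
    rw [Real.norm_of_nonneg (Real.rpow_nonneg h3 _), Real.norm_of_nonneg (Real.rpow_nonneg (by linarith) _)] at hx
    exact hx
  obtain ⟨X1, hX1⟩ := Filter.eventually_atTop.1 ((hl1.eventually_ge_atTop C2).and (hl2.and
    (Real.tendsto_log_atTop.eventually_ge_atTop 1)))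
  obtain ⟨Ct, hCt⟩ : ∃ Ct : ℝ, Ct = b * C1 + b * nm' + b * b * Pab.card + b * nK + b * Pab.card + b * b + 1 :=
    ⟨_, rfl⟩
  have hb0 : (0 : ℝ) ≤ b := Nat.cast_nonneg _
  have hnK0 : (0 : ℝ) ≤ nK := Nat.cast_nonneg _
  have hnm0 : (0 : ℝ) ≤ nm' := Nat.cast_nonneg _
  have hPc0 : (0 : ℝ) ≤ Pab.card := Nat.cast_nonneg _
  refine ⟨Ct, c1 / 2, max X1 3, ?_, by positivity, le_max_right _ _, ?_⟩
  · rw [hCt]
    have h1 : 0 ≤ b * C1 := mul_nonneg hb0 (by linarith)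
    have h2 : 0 ≤ (b : ℝ) * nm' := mul_nonneg hb0 hnm0
    have h3 : 0 ≤ (b : ℝ) * b * Pab.card := by positivity
    have h4 : 0 ≤ (b : ℝ) * nK := by positivity
    have h5 : 0 ≤ (b : ℝ) * Pab.card := by positivity
    have h6 : 0 ≤ (b : ℝ) * b := by positivity
    linarith
  intro G _ _ φ H ψ B Bd Q hG hft hψ hU hN hBd x hx hnr
  obtain ⟨hxa, hxb, hxc⟩ := hX1 x ((le_max_left _ _).trans hx)
  have hx3 : 3 ≤ x := (le_max_right _ _).trans hx
  have hx0 : 0 < x := by linarith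
  have hlx0 : 0 < Real.log x := lt_of_lt_of_le one_pos hxc
  obtain ⟨m, E, θ, hm0, hmG, hE, hθ, horb⟩ := orb φ hft H ψ hψ B hU hN
  have hfd : ∀ i, FiniteDimensional K (E i) := fun i => (hE i).1
  have hnf : ∀ i, NumberField (E i) := fun i => NumberField.of_module_finite K (E i)
  have hmb : (m : ℝ) ≤ b := by exact_mod_cast hmG.trans hG
  have hχ : ∀ i, ∃ χ : RC (E i) (md (mB p B) (E i)), Vl p (E i) (θ i) B χ ∧ Non2 χ := by
    intro i
    obtain ⟨χ, h1, h2⟩ := chv hp hp2 hζ (E i) (θ i) B (hθ i).1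
    exact ⟨χ, h1, h2 (hθ i).2⟩
  choose χ hχV hχN using hχ
  have hsum := horb hnf χ hχV
  have hEb : ∀ i, Module.finrank K (E i) ≤ b := fun i => (hE i).2.trans hG
  have hEQ : ∀ i, Module.finrank ℚ (E i) = nK * Module.finrank K (E i) := fun i => by
    rw [hnK, ← Module.finrank_mul_finrank ℚ K (E i)]
  have hEQ' : ∀ i, Module.finrank ℚ (E i) ≤ nm' := fun i => by
    rw [hEQ i, hnm']
    exact Nat.mul_le_mul_left _ (hEb i)
  have hp3 : 2 < p := lt_of_le_of_ne hp.two_le (Ne.symm hp2)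
  have htcK : TC K (Module.finrank ℚ K) :=
    ⟨NumberField.nrRealPlaces_eq_zero_iff.mp
      (NumberField.InfinitePlace.IsPrimitiveRoot.nrRealPlaces_eq_zero_of_two_lt hp3 hζ), rfl⟩
  have htc : ∀ i, TC (E i) (Module.finrank ℚ (E i)) := fun i => by
    rw [hEQ i, hnK]
    exact H1.LS4.tc_up htcK rfl
  have hsx : √x = x ^ (1 / 2 : ℝ) := Real.sqrt_eq_rpow x
  have hmain : x ^ (1 / 2 : ℝ) ≤ x * Real.log x ^ (-(A : ℝ)) := by
    rw [Real.rpow_neg hlx0.le, ← div_eq_mul_inv, le_div_iff₀ (Real.rpow_pos_of_pos hlx0 _)]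
    calc x ^ (1 / 2 : ℝ) * Real.log x ^ (A : ℝ) ≤ x ^ (1 / 2 : ℝ) * (1 * x ^ (1 / 2 : ℝ)) :=
          mul_le_mul_of_nonneg_left hxb (Real.rpow_nonneg hx0.le _)
      _ = x := by
          rw [one_mul, ← Real.rpow_add hx0]
          norm_num
  have h1s : 1 ≤ x ^ (1 / 2 : ℝ) := Real.one_le_rpow (by linarith) (by norm_num)
  obtain ⟨X, hX⟩ : ∃ X : ℝ, X = x * Real.log x ^ (-(A : ℝ)) := ⟨_, rfl⟩
  rw [← hX] at hmain ⊢
  -- the sums over the primes of `E i`
  have hW : ∀ i, ‖∑ w ∈ PB (E i) x, (χ i).χ w.asIdeal‖ ≤ C1 * X := by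
    intro i
    have h1 := hS (Module.finrank ℚ (E i)) (E i) (htc i) (md (mB p B) (E i)) (by
      intro h
      unfold md at h
      rw [Ideal.map_eq_bot_iff_of_injective (FaithfulSMul.algebraMap_injective (𝓞 K) (𝓞 (E i)))] at h
      exact mB_ne hp B h) (χ i) (hχN i) x hx3 (by
      have h2 := hcond (E i) (θ i) B (hEb i) (hθ i).1
      have h3 : C2 * (1 + Real.log (nr B)) ≤ Real.log x ^ (c1 / 2) * Real.log x ^ (c1 / 2) := by
        refine mul_le_mul hxa hnr ?_ (by positivity)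
        have := Real.log_nonneg (sms_nr B)
        linarith
      have h4 : Real.log x ^ (c1 / 2) * Real.log x ^ (c1 / 2) = Real.log x ^ c1 := by
        rw [← Real.rpow_add hlx0]
        congr 1
        ring
      rw [h4] at h3
      exact h2.trans (h3.trans (Real.rpow_le_rpow_of_exponent_le hxc (hc1n _ (hEQ' i)))))
    refine h1.trans ?_
    rw [hX, mul_assoc]
    exact mul_le_mul_of_nonneg_right (hC1n _ (hEQ' i)) (mul_nonneg hx0.le (Real.rpow_nonneg hlx0.le _))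
  have hT : ∀ i, ‖∑ V ∈ (PB (E i) x).filter (fun V => dn K V ∉ Bd ∧ (nm V).Prime ∧ ¬ Above p (dn K V)),
      (χ i).χ V.asIdeal‖ ≤ C1 * X + (nm' * x ^ (1 / 2 : ℝ) + b * (Pab.card + Bd.card)) := by
    intro i
    have h1 : ∑ V ∈ (PB (E i) x).filter (fun V => dn K V ∉ Bd ∧ (nm V).Prime ∧ ¬ Above p (dn K V)), (χ i).χ V.asIdeal =
        ∑ V ∈ PB (E i) x, (χ i).χ V.asIdeal -
        ∑ V ∈ (PB (E i) x).filter (fun V => ¬ (dn K V ∉ Bd ∧ (nm V).Prime ∧ ¬ Above p (dn K V))), (χ i).χ V.asIdeal := by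
      rw [eq_sub_iff_add_eq, Finset.sum_filter_add_sum_filter_not]
    rw [h1]
    refine (norm_sub_le _ _).trans (add_le_add (hW i) ?_)
    have h2 : ‖∑ V ∈ (PB (E i) x).filter (fun V => ¬ (dn K V ∉ Bd ∧ (nm V).Prime ∧ ¬ Above p (dn K V))),
        (χ i).χ V.asIdeal‖ ≤
        (((PB (E i) x).filter (fun V => ¬ (dn K V ∉ Bd ∧ (nm V).Prime ∧ ¬ Above p (dn K V)))).card : ℝ) := by
      refine (norm_sum_le _ _).trans ?_
      refine (Finset.sum_le_card_nsmul _ _ 1 fun V _ => sms_one _ _ V.ne_bot).trans ?_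
      rw [nsmul_eq_mul, mul_one]
    refine h2.trans ?_
    have h3 : (PB (E i) x).filter (fun V => ¬ (dn K V ∉ Bd ∧ (nm V).Prime ∧ ¬ Above p (dn K V))) ⊆
        ((PB (E i) x).filter fun V => ¬ (nm V).Prime) ∪ ((PB (E i) x).filter fun V => dn K V ∈ Pab ∪ Bd) := by
      intro V hV
      obtain ⟨h4, h5⟩ := Finset.mem_filter.1 hV
      rw [Finset.mem_union, Finset.mem_filter, Finset.mem_filter]
      by_cases h6 : (nm V).Prime
      · right
        refine ⟨h4, ?_⟩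
        rw [Finset.mem_union, hPm]
        by_contra h7
        rw [not_or] at h7
        exact h5 ⟨h7.2, h6, h7.1⟩
      · left
        exact ⟨h4, h6⟩
    have h4 := (Finset.card_le_card h3).trans (Finset.card_union_le _ _)
    have h5 : (((PB (E i) x).filter (fun V => ¬ (dn K V ∉ Bd ∧ (nm V).Prime ∧ ¬ Above p (dn K V)))).card : ℝ) ≤
        (((PB (E i) x).filter fun V => ¬ (nm V).Prime).card : ℝ) +
          (((PB (E i) x).filter fun V => dn K V ∈ Pab ∪ Bd).card : ℝ) := by exact_mod_cast h4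
    have h6 := sms_np (L := E i) (x := x)
    have h7 := sms_dn (K := K) (L := E i) (Pab ∪ Bd) ((PB (E i) x).filter fun V => dn K V ∈ Pab ∪ Bd)
      (fun w hw => (Finset.mem_filter.1 hw).2)
    have h8 : ((Pab ∪ Bd).card : ℝ) ≤ Pab.card + Bd.card := by exact_mod_cast Finset.card_union_le _ _
    have h9 : (Module.finrank ℚ (E i) : ℝ) ≤ nm' := by exact_mod_cast hEQ' i
    have h10 : (Module.finrank K (E i) : ℝ) ≤ b := by exact_mod_cast hEb i
    rw [hsx] at h6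
    have h11 : (Module.finrank ℚ (E i) : ℝ) * x ^ (1 / 2 : ℝ) ≤ nm' * x ^ (1 / 2 : ℝ) :=
      mul_le_mul_of_nonneg_right h9 (by linarith)
    have h12 : (Module.finrank K (E i) : ℝ) * ((Pab ∪ Bd).card : ℝ) ≤ b * (Pab.card + Bd.card) :=
      mul_le_mul h10 h8 (Nat.cast_nonneg _) hb0
    linarith
  -- the sum over the good primes
  have hgood : ∑ w ∈ (PB K x).filter (fun w => w ∉ Bd ∧ (nm w).Prime ∧ ¬ Above p w), mi φ H ψ (fr Q w) =
      ∑ i, ∑ V ∈ (PB (E i) x).filter (fun V => dn K V ∉ Bd ∧ (nm V).Prime ∧ ¬ Above p (dn K V)), (χ i).χ V.asIdeal := by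
    have h1 : ∀ i, ∑ V ∈ (PB (E i) x).filter (fun V => dn K V ∉ Bd ∧ (nm V).Prime ∧ ¬ Above p (dn K V)),
        (χ i).χ V.asIdeal = ∑ w ∈ (PB K x).filter (fun w => w ∉ Bd ∧ (nm w).Prime ∧ ¬ Above p w), d1 K (χ i).χ w :=
      fun i => (sms_d1 (K := K) (χ i) p x Bd).symm
    rw [Finset.sum_congr rfl fun i _ => h1 i, Finset.sum_comm]
    refine Finset.sum_congr rfl fun w hw => ?_
    obtain ⟨-, h2, h3, h4⟩ := Finset.mem_filter.1 hw
    exact (hsum Q w h4 (fun h => h2 (hBd h)) h3).symm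
  have hsplit : sg x Bd (fun w => mi φ H ψ (fr Q w)) =
      ∑ w ∈ (PB K x).filter (fun w => w ∉ Bd ∧ (nm w).Prime ∧ ¬ Above p w), mi φ H ψ (fr Q w) +
      ∑ w ∈ ((PB K x).filter (fun w => w ∉ Bd)).filter (fun w => ¬ ((nm w).Prime ∧ ¬ Above p w)), mi φ H ψ (fr Q w) := by
    unfold sg
    rw [← Finset.sum_filter_add_sum_filter_not ((PB K x).filter (fun w => w ∉ Bd)) (fun w => (nm w).Prime ∧ ¬ Above p w),
      Finset.filter_filter]
  have hbad : ‖∑ w ∈ ((PB K x).filter (fun w => w ∉ Bd)).filter (fun w => ¬ ((nm w).Prime ∧ ¬ Above p w)),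
      mi φ H ψ (fr Q w)‖ ≤ b * (nK * x ^ (1 / 2 : ℝ) + Pab.card) := by
    have h1 : ‖∑ w ∈ ((PB K x).filter (fun w => w ∉ Bd)).filter (fun w => ¬ ((nm w).Prime ∧ ¬ Above p w)),
        mi φ H ψ (fr Q w)‖ ≤
        ((((PB K x).filter (fun w => w ∉ Bd)).filter (fun w => ¬ ((nm w).Prime ∧ ¬ Above p w))).card : ℝ) * b := by
      refine (norm_sum_le _ _).trans ?_
      refine (Finset.sum_le_card_nsmul _ _ (b : ℝ) fun w _ => (mi_bd φ H ψ _).trans (by exact_mod_cast hG)).trans ?_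
      rw [nsmul_eq_mul]
    refine h1.trans ?_
    rw [mul_comm]
    refine mul_le_mul_of_nonneg_left ?_ hb0
    have h3 : ((PB K x).filter (fun w => w ∉ Bd)).filter (fun w => ¬ ((nm w).Prime ∧ ¬ Above p w)) ⊆
        ((PB K x).filter fun V => ¬ (nm V).Prime) ∪ Pab := by
      intro V hV
      obtain ⟨h4, h5⟩ := Finset.mem_filter.1 hV
      have h4' := (Finset.mem_filter.1 h4).1
      rw [Finset.mem_union, Finset.mem_filter, hPm]
      by_cases h6 : (nm V).Prime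
      · right
        by_contra h7
        exact h5 ⟨h6, h7⟩
      · left
        exact ⟨h4', h6⟩
    have h4 := (Finset.card_le_card h3).trans (Finset.card_union_le _ _)
    have h5 : ((((PB K x).filter (fun w => w ∉ Bd)).filter (fun w => ¬ ((nm w).Prime ∧ ¬ Above p w))).card : ℝ) ≤
        (((PB K x).filter fun V => ¬ (nm V).Prime).card : ℝ) + (Pab.card : ℝ) := by exact_mod_cast h4
    have h6 := sms_np (L := K) (x := x)
    rw [hsx, ← hnK] at h6
    linarith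
  rw [hsplit, hgood]
  refine (norm_add_le _ _).trans ?_
  have hfinal : ‖∑ i, ∑ V ∈ (PB (E i) x).filter (fun V => dn K V ∉ Bd ∧ (nm V).Prime ∧ ¬ Above p (dn K V)),
      (χ i).χ V.asIdeal‖ ≤ b * (C1 * X + (nm' * x ^ (1 / 2 : ℝ) + b * (Pab.card + Bd.card))) := by
    refine (norm_sum_le _ _).trans ((Finset.sum_le_card_nsmul _ _ _ fun i _ => hT i).trans ?_)
    rw [Finset.card_univ, Fintype.card_fin, nsmul_eq_mul]
    refine mul_le_mul_of_nonneg_right hmb ?_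
    have h1 : 0 ≤ X := by linarith
    have h2 : 0 ≤ C1 * X := mul_nonneg (by linarith) h1
    have h3 : 0 ≤ nm' * x ^ (1 / 2 : ℝ) := mul_nonneg hnm0 (by linarith)
    positivity
  refine (add_le_add hfinal hbad).trans ?_
  have hX1' : 1 ≤ X := h1s.trans hmain
  have hBc0 : (0 : ℝ) ≤ Bd.card := Nat.cast_nonneg _
  have e1 : (b : ℝ) * (nm' * x ^ (1 / 2 : ℝ)) ≤ b * nm' * X := by
    rw [← mul_assoc]
    exact mul_le_mul_of_nonneg_left hmain (by positivity)
  have e2 : (b : ℝ) * (nK * x ^ (1 / 2 : ℝ)) ≤ b * nK * X := by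
    rw [← mul_assoc]
    exact mul_le_mul_of_nonneg_left hmain (by positivity)
  have e3 : (b : ℝ) * b * Pab.card ≤ b * b * Pab.card * X := le_mul_of_one_le_right (by positivity) hX1'
  have e4 : (b : ℝ) * Pab.card ≤ b * Pab.card * X := le_mul_of_one_le_right (by positivity) hX1'
  have e5 : 0 ≤ (b * b + 1) * X := by positivity
  have e6 : 0 ≤ (b * C1 + b * nm' + b * b * Pab.card + b * nK + b * Pab.card + 1) * Bd.card := by
    have : 0 ≤ (b : ℝ) * C1 := mul_nonneg hb0 (by linarith)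
    positivity
  calc (b : ℝ) * (C1 * X + (nm' * x ^ (1 / 2 : ℝ) + b * (Pab.card + Bd.card))) +
        b * (nK * x ^ (1 / 2 : ℝ) + Pab.card)
      = b * C1 * X + b * (nm' * x ^ (1 / 2 : ℝ)) + b * b * Pab.card + b * b * Bd.card +
        b * (nK * x ^ (1 / 2 : ℝ)) + b * Pab.card := by ring
    _ ≤ b * C1 * X + b * nm' * X + b * b * Pab.card * X + b * b * Bd.card + b * nK * X + b * Pab.card * X := by
        linarith
    _ ≤ Ct * X + Ct * Bd.card := by
        rw [hCt]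
        nlinarith [e5, e6]

end H57.GP
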