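import Pool.Agent.H57.GP.Gpl
import Pool.Agent.H57.GP.Sms

/-!
# [H57 GP GP] THE BLACK BOX GP (120-180 lines)

`b ≥ 1`. `N = b * b * (p * b + 1)`, `k = (prK K).n`. Let `A'` be a natural number with `ε A' ≥ A + C₁ + k + 3`, `(C, c, X₀)` from `sms` with `(b, A')`, `ε' = c ε / 4` (`c ≤ 1` may be assumed: replace `c` by `min c 1`;
`log x ≥ 1`), `T = exp ((log Y)^ε')`; for `Y` large `T ≥ exp (ℓ³)`, `exp ((log Y)^ε) ≥ exp (ℓ³)`. `gpl` with this `T` and `A + 1`. It remains to bound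
`∑ i, (nr (n i))⁻¹ (x i)⁻¹ ‖sg (x i) (S ∪ n i) (PD (DT φ T n) (avg f) (φ (fr Q w)) - mn φ f)‖`. By `img`, `dt_img`: the function is `avg (PD D f₀ - PD ⊤ f₀) (φ₀ (fr Q w))`, `D = DT φ₀ T n` (normal, `sup_normal`), `φ₀` onto
(`avg` of a constant is the constant), and `tel` (`D' = ⊤`): `PD D f₀ - PD ⊤ f₀ = ∑_{j < N} c_j th H_j ψ_j`, `D ≤ H_j`, `ψ_j = 0` on `D`, and `ψ_j ≠ 0` on `H_j` if `c_j ≠ 0`.
For such `j`: `Np φ₀ H_j ψ_j`: `y ∈ H_j`, `ψ_j y ≠ 0`, for `x` take `σ` with `φ₀ σ = x y x⁻¹`. `Ud φ₀ H_j ψ_j l` for `l ∉ B = S ∪ (n i).filter (nm · ≤ T)`: `l ∉ n i`: `Ur`; `l ∈ n i`, `nm l > T`: the inertia goes to `D` (normal),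
`D ≤ H_j`, `ψ_j = 0` on `D`. `Bd = S ∪ n i`. `log (nr B) ≤ log (nr S) + C₁ ℓ (log Y)^ε'` (at most `C₁ ℓ` primes of norm `≤ T`), so `1 + log (nr B) ≤ (log Y)^(2 ε') ≤ (log Y)^(ε c) ≤ (log x)^c` for `Y` large
(`log x ≥ (log Y)^ε`). `sms`: `‖sg (x i) .. mi‖ ≤ C x (log x)^(-A') + C (card S + C₁ ℓ) ≤ 2 C x (log Y)^(-ε A')` (`x ≥ exp ((log Y)^ε)`). `avg (th H ψ) = (card H / card G) mi`. Sum over `j`: factor `N²`.
Sum over `i`: `∑ i, (nr (n i))⁻¹ ≤ (log Y)^C₁ ∑_{nr m ≤ Y^C₁} (nr m)⁻¹ ≤ (log Y)^C₁ C (C₁ log Y)^k` (`Pr.har`). Total `≤ (log Y)^(-A-1)` for `Y` large.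
-/

set_option autoImplicit false

open scoped NumberField Pointwise Classical ComplexConjugate
open IsDedekindDomain H63.MA NumberField H36.QA H57.LI H57.LC H67.SX H38.ML H57.SL H57.AN

noncomputable section

namespace H57.GP

/-- the conclusion of `sms` -/
private def SmP (K : IntermediateField ℚ QBar) [NumberField K] (p b A : ℕ) (C c X₀ : ℝ) : Prop :=
  ∀ (G : Type) [Group G] [Fintype G] (φ : Gal(QBar/K) →* G) (H : Subgroup G)
      (ψ : G → ZMod p) (B Bd : Finset (Pl K)) (Q : DP K QBar), Fintype.card G ≤ b → Ft φ →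
      Lc H ψ → (∀ l, ¬ Above p l → l ∉ B → Ud φ H ψ l) → Np φ H ψ → B ⊆ Bd → ∀ x : ℝ, X₀ ≤ x →
      1 + Real.log (nr B) ≤ Real.log x ^ c →
      ‖sg x Bd (fun w => mi φ H ψ (fr Q w))‖ ≤
        C * (x * Real.log x ^ (-(A : ℝ))) + C * Bd.card

private theorem gp_avg {G : Type} [Group G] [Fintype G] {p : ℕ} (H : Subgroup G) (ψ : G → ZMod p)
    {K : IntermediateField ℚ QBar} [NumberField K] (φ : Gal(QBar/K) →* G) (σ : Gal(QBar/K)) :
    avg (th H ψ) (φ σ) = ((Fintype.card H : ℂ) / Fintype.card G) * mi φ H ψ σ := by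
  unfold avg mi
  have h1 : (Fintype.card H : ℂ) ≠ 0 := Nat.cast_ne_zero.2 Fintype.card_ne_zero
  field_simp

private theorem gp_one {p : ℕ} (hp : p.Prime) {K : IntermediateField ℚ QBar} [NumberField K]
    {S : Finset (Pl K)} {b A : ℕ} {C c X₀ : ℝ} (hC : 1 ≤ C) (hs : SmP K p b A C c X₀)
    {n : Finset (Pl K)} {G : Type} [Group G] [Fintype G] {φ : Gal(QBar/K) →* G} {f : G → ℂ}
    (hF : Fm p b S n φ f) (T x : ℝ) (hx1 : 1 ≤ x) (hx : X₀ ≤ x)
    (hB : 1 + Real.log (nr (S ∪ n.filter fun v => (nm v : ℝ) ≤ T)) ≤ Real.log x ^ c)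
    (Q : DP K QBar) :
    ‖sg x (S ∪ n) (fun w => PD (DT φ T n) (avg f) (φ (fr Q w)) - mn φ f)‖ ≤
      ((b * b * (p * b + 1) : ℕ) : ℝ) ^ 2 *
        (C * (x * Real.log x ^ (-(A : ℝ))) + C * (S ∪ n).card) := by
  obtain ⟨hcard, hpg, hft, hur⟩ := fm_img hF
  obtain ⟨f₀, hraw, havg, htop⟩ := img φ hF.card hF.raw
  have hsurj : Function.Surjective φ.rangeRestrict := φ.rangeRestrict_surjective
  obtain ⟨D, hDdef⟩ : ∃ D : Subgroup φ.range, D = DT φ.rangeRestrict T n := ⟨_, rfl⟩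
  have hD : D.Normal := by
    rw [hDdef]
    exact sup_normal φ.rangeRestrict hsurj _
  obtain ⟨N, hN⟩ : ∃ N : ℕ, N = b * b * (p * b + 1) := ⟨_, rfl⟩
  have htel := tel hp hpg D ⊤ hD inferInstance le_top hcard hraw
  rw [← hN] at htel ⊢
  obtain ⟨c', H, ψ, hc', hLc, hDH, hne, hsum⟩ := htel
  have e : ∀ σ : Gal(QBar/K), PD (DT φ T n) (avg f) (φ σ) - mn φ f =
      ∑ j, c' j * (((Fintype.card (H j) : ℂ) / Fintype.card φ.range) *
        mi φ.rangeRestrict (H j) (ψ j) σ) := by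
    intro σ
    have h1 := dt_img φ T n f f₀ havg (φ.rangeRestrict σ)
    rw [MonoidHom.coe_rangeRestrict, ← hDdef] at h1
    rw [h1]
    have h2 : mn φ f = avg (PD (⊤ : Subgroup φ.range) f₀) (φ.rangeRestrict σ) := by
      unfold avg
      simp only [htop]
      rw [Finset.sum_const, Finset.card_univ, nsmul_eq_mul, ← mul_assoc, inv_mul_cancel₀, one_mul]
      exact Nat.cast_ne_zero.2 Fintype.card_ne_zero
    rw [h2]
    have h3 : avg (PD D f₀) (φ.rangeRestrict σ) - avg (PD (⊤ : Subgroup φ.range) f₀) (φ.rangeRestrict σ) =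
        ∑ j, c' j * avg (th (H j) (ψ j)) (φ.rangeRestrict σ) := by
      unfold avg
      rw [← mul_sub, ← Finset.sum_sub_distrib]
      simp only [hsum]
      rw [Finset.sum_comm, Finset.mul_sum]
      refine Finset.sum_congr rfl fun j _ => ?_
      rw [← Finset.mul_sum]
      ring
    rw [h3]
    exact Finset.sum_congr rfl fun j _ => by rw [gp_avg]
  have e2 : sg x (S ∪ n) (fun w => PD (DT φ T n) (avg f) (φ (fr Q w)) - mn φ f) =
      ∑ j, c' j * (((Fintype.card (H j) : ℂ) / Fintype.card φ.range) *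
        sg x (S ∪ n) (fun w => mi φ.rangeRestrict (H j) (ψ j) (fr Q w))) := by
    unfold sg
    simp only [e]
    rw [Finset.sum_comm]
    refine Finset.sum_congr rfl fun j _ => ?_
    rw [Finset.mul_sum, Finset.mul_sum]
  rw [e2]
  obtain ⟨R, hR⟩ : ∃ R : ℝ, R = C * (x * Real.log x ^ (-(A : ℝ))) + C * (S ∪ n).card := ⟨_, rfl⟩
  rw [← hR]
  have hR0 : 0 ≤ R := by
    rw [hR]
    have : 0 ≤ Real.log x := Real.log_nonneg hx1
    positivity
  have hterm : ∀ j, ‖c' j * (((Fintype.card (H j) : ℂ) / Fintype.card φ.range) *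
      sg x (S ∪ n) (fun w => mi φ.rangeRestrict (H j) (ψ j) (fr Q w)))‖ ≤ N * R := by
    intro j
    by_cases hj : c' j = 0
    · rw [hj, zero_mul, norm_zero]
      positivity
    have hmi := hs φ.range φ.rangeRestrict (H j) (ψ j) (S ∪ n.filter fun v => (nm v : ℝ) ≤ T)
      (S ∪ n) Q hcard hft (hLc j) ?_ ?_ ?_ x hx hB
    · rw [← hR] at hmi
      rw [norm_mul, norm_mul]
      have h4 : ‖((Fintype.card (H j) : ℂ) / Fintype.card φ.range)‖ ≤ 1 := by
        rw [norm_div, Complex.norm_natCast, Complex.norm_natCast, div_le_one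
          (Nat.cast_pos.2 Fintype.card_pos)]
        exact_mod_cast Fintype.card_subtype_le _
      refine mul_le_mul (hc' j) ?_ (by positivity) (Nat.cast_nonneg _)
      refine (mul_le_mul h4 hmi (norm_nonneg _) zero_le_one).trans ?_
      rw [one_mul]
    · intro l _ hl P hP hPl τ hτ y
      rw [Finset.mem_union, not_or, Finset.mem_filter, not_and] at hl
      obtain ⟨hlS, hln⟩ := hl
      have hmem : y⁻¹ * φ.rangeRestrict τ * y ∈ D := by
        by_cases hl' : l ∈ n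
        · have h5 : φ.rangeRestrict τ ∈ D := by
            have h6 : (Ic l).map φ.rangeRestrict ≤ D := by
              rw [hDdef]
              refine le_iSup₂_of_le (f := fun v (_ : v ∈ n.filter fun v => T < (nm v : ℝ)) =>
                (Ic v).map φ.rangeRestrict) l ?_ le_rfl
              rw [Finset.mem_filter]
              exact ⟨hl', not_le.1 (hln hl')⟩
            exact h6 (Subgroup.mem_map_of_mem _ (Subgroup.subset_closure ⟨P, hP, hPl, hτ⟩))
          have h7 := hD.conj_mem _ h5 y⁻¹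
          rwa [inv_inv] at h7
        · rw [hur l hlS hl' P hP hPl τ hτ, mul_one, inv_mul_cancel]
          exact one_mem _
      exact ⟨(hDH j).1 hmem, (hDH j).2 _ hmem⟩
    · intro y
      obtain ⟨z, hz, -, hz0⟩ := hne j hj
      obtain ⟨σ, hσ⟩ := hsurj (y * z * y⁻¹)
      refine ⟨σ, ?_, ?_⟩
      · rw [hσ]
        have : y⁻¹ * (y * z * y⁻¹) * y = z := by group
        rw [this]
        exact hz
      · rw [hσ]
        have : y⁻¹ * (y * z * y⁻¹) * y = z := by group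
        rw [this]
        exact hz0
    · exact Finset.union_subset_union_right (Finset.filter_subset _ _)
  refine (norm_sum_le _ _).trans ((Finset.sum_le_sum fun j _ => hterm j).trans ?_)
  rw [Finset.sum_const, Finset.card_univ, Fintype.card_fin, nsmul_eq_mul]
  exact le_of_eq (by ring)

/-- the conditions on `L = log Y` -/
private theorem gp_num (ε e' : ℝ) (hε : 0 < ε) (he' : 0 < e') (hee : e' ≤ ε) (C₁ A k A' : ℕ)
    (hA' : (A : ℝ) + C₁ + k + 3 ≤ ε * A') (sS cS K₀ X₀ : ℝ) (hX₀ : 3 ≤ X₀) (hsS : 0 ≤ sS)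
    (hcS : 0 ≤ cS) (hK₀ : 0 ≤ K₀) :
    ∃ L₀ : ℝ, 3 ≤ L₀ ∧ ∀ L : ℝ, L₀ ≤ L → Real.log L ^ 3 ≤ L ^ e' ∧ Real.log L ^ 3 ≤ L ^ ε ∧
      X₀ ≤ Real.exp (L ^ ε) ∧ 1 + (sS + C₁ * Real.log L * L ^ e') ≤ L ^ (2 * e') ∧
      (cS + C₁ * Real.log L) ≤ Real.exp (L ^ ε) * L ^ (-(ε * A')) ∧
      K₀ * (L ^ (-(ε * A')) * (L ^ C₁ * L ^ k)) ≤ L ^ (-((A : ℝ) + 1)) ∧
      2 * L ^ (-((A : ℝ) + 1)) ≤ L ^ (-(A : ℝ)) := by
  have hd : 0 < e' / 3 := by positivity
  have h1 : ∀ᶠ L : ℝ in Filter.atTop, Real.log L ≤ L ^ (e' / 3) := by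
    have h := (isLittleO_log_rpow_atTop hd).bound one_pos
    filter_upwards [h, Filter.eventually_ge_atTop (1 : ℝ)] with L hL hL1
    rw [one_mul, Real.norm_eq_abs, Real.norm_eq_abs,
      abs_of_nonneg (Real.rpow_nonneg (by linarith) _)] at hL
    exact (le_abs_self _).trans hL
  have h2 : ∀ᶠ L : ℝ in Filter.atTop, Real.log X₀ ≤ L ^ ε :=
    (tendsto_rpow_atTop hε).eventually_ge_atTop _
  have h3 : ∀ᶠ L : ℝ in Filter.atTop, 1 + sS + C₁ ≤ L ^ (2 * e' / 3) :=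
    (tendsto_rpow_atTop (by positivity)).eventually_ge_atTop _
  have h4 : ∀ᶠ L : ℝ in Filter.atTop, ε * A' + 2 ≤ Real.log L :=
    Real.tendsto_log_atTop.eventually_ge_atTop _
  obtain ⟨L₁, hL₁⟩ := Filter.eventually_atTop.1 (h1.and (h2.and (h3.and h4)))
  refine ⟨max (max L₁ 3) (max (cS + C₁) K₀), ?_, ?_⟩
  · exact (le_max_right _ _).trans (le_max_left _ _)
  intro L hL
  have hL1 : L₁ ≤ L := (le_max_left _ _).trans ((le_max_left _ _).trans hL)
  have hL3 : 3 ≤ L := (le_max_right _ _).trans ((le_max_left _ _).trans hL)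
  have hLc : cS + C₁ ≤ L := (le_max_left _ _).trans ((le_max_right _ _).trans hL)
  have hLK : K₀ ≤ L := (le_max_right _ _).trans ((le_max_right _ _).trans hL)
  obtain ⟨a1, a2, a3, a4⟩ := hL₁ L hL1
  have hL0 : 0 < L := by linarith
  have hl0 : 0 ≤ Real.log L := Real.log_nonneg (by linarith)
  have b1 : Real.log L ^ 3 ≤ L ^ e' := by
    have h := pow_le_pow_left₀ hl0 a1 3
    rw [← Real.rpow_natCast (L ^ (e' / 3)) 3, ← Real.rpow_mul hL0.le] at h
    refine h.trans (le_of_eq ?_)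
    congr 1
    push_cast
    ring
  have b2 : L ^ e' ≤ L ^ ε := Real.rpow_le_rpow_of_exponent_le (by linarith) hee
  have hA0 : (0 : ℝ) ≤ A' := Nat.cast_nonneg _
  have hC0 : (0 : ℝ) ≤ C₁ := Nat.cast_nonneg _
  refine ⟨b1, b1.trans b2, ?_, ?_, ?_, ?_, ?_⟩
  · rwa [Real.log_le_iff_le_exp (by linarith)] at a2
  · have c1 : C₁ * Real.log L * L ^ e' ≤ C₁ * L ^ (4 * e' / 3) := by
      have e1 : L ^ (4 * e' / 3) = L ^ (e' / 3) * L ^ e' := by
        rw [← Real.rpow_add hL0]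
        congr 1
        ring
      rw [e1, mul_assoc]
      exact mul_le_mul_of_nonneg_left (mul_le_mul_of_nonneg_right a1 (Real.rpow_nonneg hL0.le _)) hC0
    have c2 : 1 ≤ L ^ (4 * e' / 3) := Real.one_le_rpow (by linarith) (by positivity)
    have c3 : (1 + sS + C₁) * L ^ (4 * e' / 3) ≤ L ^ (2 * e') := by
      have e1 : L ^ (2 * e') = L ^ (2 * e' / 3) * L ^ (4 * e' / 3) := by
        rw [← Real.rpow_add hL0]
        congr 1
        ring
      rw [e1]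
      exact mul_le_mul_of_nonneg_right a3 (by linarith)
    nlinarith
  · have c1 : Real.exp ((ε * A' + 2) * Real.log L) ≤ Real.exp (L ^ ε) := by
      refine Real.exp_le_exp.2 (le_trans ?_ (b1.trans b2))
      have c2 : 2 ≤ Real.log L := by
        have : 0 ≤ ε * A' := by positivity
        linarith
      have c3 : (ε * A' + 2) * Real.log L ≤ Real.log L * Real.log L :=
        mul_le_mul_of_nonneg_right a4 hl0
      nlinarith
    have c4 : Real.exp ((ε * A' + 2) * Real.log L) = L ^ (2 : ℝ) * L ^ (ε * A') := by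
      rw [← Real.rpow_add hL0, Real.rpow_def_of_pos hL0]
      congr 1
      ring
    rw [c4] at c1
    have c5 : L ^ (2 : ℝ) ≤ Real.exp (L ^ ε) * L ^ (-(ε * A')) := by
      have c6 := mul_le_mul_of_nonneg_right c1 (Real.rpow_nonneg hL0.le (-(ε * A')))
      rw [mul_assoc, ← Real.rpow_add hL0, add_neg_cancel, Real.rpow_zero, mul_one] at c6
      exact c6
    refine le_trans ?_ c5
    have c7 : Real.log L ≤ L := (Real.log_le_sub_one_of_pos hL0).trans (by linarith)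
    have c8 : cS + C₁ * Real.log L ≤ (cS + C₁) * L := by nlinarith
    rw [Real.rpow_two]
    nlinarith
  · have c1 : L ^ (-(ε * A')) ≤ L ^ (-((A : ℝ) + C₁ + k + 3)) :=
      Real.rpow_le_rpow_of_exponent_le (by linarith) (by linarith)
    have c2 : L ^ (-((A : ℝ) + C₁ + k + 3)) * (L ^ C₁ * L ^ k) = L ^ (-((A : ℝ) + 1)) * L ^ (-(2 : ℝ)) := by
      rw [← Real.rpow_natCast L C₁, ← Real.rpow_natCast L k, ← Real.rpow_add hL0, ← Real.rpow_add hL0,
        ← Real.rpow_add hL0]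
      congr 1
      ring
    have c3 : 0 ≤ L ^ C₁ * L ^ k := by positivity
    have c4 : K₀ * (L ^ (-(ε * A')) * (L ^ C₁ * L ^ k)) ≤
        K₀ * (L ^ (-((A : ℝ) + 1)) * L ^ (-(2 : ℝ))) := by
      rw [← c2]
      exact mul_le_mul_of_nonneg_left (mul_le_mul_of_nonneg_right c1 c3) hK₀
    refine c4.trans ?_
    have c5 : K₀ * L ^ (-(2 : ℝ)) ≤ 1 := by
      have c6 : L ^ (-(2 : ℝ)) * L ^ (2 : ℝ) = 1 := by
        rw [← Real.rpow_add hL0, neg_add_cancel, Real.rpow_zero]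
      have c7 : K₀ ≤ L ^ (2 : ℝ) := by
        rw [Real.rpow_two]
        nlinarith
      have c8 : 0 ≤ L ^ (-(2 : ℝ)) := Real.rpow_nonneg hL0.le _
      calc K₀ * L ^ (-(2 : ℝ)) ≤ L ^ (2 : ℝ) * L ^ (-(2 : ℝ)) := mul_le_mul_of_nonneg_right c7 c8
        _ = 1 := by rw [mul_comm, c6]
    have c9 : 0 ≤ L ^ (-((A : ℝ) + 1)) := Real.rpow_nonneg hL0.le _
    calc K₀ * (L ^ (-((A : ℝ) + 1)) * L ^ (-(2 : ℝ))) =
          (K₀ * L ^ (-(2 : ℝ))) * L ^ (-((A : ℝ) + 1)) := by ring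
      _ ≤ 1 * L ^ (-((A : ℝ) + 1)) := mul_le_mul_of_nonneg_right c5 c9
      _ = _ := one_mul _
  · have c1 : L ^ (-(A : ℝ)) = L * L ^ (-((A : ℝ) + 1)) := by
      nth_rewrite 2 [← Real.rpow_one L]
      rw [← Real.rpow_add hL0]
      congr 1
      ring
    rw [c1]
    exact mul_le_mul_of_nonneg_right (by linarith) (Real.rpow_nonneg hL0.le _)

theorem gp (hsw : SWS) {p : ℕ} (hp : p.Prime) (hp2 : p ≠ 2) {K : IntermediateField ℚ QBar}
    [NumberField K] {ζ : K} (hζ : IsPrimitiveRoot ζ p) (S : Finset (Pl K))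
    (hS : ∀ v : Pl K, Above p v → v ∈ S) (b C₁ A : ℕ) (ε : ℝ) (hε : 0 < ε) :
    ∃ Y₀ : ℝ, ∀ Y : ℝ, Y₀ ≤ Y →
      ∀ (ι : Type) (I : Finset ι) (n : ι → Finset (Pl K)) (x : ι → ℝ),
      (∀ i ∈ I, nr (n i) ≤ Y ^ C₁ ∧ ((n i).card : ℝ) ≤ C₁ * Real.log (Real.log Y)) →
      (∀ i ∈ I, Real.exp (Real.log Y ^ ε) ≤ x i ∧ x i ≤ Y ^ C₁) →
      (∀ m, ((I.filter fun i => n i = m).card : ℝ) ≤ Real.log Y ^ C₁) →
      ∀ (G : ι → Type) [∀ i, Group (G i)] [∀ i, Fintype (G i)] (φ : ∀ i, Gal(QBar/K) →* G i)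
        (f : ∀ i, G i → ℂ), (∀ i ∈ I, Fm p b S (n i) (φ i) (f i)) → ∀ Q : DP K QBar,
      ∑ i ∈ I, (nr (n i))⁻¹ * (x i)⁻¹ *
          ‖sg (x i) (S ∪ n i) (fun w => avg (f i) (φ i (fr Q w)) - mn (φ i) (f i))‖ ≤
        Real.log Y ^ (-(A : ℝ)) := by
  obtain ⟨k, hk⟩ : ∃ k : ℕ, k = (prK K).n := ⟨_, rfl⟩
  obtain ⟨A', hA'⟩ : ∃ A' : ℕ, (A : ℝ) + C₁ + k + 3 ≤ ε * A' := by
    obtain ⟨A', h⟩ := exists_nat_ge (((A : ℝ) + C₁ + k + 3) / ε)
    refine ⟨A', ?_⟩
    rw [div_le_iff₀ hε] at h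
    linarith
  obtain ⟨C, c, X₀, hC, hc, hX₀, hs⟩ := sms hsw hp hp2 hζ b A'
  have hs' : SmP K p b A' C c X₀ := hs
  obtain ⟨Y₁, hgpl⟩ := gpl hp hp2 hζ S hS b C₁ (A + 1)
  obtain ⟨c', hc'⟩ : ∃ c' : ℝ, c' = min c 1 := ⟨_, rfl⟩
  have hc'0 : 0 < c' := by rw [hc']; exact lt_min hc one_pos
  have hc'1 : c' ≤ 1 := by rw [hc']; exact min_le_right _ _
  have hc'c : c' ≤ c := by rw [hc']; exact min_le_left _ _
  obtain ⟨e', he'⟩ : ∃ e' : ℝ, e' = c' * ε / 4 := ⟨_, rfl⟩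
  have he'0 : 0 < e' := by rw [he']; positivity
  have hee : e' ≤ ε := by
    rw [he']
    have : c' * ε ≤ 1 * ε := mul_le_mul_of_nonneg_right hc'1 hε.le
    linarith
  obtain ⟨N, hN⟩ : ∃ N : ℕ, N = b * b * (p * b + 1) := ⟨_, rfl⟩
  have hp1 : (1 : ℝ) ≤ (prK K).C := (prK K).C1
  have hnr1 : ∀ s : Finset (Pl K), 1 ≤ nr s := fun s => by
    have h := (prK K).one_le_nn s
    unfold Pr.nn at h
    unfold nr
    simpa only [prK_N] using h
  obtain ⟨sS, hsS⟩ : ∃ sS : ℝ, sS = Real.log (nr S) := ⟨_, rfl⟩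
  have hsS0 : 0 ≤ sS := by rw [hsS]; exact Real.log_nonneg (hnr1 S)
  obtain ⟨K₀, hK₀⟩ : ∃ K₀ : ℝ, K₀ = (N : ℝ) ^ 2 * (2 * C) * ((prK K).C * ((C₁ : ℝ) + 1) ^ k) := ⟨_, rfl⟩
  have hK₀0 : 0 ≤ K₀ := by rw [hK₀]; positivity
  obtain ⟨L₀, hL₀3, hL₀⟩ := gp_num ε e' hε he'0 hee C₁ A k A' hA' sS S.card K₀ X₀ hX₀ hsS0
    (Nat.cast_nonneg _) hK₀0
  refine ⟨max Y₁ (Real.exp L₀), ?_⟩
  intro Y hY ι I n x hn hx hfib G _ _ φ f hF Q
  have hY1 : Y₁ ≤ Y := (le_max_left _ _).trans hY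
  have hYe : Real.exp L₀ ≤ Y := (le_max_right _ _).trans hY
  have hY0 : 0 < Y := (Real.exp_pos _).trans_le hYe
  obtain ⟨L, hL⟩ : ∃ L : ℝ, L = Real.log Y := ⟨_, rfl⟩
  have hLL : L₀ ≤ L := by rw [hL]; exact (Real.le_log_iff_exp_le hY0).2 hYe
  have hL3 : 3 ≤ L := hL₀3.trans hLL
  have hL0 : 0 < L := by linarith
  obtain ⟨a1, a2, a3, a4, a5, a6, a7⟩ := hL₀ L hLL
  rw [← hL] at hn hx hfib ⊢
  have hx3 : ∀ i ∈ I, Real.exp (Real.log L ^ 3) ≤ x i := fun i hi =>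
    (Real.exp_le_exp.2 a2).trans (hx i hi).1
  have hl0 : 0 ≤ Real.log L := Real.log_nonneg (by linarith)
  have hx1 : ∀ i ∈ I, 1 ≤ x i := fun i hi =>
    (Real.one_le_exp (pow_nonneg hl0 3)).trans (hx3 i hi)
  obtain ⟨T, hT⟩ : ∃ T : ℝ, T = Real.exp (L ^ e') := ⟨_, rfl⟩
  have hT1 : 1 ≤ T := by
    rw [hT]
    exact Real.one_le_exp (Real.rpow_nonneg hL0.le _)
  have hbig := hgpl Y hY1 T (by rw [← hL, hT]; exact Real.exp_le_exp.2 a1) ι I n x
    (by rw [← hL]; exact hn) (by rw [← hL]; exact fun i hi => ⟨hx3 i hi, (hx i hi).2⟩)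
    (by rw [← hL]; exact hfib) G φ f hF Q
  rw [← hL] at hbig
  -- the small part
  have hxpow : ∀ i ∈ I, L ^ ε ≤ Real.log (x i) := fun i hi =>
    (Real.le_log_iff_exp_le (by linarith [hx1 i hi])).2 (hx i hi).1
  have hsmall : ∀ i ∈ I, (x i)⁻¹ * ‖sg (x i) (S ∪ n i)
      (fun w => PD (DT (φ i) T (n i)) (avg (f i)) (φ i (fr Q w)) - mn (φ i) (f i))‖ ≤
      (N : ℝ) ^ 2 * (2 * C) * L ^ (-(ε * A')) := by
    intro i hi
    have hxi := hx1 i hi
    have hLe1 : 1 ≤ L ^ ε := Real.one_le_rpow (by linarith) hε.le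
    have hlx : 1 ≤ Real.log (x i) := hLe1.trans (hxpow i hi)
    have hB : 1 + Real.log (nr (S ∪ (n i).filter fun v => (nm v : ℝ) ≤ T)) ≤ Real.log (x i) ^ c := by
      have h1 : nr (S ∪ (n i).filter fun v => (nm v : ℝ) ≤ T) ≤ nr S * T ^ (n i).card := by
        have h2 : nr (S ∪ (n i).filter fun v => (nm v : ℝ) ≤ T) ≤
            nr S * nr ((n i).filter fun v => (nm v : ℝ) ≤ T) := by
          have h3 : nr (S ∪ (n i).filter fun v => (nm v : ℝ) ≤ T) *
              nr (S ∩ (n i).filter fun v => (nm v : ℝ) ≤ T) =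
              nr S * nr ((n i).filter fun v => (nm v : ℝ) ≤ T) := by
            unfold nr
            exact Finset.prod_union_inter
          have h4 := hnr1 (S ∩ (n i).filter fun v => (nm v : ℝ) ≤ T)
          have h5 := hnr1 (S ∪ (n i).filter fun v => (nm v : ℝ) ≤ T)
          nlinarith
        refine h2.trans (mul_le_mul_of_nonneg_left ?_ (by linarith [hnr1 S]))
        have h6 : nr ((n i).filter fun v => (nm v : ℝ) ≤ T) ≤
            T ^ ((n i).filter fun v => (nm v : ℝ) ≤ T).card := by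
          unfold nr
          rw [← Finset.prod_const]
          exact Finset.prod_le_prod (fun _ _ => Nat.cast_nonneg _) fun v hv =>
            (Finset.mem_filter.1 hv).2
        exact h6.trans (pow_le_pow_right₀ hT1 (Finset.card_filter_le _ _))
      have h7 : Real.log (nr (S ∪ (n i).filter fun v => (nm v : ℝ) ≤ T)) ≤
          sS + C₁ * Real.log L * L ^ e' := by
        have h8 := Real.log_le_log (by linarith [hnr1 (S ∪ (n i).filter fun v => (nm v : ℝ) ≤ T)]) h1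
        have hlT : Real.log T = L ^ e' := by rw [hT, Real.log_exp]
        rw [Real.log_mul (by linarith [hnr1 S]) (by positivity), Real.log_pow, ← hsS, hlT] at h8
        refine h8.trans (add_le_add_right ?_ _)
        exact mul_le_mul_of_nonneg_right (hn i hi).2 (Real.rpow_nonneg hL0.le _)
      have h9 : L ^ (2 * e') ≤ Real.log (x i) ^ c := by
        have h10 : L ^ (2 * e') ≤ (L ^ ε) ^ c' := by
          rw [← Real.rpow_mul hL0.le]
          refine Real.rpow_le_rpow_of_exponent_le (by linarith) ?_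
          rw [he']
          have : 0 ≤ c' * ε := by positivity
          linarith
        have h11 : (L ^ ε) ^ c' ≤ Real.log (x i) ^ c' :=
          Real.rpow_le_rpow (by linarith) (hxpow i hi) hc'0.le
        have h12 : Real.log (x i) ^ c' ≤ Real.log (x i) ^ c :=
          Real.rpow_le_rpow_of_exponent_le hlx hc'c
        exact h10.trans (h11.trans h12)
      linarith
    have h1 := gp_one hp hC hs' (hF i hi) T (x i) hxi (a3.trans (hx i hi).1) hB Q
    rw [← hN] at h1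
    have h2 : Real.log (x i) ^ (-(A' : ℝ)) ≤ L ^ (-(ε * A')) := by
      have h3 : Real.log (x i) ^ (-(A' : ℝ)) ≤ (L ^ ε) ^ (-(A' : ℝ)) :=
        Real.rpow_le_rpow_of_nonpos (by linarith) (hxpow i hi) (by
          have : (0 : ℝ) ≤ A' := Nat.cast_nonneg _
          linarith)
      rw [← Real.rpow_mul hL0.le, mul_neg] at h3
      exact h3
    have h4 : ((S ∪ n i).card : ℝ) ≤ x i * L ^ (-(ε * A')) := by
      have h5 : ((S ∪ n i).card : ℝ) ≤ S.card + (n i).card := by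
        exact_mod_cast Finset.card_union_le _ _
      have h6 : Real.exp (L ^ ε) * L ^ (-(ε * A')) ≤ x i * L ^ (-(ε * A')) :=
        mul_le_mul_of_nonneg_right (hx i hi).1 (Real.rpow_nonneg hL0.le _)
      have h7 := (hn i hi).2
      linarith
    rw [inv_mul_le_iff₀ (by linarith)]
    refine h1.trans ?_
    have h8 : C * (x i * Real.log (x i) ^ (-(A' : ℝ))) + C * (S ∪ n i).card ≤
        2 * C * (x i * L ^ (-(ε * A'))) := by
      have h9 : C * (x i * Real.log (x i) ^ (-(A' : ℝ))) ≤ C * (x i * L ^ (-(ε * A'))) :=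
        mul_le_mul_of_nonneg_left (mul_le_mul_of_nonneg_left h2 (by linarith)) (by linarith)
      have h10 := mul_le_mul_of_nonneg_left h4 (by linarith : (0 : ℝ) ≤ C)
      linarith
    calc (N : ℝ) ^ 2 * (C * (x i * Real.log (x i) ^ (-(A' : ℝ))) + C * (S ∪ n i).card) ≤
          (N : ℝ) ^ 2 * (2 * C * (x i * L ^ (-(ε * A')))) := mul_le_mul_of_nonneg_left h8 (by positivity)
      _ = _ := by ring
  -- the sum over `n`
  have hsumn : ∑ i ∈ I, (nr (n i))⁻¹ ≤ L ^ C₁ * ((prK K).C * (((C₁ : ℝ) + 1) * L) ^ k) := by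
    have h1 : ∑ i ∈ I, (nr (n i))⁻¹ = ∑ m ∈ I.image n, ∑ i ∈ I.filter (fun i => n i = m), (nr (n i))⁻¹ :=
      (Finset.sum_fiberwise_of_maps_to (fun i hi => Finset.mem_image_of_mem n hi) _).symm
    rw [h1]
    have h2 : ∀ m ∈ I.image n, ∑ i ∈ I.filter (fun i => n i = m), (nr (n i))⁻¹ ≤
        L ^ C₁ * (1 / ∏ v ∈ m, ((prK K).N v : ℝ)) := by
      intro m _
      have h3 : ∑ i ∈ I.filter (fun i => n i = m), (nr (n i))⁻¹ =
          ∑ i ∈ I.filter (fun i => n i = m), (nr m)⁻¹ :=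
        Finset.sum_congr rfl fun i hi => by rw [(Finset.mem_filter.1 hi).2]
      have h4 : nr m = ∏ v ∈ m, ((prK K).N v : ℝ) := by
        unfold nr
        exact Finset.prod_congr rfl fun v _ => by rw [prK_N]
      rw [h3, Finset.sum_const, nsmul_eq_mul, one_div, ← h4]
      exact mul_le_mul_of_nonneg_right (hfib m) (inv_nonneg.2 (by linarith [hnr1 m]))
    refine (Finset.sum_le_sum h2).trans ?_
    rw [← Finset.mul_sum]
    refine mul_le_mul_of_nonneg_left ?_ (by positivity)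
    have hYY : 2 ≤ Y := by
      have h5 : L + 1 ≤ Real.exp L := Real.add_one_le_exp L
      rw [hL, Real.exp_log hY0, ← hL] at h5
      linarith
    have h6 := (prK K).har (Y ^ (C₁ + 1)) (by
      calc (2 : ℝ) ≤ Y := hYY
        _ = Y ^ 1 := (pow_one Y).symm
        _ ≤ Y ^ (C₁ + 1) := pow_le_pow_right₀ (by linarith) (by omega)) (I.image n) (by
      intro m hm
      obtain ⟨i, hi, rfl⟩ := Finset.mem_image.1 hm
      have h7 : nr (n i) = ∏ v ∈ n i, ((prK K).N v : ℝ) := by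
        unfold nr
        exact Finset.prod_congr rfl fun v _ => by rw [prK_N]
      rw [← h7]
      exact (hn i hi).1.trans (pow_le_pow_right₀ (by linarith) (by omega)))
    rw [Real.log_pow, ← hL, ← hk] at h6
    push_cast at h6
    exact h6
  -- the end
  have hsplit : ∀ i ∈ I, (nr (n i))⁻¹ * (x i)⁻¹ *
      ‖sg (x i) (S ∪ n i) (fun w => avg (f i) (φ i (fr Q w)) - mn (φ i) (f i))‖ ≤
      (nr (n i))⁻¹ * (x i)⁻¹ * ‖sg (x i) (S ∪ n i) (fun w => avg (f i) (φ i (fr Q w)) -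
        PD (DT (φ i) T (n i)) (avg (f i)) (φ i (fr Q w)))‖ +
      (nr (n i))⁻¹ * ((N : ℝ) ^ 2 * (2 * C) * L ^ (-(ε * A'))) := by
    intro i hi
    have h1 : sg (x i) (S ∪ n i) (fun w => avg (f i) (φ i (fr Q w)) - mn (φ i) (f i)) =
        sg (x i) (S ∪ n i) (fun w => avg (f i) (φ i (fr Q w)) -
          PD (DT (φ i) T (n i)) (avg (f i)) (φ i (fr Q w))) +
        sg (x i) (S ∪ n i) (fun w => PD (DT (φ i) T (n i)) (avg (f i)) (φ i (fr Q w)) -
          mn (φ i) (f i)) := by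
      unfold sg
      rw [← Finset.sum_add_distrib]
      exact Finset.sum_congr rfl fun w _ => by ring
    have h2 : 0 ≤ (nr (n i))⁻¹ := inv_nonneg.2 (by linarith [hnr1 (n i)])
    have h3 : 0 ≤ (x i)⁻¹ := inv_nonneg.2 (by linarith [hx1 i hi])
    rw [h1]
    refine (mul_le_mul_of_nonneg_left (norm_add_le _ _) (mul_nonneg h2 h3)).trans ?_
    rw [mul_add]
    refine add_le_add_right ?_ _
    rw [mul_assoc]
    exact mul_le_mul_of_nonneg_left (hsmall i hi) h2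
  refine (Finset.sum_le_sum hsplit).trans ?_
  rw [Finset.sum_add_distrib, ← Finset.sum_mul]
  have hend : (∑ i ∈ I, (nr (n i))⁻¹) * ((N : ℝ) ^ 2 * (2 * C) * L ^ (-(ε * A'))) ≤
      L ^ (-((A : ℝ) + 1)) := by
    have h1 : 0 ≤ (N : ℝ) ^ 2 * (2 * C) * L ^ (-(ε * A')) := by positivity
    refine (mul_le_mul_of_nonneg_right hsumn h1).trans (le_trans (le_of_eq ?_) a6)
    rw [hK₀, mul_pow]
    ring
  refine le_trans (add_le_add hbig hend) ?_
  have hcast : -(((A + 1 : ℕ) : ℝ)) = -((A : ℝ) + 1) := by push_cast; ring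
  rw [hcast]
  linarith

end H57.GP
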