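import Pool.Agent.H57.LC.Cmp

/-!
# [H57 GP CMC] the comparison theorem with a thin set, complex values (copy of H57/SL/Cmt)
-/

set_option autoImplicit false

noncomputable section

namespace H57.GP

open H57.LI H57.LC Polynomial Classical

private theorem cmt_tau_pow (N : ℝ) (k : ℕ) (f : ℝ → ℂ) (M : ℝ) :
    ((tau N : Module.End ℂ (ℝ → ℂ)) ^ k) f M = f (M / N ^ k) := by
  induction k generalizing M with
  | zero => simp
  | succ k ih =>
    rw [pow_succ', Module.End.mul_apply, tau_apply, ih, pow_succ', div_div]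

private theorem cmt_apply_sum (N : ℝ) (p : ℂ[X]) (f : ℝ → ℂ) (M : ℝ) :
    op N p f M = ∑ j ∈ p.support, p.coeff j * f (M / N ^ j) := by
  unfold op
  rw [aeval_def, eval₂_eq_sum, sum_def, LinearMap.sum_apply, Finset.sum_apply]
  refine Finset.sum_congr rfl fun j _ => ?_
  rw [Module.End.mul_apply, Module.algebraMap_end_apply, Pi.smul_apply, cmt_tau_pow, smul_eq_mul]

private theorem cmt_term (N : ℝ) (hN : 2 ≤ N) (f : ℝ → ℂ) (D σ : ℝ) (hf : ∀ M : ℝ, 0 < M → ‖f M‖ ≤ D * M ^ σ)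
    (M : ℝ) (hM : 0 < M) (j : ℕ) : ‖f (M / N ^ j)‖ ≤ (N ^ (-σ)) ^ j * (D * M ^ σ) := by
  have hN0 : 0 < N := by linarith
  refine (hf _ (by positivity)).trans (le_of_eq ?_)
  rw [Real.div_rpow hM.le (by positivity), ← Real.rpow_natCast N j, ← Real.rpow_mul hN0.le, ← Real.rpow_natCast (N ^ (-σ)) j,
    ← Real.rpow_mul hN0.le, div_eq_mul_inv, ← Real.rpow_neg hN0.le]
  have e : -((j : ℝ) * σ) = -σ * (j : ℝ) := by ring
  rw [e]
  ring

private theorem cmt_r1 (N : ℝ) (hN : 2 ≤ N) (σ : ℝ) (hσ : 0 ≤ σ) : N ^ (-σ) ≤ 1 :=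
  Real.rpow_le_one_of_one_le_of_nonpos (by linarith) (by linarith)

private theorem cmt_D (f : ℝ → ℂ) (D σ : ℝ) (hf : ∀ M : ℝ, 0 < M → ‖f M‖ ≤ D * M ^ σ) : 0 ≤ D := by
  have h := hf 1 one_pos
  rw [Real.one_rpow, mul_one] at h
  exact (norm_nonneg _).trans h

private theorem cmt_th (N : ℝ) (hN : 2 ≤ N) (p : ℂ[X]) (h0 : p.coeff 0 = 1) (f : ℝ → ℂ) (D σ : ℝ) (hσ : 0 ≤ σ)
    (hf : ∀ M : ℝ, 0 < M → ‖f M‖ ≤ D * M ^ σ) (M : ℝ) (hM : 0 < M) :
    ‖op N p f M‖ ≤ (1 + l1 p * N ^ (-σ)) * (D * M ^ σ) := by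
  classical
  have hD := cmt_D f D σ hf
  have hn0 : 0 ≤ N ^ (-σ) := Real.rpow_nonneg (by linarith) _
  have hr := cmt_r1 N hN σ hσ
  have hDM : 0 ≤ D * M ^ σ := mul_nonneg hD (Real.rpow_nonneg hM.le _)
  have h0m : 0 ∈ p.support := by
    rw [mem_support_iff, h0]
    exact one_ne_zero
  rw [cmt_apply_sum, ← Finset.add_sum_erase _ _ h0m, h0, one_mul, pow_zero, div_one]
  refine (norm_add_le _ _).trans ?_
  rw [add_mul, one_mul]
  refine add_le_add (hf M hM) ?_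
  refine (norm_sum_le _ _).trans ?_
  have e3 : l1 p * N ^ (-σ) * (D * M ^ σ) = ∑ j ∈ p.support, ‖p.coeff j‖ * (N ^ (-σ) * (D * M ^ σ)) := by
    rw [← Finset.sum_mul]
    unfold l1
    ring
  rw [e3]
  refine (Finset.sum_le_sum fun j hj => ?_).trans
    (Finset.sum_le_sum_of_subset_of_nonneg (Finset.erase_subset 0 p.support) fun j _ _ => by positivity)
  rw [norm_mul]
  have hj0 : j ≠ 0 := Finset.ne_of_mem_erase hj
  refine mul_le_mul_of_nonneg_left ?_ (norm_nonneg _)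
  refine (cmt_term N hN f D σ hf M hM j).trans ?_
  refine mul_le_mul_of_nonneg_right ?_ hDM
  have h1 : (N ^ (-σ)) ^ j ≤ (N ^ (-σ)) ^ 1 := pow_le_pow_of_le_one hn0 hr (by omega)
  rwa [pow_one] at h1

section

variable {𝓘 π ι : Type} [CommMonoid 𝓘] (G : GM 𝓘 π) (p : Pr ι) (ψ : 𝓘 →* ℂ)

/-- the exponent of the factor at `l` -/
private def cv (Th : Set ι) (l : ι) : ℝ := (p.N l : ℝ) ^ (-(3 / 2) : ℝ) + if l ∈ Th then (p.N l : ℝ) ^ (-(3 / 4) : ℝ) else 0

private theorem cv_nonneg (Th : Set ι) (l : ι) : 0 ≤ cv p Th l := by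
  unfold cv
  split_ifs <;> positivity

private theorem cmt_l1_nonneg (P : ℂ[X]) : 0 ≤ l1 P := by
  unfold l1
  exact Finset.sum_nonneg fun _ _ => norm_nonneg _

private theorem cmt_Q (g : ι → ℂ) (T : Finset ι) (S Q : Finset π) (l : ι) (u : π → ι) (f : π → ℕ)
    (hN : ∀ q, G.N (G.pr q) = p.N (u q) ^ f q) (hQ : ∀ q ∈ Q, u q = l) (hd : Disjoint S Q) :
    G.U p g ψ T (S ∪ Q) = op (p.N l) (∏ q ∈ Q, (1 - C (ψ (G.pr q)) * X ^ f q)) (G.U p g ψ T S) := by
  induction Q using Finset.induction_on with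
  | empty => rw [Finset.union_empty, Finset.prod_empty, op_one]
  | insert q Q hq ih =>
    have hd1 : Disjoint S Q := Disjoint.mono_right (Finset.subset_insert q Q) hd
    have hqS : q ∉ S := fun h => (Finset.disjoint_left.1 hd h) (Finset.mem_insert_self q Q)
    have hq' : q ∉ S ∪ Q := by
      rw [Finset.mem_union]
      exact fun h => h.elim hqS hq
    rw [Finset.union_insert, Finset.prod_insert hq, op_mul, ← ih (fun q' h' => hQ q' (Finset.mem_insert_of_mem h')) hd1]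
    funext M
    rw [U_S G p g ψ T (S ∪ Q) q hq' M, op_lin, hN, hQ q (Finset.mem_insert_self q Q)]
    push_cast
    rfl

private theorem cmt_c0 (a : ℂ) (k : ℕ) (hk : 1 ≤ k) : (1 - C a * X ^ k : ℂ[X]).coeff 0 = 1 := by
  rw [coeff_sub, coeff_one_zero, coeff_C_mul, coeff_X_pow, if_neg (by omega), mul_zero, sub_zero]

private theorem cmt_c1 (a : ℂ) (k : ℕ) : (1 - C a * X ^ k : ℂ[X]).coeff 1 = -(if k = 1 then a else 0) := by
  rw [coeff_sub, coeff_one, if_neg one_ne_zero, coeff_C_mul, coeff_X_pow, zero_sub]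
  by_cases h : k = 1
  · rw [if_pos h, if_pos h.symm, mul_one]
  · rw [if_neg h, if_neg (fun h' => h h'.symm), mul_zero]

private theorem cmt_coeff (a : π → ℂ) (f : π → ℕ) (hf : ∀ q, 1 ≤ f q) (Q : Finset π) :
    (∏ q ∈ Q, (1 - C (a q) * X ^ f q) : ℂ[X]).coeff 0 = 1 ∧
    (∏ q ∈ Q, (1 - C (a q) * X ^ f q) : ℂ[X]).coeff 1 = -∑ q ∈ Q, (if f q = 1 then a q else 0) := by
  classical
  induction Q using Finset.induction_on with
  | empty =>
    rw [Finset.prod_empty, Finset.sum_empty, coeff_one_zero, coeff_one, if_neg one_ne_zero, neg_zero]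
    exact ⟨rfl, rfl⟩
  | insert q Q hq ih =>
    rw [Finset.prod_insert hq, Finset.sum_insert hq, mul_coeff_zero, mul_coeff_one, ih.1, ih.2, cmt_c0 _ _ (hf q),
      cmt_c1]
    refine ⟨one_mul _, ?_⟩
    ring

private theorem cmt_l1_fac (a : ℂ) (ha : ‖a‖ ≤ 1) (k : ℕ) : l1 (1 - C a * X ^ k) ≤ 2 := by
  have e : (1 - C a * X ^ k : ℂ[X]) = 1 + C (-a) * X ^ k := by
    rw [C_neg]
    ring
  rw [e]
  have h1 := l1_add 1 (C (-a) * X ^ k)
  have h2 := l1_one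
  have h3 := l1_mon (-a) k
  rw [norm_neg] at h3
  linarith

private theorem cmt_l1_prod (a : π → ℂ) (ha : ∀ q, ‖a q‖ ≤ 1) (f : π → ℕ) (Q : Finset π) :
    l1 (∏ q ∈ Q, (1 - C (a q) * X ^ f q)) ≤ 2 ^ Q.card := by
  classical
  induction Q using Finset.induction_on with
  | empty =>
    rw [Finset.prod_empty, Finset.card_empty, pow_zero]
    exact l1_one
  | insert q Q hq ih =>
    rw [Finset.prod_insert hq, Finset.card_insert_of_notMem hq, pow_succ']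
    refine (l1_mul _ _).trans ?_
    exact mul_le_mul (cmt_l1_fac _ (ha q) _) ih (cmt_l1_nonneg _) (by norm_num)

private theorem cmt_l1_g (b : ℝ) (x : ℂ) (hx : ‖x‖ ≤ b) : l1 (1 + C x * X) ≤ b + 1 := by
  have h1 := l1_add 1 (C x * X)
  have h2 := l1_one
  have h3 := l1_mon x 1
  rw [pow_one] at h3
  linarith

private theorem cmt_gc (x : ℂ) : (1 + C x * X : ℂ[X]).coeff 0 = 1 ∧ (1 + C x * X : ℂ[X]).coeff 1 = x := by
  constructor
  · rw [coeff_add, coeff_one_zero, coeff_C_mul, coeff_X_zero, mul_zero, add_zero]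
  · rw [coeff_add, coeff_one, if_neg one_ne_zero, coeff_C_mul, coeff_X_one, mul_one, zero_add]

private theorem cmt_ind (b : ℝ) (hb0 : 0 ≤ b) (e : ℕ) (hψ : ∀ I, ‖ψ I‖ ≤ 1) (u : π → ι) (f : π → ℕ) (hf : ∀ q, 1 ≤ f q)
    (hN : ∀ q, G.N (G.pr q) = p.N (u q) ^ f q) (hfin : ∀ l, {q | u q = l}.Finite)
    (hcard : ∀ l, {q | u q = l}.ncard ≤ e) (g : ι → ℂ) (hg : ∀ l, ‖g l‖ ≤ b) (Bd : Finset ι)
    (Th : Set ι) (hBd : ∀ l, l ∉ Bd → l ∉ Th → ∑ᶠ q ∈ {q | u q = l ∧ f q = 1}, ψ (G.pr q) = g l) (D δ : ℝ) (hδ : 0 < δ) (hδ4 : δ ≤ 1 / 4)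
    (hW : ∀ M : ℝ, 1 ≤ M → ‖G.W ψ M‖ ≤ D * M ^ (1 - δ)) (T : Finset ι) (M : ℝ) (hM : 0 < M) :
    ‖G.U p g ψ T (T.biUnion fun l => (hfin l).toFinset) M‖ ≤
      D * (∏ l ∈ T, ((if l ∈ Bd then (b + 1) * 2 ^ e else 1) * Real.exp ((b + 1) * 2 ^ e * cv p Th l))) *
        M ^ (1 - δ) := by
  have hD : 0 ≤ D := by
    have h := hW 1 le_rfl
    rw [Real.one_rpow, mul_one] at h
    exact (norm_nonneg _).trans h
  induction T using Finset.induction_on generalizing M with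
  | empty =>
    rw [Finset.biUnion_empty, Finset.prod_empty, mul_one, U_zero]
    rcases le_or_gt 1 M with h | h
    · exact hW M h
    · have h0 : G.W ψ M = 0 := by
        unfold GM.W
        refine Finset.sum_eq_zero fun I hI => ?_
        rw [G.mem_B] at hI
        have h1 : (1 : ℝ) ≤ G.N I := by exact_mod_cast G.pos I
        linarith
      rw [h0, norm_zero]
      positivity
  | insert l T hl ih =>
    have hS : ((insert l T).biUnion fun l => (hfin l).toFinset) =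
        (T.biUnion fun l => (hfin l).toFinset) ∪ (hfin l).toFinset := by
      rw [Finset.biUnion_insert, Finset.union_comm]
    have hQ : ∀ q ∈ (hfin l).toFinset, u q = l := fun q hq => (hfin l).mem_toFinset.1 hq
    have hd : Disjoint (T.biUnion fun l => (hfin l).toFinset) (hfin l).toFinset := by
      rw [Finset.disjoint_left]
      intro q hq hq'
      rw [Finset.mem_biUnion] at hq
      obtain ⟨l', hl', hq⟩ := hq
      have h1 : u q = l' := (hfin l').mem_toFinset.1 hq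
      have h2 := hQ q hq'
      rw [h1] at h2
      exact hl (h2 ▸ hl')
    obtain ⟨P, hP⟩ : ∃ P : ℂ[X], P = (1 + C (g l) * X) *
        ∏ q ∈ (hfin l).toFinset, (1 - C (ψ (G.pr q)) * X ^ f q) := ⟨_, rfl⟩
    have hU : G.U p g ψ (insert l T) ((insert l T).biUnion fun l => (hfin l).toFinset) =
        op (p.N l) P (G.U p g ψ T (T.biUnion fun l => (hfin l).toFinset)) := by
      rw [hP, op_mul, ← cmt_Q G p ψ g T _ _ l u f hN hQ hd, hS]
      funext M
      rw [U_T G p g ψ T _ l hl M, op_add]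
    have hco := cmt_coeff (fun q => ψ (G.pr q)) f hf (hfin l).toFinset
    have hgc := cmt_gc (g l)
    have hP0 : P.coeff 0 = 1 := by
      rw [hP, mul_coeff_zero, hco.1, hgc.1, mul_one]
    have hQe : ((hfin l).toFinset).card ≤ e := by
      rw [← Set.ncard_eq_toFinset_card _ (hfin l)]
      exact hcard l
    have hPl : l1 P ≤ (b + 1) * 2 ^ e := by
      rw [hP]
      refine (l1_mul _ _).trans ?_
      refine mul_le_mul (cmt_l1_g b _ (hg l)) ((cmt_l1_prod _ (fun q => hψ _) f _).trans ?_) (cmt_l1_nonneg _)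
        (by linarith)
      exact pow_le_pow_right₀ (by norm_num) hQe
    have hN2 : (2 : ℝ) ≤ p.N l := p.two_le l
    have hN0 : (0 : ℝ) < p.N l := by linarith
    obtain ⟨K, hK⟩ : ∃ K : ℝ, K = ∏ l ∈ T, ((if l ∈ Bd then (b + 1) * 2 ^ e else 1) *
        Real.exp ((b + 1) * 2 ^ e * cv p Th l)) := ⟨_, rfl⟩
    rw [← hK] at ih
    have hK0 : 0 ≤ K := by
      rw [hK]
      refine Finset.prod_nonneg fun l _ => mul_nonneg ?_ (Real.exp_pos _).le
      split_ifs <;> positivity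
    have hσ : (0 : ℝ) ≤ 1 - δ := by linarith
    have hDM : 0 ≤ D * K * M ^ (1 - δ) := mul_nonneg (mul_nonneg hD hK0) (Real.rpow_nonneg hM.le _)
    have hr0 : 0 ≤ cv p Th l := cv_nonneg p Th l
    rw [Finset.prod_insert hl, ← hK, hU]
    have key : ∀ F : ℝ, F ≤ (if l ∈ Bd then (b + 1) * 2 ^ e else 1) * Real.exp ((b + 1) * 2 ^ e * cv p Th l) →
        F * (D * K * M ^ (1 - δ)) ≤ D * (((if l ∈ Bd then (b + 1) * 2 ^ e else 1) *
          Real.exp ((b + 1) * 2 ^ e * cv p Th l)) * K) * M ^ (1 - δ) := by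
      intro F hF
      refine (mul_le_mul_of_nonneg_right hF hDM).trans (le_of_eq ?_)
      ring
    by_cases hb : l ∈ Bd
    · refine (op_bad _ hN2 P _ (D * K) (1 - δ) hσ ih M hM).trans (key _ ?_)
      rw [if_pos hb]
      have h1 : (1 : ℝ) ≤ Real.exp ((b + 1) * 2 ^ e * cv p Th l) := Real.one_le_exp (by positivity)
      have h2 : (0 : ℝ) ≤ (b + 1) * 2 ^ e := by positivity
      nlinarith
    · have h2 := Real.add_one_le_exp ((b + 1) * 2 ^ e * cv p Th l)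
      by_cases ht : l ∈ Th
      · refine (cmt_th _ hN2 P hP0 _ (D * K) (1 - δ) hσ ih M hM).trans (key _ ?_)
        rw [if_neg hb, one_mul]
        have h1 : (p.N l : ℝ) ^ (-(1 - δ)) ≤ cv p Th l := by
          unfold cv
          rw [if_pos ht]
          have h3 : (p.N l : ℝ) ^ (-(1 - δ)) ≤ (p.N l : ℝ) ^ (-(3 / 4) : ℝ) :=
            Real.rpow_le_rpow_of_exponent_le (by linarith) (by linarith)
          have h4 : 0 ≤ (p.N l : ℝ) ^ (-(3 / 2) : ℝ) := Real.rpow_nonneg hN0.le _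
          linarith
        have h3 : l1 P * (p.N l : ℝ) ^ (-(1 - δ)) ≤ (b + 1) * 2 ^ e * cv p Th l :=
          mul_le_mul hPl h1 (Real.rpow_nonneg hN0.le _) (by positivity)
        linarith
      have hP1 : P.coeff 1 = 0 := by
        rw [hP, mul_coeff_one, hco.1, hco.2, hgc.1, hgc.2, mul_one, one_mul]
        have h1 := hBd l hb ht
        have h2 : ∑ᶠ q ∈ {q | u q = l ∧ f q = 1}, ψ (G.pr q) = ∑ q ∈ (hfin l).toFinset, (if f q = 1 then ψ (G.pr q) else 0) := by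
          rw [← Finset.sum_filter, ← finsum_mem_coe_finset]
          refine finsum_mem_congr (Set.ext fun q => ?_) fun _ _ => rfl
          rw [Finset.mem_coe, Finset.mem_filter, Set.Finite.mem_toFinset]
          rfl
        rw [← h2, h1]
        ring
      refine (op_good _ hN2 P hP0 hP1 _ (D * K) (1 - δ) hσ ih M hM).trans (key _ ?_)
      rw [if_neg hb, one_mul]
      have h1 : (p.N l : ℝ) ^ (-2 * (1 - δ)) ≤ cv p Th l := by
        unfold cv
        rw [if_neg ht, add_zero]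
        exact Real.rpow_le_rpow_of_exponent_le (by linarith) (by linarith)
      have h3 : l1 P * (p.N l : ℝ) ^ (-2 * (1 - δ)) ≤ (b + 1) * 2 ^ e * cv p Th l :=
        mul_le_mul hPl h1 (Real.rpow_nonneg hN0.le _) (by positivity)
      linarith

private theorem cmt_sum (T : Finset ι) : ∑ l ∈ T, (p.N l : ℝ) ^ (-(3 / 2) : ℝ) ≤ p.n * ∑' m : ℕ, (m : ℝ) ^ (-(3 / 2) : ℝ) := by
  classical
  have hs : Summable fun m : ℕ => (m : ℝ) ^ (-(3 / 2) : ℝ) := Real.summable_nat_rpow.2 (by norm_num)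
  have hmaps : ∀ i ∈ T, p.N i ∈ T.image p.N := fun i hi => Finset.mem_image_of_mem _ hi
  rw [← Finset.sum_fiberwise_of_maps_to hmaps]
  have hfib : ∀ m ∈ T.image p.N,
      ∑ i ∈ T.filter (fun i => p.N i = m), (p.N i : ℝ) ^ (-(3 / 2) : ℝ) ≤ p.n * (m : ℝ) ^ (-(3 / 2) : ℝ) := by
    intro m _
    have h1 : ∑ i ∈ T.filter (fun i => p.N i = m), (p.N i : ℝ) ^ (-(3 / 2) : ℝ)
        = ∑ i ∈ T.filter (fun i => p.N i = m), (m : ℝ) ^ (-(3 / 2) : ℝ) := by
      refine Finset.sum_congr rfl fun i hi => ?_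
      rw [(Finset.mem_filter.1 hi).2]
    rw [h1, Finset.sum_const, nsmul_eq_mul]
    refine mul_le_mul_of_nonneg_right ?_ (Real.rpow_nonneg (Nat.cast_nonneg _) _)
    have h2 : (T.filter (fun i => p.N i = m)).card ≤ p.n := by
      rw [← Set.ncard_coe_finset]
      refine (Set.ncard_le_ncard ?_ (p.fin m)).trans (p.mul m)
      intro i hi
      exact (Finset.mem_filter.1 (Finset.mem_coe.1 hi)).2
    exact_mod_cast h2
  refine (Finset.sum_le_sum hfib).trans ?_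
  rw [← Finset.mul_sum]
  refine mul_le_mul_of_nonneg_left ?_ (Nat.cast_nonneg _)
  exact hs.sum_le_tsum _ fun m _ => Real.rpow_nonneg (Nat.cast_nonneg _) _

end

theorem cmc {ι : Type} (b : ℝ) (hb0 : 0 ≤ b) (p : Pr ι) (e : ℕ) (Th : Set ι)
    (hTh : ∃ C0 : ℝ, ∀ T : Finset ι, (∀ i ∈ T, i ∈ Th) →
      ∑ i ∈ T, (p.N i : ℝ) ^ (-(3 / 4) : ℝ) ≤ C0) :
    ∃ (C c : ℝ), 1 ≤ C ∧ 1 ≤ c ∧ ∀ (𝓘 π : Type) [CommMonoid 𝓘] (G : GM 𝓘 π)
      (ψ : 𝓘 →* ℂ), (∀ I, ‖ψ I‖ ≤ 1) → ∀ (u : π → ι) (f : π → ℕ), (∀ q, 1 ≤ f q) →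
      (∀ q, G.N (G.pr q) = p.N (u q) ^ f q) →
      (∀ l, {q | u q = l}.Finite ∧ {q | u q = l}.ncard ≤ e) →
      ∀ (g : ι → ℂ), (∀ l, ‖g l‖ ≤ b) → ∀ Bd : Finset ι,
      (∀ l, l ∉ Bd → l ∉ Th → ∑ᶠ q ∈ {q | u q = l ∧ f q = 1}, ψ (G.pr q) = g l) →
      ∀ D δ : ℝ, 0 < δ → δ ≤ 1 / 4 → (∀ M : ℝ, 1 ≤ M → ‖G.W ψ M‖ ≤ D * M ^ (1 - δ)) →
      ∀ Y : ℝ, 1 ≤ Y → ‖∑ s ∈ p.SF Y, ∏ i ∈ s, g i‖ ≤ C * c ^ Bd.card * D * Y ^ (1 - δ) := by
  have hs : Summable fun m : ℕ => (m : ℝ) ^ (-(3 / 2) : ℝ) := Real.summable_nat_rpow.2 (by norm_num)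
  have hz : 0 ≤ ∑' m : ℕ, (m : ℝ) ^ (-(3 / 2) : ℝ) := tsum_nonneg fun m => Real.rpow_nonneg (Nat.cast_nonneg _) _
  have h2e : (1 : ℝ) ≤ 2 ^ e := one_le_pow₀ (by norm_num)
  have hc0 : (1 : ℝ) ≤ (b + 1) * 2 ^ e := by nlinarith
  obtain ⟨C0, hC0⟩ := hTh
  have hC00 : 0 ≤ C0 := by
    have h := hC0 ∅ (fun i hi => absurd hi (Finset.notMem_empty i))
    rwa [Finset.sum_empty] at h
  refine ⟨Real.exp ((b + 1) * 2 ^ e * (p.n * ∑' m : ℕ, (m : ℝ) ^ (-(3 / 2) : ℝ) + C0)), (b + 1) * 2 ^ e,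
    Real.one_le_exp (by positivity), hc0, ?_⟩
  intro 𝓘 π _ G ψ hψ u f hf hN hq g hg Bd hBd D δ hδ hδ4 hW Y hY
  have hfin : ∀ l, {q | u q = l}.Finite := fun l => (hq l).1
  have hD : 0 ≤ D := by
    have h := hW 1 le_rfl
    rw [Real.one_rpow, mul_one] at h
    exact (norm_nonneg _).trans h
  have h1 := cmt_ind G p ψ b hb0 e hψ u f hf hN hfin (fun l => (hq l).2) g hg Bd Th hBd D δ hδ hδ4 hW (p.P Y) Y (by linarith)
  have hS : ∀ q, (G.N (G.pr q) : ℝ) ≤ Y → q ∈ (p.P Y).biUnion fun l => (hfin l).toFinset := by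
    intro q hq
    rw [Finset.mem_biUnion]
    refine ⟨u q, ?_, (hfin (u q)).mem_toFinset.2 rfl⟩
    rw [p.mem_P]
    refine le_trans ?_ hq
    rw [hN]
    push_cast
    exact le_self_pow₀ (p.one_le (u q)) (by have := hf q; omega)
  rw [U_end G p g ψ (p.P Y) _ Y hS] at h1
  change ‖∑ s ∈ p.SF Y, ∏ i ∈ s, g i‖ ≤ _ at h1
  refine h1.trans ?_
  refine mul_le_mul_of_nonneg_right ?_ (Real.rpow_nonneg (by linarith) _)
  rw [mul_comm (_ * _) D]
  refine mul_le_mul_of_nonneg_left ?_ hD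
  rw [Finset.prod_mul_distrib, mul_comm, ← Real.exp_sum, ← Finset.mul_sum]
  refine mul_le_mul ?_ ?_ ?_ (Real.exp_pos _).le
  · refine Real.exp_le_exp.2 (mul_le_mul_of_nonneg_left ?_ (by linarith))
    unfold cv
    rw [Finset.sum_add_distrib]
    refine add_le_add (cmt_sum p _) ?_
    rw [← Finset.sum_filter]
    exact hC0 _ fun i hi => (Finset.mem_filter.1 hi).2
  · rw [Finset.prod_ite_mem, Finset.prod_const]
    exact pow_le_pow_right₀ hc0 (Finset.card_le_card Finset.inter_subset_right)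
  · refine Finset.prod_nonneg fun l _ => ?_
    split_ifs <;> linarith

end H57.GP
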