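import Pool.Agent.H57.SL.Def
import Pool.Agent.H57.AN.Che

/-!
# H57 GP DEF: definitions for the chapter GP (MP_b39724_nt, Malle for groups of exponent p, all classes)

`K ⊂ QBar` a number field with a primitive `p`-th root of unity, `φ : Gal(QBar/K) →* G`, `G` a finite group.
* `Ft φ`: `φ` is of finite type (trivial on `Gal(QBar/M)`, `M/K` finite). `Ur φ l`: `φ` is trivial on the inertia groups over `l`.
* `Ic l`: the (normal) subgroup of `Gal(QBar/K)` generated by all inertia groups over `l`.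
* `Lc H ψ`: `ψ` is additive on the subgroup `H`. `th H ψ`: the function `e(ψ)` on `H`, `0` outside. `avg f`: the mean over the conjugates.
* `Cb p N D D' f`: `f` is a sum of `N` terms `c j * th (H j) (ψ j)`, `‖c j‖ ≤ N`, `D ≤ H j`, `ψ j = 0` on `D`, and (if `c j ≠ 0`) `ψ j ≠ 0` on
  `H j ∩ D'`. `Raw p N f`: the same without conditions on `D, D'`.
* `PD D f`: the mean over the cosets `y D`. `mn φ f`: the mean of `avg f` over the image of `φ`.
* `mi φ H ψ σ`: the character induced from `(H, ψ)`, at `φ σ`. `Ud φ H ψ l`: the fields and characters of the orbits are unramified at `l`.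
* `Cr φ H ψ φ' H' ψ'`: orthogonality (`ψ` is not trivial at an element `y ∈ H` whose conjugates come from elements of the Galois group which
  `φ'` does not see). `Np φ H ψ`: no orbit gives a principal character.
* `mB p B = p^3 ∏_{v ∈ B} v`, `Th p E θ B`: `θ` is a character of `Gal(QBar/E)` with values in `ZMod p`, unramified outside `B` and `p`.
  `Vl p E θ B χ`: the ray class character `χ` has the values of `θ` at the Frobenius elements.
* `Non2 χ`: `χ²` is not principal.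
* `sg x T F = ∑_{nm w ≤ x, w ∉ T} F w`.
-/

set_option autoImplicit false

open scoped NumberField Pointwise Classical
open IsDedekindDomain H63.MA NumberField H36.QA H57.LI H57.LC H1.LS4 H67.SX H38.ML H57.SL H57.AN

noncomputable section

namespace H57.GP

section grp

variable {G : Type} [Group G]

/-- additive on the subgroup -/
def Lc {p : ℕ} (H : Subgroup G) (ψ : G → ZMod p) : Prop :=
  ∀ a ∈ H, ∀ b ∈ H, ψ (a * b) = ψ a + ψ b

/-- the function `e(ψ)` on `H`, zero outside -/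
def th {p : ℕ} (H : Subgroup G) (ψ : G → ZMod p) (y : G) : ℂ := if y ∈ H then ep p (ψ y) else 0

/-- the mean over the conjugates -/
def avg [Fintype G] (f : G → ℂ) (y : G) : ℂ := (Fintype.card G : ℂ)⁻¹ * ∑ g : G, f (g⁻¹ * y * g)

/-- the mean over the cosets of `D` -/
def PD [Fintype G] (D : Subgroup G) (f : G → ℂ) (y : G) : ℂ :=
  (Fintype.card D : ℂ)⁻¹ * ∑ d : D, f (y * d)

/-- combinations of characters of order `p` of subgroups -/
def Raw (p N : ℕ) (f : G → ℂ) : Prop :=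
  ∃ (c : Fin N → ℂ) (H : Fin N → Subgroup G) (ψ : Fin N → G → ZMod p),
    (∀ j, ‖c j‖ ≤ N) ∧ (∀ j, Lc (H j) (ψ j)) ∧ ∀ y, f y = ∑ j, c j * th (H j) (ψ j) y

/-- combinations of characters of order `p` of subgroups, trivial on `D`, not trivial on `D'` -/
def Cb (p N : ℕ) (D D' : Subgroup G) (f : G → ℂ) : Prop :=
  ∃ (c : Fin N → ℂ) (H : Fin N → Subgroup G) (ψ : Fin N → G → ZMod p),
    (∀ j, ‖c j‖ ≤ N) ∧ (∀ j, Lc (H j) (ψ j)) ∧ (∀ j, D ≤ H j ∧ ∀ y ∈ D, ψ j y = 0) ∧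
    (∀ j, c j ≠ 0 → ∃ y ∈ H j, y ∈ D' ∧ ψ j y ≠ 0) ∧ ∀ y, f y = ∑ j, c j * th (H j) (ψ j) y

end grp

section gal

variable {K : IntermediateField ℚ QBar} [NumberField K]

/-- the subgroup generated by the inertia groups over `l` -/
def Ic (l : Pl K) : Subgroup Gal(QBar/K) :=
  Subgroup.closure {τ | ∃ P : Ideal (𝓞 QBar), P.IsPrime ∧ P.under (𝓞 K) = l.asIdeal ∧
    τ ∈ P.inertia Gal(QBar/K)}

variable {G : Type} [Group G]

/-- of finite type -/
def Ft (φ : Gal(QBar/K) →* G) : Prop :=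
  ∃ M : IntermediateField K QBar, FiniteDimensional K M ∧ ∀ σ ∈ M.fixingSubgroup, φ σ = 1

/-- unramified at `l` -/
def Ur (φ : Gal(QBar/K) →* G) (l : Pl K) : Prop :=
  ∀ P : Ideal (𝓞 QBar), P.IsPrime → P.under (𝓞 K) = l.asIdeal →
    ∀ τ ∈ P.inertia Gal(QBar/K), φ τ = 1

/-- the mean of `avg f` over the image -/
def mn [Fintype G] (φ : Gal(QBar/K) →* G) (f : G → ℂ) : ℂ :=
  ((Finset.univ.filter fun y : G => y ∈ φ.range).card : ℂ)⁻¹ *
    ∑ y ∈ Finset.univ.filter (fun y : G => y ∈ φ.range), avg f y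

/-- the induced character -/
def mi [Fintype G] {p : ℕ} (φ : Gal(QBar/K) →* G) (H : Subgroup G) (ψ : G → ZMod p)
    (σ : Gal(QBar/K)) : ℂ := (Fintype.card H : ℂ)⁻¹ * ∑ g : G, th H ψ (g⁻¹ * φ σ * g)

/-- the orbits are unramified at `l` -/
def Ud {p : ℕ} (φ : Gal(QBar/K) →* G) (H : Subgroup G) (ψ : G → ZMod p) (l : Pl K) : Prop :=
  ∀ P : Ideal (𝓞 QBar), P.IsPrime → P.under (𝓞 K) = l.asIdeal →
    ∀ τ ∈ P.inertia Gal(QBar/K), ∀ x : G, x⁻¹ * φ τ * x ∈ H ∧ ψ (x⁻¹ * φ τ * x) = 0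

/-- no orbit gives the principal character -/
def Np {p : ℕ} (φ : Gal(QBar/K) →* G) (H : Subgroup G) (ψ : G → ZMod p) : Prop :=
  ∀ x : G, ∃ σ : Gal(QBar/K), x⁻¹ * φ σ * x ∈ H ∧ ψ (x⁻¹ * φ σ * x) ≠ 0

/-- orthogonality -/
def Cr {p : ℕ} {G' : Type} [Group G'] (φ : Gal(QBar/K) →* G) (H : Subgroup G) (ψ : G → ZMod p)
    (φ' : Gal(QBar/K) →* G') (H' : Subgroup G') (ψ' : G' → ZMod p) : Prop :=
  ∃ y ∈ H, ψ y ≠ 0 ∧ ∀ x : G, ∃ σ : Gal(QBar/K), φ σ = x * y * x⁻¹ ∧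
    ∀ x' : G', x'⁻¹ * φ' σ * x' ∈ H' ∧ ψ' (x'⁻¹ * φ' σ * x') = 0

/-- the square of the character is not principal -/
def Non2 {F : Type} [Field F] [NumberField F] {𝔣 : Ideal (𝓞 F)} (χ : RC F 𝔣) : Prop :=
  ∃ I, I ≠ ⊥ ∧ IsCoprime I 𝔣 ∧ χ.χ I ^ 2 ≠ 1

/-- the modulus -/
def mB (p : ℕ) (B : Finset (Pl K)) : Ideal (𝓞 K) :=
  Ideal.span {(p : 𝓞 K) ^ 3} * ∏ v ∈ B, v.asIdeal

/-- `θ` is a character of order `p` of `Gal(QBar/E)`, unramified outside `B` and `p` -/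
structure Th (p : ℕ) (E : IntermediateField K QBar) (θ : Gal(QBar/K) → ZMod p)
    (B : Finset (Pl K)) : Prop where
  mul : ∀ σ ∈ E.fixingSubgroup, ∀ τ ∈ E.fixingSubgroup, θ (σ * τ) = θ σ + θ τ
  ft : ∃ M : IntermediateField K QBar, FiniteDimensional K M ∧
    ∀ σ ∈ M.fixingSubgroup, σ ∈ E.fixingSubgroup ∧ θ σ = 0
  unr : ∀ l : Pl K, ¬ Above p l → l ∉ B → ∀ P : Ideal (𝓞 QBar), P.IsPrime →
    P.under (𝓞 K) = l.asIdeal → ∀ τ ∈ P.inertia Gal(QBar/K), τ ∈ E.fixingSubgroup ∧ θ τ = 0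

/-- the values of the character -/
def Vl (p : ℕ) (E : IntermediateField K QBar) [NumberField E] (θ : Gal(QBar/K) → ZMod p)
    (B : Finset (Pl K)) (χ : RC E (md (mB p B) E)) : Prop :=
  ∀ (Q : DP K QBar) (l : Pl K), ¬ Above p l → l ∉ B → (nm l).Prime → ∀ τ : Gal(QBar/K),
    τ⁻¹ * fr Q l * τ ∈ E.fixingSubgroup →
    χ.χ (pe E Q l (ac τ E.val)).asIdeal = ep p (θ (τ⁻¹ * fr Q l * τ))

/-- the sum over the primes outside `T` of norm at most `x` -/
def sg (x : ℝ) (T : Finset (Pl K)) (F : Pl K → ℂ) : ℂ := ∑ w ∈ (PB K x).filter (fun w => w ∉ T), F w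

end gal

end H57.GP
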