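import Mathlib

/-!
# [H57 GP DUA] Duality and the bound of a Gram matrix, complex values (a copy of H57/LI/Dual, 60-90 lines, Mathlib only)

`dua`: let `S j = ∑ n ∈ T, c n * a j n`. `∑ j, ‖S j‖ ^ 2 = ∑ n ∈ T, c n * ∑ j, conj (S j) * a j n` (a nonnegative real number), by Cauchy-Schwarz
(`Finset.sum_mul_sq_le_sq_mul_sq` for the norms) `(∑ j, ‖S j‖ ^ 2) ^ 2 ≤ (∑ ‖c n‖ ^ 2) * (∑ n, ‖∑ j, conj (S j) * a j n‖ ^ 2) ≤ (∑ ‖c n‖ ^ 2) * Λ * ∑ j, ‖S j‖ ^ 2`.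
`gra`: `∑ n, ‖∑ j, y j * a j n‖ ^ 2 = ∑ j, ∑ j', y j * conj (y j') * ∑ n, a j n * conj (a j' n)`, so it is `≤ G ∑ ‖y j‖ ^ 2 + Q (∑ ‖y j‖) ^ 2` and
`(∑ ‖y j‖) ^ 2 ≤ card J * ∑ ‖y j‖ ^ 2`.
-/

set_option autoImplicit false

open scoped ComplexConjugate

noncomputable section

namespace H57.GP

theorem dua {J N : Type} [Fintype J] (T : Finset N) (a : J → N → ℂ) (Λ : ℝ) (hΛ : 0 ≤ Λ)
    (h : ∀ y : J → ℂ, ∑ n ∈ T, ‖∑ j, y j * a j n‖ ^ 2 ≤ Λ * ∑ j, ‖y j‖ ^ 2) (c : N → ℂ) :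
    ∑ j, ‖∑ n ∈ T, c n * a j n‖ ^ 2 ≤ Λ * ∑ n ∈ T, ‖c n‖ ^ 2 := by
  set S : J → ℂ := fun j => ∑ n ∈ T, c n * a j n with hS
  have h0 : ((∑ j, ‖S j‖ ^ 2 : ℝ) : ℂ) = ∑ n ∈ T, c n * ∑ j, conj (S j) * a j n := by
    push_cast
    simp only [Finset.mul_sum]
    rw [Finset.sum_comm]
    refine Finset.sum_congr rfl fun j _ => ?_
    rw [← Complex.conj_mul', hS]
    simp only
    rw [Finset.mul_sum]
    refine Finset.sum_congr rfl fun n _ => ?_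
    ring
  have hs : 0 ≤ ∑ j, ‖S j‖ ^ 2 := Finset.sum_nonneg fun _ _ => sq_nonneg _
  have h1 : ∑ j, ‖S j‖ ^ 2 ≤ ∑ n ∈ T, ‖c n‖ * ‖∑ j, conj (S j) * a j n‖ := by
    have h5 : ‖((∑ j, ‖S j‖ ^ 2 : ℝ) : ℂ)‖ = ∑ j, ‖S j‖ ^ 2 := by
      rw [Complex.norm_real, Real.norm_of_nonneg hs]
    rw [← h5, h0]
    refine (norm_sum_le _ _).trans (le_of_eq ?_)
    refine Finset.sum_congr rfl fun n _ => ?_
    rw [norm_mul]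
  have h2 : (∑ j, ‖S j‖ ^ 2) ^ 2 ≤ (∑ n ∈ T, ‖c n‖ ^ 2) * ∑ n ∈ T, ‖∑ j, conj (S j) * a j n‖ ^ 2 := by
    refine (pow_le_pow_left₀ hs h1 2).trans ?_
    exact Finset.sum_mul_sq_le_sq_mul_sq T (fun n => ‖c n‖) _
  have h3 := h fun j => conj (S j)
  have h3' : ∑ n ∈ T, ‖∑ j, conj (S j) * a j n‖ ^ 2 ≤ Λ * ∑ j, ‖S j‖ ^ 2 := by
    refine h3.trans (le_of_eq ?_)
    congr 1
    refine Finset.sum_congr rfl fun j _ => ?_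
    rw [RCLike.norm_conj]
  have hc : 0 ≤ ∑ n ∈ T, ‖c n‖ ^ 2 := Finset.sum_nonneg fun _ _ => sq_nonneg _
  have h4 : (∑ j, ‖S j‖ ^ 2) * (∑ j, ‖S j‖ ^ 2) ≤ (Λ * ∑ n ∈ T, ‖c n‖ ^ 2) * ∑ j, ‖S j‖ ^ 2 := by
    calc (∑ j, ‖S j‖ ^ 2) * (∑ j, ‖S j‖ ^ 2) = (∑ j, ‖S j‖ ^ 2) ^ 2 := by ring
      _ ≤ (∑ n ∈ T, ‖c n‖ ^ 2) * ∑ n ∈ T, ‖∑ j, conj (S j) * a j n‖ ^ 2 := h2
      _ ≤ (∑ n ∈ T, ‖c n‖ ^ 2) * (Λ * ∑ j, ‖S j‖ ^ 2) := mul_le_mul_of_nonneg_left h3' hc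
      _ = _ := by ring
  by_contra hne
  rw [not_le] at hne
  have hpos : 0 < ∑ j, ‖S j‖ ^ 2 := lt_of_le_of_lt (by positivity) hne
  exact absurd h4 (not_le.2 (mul_lt_mul_of_pos_right hne hpos))

theorem gra {J N : Type} [Fintype J] (T : Finset N) (a : J → N → ℂ) (G Q : ℝ) (hQ : 0 ≤ Q)
    (hd : ∀ j, ∑ n ∈ T, ‖a j n‖ ^ 2 ≤ G)
    (ho : ∀ j j', j ≠ j' → ‖∑ n ∈ T, a j n * conj (a j' n)‖ ≤ Q) (y : J → ℂ) :
    ∑ n ∈ T, ‖∑ j, y j * a j n‖ ^ 2 ≤ (G + Fintype.card J * Q) * ∑ j, ‖y j‖ ^ 2 := by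
  classical
  have h0 : ((∑ n ∈ T, ‖∑ j, y j * a j n‖ ^ 2 : ℝ) : ℂ) =
      ∑ j, ∑ j', y j * conj (y j') * ∑ n ∈ T, a j n * conj (a j' n) := by
    push_cast
    have h2 : ∀ n ∈ T, ((‖∑ j, y j * a j n‖ : ℝ) : ℂ) ^ 2 =
        ∑ j, ∑ j', y j * conj (y j') * (a j n * conj (a j' n)) := by
      intro n _
      rw [← Complex.mul_conj', map_sum, Finset.sum_mul_sum]
      refine Finset.sum_congr rfl fun j _ => Finset.sum_congr rfl fun j' _ => ?_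
      rw [map_mul]
      ring
    rw [Finset.sum_congr rfl h2, Finset.sum_comm]
    refine Finset.sum_congr rfl fun j _ => ?_
    rw [Finset.sum_comm]
    refine Finset.sum_congr rfl fun j' _ => ?_
    rw [Finset.mul_sum]
  have hs : 0 ≤ ∑ n ∈ T, ‖∑ j, y j * a j n‖ ^ 2 := Finset.sum_nonneg fun _ _ => sq_nonneg _
  have h1 : ∑ n ∈ T, ‖∑ j, y j * a j n‖ ^ 2 ≤
      ∑ j, ∑ j', ‖y j‖ * ‖y j'‖ * ‖∑ n ∈ T, a j n * conj (a j' n)‖ := by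
    have h5 : ‖((∑ n ∈ T, ‖∑ j, y j * a j n‖ ^ 2 : ℝ) : ℂ)‖ = ∑ n ∈ T, ‖∑ j, y j * a j n‖ ^ 2 := by
      rw [Complex.norm_real, Real.norm_of_nonneg hs]
    rw [← h5, h0]
    refine (norm_sum_le _ _).trans (Finset.sum_le_sum fun j _ => ?_)
    refine (norm_sum_le _ _).trans (Finset.sum_le_sum fun j' _ => ?_)
    rw [norm_mul, norm_mul, RCLike.norm_conj]
  have h3 : ∀ j j', ‖y j‖ * ‖y j'‖ * ‖∑ n ∈ T, a j n * conj (a j' n)‖ ≤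
      (if j = j' then G * ‖y j‖ ^ 2 else 0) + ‖y j‖ * ‖y j'‖ * Q := by
    intro j j'
    by_cases h : j = j'
    · subst h
      rw [if_pos rfl]
      have h4 : ‖∑ n ∈ T, a j n * conj (a j n)‖ ≤ G := by
        refine (norm_sum_le _ _).trans (le_trans (le_of_eq ?_) (hd j))
        refine Finset.sum_congr rfl fun n _ => ?_
        rw [norm_mul, RCLike.norm_conj, pow_two]
      have h5 : 0 ≤ ‖y j‖ * ‖y j‖ * Q := by positivity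
      nlinarith [mul_le_mul_of_nonneg_left h4 (mul_self_nonneg ‖y j‖)]
    · rw [if_neg h, zero_add]
      exact mul_le_mul_of_nonneg_left (ho j j' h) (by positivity)
  have h6 : ∑ j, ∑ j', ((if j = j' then G * ‖y j‖ ^ 2 else 0) + ‖y j‖ * ‖y j'‖ * Q) =
      G * ∑ j, ‖y j‖ ^ 2 + (∑ j, ‖y j‖) ^ 2 * Q := by
    simp only [Finset.sum_add_distrib, Finset.sum_ite_eq, Finset.mem_univ, if_true]
    rw [← Finset.mul_sum, pow_two, Finset.sum_mul_sum, Finset.sum_mul]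
    congr 1
    refine Finset.sum_congr rfl fun j _ => ?_
    rw [Finset.sum_mul]
  have h7 : (∑ j, ‖y j‖) ^ 2 ≤ Fintype.card J * ∑ j, ‖y j‖ ^ 2 := by
    have h8 := sq_sum_le_card_mul_sum_sq (s := (Finset.univ : Finset J)) (f := fun j => ‖y j‖)
    rw [Finset.card_univ] at h8
    exact h8
  calc ∑ n ∈ T, ‖∑ j, y j * a j n‖ ^ 2
      ≤ ∑ j, ∑ j', ‖y j‖ * ‖y j'‖ * ‖∑ n ∈ T, a j n * conj (a j' n)‖ := h1
    _ ≤ ∑ j, ∑ j', ((if j = j' then G * ‖y j‖ ^ 2 else 0) + ‖y j‖ * ‖y j'‖ * Q) :=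
        Finset.sum_le_sum fun j _ => Finset.sum_le_sum fun j' _ => h3 j j'
    _ = G * ∑ j, ‖y j‖ ^ 2 + (∑ j, ‖y j‖) ^ 2 * Q := h6
    _ ≤ G * ∑ j, ‖y j‖ ^ 2 + (Fintype.card J * ∑ j, ‖y j‖ ^ 2) * Q := by
        have := mul_le_mul_of_nonneg_right h7 hQ
        linarith
    _ = _ := by ring

end H57.GP
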