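import Mathlib

/-!
# [H57 GP EKA] Lower bound of an elementary symmetric function, complex values (a copy of H57/LI/Ek, 80-130 lines, Mathlib only)

Copy of `H57/LI/Ek.lean` (there: real values, bound 3, constant 288 = 32 * 9) with complex values and the bound `b`.
Let `P` be a finite set, `‖x i‖ ≤ b`, `p_j = ∑ x i ^ j`, `e_j = ∑_{|s| = j} ∏_{i ∈ s} x i`, `m = card P`, `a = p_1`. Newton's identities: `j e_j = ∑_{i=1}^j (-1)^(i-1) e_{j-i} p_i`.
If `a = 0` then `m = 0` (because `k ≥ 1`, `b ≥ 1`) and the left side is `0`. If `a ≠ 0` then `m ≥ 1` and `‖a‖ ≥ √32 b k`. Put `E_j = j! e_j / a^j`,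
`E_0 = 1`. Then for `1 ≤ j ≤ k`: `E_j = E_{j-1} + ∑_{i=2}^j (-1)^(i-1) E_{j-i} ((j-1)!/(j-i)!) p_i / a^i`, `(j-1)!/(j-i)! ≤ k^(i-1)`,
`‖p_i‖ ≤ b^i m`. Claim `‖E_j - 1‖ ≤ j / (2 k)` for `j ≤ k` (strong induction; so `‖E_i‖ ≤ 2` for the earlier ones):
`‖E_j - E_{j-1}‖ ≤ (2 m / k) ∑_{i ≥ 2} (b k / ‖a‖)^i ≤ (2 m / k) (b² k^2 / ‖a‖^2) / (1 - 3/16) ≤ (2 m / k) (1 / (32 m)) (16/13) ≤ 1 / (2 k)`.
For `j = k`: `‖E_k‖ ≥ 1/2`.
-/

set_option autoImplicit false

noncomputable section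

namespace H57.GP

private theorem eka_eval {ι : Type} (P : Finset ι) (x : ι → ℂ) (j : ℕ) :
    MvPolynomial.eval (fun i : P => x i) (MvPolynomial.esymm P ℂ j) =
      ∑ s ∈ P.powersetCard j, ∏ i ∈ s, x i := by
  have h1 : P.powersetCard j = ((Finset.univ : Finset P).powersetCard j).map
      (Finset.mapEmbedding (Function.Embedding.subtype (fun i => i ∈ P))).toEmbedding := by
    rw [← Finset.powersetCard_map]
    congr 1
    exact (Finset.attach_map_val (s := P)).symm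
  rw [h1, Finset.sum_map, MvPolynomial.esymm, map_sum]
  apply Finset.sum_congr rfl
  intro t _
  rw [map_prod]
  simp

private theorem eka_psum {ι : Type} (P : Finset ι) (x : ι → ℂ) (j : ℕ) :
    MvPolynomial.eval (fun i : P => x i) (MvPolynomial.psum P ℂ j) = ∑ i ∈ P, x i ^ j := by
  rw [MvPolynomial.psum, map_sum, ← Finset.sum_coe_sort P (fun i => x i ^ j)]
  simp

private theorem eka_newton {ι : Type} (P : Finset ι) (x : ι → ℂ) (j : ℕ) :
    ((j : ℂ) + 1) * (∑ s ∈ P.powersetCard (j + 1), ∏ i ∈ s, x i) =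
      ∑ i ∈ Finset.range (j + 1), (-1) ^ i * (∑ s ∈ P.powersetCard (j - i), ∏ l ∈ s, x l) *
        ∑ l ∈ P, x l ^ (i + 1) := by
  have h := congrArg (MvPolynomial.eval (fun i : P => x i))
    (MvPolynomial.mul_esymm_eq_sum P ℂ (j + 1))
  rw [map_mul, eka_eval, map_mul, map_sum, Finset.sum_filter,
    Finset.Nat.sum_antidiagonal_eq_sum_range_succ_mk, Finset.sum_range_succ] at h
  simp only [lt_irrefl, if_false, add_zero] at h
  have h2 : ∑ k ∈ Finset.range (j + 1), (if k < j + 1 then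
      MvPolynomial.eval (fun i : P => x i) ((-1) ^ k * MvPolynomial.esymm P ℂ k *
        MvPolynomial.psum P ℂ (j + 1 - k)) else 0) =
      ∑ k ∈ Finset.range (j + 1), (-1) ^ k * (∑ s ∈ P.powersetCard k, ∏ l ∈ s, x l) *
        ∑ l ∈ P, x l ^ (j + 1 - k) := by
    apply Finset.sum_congr rfl
    intro k hk
    rw [if_pos (Finset.mem_range.1 hk), map_mul, map_mul, eka_eval, eka_psum]
    simp
  rw [h2, ← Finset.sum_range_reflect] at h
  have h3 : MvPolynomial.eval (fun i : P => x i) (((j + 1 : ℕ) : MvPolynomial P ℂ)) =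
      (j : ℂ) + 1 := by
    simp
  rw [h3] at h
  rw [h, Finset.mul_sum]
  apply Finset.sum_congr rfl
  intro i hi
  have hi' : i ≤ j := by
    have := Finset.mem_range.1 hi
    omega
  have e1 : j + 1 - 1 - i = j - i := by omega
  have e2 : j + 1 - (j - i) = i + 1 := by omega
  rw [e1, e2]
  simp only [map_pow, map_neg, map_one]
  rw [← mul_assoc, ← mul_assoc, ← pow_add]
  congr 2
  have e3 : j + 1 + 1 + (j - i) = i + 2 * (j - i + 1) := by omega
  rw [e3, pow_add, pow_mul]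
  simp

private theorem eka_fact {j i k : ℕ} (hij : i ≤ j) (hjk : j ≤ k) :
    (j.factorial : ℝ) / ((j - i).factorial : ℝ) ≤ (k : ℝ) ^ i := by
  rw [div_le_iff₀ (by positivity)]
  have h1 : j.factorial ≤ k ^ i * (j - i).factorial := by
    have h2 : (j - i).factorial * j.descFactorial i = j.factorial :=
      Nat.factorial_mul_descFactorial hij
    rw [← h2, mul_comm]
    apply Nat.mul_le_mul_right
    exact (Nat.descFactorial_le_pow j i).trans (Nat.pow_le_pow_left hjk i)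
  exact_mod_cast h1

theorem eka {ι : Type} (P : Finset ι) (x : ι → ℂ) (b : ℝ) (hb : 1 ≤ b) (h3 : ∀ i, ‖x i‖ ≤ b)
    (k : ℕ) (hk : 1 ≤ k) (h : 32 * b ^ 2 * (k : ℝ) ^ 2 * P.card ≤ ‖∑ i ∈ P, x i‖ ^ 2) :
    ‖∑ i ∈ P, x i‖ ^ k / (2 * (k.factorial : ℝ)) ≤
      ‖∑ s ∈ P.powersetCard k, ∏ i ∈ s, x i‖ := by
  obtain ⟨a, ha⟩ : ∃ a : ℂ, a = ∑ i ∈ P, x i := ⟨_, rfl⟩
  rw [← ha] at h ⊢
  by_cases ha0 : a = 0
  · rw [ha0, norm_zero, zero_pow (by omega), zero_div]
    exact norm_nonneg _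
  obtain ⟨e, he⟩ : ∃ e : ℕ → ℂ, e = fun j => ∑ s ∈ P.powersetCard j, ∏ i ∈ s, x i := ⟨_, rfl⟩
  obtain ⟨p, hp⟩ : ∃ p : ℕ → ℂ, p = fun j => ∑ i ∈ P, x i ^ j := ⟨_, rfl⟩
  have hP : 1 ≤ P.card := by
    rw [Nat.one_le_iff_ne_zero]
    intro h0
    have : P = ∅ := Finset.card_eq_zero.1 h0
    apply ha0
    rw [ha, this, Finset.sum_empty]
  have hm : (1 : ℝ) ≤ P.card := by exact_mod_cast hP
  obtain ⟨m, hmdef⟩ : ∃ m : ℝ, m = (P.card : ℝ) := ⟨_, rfl⟩
  rw [← hmdef] at hm h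
  have hk1 : (1 : ℝ) ≤ k := by exact_mod_cast hk
  have hapos : 0 < ‖a‖ := norm_pos_iff.2 ha0
  have hb0 : 0 < b := by linarith
  have hpb : ∀ i, ‖p i‖ ≤ b ^ i * m := by
    intro i
    rw [hp]
    calc ‖∑ l ∈ P, x l ^ i‖ ≤ ∑ l ∈ P, ‖x l ^ i‖ := norm_sum_le _ _
      _ ≤ ∑ l ∈ P, b ^ i := Finset.sum_le_sum fun l _ => by
          rw [norm_pow]
          exact pow_le_pow_left₀ (norm_nonneg _) (h3 l) i
      _ = b ^ i * m := by rw [Finset.sum_const, nsmul_eq_mul, mul_comm, hmdef]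
  have hp1 : p 1 = a := by simp [hp, ha]
  obtain ⟨E, hE⟩ : ∃ E : ℕ → ℂ, E = fun j => (j.factorial : ℂ) * e j / a ^ j := ⟨_, rfl⟩
  have hE0 : E 0 = 1 := by simp [hE, he]
  have hrec : ∀ j, E (j + 1) = ∑ i ∈ Finset.range (j + 1),
      (-1) ^ i * ((j.factorial : ℂ) / ((j - i).factorial : ℂ)) * E (j - i) *
        (p (i + 1) / a ^ (i + 1)) := by
    intro j
    have hn := eka_newton P x j
    have h1 : E (j + 1) = (j.factorial : ℂ) * (((j : ℂ) + 1) * e (j + 1)) / a ^ (j + 1) := by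
      simp only [hE, Nat.factorial_succ]
      push_cast
      ring
    rw [h1]
    have h2 : ((j : ℂ) + 1) * e (j + 1) =
        ∑ i ∈ Finset.range (j + 1), (-1) ^ i * e (j - i) * p (i + 1) := by
      rw [he, hp]
      exact hn
    rw [h2, Finset.mul_sum, Finset.sum_div]
    apply Finset.sum_congr rfl
    intro i hi
    have hi' : i ≤ j := by
      have := Finset.mem_range.1 hi
      omega
    have h4 : a ^ (j + 1) = a ^ (j - i) * a ^ (i + 1) := by
      rw [← pow_add]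
      congr 1
      omega
    rw [h4]
    simp only [hE]
    have h5 : ((j - i).factorial : ℂ) ≠ 0 := by
      exact_mod_cast (Nat.factorial_pos (j - i)).ne'
    have h6 : a ^ (j - i) ≠ 0 := pow_ne_zero _ ha0
    have h7 : a ^ (i + 1) ≠ 0 := pow_ne_zero _ ha0
    field_simp
  obtain ⟨q, hq⟩ : ∃ q : ℝ, q = b * k / ‖a‖ := ⟨_, rfl⟩
  have hq0 : 0 ≤ q := by rw [hq]; positivity
  have e1 : q ^ 2 * ‖a‖ ^ 2 = b ^ 2 * (k : ℝ) ^ 2 := by
    rw [hq]
    field_simp
  have e3 : q ^ 2 * (32 * m) ≤ 1 := by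
    have e2 : q ^ 2 * (32 * b ^ 2 * (k : ℝ) ^ 2 * m) ≤ b ^ 2 * (k : ℝ) ^ 2 := by
      rw [← e1]
      exact mul_le_mul_of_nonneg_left h (by positivity)
    have hkk : (0 : ℝ) < b ^ 2 * (k : ℝ) ^ 2 := by positivity
    have : (q ^ 2 * (32 * m)) * (b ^ 2 * (k : ℝ) ^ 2) ≤ 1 * (b ^ 2 * (k : ℝ) ^ 2) := by
      linarith
    exact le_of_mul_le_mul_right this hkk
  have hq1 : q ≤ 3 / 16 := by
    by_contra hcon
    push Not at hcon
    have h5 : (3 / 16 : ℝ) ^ 2 ≤ q ^ 2 := pow_le_pow_left₀ (by norm_num) hcon.le 2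
    have h6 : q ^ 2 * 32 ≤ q ^ 2 * (32 * m) :=
      mul_le_mul_of_nonneg_left (by linarith) (by positivity)
    norm_num at h5
    linarith
  have hgeom : ∀ j, ∑ i ∈ Finset.range j, q ^ i ≤ 16 / 13 := by
    intro j
    have h1 : ∑ i ∈ Finset.range j, q ^ i ≤ (1 - q)⁻¹ := by
      have hs := summable_geometric_of_lt_one hq0 (by linarith)
      have ht := tsum_geometric_of_lt_one hq0 (by linarith)
      rw [← ht]
      exact hs.sum_le_tsum _ (fun i _ => by positivity)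
    refine h1.trans ?_
    rw [inv_le_comm₀ (by linarith) (by norm_num)]
    norm_num
    linarith
  have hq2 : 2 * m / k * q ^ 2 ≤ 1 / (16 * k) := by
    rw [div_mul_eq_mul_div, div_le_div_iff₀ (by positivity) (by positivity)]
    nlinarith
  have hstep : ∀ j, j + 1 ≤ k → (∀ i ≤ j, ‖E i‖ ≤ 2) → ‖E (j + 1) - E j‖ ≤ 1 / (2 * k) := by
    intro j hj hle
    rw [hrec j, Finset.sum_range_succ']
    have h0 : (-1 : ℂ) ^ 0 * ((j.factorial : ℂ) / ((j - 0).factorial : ℂ)) * E (j - 0) *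
        (p (0 + 1) / a ^ (0 + 1)) = E j := by
      have h5 : (j.factorial : ℂ) ≠ 0 := by exact_mod_cast (Nat.factorial_pos j).ne'
      rw [Nat.sub_zero, zero_add, hp1, pow_zero, pow_one, div_self ha0, div_self h5]
      ring
    rw [h0, add_sub_cancel_right]
    have hterm : ∀ i ∈ Finset.range j, ‖(-1 : ℂ) ^ (i + 1) *
        ((j.factorial : ℂ) / ((j - (i + 1)).factorial : ℂ)) *
        E (j - (i + 1)) * (p (i + 1 + 1) / a ^ (i + 1 + 1))‖ ≤ (2 * m / k * q ^ 2) * q ^ i := by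
      intro i hi
      have hi' : i + 1 ≤ j := by
        have := Finset.mem_range.1 hi
        omega
      have hnf : ‖(j.factorial : ℂ) / ((j - (i + 1)).factorial : ℂ)‖ =
          (j.factorial : ℝ) / ((j - (i + 1)).factorial : ℝ) := by
        rw [norm_div, Complex.norm_natCast, Complex.norm_natCast]
      rw [norm_mul, norm_mul, norm_mul, norm_pow, norm_neg, norm_one, one_pow, one_mul,
        norm_div (p _), norm_pow, hnf]
      have b1 : (j.factorial : ℝ) / ((j - (i + 1)).factorial : ℝ) ≤ (k : ℝ) ^ (i + 1) :=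
        eka_fact hi' (by omega)
      have b2 : ‖E (j - (i + 1))‖ ≤ 2 := hle _ (by omega)
      have b3 : ‖p (i + 1 + 1)‖ / ‖a‖ ^ (i + 1 + 1) ≤
          b ^ (i + 1 + 1) * m / ‖a‖ ^ (i + 1 + 1) := by
        have := hpb (i + 1 + 1)
        gcongr
      calc (j.factorial : ℝ) / ((j - (i + 1)).factorial : ℝ) * ‖E (j - (i + 1))‖ *
            (‖p (i + 1 + 1)‖ / ‖a‖ ^ (i + 1 + 1))
          ≤ (k : ℝ) ^ (i + 1) * 2 * (b ^ (i + 1 + 1) * m / ‖a‖ ^ (i + 1 + 1)) := by gcongr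
        _ = (2 * m / k * q ^ 2) * q ^ i := by
            have hk0 : (k : ℝ) ≠ 0 := by linarith
            have hab0 : ‖a‖ ≠ 0 := hapos.ne'
            have hqq : 2 * m / k * q ^ 2 * q ^ i = 2 * m / k * q ^ (i + 1 + 1) := by
              rw [mul_assoc, ← pow_add, add_comm 2 i]
            rw [hqq, hq, div_pow, mul_pow, pow_succ (k : ℝ) (i + 1)]
            field_simp
    calc ‖∑ i ∈ Finset.range j, (-1 : ℂ) ^ (i + 1) *
          ((j.factorial : ℂ) / ((j - (i + 1)).factorial : ℂ)) *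
          E (j - (i + 1)) * (p (i + 1 + 1) / a ^ (i + 1 + 1))‖
        ≤ ∑ i ∈ Finset.range j, (2 * m / k * q ^ 2) * q ^ i :=
          (norm_sum_le _ _).trans (Finset.sum_le_sum hterm)
      _ = (2 * m / k * q ^ 2) * ∑ i ∈ Finset.range j, q ^ i := by rw [Finset.mul_sum]
      _ ≤ (1 / (16 * k)) * (16 / 13) := by
          have := hgeom j
          gcongr
      _ ≤ 1 / (2 * k) := by
          rw [div_mul_div_comm, div_le_div_iff₀ (by positivity) (by positivity)]
          nlinarith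
  have hmain : ∀ j ≤ k, ‖E j - 1‖ ≤ j / (2 * k) := by
    intro j
    induction j using Nat.strong_induction_on with
    | _ j ih =>
      intro hj
      rcases Nat.eq_zero_or_pos j with h0 | h0
      · rw [h0, hE0]
        simp
      · obtain ⟨l, rfl⟩ : ∃ l, j = l + 1 := ⟨j - 1, by omega⟩
        have hbd : ∀ i ≤ l, ‖E i‖ ≤ 2 := by
          intro i hi
          have h1 := ih i (by omega) (by omega)
          have h2 : (i : ℝ) / (2 * k) ≤ 1 := by
            rw [div_le_one (by positivity)]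
            have : (i : ℝ) ≤ k := by exact_mod_cast (by omega : i ≤ k)
            linarith
          have h3 : ‖E i‖ ≤ ‖E i - 1‖ + ‖(1 : ℂ)‖ := by
            have := norm_add_le (E i - 1) 1
            rwa [sub_add_cancel] at this
          rw [norm_one] at h3
          linarith
        have h1 := hstep l hj hbd
        have h2 := ih l (by omega) (by omega)
        have h4 : ‖E (l + 1) - 1‖ ≤ ‖E (l + 1) - E l‖ + ‖E l - 1‖ := by
          have := norm_add_le (E (l + 1) - E l) (E l - 1)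
          rwa [sub_add_sub_cancel] at this
        have h5 : ((l + 1 : ℕ) : ℝ) / (2 * k) = 1 / (2 * k) + l / (2 * k) := by
          push_cast
          ring
        rw [h5]
        linarith
  have hfin := hmain k le_rfl
  have h1 : (k : ℝ) / (2 * k) = 1 / 2 := by
    field_simp
  rw [h1] at hfin
  have h2 : 1 / 2 ≤ ‖E k‖ := by
    have h4 : ‖(1 : ℂ)‖ ≤ ‖E k‖ + ‖E k - 1‖ := by
      have := norm_sub_le (E k) (E k - 1)
      rwa [sub_sub_cancel] at this
    rw [norm_one] at h4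
    linarith
  have h3' : ‖E k‖ = (k.factorial : ℝ) * ‖e k‖ / ‖a‖ ^ k := by
    simp only [hE]
    rw [norm_div, norm_mul, norm_pow, Complex.norm_natCast]
  rw [h3', le_div_iff₀ (by positivity)] at h2
  rw [div_le_iff₀ (by positivity)]
  have h6 : e k = ∑ s ∈ P.powersetCard k, ∏ i ∈ s, x i := by rw [he]
  rw [← h6]
  linarith

end H57.GP
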