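import Pool.Agent.H57.GP.Eka
import Pool.Agent.H57.GP.Dua
import Pool.Agent.H57.LI.Exc

/-!
# [H57 GP EXA] The number of exceptional members at one point, complex values (a copy of `exc1` of H57/LI/Exc, 80-120 lines)

Let `M = x^k`, `c s = 1` if `s ⊆ p.P x` and `s.card = k`, else `0` (such an `s` is in `p.SF M`: `exc_sub`), `a j s = ∏ i ∈ s, lam j i`, `T = p.SF M`.
Off-diagonal: `∏ lam j * conj (∏ lam j') = ∏ (lam j * conj (lam j'))` (`map_prod`), so `ho` with `Q = D M^(1-δ)`. Diagonal: `‖∏ lam j‖² ≤ (b²)^(card s)` and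
`sfk` / `sfk_card` of `H57/LI/Sfk` with `k = b²`: `∑_{s ∈ SF M} (b²)^(card s) ≤ M (C log^n M)^(b²)` (see how `ls` in `H57/LI/LS` does it for `9 = 3²`).
`gra`, `dua`: `∑ j, ‖∑ s, c s * a j s‖² ≤ (M (C log^n M)^(b²) + card J * D M^(1-δ)) * ∑ ‖c s‖²`, `∑ ‖c s‖² = choose(m, k) ≤ m^k / k!` (`Nat.choose_le_pow_div`),
`m = card (p.P x) ≤ 2 n x` (`exc_card`). By `eka` every member has
`‖∑ c s * a j s‖² ≥ (‖S1‖^k / (2 k!))² ≥ t^(2k) / (4 k!²)` (the condition of `eka`: `32 b² k² m ≤ 32 b² k² (2 n x) ≤ t²`).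
-/

set_option autoImplicit false

open scoped Classical ComplexConjugate
open H57.LI

noncomputable section

namespace H57.GP

theorem exa {ι : Type} (p : Pr ι) (b : ℕ) (hb : 1 ≤ b) {J : Type} [Fintype J] (lam : J → ι → ℂ)
    (h3 : ∀ j i, ‖lam j i‖ ≤ b) (D δ : ℝ) (hD : 0 ≤ D)
    (hc : ∀ j j', j ≠ j' → ∀ Y : ℝ, 1 ≤ Y →
      ‖∑ s ∈ p.SF Y, ∏ i ∈ s, (lam j i * conj (lam j' i))‖ ≤ D * Y ^ (1 - δ))
    (x : ℝ) (hx : 2 ≤ x) (k : ℕ) (hk : 1 ≤ k) (t : ℝ) (ht : 0 ≤ t)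
    (hj : ∀ j, t ≤ ‖∑ i ∈ p.P x, lam j i‖)
    (h : 32 * (b : ℝ) ^ 2 * (k : ℝ) ^ 2 * (2 * p.n * x) ≤ t ^ 2) :
    (Fintype.card J : ℝ) * (t ^ (2 * k) / (4 * (k.factorial : ℝ) ^ 2)) ≤
      (x ^ k * (p.C * Real.log (x ^ k) ^ p.n) ^ (b ^ 2) +
        Fintype.card J * (D * (x ^ k) ^ (1 - δ))) * ((2 * p.n * x) ^ k / k.factorial) := by
  classical
  have hx1 : (1 : ℝ) ≤ x := by linarith
  have hb1 : (1 : ℝ) ≤ b := by exact_mod_cast hb
  have hM : 2 ≤ x ^ k := by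
    calc (2 : ℝ) ≤ x := hx
      _ = x ^ 1 := (pow_one x).symm
      _ ≤ x ^ k := pow_le_pow_right₀ hx1 hk
  have hM0 : 0 < x ^ k := by linarith
  have hlog : 0 ≤ Real.log (x ^ k) := Real.log_nonneg (by linarith)
  have hC : 0 ≤ p.C := by linarith [p.C1]
  obtain ⟨c, hcdef⟩ : ∃ c : Finset ι → ℂ, c = fun s => if s ∈ (p.P x).powersetCard k then 1 else 0 :=
    ⟨_, rfl⟩
  have hd : ∀ j, ∑ s ∈ p.SF (x ^ k), ‖∏ i ∈ s, lam j i‖ ^ 2 ≤
      x ^ k * (p.C * Real.log (x ^ k) ^ p.n) ^ (b ^ 2) := by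
    intro j
    refine le_trans (Finset.sum_le_sum fun s _ => ?_) (p.sfk_card (b ^ 2) (x ^ k) hM)
    have h1 : ‖∏ i ∈ s, lam j i‖ ≤ (b : ℝ) ^ s.card := by
      rw [norm_prod, ← Finset.prod_const]
      exact Finset.prod_le_prod (fun _ _ => norm_nonneg _) fun i _ => h3 j i
    calc ‖∏ i ∈ s, lam j i‖ ^ 2 ≤ ((b : ℝ) ^ s.card) ^ 2 := pow_le_pow_left₀ (norm_nonneg _) h1 2
      _ = ((b ^ 2 : ℕ) : ℝ) ^ s.card := by
        push_cast
        rw [← pow_mul, ← pow_mul, mul_comm]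
  have ho : ∀ j j', j ≠ j' → ‖∑ s ∈ p.SF (x ^ k), (∏ i ∈ s, lam j i) * conj (∏ i ∈ s, lam j' i)‖ ≤
      D * (x ^ k) ^ (1 - δ) := by
    intro j j' hjj
    refine le_trans (le_of_eq ?_) (hc j j' hjj (x ^ k) (by linarith))
    congr 1
    refine Finset.sum_congr rfl fun s _ => ?_
    rw [map_prod, Finset.prod_mul_distrib]
  have hQ : 0 ≤ D * (x ^ k) ^ (1 - δ) := by positivity
  have hls := dua (p.SF (x ^ k)) (fun j s => ∏ i ∈ s, lam j i)
    (x ^ k * (p.C * Real.log (x ^ k) ^ p.n) ^ (b ^ 2) + Fintype.card J * (D * (x ^ k) ^ (1 - δ)))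
    (by positivity)
    (fun y => gra (p.SF (x ^ k)) (fun j s => ∏ i ∈ s, lam j i) _ _ hQ hd ho y) c
  have hsub : (p.P x).powersetCard k ⊆ p.SF (x ^ k) := fun s hs => exc_sub p (by linarith) hs
  have hsum : ∀ f : Finset ι → ℂ, ∑ s ∈ p.SF (x ^ k), c s * f s =
      ∑ s ∈ (p.P x).powersetCard k, f s := by
    intro f
    rw [← Finset.sum_subset hsub (f := fun s => c s * f s)]
    · apply Finset.sum_congr rfl
      intro s hs
      simp only [hcdef]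
      rw [if_pos hs, one_mul]
    · intro s _ hs
      simp only [hcdef]
      rw [if_neg hs, zero_mul]
  have hc2 : ∑ s ∈ p.SF (x ^ k), ‖c s‖ ^ 2 ≤ (2 * p.n * x) ^ k / k.factorial := by
    have h1 : ∑ s ∈ p.SF (x ^ k), ‖c s‖ ^ 2 = ((p.P x).card.choose k : ℝ) := by
      rw [← Finset.sum_subset hsub (f := fun s => ‖c s‖ ^ 2)]
      · have h2 : ∀ s ∈ (p.P x).powersetCard k, ‖c s‖ ^ 2 = 1 := by
          intro s hs
          simp only [hcdef]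
          rw [if_pos hs, norm_one, one_pow]
        rw [Finset.sum_congr rfl h2, Finset.sum_const, Finset.card_powersetCard]
        simp
      · intro s _ hs
        simp only [hcdef]
        rw [if_neg hs, norm_zero]
        norm_num
    rw [h1]
    refine (Nat.choose_le_pow_div (α := ℝ) k (p.P x).card).trans ?_
    have h2 := exc_card p x hx1
    gcongr
  have hlow : ∀ j, t ^ (2 * k) / (4 * (k.factorial : ℝ) ^ 2) ≤
      ‖∑ s ∈ p.SF (x ^ k), c s * ∏ i ∈ s, lam j i‖ ^ 2 := by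
    intro j
    rw [hsum]
    have h1 := exc_card p x hx1
    have h2 : t ^ 2 ≤ ‖∑ i ∈ p.P x, lam j i‖ ^ 2 := pow_le_pow_left₀ ht (hj j) 2
    have h4 := eka (p.P x) (lam j) b hb1 (h3 j) k hk (by
      refine le_trans ?_ (h.trans h2)
      gcongr)
    have h5 : t ^ k / (2 * (k.factorial : ℝ)) ≤
        ‖∑ s ∈ (p.P x).powersetCard k, ∏ i ∈ s, lam j i‖ := by
      refine le_trans ?_ h4
      have := hj j
      gcongr
    have h6 : t ^ (2 * k) / (4 * (k.factorial : ℝ) ^ 2) = (t ^ k / (2 * (k.factorial : ℝ))) ^ 2 := by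
      rw [div_pow, mul_pow, ← pow_mul, mul_comm k 2]
      norm_num
    rw [h6]
    exact pow_le_pow_left₀ (by positivity) h5 2
  calc (Fintype.card J : ℝ) * (t ^ (2 * k) / (4 * (k.factorial : ℝ) ^ 2))
      = ∑ _j : J, t ^ (2 * k) / (4 * (k.factorial : ℝ) ^ 2) := by
        rw [Finset.sum_const, nsmul_eq_mul, Finset.card_univ]
    _ ≤ ∑ j, ‖∑ s ∈ p.SF (x ^ k), c s * ∏ i ∈ s, lam j i‖ ^ 2 :=
        Finset.sum_le_sum fun j _ => hlow j
    _ ≤ _ := hls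
    _ ≤ _ := by gcongr

end H57.GP
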