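import Pool.Agent.H57.GP.Def

/-!
# [H57 GP FLD] the field of an open subgroup (60-100 lines)

`hcl`: `Γ'` contains the open subgroup `M.fixingSubgroup` (`IntermediateField.fixingSubgroup_isOpen` for `M` finite dimensional), so it is open
(`Subgroup.isOpen_mono`) and closed (`Subgroup.isClosed_of_isOpen`). `E = IntermediateField.fixedField Γ'`;
`InfiniteGalois.fixingSubgroup_fixedField ⟨Γ', closed⟩` gives `E.fixingSubgroup = Γ'`. `E ≤ M`: `x ∈ E` is fixed by `Γ' ≥ M.fixingSubgroup`, and
`InfiniteGalois.fixedField_fixingSubgroup M` (`QBar/K` is Galois: `IsAlgClosure` of a field of characteristic zero). So `E` is finite dimensional.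
`finrank K E = Γ'.index`: `IntermediateField.finrank_eq_fixingSubgroup_index` (or: number of the embeddings `E →ₐ[K] QBar`
(`Field.finSepDegree`, `AlgHom.card`), all of the form `ac τ E.val` (`emb_tr`, `H57/SL/Dic`), `ac τ E.val = ac τ' E.val` iff `τ⁻¹ τ' ∈ Γ'`
(see `drb_conj` in `H57/SL/Drb`)).
`fld_emb`: the last statement: `τ ↦ ac τ E.val` is a bijection of `Gal ⧸ Γ'` with the embeddings.
-/

set_option autoImplicit false

open scoped NumberField Pointwise Classical
open IsDedekindDomain H63.MA NumberField H36.QA H57.LI H57.LC H67.SX H38.ML H57.SL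

noncomputable section

namespace H57.GP

theorem fld_emb {K : IntermediateField ℚ QBar} [NumberField K] (E : IntermediateField K QBar)
    (τ τ' : Gal(QBar/K)) : ac τ E.val = ac τ' E.val ↔ τ⁻¹ * τ' ∈ E.fixingSubgroup := by
  rw [IntermediateField.mem_fixingSubgroup_iff]
  constructor
  · intro h x hx
    have h1 : τ x = τ' x := DFunLike.congr_fun h (⟨x, hx⟩ : E)
    rw [AlgEquiv.mul_apply, ← h1]
    exact τ.symm_apply_apply x
  · intro h
    refine AlgHom.ext fun x => ?_
    have h1 := h x.1 x.2
    rw [AlgEquiv.mul_apply] at h1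
    have h2 : τ (τ⁻¹ (τ' x.1)) = τ x.1 := congrArg τ h1
    have h3 : τ (τ⁻¹ (τ' x.1)) = τ' x.1 := τ.apply_symm_apply _
    rw [h3] at h2
    exact h2.symm

theorem fld {K : IntermediateField ℚ QBar} [NumberField K] (Γ' : Subgroup Gal(QBar/K))
    (M : IntermediateField K QBar) (hM : FiniteDimensional K M) (h : M.fixingSubgroup ≤ Γ') :
    ∃ E : IntermediateField K QBar, FiniteDimensional K E ∧ E.fixingSubgroup = Γ' ∧
      Module.finrank K E = Γ'.index ∧ Γ'.index ≠ 0 := by
  have hn : Normal K QBar := IsAlgClosure.normal K QBar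
  have hg : IsGalois K QBar := ⟨⟩
  have ho : IsOpen (Γ' : Set Gal(QBar/K)) := Subgroup.isOpen_mono h M.fixingSubgroup_isOpen
  have hcl : IsClosed (Γ' : Set Gal(QBar/K)) := Subgroup.isClosed_of_isOpen Γ' ho
  have hE : (IntermediateField.fixedField Γ').fixingSubgroup = Γ' :=
    InfiniteGalois.fixingSubgroup_fixedField ⟨Γ', hcl⟩
  have hfd : FiniteDimensional K (IntermediateField.fixedField Γ') := by
    refine (InfiniteGalois.isOpen_iff_finite _).1 ?_
    rw [hE]
    exact ho
  have hidx : Module.finrank K (IntermediateField.fixedField Γ') = Γ'.index := by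
    rw [IntermediateField.finrank_eq_fixingSubgroup_index, hE]
  exact ⟨_, hfd, hE, hidx, by rw [← hidx]; exact Module.finrank_pos.ne'⟩

end H57.GP
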