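import Pool.Agent.H57.GP.Def
import Pool.Agent.H57.SL.Dth
import Pool.Agent.H63.MA.GKus
import Pool.Agent.H63.MA.GLoc

/-!
# [H57 GP KMP] the Kummer element of a character of order `p` (copy of H57/SL/Kmd for `p`)
-/

set_option autoImplicit false

open scoped NumberField Classical
open IsDedekindDomain H63.MA NumberField H36.QA H57.LI H57.LC H67.SX H38.ML H57.SL

noncomputable section

namespace H57.GP

private theorem kmp_cl {K : IntermediateField ℚ QBar} (E : IntermediateField K QBar) :
    IsAlgClosure E QBar where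
  isAlgClosed := inferInstance
  isAlgebraic := Algebra.IsAlgebraic.tower_top (K := K) E

private theorem kmp_mem {K : IntermediateField ℚ QBar} (E : IntermediateField K QBar)
    (σ : Gal(QBar/E)) : (σ.restrictScalars K : Gal(QBar/K)) ∈ E.fixingSubgroup := by
  rw [IntermediateField.mem_fixingSubgroup_iff]
  intro x hx
  exact σ.commutes ⟨x, hx⟩

/-- the character of the absolute Galois group of `E` -/
private def kmp_ch {p : ℕ} {K : IntermediateField ℚ QBar} [NumberField K] (E : IntermediateField K QBar)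
    (θ : Gal(QBar/K) → ZMod p)
    (h : ∀ σ ∈ E.fixingSubgroup, ∀ τ ∈ E.fixingSubgroup, θ (σ * τ) = θ σ + θ τ) :
    Gal(QBar/E) →* Multiplicative (ZMod p) where
  toFun σ := Multiplicative.ofAdd (θ (σ.restrictScalars K))
  map_one' := by
    have h1 := h 1 (one_mem _) 1 (one_mem _)
    rw [mul_one] at h1
    have h2 : θ 1 = 0 := by
      have h3 : θ 1 + θ 1 = θ 1 + 0 := by rw [← h1, add_zero]
      exact add_left_cancel h3
    have h3 : ((1 : Gal(QBar/E)).restrictScalars K : Gal(QBar/K)) = 1 := rfl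
    rw [h3, h2]
    rfl
  map_mul' σ τ := by
    have h1 : ((σ * τ).restrictScalars K : Gal(QBar/K)) = σ.restrictScalars K * τ.restrictScalars K := rfl
    rw [h1, h _ (kmp_mem E σ) _ (kmp_mem E τ)]
    rfl

private theorem kmp_ft {p : ℕ} {K : IntermediateField ℚ QBar} [NumberField K]
    (E : IntermediateField K QBar) [NumberField E] (θ : Gal(QBar/K) → ZMod p)
    (h : ∀ σ ∈ E.fixingSubgroup, ∀ τ ∈ E.fixingSubgroup, θ (σ * τ) = θ σ + θ τ)
    (ft : ∃ M : IntermediateField K QBar, FiniteDimensional K M ∧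
      ∀ σ ∈ M.fixingSubgroup, σ ∈ E.fixingSubgroup ∧ θ σ = 0) :
    H38.ML.FT (kmp_ch E θ h) := by
  obtain ⟨M, hM, hM'⟩ := ft
  have hE : FiniteDimensional K E := Module.Finite.of_restrictScalars_finite ℚ K E
  have hs : FiniteDimensional K (E ⊔ M : IntermediateField K QBar) :=
    IntermediateField.finiteDimensional_sup E M
  have hle : E ≤ E ⊔ M := le_sup_left
  have hs' : FiniteDimensional K (IntermediateField.extendScalars hle) := hs
  refine ⟨IntermediateField.extendScalars hle, ?_, ?_⟩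
  · exact Module.Finite.of_restrictScalars_finite K E (IntermediateField.extendScalars hle)
  · intro σ hσ
    rw [MonoidHom.mem_ker]
    have h1 : (σ.restrictScalars K : Gal(QBar/K)) ∈ M.fixingSubgroup := by
      rw [IntermediateField.mem_fixingSubgroup_iff]
      intro x hx
      exact (IntermediateField.mem_fixingSubgroup_iff _ _).1 hσ x
        ((le_sup_right : M ≤ E ⊔ M) hx)
    show Multiplicative.ofAdd (θ (σ.restrictScalars K)) = 1
    rw [(hM' _ h1).2]
    rfl

theorem kmp {p : ℕ} (hp : p.Prime) {K : IntermediateField ℚ QBar} [NumberField K] {ζ : K}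
    (hζ : IsPrimitiveRoot ζ p) (E : IntermediateField K QBar) [NumberField E]
    (θ : Gal(QBar/K) → ZMod p) (B : Finset (Pl K)) (h : Th p E θ B) :
    ∃ δ : (↥E)ˣ, (∀ (σ : Gal(QBar/K)) (hσ : σ ∈ E.fixingSubgroup),
      kk p (algebraMap K E ζ) δ (sE E σ hσ) = θ σ) ∧
    ∀ w : Pl E, ¬ Above p w → (∀ v ∈ B, ¬ Over w v) → ((ord w δ : ℤ) : ZMod p) = 0 := by
  have hcl : IsAlgClosure E QBar := kmp_cl E
  have hζE : IsPrimitiveRoot (algebraMap K E ζ) p := hζ.map_of_injective (algebraMap K E).injective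
  obtain ⟨δ, hδ⟩ := kc_all (Ω := QBar) hp hζE (kmp_ch E θ h.mul) (kmp_ft E θ h.mul h.ft)
  have hk : ∀ τ : Gal(QBar/E), kk p (algebraMap K E ζ) δ τ = θ (τ.restrictScalars K) := by
    intro τ
    unfold kk
    rw [← hδ]
    rfl
  refine ⟨δ, ?_, ?_⟩
  · intro σ hσ
    rw [hk]
    congr 1
  · intro w hw3 hwB
    obtain ⟨l, hl⟩ := exists_below (K := K) w
    have hlB : l ∉ B := fun hb => hwB l hb hl
    have hl3 : ¬ Above p l := by
      intro h3
      apply hw3
      unfold Above at h3 ⊢
      rw [← (show w.asIdeal.comap (algebraMap (𝓞 K) (𝓞 E)) = l.asIdeal from hl), Ideal.mem_comap,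
        map_natCast] at h3
      exact h3
    obtain ⟨π, hπ⟩ := exists_unif w
    obtain ⟨L⟩ := exists_LD QBar hp hζE hw3 hπ
    have hund : L.P.under (𝓞 K) = l.asIdeal := by
      rw [← (show w.asIdeal.comap (algebraMap (𝓞 K) (𝓞 E)) = l.asIdeal from hl), ← L.under]
      ext x
      exact Iff.rfl
    have h1 := (h.unr l hl3 hlB L.P L.prime hund (L.t.restrictScalars K) (fun x => L.ht x)).2
    rw [← ld_kk_t hp hζE hw3 hπ L δ, hk, h1]

end H57.GP
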