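import Pool.Agent.H57.GP.Tel

/-!
# H57 GP REX: functions on groups of exponent p are combinations of characters of cyclic subgroups

* `rex_ix`: `Raw` from any finite index set.
* `raw_exp`: on a group of exponent `p` with at most `b` elements every function of norm at most `c` is `Raw p (c * b * p)`.
-/

set_option autoImplicit false

open scoped NumberField Pointwise Classical
open IsDedekindDomain H63.MA NumberField H36.QA H57.LI H57.LC H1.LS4 H67.SX H38.ML H57.SL H57.AN

noncomputable section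

namespace H57.GP

variable {G : Type} [Group G]

theorem rex_ix {p : ℕ} {ι : Type} [Fintype ι] {N : ℕ} (h : Fintype.card ι ≤ N) (c : ι → ℂ)
    (H : ι → Subgroup G) (ψ : ι → G → ZMod p) (hL : ∀ j, Lc (H j) (ψ j)) (hc : ∀ j, ‖c j‖ ≤ N)
    {f : G → ℂ} (hf : ∀ y, f y = ∑ i, c i * th (H i) (ψ i) y) : Raw p N f := by
  obtain ⟨c', H', ψ', h1, h2, -, h4⟩ := tel_pad h c H ψ hL hc
  exact ⟨c', H', ψ', h1, h2, fun y => (hf y).trans (h4 y)⟩

/-- the logarithm to the base `x` -/
def xs (p : ℕ) (x y : G) : ZMod p := if h : ∃ k : ℕ, x ^ k = y then (h.choose : ZMod p) else 0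

theorem xs_pow {p : ℕ} (hp : p.Prime) {x : G} (hx : x ≠ 1) (hxp : x ^ p = 1) (k : ℕ) :
    xs p x (x ^ k) = k := by
  have : Fact p.Prime := ⟨hp⟩
  have h : ∃ l : ℕ, x ^ l = x ^ k := ⟨k, rfl⟩
  unfold xs
  rw [dif_pos h]
  have h1 : x ^ h.choose = x ^ k := h.choose_spec
  have h2 : orderOf x = p := orderOf_eq_prime hxp hx
  rw [pow_eq_pow_iff_modEq, h2] at h1
  exact (ZMod.natCast_eq_natCast_iff _ _ _).2 h1

theorem rex_zp {p : ℕ} (hp : p.Prime) {x : G} (hxp : x ^ p = 1) {y : G}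
    (hy : y ∈ Subgroup.zpowers x) : ∃ k : ℕ, y = x ^ k := by
  have h : IsOfFinOrder x := isOfFinOrder_iff_pow_eq_one.2 ⟨p, hp.pos, hxp⟩
  obtain ⟨k, hk⟩ := (h.mem_powers_iff_mem_zpowers).2 hy
  exact ⟨k, hk.symm⟩

theorem rex_lc {p : ℕ} (hp : p.Prime) {x : G} (hx : x ≠ 1) (hxp : x ^ p = 1) (j : ZMod p) :
    Lc (Subgroup.zpowers x) (fun y => j * xs p x y) := by
  intro a ha b hb
  obtain ⟨k, rfl⟩ := rex_zp hp hxp ha
  obtain ⟨l, rfl⟩ := rex_zp hp hxp hb
  show j * xs p x (x ^ k * x ^ l) = j * xs p x (x ^ k) + j * xs p x (x ^ l)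
  rw [← pow_add, xs_pow hp hx hxp, xs_pow hp hx hxp, xs_pow hp hx hxp]
  push_cast
  ring

theorem rex_del {p : ℕ} [NeZero p] (hp : p.Prime) {x : G} (hx : x ≠ 1) (hxp : x ^ p = 1) (y : G) :
    ∑ j : ZMod p, ((p : ℂ)⁻¹ * ep p (-j)) * th (Subgroup.zpowers x) (fun y => j * xs p x y) y =
      if x = y then 1 else 0 := by
  have : Fact p.Prime := ⟨hp⟩
  by_cases hy : y ∈ Subgroup.zpowers x
  · have h1 : ∀ j : ZMod p, ((p : ℂ)⁻¹ * ep p (-j)) *
        th (Subgroup.zpowers x) (fun y => j * xs p x y) y =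
        (p : ℂ)⁻¹ * ep p (j * (xs p x y - 1)) := by
      intro j
      unfold th
      rw [if_pos hy, mul_assoc, ← ep_add hp]
      congr 2
      ring
    rw [Finset.sum_congr rfl fun j _ => h1 j, ← Finset.mul_sum, ep_sum hp]
    obtain ⟨k, rfl⟩ := rex_zp hp hxp hy
    rw [xs_pow hp hx hxp]
    have h2 : ((k : ZMod p) - 1 = 0) ↔ x = x ^ k := by
      rw [sub_eq_zero]
      have h3 : (x = x ^ k) ↔ x ^ k = x ^ 1 := by
        rw [pow_one]
        exact ⟨fun h => h.symm, fun h => h.symm⟩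
      rw [h3, pow_eq_pow_iff_modEq, orderOf_eq_prime hxp hx, ← ZMod.natCast_eq_natCast_iff,
        Nat.cast_one]
    by_cases h4 : x = x ^ k
    · rw [if_pos (h2.2 h4), if_pos h4]
      exact inv_mul_cancel₀ (Nat.cast_ne_zero.2 hp.ne_zero)
    · rw [if_neg (fun h => h4 (h2.1 h)), if_neg h4, mul_zero]
  · have h1 : x ≠ y := by
      rintro rfl
      exact hy (Subgroup.mem_zpowers x)
    rw [if_neg h1]
    refine Finset.sum_eq_zero fun j _ => ?_
    unfold th
    rw [if_neg hy, mul_zero]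

theorem raw_exp [Fintype G] {p : ℕ} (hp : p.Prime) (hG : ∀ y : G, y ^ p = 1) {b c : ℕ}
    (hb : Fintype.card G ≤ b) (hc : 1 ≤ c) {f : G → ℂ} (hf : ∀ y, ‖f y‖ ≤ c) :
    Raw p (c * b * p) f := by
  have : NeZero p := ⟨hp.ne_zero⟩
  have hb1 : 1 ≤ b := (Fintype.card_pos).trans_le hb
  have hcN : (c : ℝ) ≤ ((c * b * p : ℕ) : ℝ) := by
    exact_mod_cast (by
      calc c = c * 1 * 1 := by ring
        _ ≤ c * b * p := Nat.mul_le_mul (Nat.mul_le_mul le_rfl hb1) hp.one_lt.le)
  refine rex_ix (ι := G × ZMod p) ?_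
    (fun i => if i.1 = 1 then (if i.2 = 0 then f 1 else 0) else f i.1 * ((p : ℂ)⁻¹ * ep p (-i.2)))
    (fun i => if i.1 = 1 then ⊥ else Subgroup.zpowers i.1)
    (fun i => if i.1 = 1 then 0 else fun y => i.2 * xs p i.1 y) ?_ ?_ ?_
  · rw [Fintype.card_prod, ZMod.card]
    refine Nat.mul_le_mul ?_ le_rfl
    calc Fintype.card G ≤ b := hb
      _ = 1 * b := (one_mul b).symm
      _ ≤ c * b := Nat.mul_le_mul hc le_rfl
  · rintro ⟨x, j⟩
    by_cases hx : x = 1
    · simp only [if_pos hx]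
      intro a _ d _
      exact (add_zero _).symm
    · simp only [if_neg hx]
      exact rex_lc hp hx (hG x) j
  · rintro ⟨x, j⟩
    refine le_trans ?_ hcN
    by_cases hx : x = 1
    · simp only [if_pos hx]
      by_cases hj : j = 0
      · rw [if_pos hj]
        exact hf 1
      · rw [if_neg hj, norm_zero]
        exact Nat.cast_nonneg _
    · simp only [if_neg hx]
      rw [norm_mul, norm_mul, ep_norm, mul_one, norm_inv, Complex.norm_natCast]
      have h1 : ((p : ℝ))⁻¹ ≤ 1 := inv_le_one_of_one_le₀ (by exact_mod_cast hp.one_lt.le)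
      calc ‖f x‖ * (p : ℝ)⁻¹ ≤ c * 1 :=
            mul_le_mul (hf x) h1 (by positivity) (Nat.cast_nonneg _)
        _ = c := mul_one _
  · intro y
    rw [Fintype.sum_prod_type]
    have h1 : ∀ x : G, ∑ j : ZMod p,
        (if x = 1 then (if j = 0 then f 1 else 0) else f x * ((p : ℂ)⁻¹ * ep p (-j))) *
          th (if x = 1 then ⊥ else Subgroup.zpowers x)
            (if x = 1 then 0 else fun y => j * xs p x y) y = if x = y then f x else 0 := by
      intro x
      by_cases hx : x = 1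
      · subst hx
        simp only [if_true]
        rw [← Finset.sum_mul, Finset.sum_ite_eq' Finset.univ (0 : ZMod p), if_pos (Finset.mem_univ _)]
        unfold th
        by_cases hy : y = 1
        · rw [if_pos (Subgroup.mem_bot.2 hy), if_pos hy.symm, Pi.zero_apply, ep_zero, mul_one]
        · rw [if_neg (fun h => hy (Subgroup.mem_bot.1 h)), if_neg (fun h => hy h.symm), mul_zero]
      · simp only [if_neg hx]
        have h2 := rex_del hp hx (hG x) y
        have h3 : ∀ j : ZMod p, f x * ((p : ℂ)⁻¹ * ep p (-j)) *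
            th (Subgroup.zpowers x) (fun y => j * xs p x y) y =
            f x * (((p : ℂ)⁻¹ * ep p (-j)) * th (Subgroup.zpowers x) (fun y => j * xs p x y) y) :=
          fun j => mul_assoc _ _ _
        rw [Finset.sum_congr rfl fun j _ => h3 j, ← Finset.mul_sum, h2]
        by_cases h4 : x = y
        · rw [if_pos h4, if_pos h4, mul_one]
        · rw [if_neg h4, if_neg h4, mul_zero]
    rw [Finset.sum_congr rfl fun x _ => h1 x, Finset.sum_ite_eq' Finset.univ y, if_pos (Finset.mem_univ _)]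

end H57.GP
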