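import Pool.Agent.H57.GP.Gp
import Pool.Agent.H57.GP.Rex
import Pool.Agent.H57.GP.Wdf
import Pool.Agent.H77.WD.Fra

/-!
# H57 GP WRA: preparations for the black box `GPW`

* `wra_fr`: the values of an unramified homomorphism at two Frobenius elements over the same prime are conjugate in the image.
* `wra_ur`: unramified at one prime over `v` implies `Ur φ v`.
* `wra_dp`: there is a choice of primes over the primes of `K`.
-/

set_option autoImplicit false

open scoped NumberField Pointwise Classical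
open IsDedekindDomain H63.MA NumberField H36.QA H57.LI H57.LC H1.LS4 H67.SX H38.ML H57.SL H57.AN
  H38.BB H38.BG H57.PC H77.WD

noncomputable section

namespace H57.GP

variable {K : IntermediateField ℚ QBar} [NumberField K] {G : Type} [Group G]

theorem wra_mem {g : Gal(QBar/K)} {P P' : Ideal (𝓞 QBar)} (h : P' = g • P) (x : 𝓞 QBar) :
    g • x ∈ P' ↔ x ∈ P := by
  rw [h]
  exact Ideal.smul_mem_pointwise_smul_iff

theorem wra_ur {φ : Gal(QBar/K) →* G} {v : Pl K} {P : Ideal (𝓞 QBar)} (hP : P.IsPrime)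
    (hPv : P.under (𝓞 K) = v.asIdeal) (h : ∀ τ ∈ P.inertia Gal(QBar/K), φ τ = 1) : Ur φ v := by
  intro P' hP' hPv' τ hτ
  obtain ⟨g, hg⟩ := dic_tr (K := K) P P' hP hP' (hPv.trans hPv'.symm)
  have h1 : g⁻¹ * τ * g ∈ P.inertia Gal(QBar/K) := by
    intro x
    rw [Submodule.mem_toAddSubgroup, ← wra_mem hg, smul_sub, mul_assoc, mul_smul, smul_inv_smul,
      mul_smul]
    exact hτ (g • x)
  have h2 := h _ h1
  rw [map_mul, map_mul, map_inv, mul_assoc, inv_mul_eq_one] at h2
  have h3 : φ τ * φ g = 1 * φ g := by rw [one_mul]; exact h2.symm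
  exact mul_right_cancel h3

theorem wra_fr {φ : Gal(QBar/K) →* G} {v : Pl K} (hu : Ur φ v) {P P' : Ideal (𝓞 QBar)}
    (hP : P.IsPrime) (hP' : P'.IsPrime) (hPv : P.under (𝓞 K) = v.asIdeal)
    (hPv' : P'.under (𝓞 K) = v.asIdeal) {F F' : Gal(QBar/K)} (hF : ∀ x : 𝓞 QBar, F • x - x ^ nm v ∈ P)
    (hF' : ∀ x : 𝓞 QBar, F' • x - x ^ nm v ∈ P') : ∃ g : Gal(QBar/K), φ F' = φ g * φ F * (φ g)⁻¹ := by
  obtain ⟨g, hg⟩ := dic_tr (K := K) P P' hP hP' (hPv.trans hPv'.symm)
  refine ⟨g, ?_⟩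
  have h1 : ∀ x : 𝓞 QBar, (g * F * g⁻¹) • x - x ^ nm v ∈ P' := by
    intro x
    have h2 := (wra_mem hg _).2 (hF (g⁻¹ • x))
    rw [smul_sub, smul_pow', smul_inv_smul, ← mul_smul, ← mul_smul] at h2
    exact h2
  have h2 : F' * (g * F * g⁻¹)⁻¹ ∈ P'.inertia Gal(QBar/K) := by
    intro x
    have h3 := h1 ((g * F * g⁻¹)⁻¹ • x)
    have h4 := hF' ((g * F * g⁻¹)⁻¹ • x)
    rw [smul_inv_smul] at h3
    have h5 := P'.sub_mem h4 h3
    rw [sub_sub_sub_cancel_right, ← mul_smul] at h5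
    exact h5
  have h3 := hu P' hP' hPv' _ h2
  rw [map_mul, map_inv, mul_inv_eq_one] at h3
  rw [h3, map_mul, map_mul, map_inv]

theorem wra_dp : Nonempty (DP K QBar) := by
  have h : ∀ v : Pl K, ∃ P : Ideal (𝓞 QBar), P.IsPrime ∧ P.under (𝓞 K) = v.asIdeal := by
    intro v
    have hint : Algebra.IsIntegral (𝓞 K) (𝓞 QBar) := ⟨fun y => by
      have h1 : IsIntegral ℤ (y : QBar) := y.2
      have h2 : IsIntegral ℤ y := by
        have h3 : IsIntegral ℤ (algebraMap (𝓞 QBar) QBar y) := h1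
        exact (isIntegral_algebraMap_iff (FaithfulSMul.algebraMap_injective (𝓞 QBar) QBar)).1 h3
      exact h2.tower_top⟩
    have := v.isPrime
    have hinj : Function.Injective (algebraMap (𝓞 K) (𝓞 QBar)) := by
      intro x y hxy
      have h1 : algebraMap K QBar (x : K) = algebraMap K QBar (y : K) :=
        congrArg (fun z : 𝓞 QBar => (z : QBar)) hxy
      exact RingOfIntegers.ext ((algebraMap K QBar).injective h1)
    obtain ⟨P', -, hP', hP'w⟩ := Ideal.exists_ideal_over_prime_of_isIntegral (S := 𝓞 QBar)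
      v.asIdeal ⊥ (by
        rw [← RingHom.ker_eq_comap_bot, (RingHom.injective_iff_ker_eq_bot _).1 hinj]
        exact bot_le)
    exact ⟨P', hP', hP'w⟩
  exact ⟨⟨fun v => (h v).choose, fun v => (h v).choose_spec.1, fun v => (h v).choose_spec.2⟩⟩

/-- the primes whose norm is not a prime number -/
theorem wra_np {L : Type} [Field L] [NumberField L] {x : ℝ} :
    (((PB L x).filter fun w => ¬ (nm w).Prime).card : ℝ) ≤ Module.finrank ℚ L * √x := by
  have h1 : ((PB L x).filter fun w => ¬ (nm w).Prime).card ≤ Module.finrank ℚ L * (Finset.Icc 1 ⌊√x⌋₊).card := by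
    refine Finset.card_le_mul_card_image_of_maps_to (f := fun w => (nm w).minFac) ?_ _ ?_
    · intro w hw
      obtain ⟨hw1, hw2⟩ := Finset.mem_filter.1 hw
      rw [mem_PB] at hw1
      obtain ⟨h3, f, hf, h4⟩ := H57.LI.prk_pow w
      have hf2 : 2 ≤ f := by
        rcases Nat.lt_or_ge f 2 with h5 | h5
        · exfalso
          have h6 : f = 1 := by omega
          rw [h6, pow_one] at h4
          exact hw2 (h4 ▸ h3)
        · exact h5
      rw [Finset.mem_Icc]
      refine ⟨h3.pos, Nat.le_floor ?_⟩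
      apply Real.le_sqrt_of_sq_le
      refine le_trans ?_ hw1
      have h5 : (nm w).minFac ^ 2 ≤ nm w := by
        conv_rhs => rw [h4]
        exact Nat.pow_le_pow_right h3.pos hf2
      exact_mod_cast h5
    · intro ℓ _
      exact H57.LI.prk_fibre ℓ _ fun v hv => (Finset.mem_filter.1 hv).2
  rw [Nat.card_Icc, Nat.add_sub_cancel] at h1
  calc (((PB L x).filter fun w => ¬ (nm w).Prime).card : ℝ)
      ≤ ((Module.finrank ℚ L * ⌊√x⌋₊ : ℕ) : ℝ) := by exact_mod_cast h1
    _ = Module.finrank ℚ L * (⌊√x⌋₊ : ℝ) := by push_cast; rfl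
    _ ≤ _ := mul_le_mul_of_nonneg_left (Nat.floor_le (Real.sqrt_nonneg x)) (Nat.cast_nonneg _)

end H57.GP
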